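import Pool.Agent.Lib_helper5.ConesOdd

/-!
Period five: the palindromic cycle `(B; a, b, b, a)`.
-/

namespace Pool.Agent.Lib_helper5

open Finset (range)
open Pool.Agent.LibH4 Pool.Agent.LibH4.FA

namespace E5

/-- parameters of a cycle of length five -/
structure Par (a b B : ℕ) (m m' : ℤ) : Prop where
  ha : 1 ≤ a
  hb : 1 ≤ b
  hB : 1 ≤ B
  hm : 1 < m
  hm' : 1 < m'
  e1 : m' = 1 + B * a - m * (a : ℤ) ^ 2
  e2 : m' * (1 + (b : ℤ) ^ 2) = m + (2 * a * m - B) * b

/-- the first coefficients -/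
def P (m m' : ℤ) (k : ℕ) : ℤ :=
  match k % 5 with
  | 1 => 1
  | 3 => m'
  | 4 => m'
  | _ => m

/-- the middle coefficients -/
def R (a b B : ℕ) (m m' : ℤ) (k : ℕ) : ℤ :=
  match k % 5 with
  | 2 => 2 * a * m - B
  | 3 => 2 * b * m' - (2 * a * m - B)
  | 4 => 2 * a * m - B
  | _ => B

/-- the last coefficients -/
def S (m m' : ℤ) (k : ℕ) : ℤ :=
  match k % 5 with
  | 0 => 1
  | 2 => m'
  | 3 => m'
  | _ => m

/-- the multipliers -/
def c (a b B : ℕ) (k : ℕ) : ℕ :=
  match k % 5 with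
  | 0 => B
  | 2 => b
  | 3 => b
  | _ => a

variable {a b B : ℕ} {m m' : ℤ}

lemma S4 (h : Par a b B m m') :
    m = m' + (2 * b * m' - (2 * a * m - B)) * b - m' * (b : ℤ) ^ 2 := by
  have := h.e2
  linarith

lemma S3 (h : Par a b B m m') :
    m' = m + (2 * a * m - B) * b - m' * (b : ℤ) ^ 2 := by
  have := h.e2
  linarith

lemma S5 (h : Par a b B m m') :
    1 = m' + (2 * a * m - B) * a - m * (a : ℤ) ^ 2 := by
  have := h.e1
  linarith

theorem cyc (h : Par a b B m m') :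
    OddCyc m B 2 (P m m') (R a b B m m') (S m m') (c a b B) where
  hP k hk := by
    have hk' : k < 10 := hk
    clear hk
    interval_cases k <;> rfl
  hR k hk := by
    have hk' : k < 10 := hk
    clear hk
    interval_cases k <;> simp [R, S, c] <;> ring
  hS k hk := by
    have hk' : k < 10 := hk
    have s3 := S3 h
    have s4 := S4 h
    have s5 := S5 h
    have s2 := h.e1
    clear hk
    interval_cases k <;> simp only [P, R, S, c, Nat.reduceMod, Nat.reduceAdd] <;> linarith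
  P0 := rfl
  R0 := rfl
  S0 := rfl
  Spos k hk := by
    have h1 := h.hm
    have h2 := h.hm'
    unfold S
    split <;> omega
  Ppos0 := by
    have h1 := h.hm
    simp only [P, Nat.zero_mod]
    omega
  cpos k hk := by
    have h1 := h.ha
    have h2 := h.hb
    have h3 := h.hB
    unfold c
    split <;> omega
  Pm := rfl
  RB := rfl
  S1 := rfl
  perP k hk := by unfold P; rw [show k + (2 * 2 + 1) = k + 5 by ring, Nat.add_mod_right]
  perR k hk := by unfold R; rw [show k + (2 * 2 + 1) = k + 5 by ring, Nat.add_mod_right]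
  perS k hk := by unfold S; rw [show k + (2 * 2 + 1) = k + 5 by ring, Nat.add_mod_right]
  perc k hk := by unfold c; rw [show k + (2 * 2 + 1) = k + 5 by ring, Nat.add_mod_right]
  Pone i hi hi0 := by
    have h1 := h.hm
    have h2 := h.hm'
    have hi' : i < 5 := hi
    clear hi
    interval_cases i
    · omega
    all_goals simp only [P, Nat.reduceMod, Nat.reduceAdd, Nat.reduceMul]; omega

/-- **T5 for period five.** -/
theorem T5 (h : Par a b B m m') (hm2 : m % 2 = 1) (hB2 : B % 2 = 1)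
    [IsDomain (QuadraticAlgebra ℤ m (B : ℤ))]
    [UniqueFactorizationMonoid (QuadraticAlgebra ℤ m (B : ℤ))]
    {d : ℕ} (hd : (d : ℤ) = (B : ℤ) ^ 2 + 4 * m) (h8 : d % 8 = 5)
    (q l : ℕ) (hq : 0 < q) [Fact l.Prime] (hcop : Nat.Coprime q d) (hl6 : ¬ l ∣ 6)
    (hld : ¬ l ∣ d)
    (χ : ZMod q → ZMod l)
    (hodd : ∀ x, χ (-x) = - χ x) (hmul : ∀ x y, χ (x * y) = χ x * χ y)
    (hsum : ∑ u ∈ range q, (u : ZMod l) * χ (u : ZMod q) = 0) :
    (∑ r ∈ range q, ∑ s ∈ range q,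
      χ ((m * (r : ℤ) ^ 2 + B * r * s - 1 * (s : ℤ) ^ 2 : ℤ) : ZMod q)
        * (3 * ((bZ q r : ZMod l) * bZ q s) - (B : ZMod l) * b2Z q r))
    + (∑ r ∈ range q, ∑ s ∈ range q,
      χ ((1 * (r : ℤ) ^ 2 + B * r * s - m * (s : ℤ) ^ 2 : ℤ) : ZMod q)
        * (3 * ((bZ q r : ZMod l) * bZ q s) - (a : ZMod l) * b2Z q r))
    + (∑ r ∈ range q, ∑ s ∈ range q,
      χ ((m * (r : ℤ) ^ 2 + (2 * a * m - B) * r * s - m' * (s : ℤ) ^ 2 : ℤ) : ZMod q)
        * (3 * ((bZ q r : ZMod l) * bZ q s) - (b : ZMod l) * b2Z q r))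
    + (∑ r ∈ range q, ∑ s ∈ range q,
      χ ((m' * (r : ℤ) ^ 2 + (2 * b * m' - (2 * a * m - B)) * r * s - m' * (s : ℤ) ^ 2 : ℤ) : ZMod q)
        * (3 * ((bZ q r : ZMod l) * bZ q s) - (b : ZMod l) * b2Z q r))
    + (∑ r ∈ range q, ∑ s ∈ range q,
      χ ((m' * (r : ℤ) ^ 2 + (2 * a * m - B) * r * s - m * (s : ℤ) ^ 2 : ℤ) : ZMod q)
        * (3 * ((bZ q r : ZMod l) * bZ q s) - (a : ZMod l) * b2Z q r)) = 0 := by
  have hm0 : 0 < m := by have := h.hm; omega
  have key := odd_T5 m B hm0 hm2 (by exact_mod_cast hB2) (cyc h) hd h8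
    q l hq hcop hl6 hld χ hodd hmul hsum
  rw [← key]
  simp only [Nat.reduceMul, Nat.reduceAdd, Finset.sum_range_succ,
    Finset.sum_range_zero (M := ZMod l), zero_add, P, R, S, c, Nat.zero_mod, Nat.reduceMod]

/-- the form on an edge, away from the boundary -/
lemma edge_gt {P R S : ℤ} {n : ℕ} (hn : 0 < n) (hP : 0 < P) (hS : 0 < S)
    (hA : 0 < P + R * n - S * (n : ℤ) ^ 2) {x y : ℤ} (hy : 1 ≤ y) (hyx : y + 1 ≤ n * x) :
    S < P * x ^ 2 + R * x * y - S * y ^ 2 := by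
  have h1 := CG.form_pos hn hP hS hA (x := x) (y := y) (by linarith) (by linarith)
  have hx : 1 ≤ x := by
    have : (0 : ℤ) < n := by exact_mod_cast hn
    by_contra hcon
    push Not at hcon
    nlinarith
  have h2 : (1 : ℤ) ≤ y * (n * x - y) := by nlinarith
  have h3 : S ≤ S * (y * (n * x - y)) := by nlinarith
  have h4 : (1 : ℤ) ≤ x ^ 2 := by nlinarith
  linarith

/-- primes below `min m m'` are inert -/
theorem inert (h : Par a b B m m') 
    [IsDomain (QuadraticAlgebra ℤ m (B : ℤ))]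
    [UniqueFactorizationMonoid (QuadraticAlgebra ℤ m (B : ℤ))]
    {d : ℕ} (hd : (d : ℤ) = (B : ℤ) ^ 2 + 4 * m) (h8 : d % 8 = 5)
    (p : ℕ) (hp : p.Prime) (hp2 : p ≠ 2) (hpm : (p : ℤ) < m) (hpm' : (p : ℤ) < m') :
    jacobiSym d p = -1 := by
  by_contra hj
  have hm0 : 0 < m := by have := h.hm; omega
  have hm1 := h.hm
  have hm1' := h.hm'
  have hP0 := hp.two_le
  obtain ⟨k, hk, x, y, hx, hy, he⟩ := odd_inert m B hm0 (cyc h) hd h8 p hp hp2 hj
  have hC := (cyc h).toCycM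
  have hk5 : k < 5 := hk
  have hx' : (1 : ℤ) ≤ x := by exact_mod_cast hx
  rcases Nat.eq_zero_or_pos y with hy0 | hy0
  · subst hy0
    have he' : P m m' k * (x : ℤ) ^ 2 = p := by rw [← he]; push_cast; ring
    have hP := eq_of_prime_mul_sq hp he'
    clear hk
    interval_cases k <;> simp only [P, Nat.zero_mod, Nat.reduceMod] at hP <;> omega
  · have hy1 : (1 : ℤ) ≤ y := by exact_mod_cast hy0
    have hyc : (y : ℤ) + 1 ≤ c a b B k * x := by exact_mod_cast hy
    rcases Nat.eq_zero_or_pos k with hk0 | hk0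
    · subst hk0
      simp only [P, R, S, c, Nat.zero_mod] at he hyc
      have hxx : (1 : ℤ) ≤ (x : ℤ) ^ 2 := by nlinarith
      have h1 : m ≤ m * (x : ℤ) ^ 2 := by nlinarith
      have h2 : 0 ≤ (y : ℤ) * (B * x - y) := mul_nonneg (by linarith) (by linarith)
      nlinarith
    · have h1 := edge_gt (hC.cpos k (by omega)) (hC.toCyc.Ppos (by omega)) (hC.Spos k (by omega))
        (CG.hAend hC k (by omega)) hy1 hyc
      rw [he] at h1
      clear hk
      interval_cases k <;> simp only [S, Nat.reduceMod] at h1 <;> omega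

end E5

end Pool.Agent.Lib_helper5
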