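import Pool.Agent.Lib_helper5.EvenBL

/-!
Counting classes of associates by a cycle of odd length (fundamental unit of norm `-1`).
The cycle is given in doubled form, of length `2 J` with `J` odd.
-/

namespace Pool.Agent.Lib_helper5

open Finset (range)
open Pool.Agent.LibH4 Pool.Agent.LibH4.FA

namespace CG

variable {m B : ℤ} {P R S : ℕ → ℤ} {c : ℕ → ℕ}

section odd

variable (hm : 0 < m) (J : ℕ) (h : CycM m B (2 * J) P R S c) (hJ : 0 < J)
  (hPo : ∀ i < J, i ≠ 0 → P (1 + 2 * i) ≠ 1)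

include h hJ hPo in
/-- the only element of absolute norm one in the positive domain is `1` -/
lemma pos_one' (w : QuadraticAlgebra ℤ m B)
    (hw : w ∈ cone hm 1 1 (rho m B c (2 * J + 1))) (hN : w.norm.natAbs = 1) : w = 1 := by
  have e1 : 1 + 2 * J = 2 * J + 1 := by omega
  have hch := Gs_chain hm h 1 J (by omega) 1
  rw [e1, sg_one, rho_one] at hch
  obtain ⟨hfin, hcard⟩ := hch
  have hsum : ∑ i ∈ range J, (edgeSet (P (1 + 2 * i)) (R (1 + 2 * i)) (S (1 + 2 * i))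
        (c (1 + 2 * i)) 1).ncard = 1 := by
    rw [Finset.sum_eq_single_of_mem 0 (Finset.mem_range.2 hJ)]
    · rw [mul_zero, add_zero, edgeSet_one (h.cpos 1 (by omega)) (h.Ppos (by omega))
        (h.Spos 1 (by omega)) (hAend h 1 (by omega)), if_pos]
      · exact Set.ncard_singleton _
      · rw [h.hP 0 (by omega), h.S1]
    · intro i hi hi0
      have hi' := Finset.mem_range.1 hi
      rw [edgeSet_one (h.cpos _ (by omega)) (h.Ppos (by omega))
        (h.Spos _ (by omega)) (hAend h _ (by omega)), if_neg (hPo i hi' hi0)]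
      exact Set.ncard_empty _
  rw [hsum, Set.ncard_eq_one] at hcard
  obtain ⟨z, hz⟩ := hcard
  have m1 : w ∈ Gs hm 1 1 (rho m B c (2 * J + 1)) 1 := ⟨hw, hN⟩
  have hlt : sl hm 1 (rho m B c (2 * J + 1)) < sl hm 1 (1 : QuadraticAlgebra ℤ m B) := by
    have a1 := sl_chain hm h 3 (J - 1) (by omega)
    have a2 := sl_step hm h 1 (by omega)
    rw [show 3 + 2 * (J - 1) = 2 * J + 1 by omega] at a1
    have : sg 3 = 1 := by unfold sg; norm_num
    rw [this] at a1
    rw [sg_one, rho_one] at a2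
    linarith
  have m2 : (1 : QuadraticAlgebra ℤ m B) ∈ Gs hm 1 1 (rho m B c (2 * J + 1)) 1 := by
    refine ⟨⟨⟨?_, ?_⟩, hlt, le_rfl⟩, ?_⟩
    · simp
    · simp
    · simp
  rw [hz, Set.mem_singleton_iff] at m1 m2
  rw [m1, m2]

include h hJ hPo in
/-- uniqueness in the positive domain -/
lemma unique_aux' (β γ : QuadraticAlgebra ℤ m B)
    (hβ : β ∈ cone hm 1 1 (rho m B c (2 * J + 1))) (hγ : γ ∈ cone hm 1 1 (rho m B c (2 * J + 1)))
    (w : (QuadraticAlgebra ℤ m B)ˣ) (hw : β * w = γ) (hle : sl hm 1 γ ≤ sl hm 1 β) : β = γ := by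
  obtain ⟨⟨b1, b2⟩, b3, b4⟩ := hβ
  obtain ⟨⟨c1, c2⟩, c3, c4⟩ := hγ
  rw [one_mul] at b2 c2
  have e1 : s1 hm β * s1 hm (w : QuadraticAlgebra ℤ m B) = s1 hm γ := by rw [← map_mul, hw]
  have e2 : s2 hm β * s2 hm (w : QuadraticAlgebra ℤ m B) = s2 hm γ := by rw [← map_mul, hw]
  have hw1 : 0 < s1 hm (w : QuadraticAlgebra ℤ m B) := by
    rw [← e1] at c1
    exact (mul_pos_iff_of_pos_left b1).mp c1
  have hw2 : 0 < s2 hm (w : QuadraticAlgebra ℤ m B) := by
    rw [← e2] at c2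
    exact (mul_pos_iff_of_pos_left b2).mp c2
  have hsl : sl hm 1 β * sl hm 1 (w : QuadraticAlgebra ℤ m B) = sl hm 1 γ := by
    unfold sl
    rw [← e1, ← e2, one_mul, one_mul, one_mul, div_mul_div_comm]
  have hb0 : 0 < sl hm 1 β := by unfold sl; rw [one_mul]; exact div_pos b1 b2
  have hone : sl hm 1 (1 : QuadraticAlgebra ℤ m B) = 1 := by simp [sl]
  rw [hone] at b4 c4
  have hw0 : 0 < sl hm 1 (w : QuadraticAlgebra ℤ m B) := by
    unfold sl; rw [one_mul]; exact div_pos hw1 hw2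
  have hmem : (w : QuadraticAlgebra ℤ m B) ∈ cone hm 1 1 (rho m B c (2 * J + 1)) := by
    refine ⟨⟨hw1, by rw [one_mul]; exact hw2⟩, ?_, ?_⟩
    · rw [← hsl] at c3
      nlinarith
    · rw [← hsl] at hle
      rw [hone]
      by_contra hgt
      push Not at hgt
      nlinarith
  have := pos_one' hm J h hJ hPo (w : QuadraticAlgebra ℤ m B) hmem (unit_norm w)
  rw [← hw, this, mul_one]

include hm h hJ hPo in
/-- **cone count for odd cycles** -/
theorem count_odd (hodd : J % 2 = 1) (hSJ : S J = 1) (n : ℕ) (hn : n ≠ 0) :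
    (SN m B n).ncard = ∑ i ∈ range J,
      (edgeSet (P (1 + 2 * i)) (R (1 + 2 * i)) (S (1 + 2 * i)) (c (1 + 2 * i)) n).ncard := by
  have hu : IsUnit (rho m B c (2 * J + 1)) := isUnit_u h J rfl
  obtain ⟨u, hu⟩ := hu
  have hu1 : 0 < s1 hm (u : QuadraticAlgebra ℤ m B) := by
    rw [hu]; exact s1_rho hm h (2 * J + 1) le_rfl
  have hsgK : sg (2 * J + 1) = 1 := by
    rw [add_comm, sg_even, sg_one]
  have hu2 : 0 < s2 hm (u : QuadraticAlgebra ℤ m B) := by
    rw [hu]
    have := (s2_rho (B := B) hm c (2 * J)).2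
    rwa [hsgK, one_mul] at this
  have hul : sl hm 1 (u : QuadraticAlgebra ℤ m B) < 1 := by
    have a1 := sl_chain hm h 3 (J - 1) (by omega)
    have a2 := sl_step hm h 1 (by omega)
    rw [show 3 + 2 * (J - 1) = 2 * J + 1 by omega] at a1
    have h3 : sg 3 = 1 := by unfold sg; norm_num
    rw [h3] at a1
    rw [sg_one, rho_one] at a2
    have h4 : sl hm 1 (1 : QuadraticAlgebra ℤ m B) = 1 := by simp [sl]
    rw [hu]
    linarith
  have hone1 : 0 < s1 hm (1 : QuadraticAlgebra ℤ m B) := by simp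
  have hone2 : 0 < (1 : ℝ) * s2 hm (1 : QuadraticAlgebra ℤ m B) := by simp
  -- the unit of norm -1
  have hv : IsUnit (rho m B c (J + 1)) := by
    rw [QuadraticAlgebra.isUnit_iff_norm_isUnit, norm_rho h J (by omega), hSJ, mul_one]
    rw [Int.isUnit_iff_natAbs_eq, Int.natAbs_pow]
    simp
  obtain ⟨v, hv⟩ := hv
  have hv1 : 0 < s1 hm (v : QuadraticAlgebra ℤ m B) := by
    rw [hv]; exact s1_rho hm h (J + 1) (by omega)
  have hv2 : s2 hm (v : QuadraticAlgebra ℤ m B) < 0 := by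
    rw [hv]
    have h1 := (s2_rho (B := B) hm c J).2
    have h2 : sg (J + 1) = -1 := by
      obtain ⟨i, hi⟩ : ∃ i, J = 2 * i + 1 := ⟨J / 2, by omega⟩
      unfold sg
      rw [hi, show 2 * i + 1 + 1 + 1 = 2 * (i + 1) + 1 by ring, pow_succ, pow_mul]
      norm_num
    rw [h2] at h1
    linarith
  have chP := Gs_chain hm h 1 J (by omega) n
  rw [show 1 + 2 * J = 2 * J + 1 by omega, sg_one, rho_one] at chP
  obtain ⟨fP, nP⟩ := chP
  set GP := Gs hm 1 1 (rho m B c (2 * J + 1)) n with hGP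
  have himg : Associates.mk '' GP = SN m B n := by
    ext x
    constructor
    · rintro ⟨β, hβ, rfl⟩
      change absN _ = n
      rw [absN_mk]
      exact hβ.2
    · intro hx
      obtain ⟨β, rfl⟩ := Associates.mk_surjective x
      have hx' : β.norm.natAbs = n := hx
      have hne : s1 hm β * s2 hm β ≠ 0 := by
        rw [← norm_eq]
        intro h0
        have h1 : β.norm = 0 := by exact_mod_cast h0
        rw [h1] at hx'
        exact hn (by simpa using hx'.symm)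
      have hne1 : s1 hm β ≠ 0 := left_ne_zero_of_mul hne
      have hne2 : s2 hm β ≠ 0 := right_ne_zero_of_mul hne
      obtain ⟨β', hβ', hassoc, hne2'⟩ : ∃ β', 0 < s1 hm β' ∧ Associated β' β ∧
          s2 hm β' ≠ 0 := by
        rcases lt_or_gt_of_ne hne1 with h | h
        · refine ⟨-β, ?_, (Associated.refl β).neg_left, ?_⟩
          · rw [map_neg]; linarith
          · rw [map_neg]; exact neg_ne_zero.mpr hne2
        · exact ⟨β, h, Associated.refl β, hne2⟩
      obtain ⟨β'', hβ1, hassoc', hβ2⟩ : ∃ β'', 0 < s1 hm β'' ∧ Associated β'' β ∧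
          0 < s2 hm β'' := by
        rcases lt_or_gt_of_ne hne2' with h2 | h2
        · refine ⟨β' * v, ?_, ?_, ?_⟩
          · rw [map_mul]; exact mul_pos hβ' hv1
          · exact (associated_mul_unit_left β' _ (Units.isUnit v)).trans hassoc
          · rw [map_mul]; exact mul_pos_of_neg_of_neg h2 hv2
        · exact ⟨β', hβ', hassoc, h2⟩
      have hnat : ∀ γ : QuadraticAlgebra ℤ m B, Associated γ β → γ.norm.natAbs = n := by
        intro γ hγ
        have := congrArg absN (Associates.mk_eq_mk_iff_associated.mpr hγ)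
        rw [absN_mk, absN_mk, hx'] at this
        exact this
      obtain ⟨γ, hγ, hγ'⟩ := exists_in_cone hm 1 u hu1 hu2 hul 1 hone1 hone2 β'' hβ1
          (by linarith)
      rw [hu, mul_one] at hγ
      exact ⟨γ, ⟨hγ, hnat γ (hγ'.trans hassoc')⟩,
        Associates.mk_eq_mk_iff_associated.mpr (hγ'.trans hassoc')⟩
  have hinj : Set.InjOn (Associates.mk : QuadraticAlgebra ℤ m B → _) GP := by
    intro β hβ γ hγ heq
    have hass := Associates.mk_eq_mk_iff_associated.mp heq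
    rcases le_total (sl hm 1 γ) (sl hm 1 β) with hle | hle
    · obtain ⟨w, hw⟩ := hass
      exact unique_aux' hm J h hJ hPo β γ hβ.1 hγ.1 w hw hle
    · obtain ⟨w, hw⟩ := hass.symm
      exact (unique_aux' hm J h hJ hPo γ β hγ.1 hβ.1 w hw hle).symm
  rw [← himg, hinj.ncard_image, nP]

end odd

lemma sum_odd_reindex (I : ℕ) (g : ℕ → ℕ) (hg : ∀ k < 2 * I + 1, g (k + (2 * I + 1)) = g k) :
    ∑ i ∈ range (2 * I + 1), g (1 + 2 * i) = ∑ k ∈ range (2 * I + 1), g k := by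
  have h1 : ∑ i ∈ range (2 * I + 1), g (1 + 2 * i)
      = ∑ i ∈ range I, g (1 + 2 * i) + ∑ j ∈ range (I + 1), g (2 * j) := by
    rw [show 2 * I + 1 = I + (I + 1) by ring, Finset.sum_range_add]
    congr 1
    apply Finset.sum_congr rfl
    intro j hj
    have hj' := Finset.mem_range.1 hj
    rw [← hg (2 * j) (by omega)]
    congr 1
    ring
  have h2 : ∀ I : ℕ, ∑ k ∈ range (2 * I + 1), g k
      = ∑ i ∈ range I, g (1 + 2 * i) + ∑ j ∈ range (I + 1), g (2 * j) := by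
    intro I
    induction I with
    | zero => simp
    | succ I ih =>
      rw [show 2 * (I + 1) + 1 = 2 * I + 1 + 1 + 1 by ring, Finset.sum_range_succ,
        Finset.sum_range_succ, ih, Finset.sum_range_succ (fun i => g (1 + 2 * i)),
        Finset.sum_range_succ (fun j => g (2 * j)) (I + 1),
        show 1 + 2 * I = 2 * I + 1 by ring, show 2 * (I + 1) = 2 * I + 1 + 1 by ring]
      ring
  rw [h1, h2 I]

end CG

/-- hypotheses on an odd cycle given in doubled form -/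
structure OddCyc (m B : ℤ) (I : ℕ) (P R S : ℕ → ℤ) (c : ℕ → ℕ) : Prop extends
    CG.CycM m B (2 * (2 * I + 1)) P R S c where
  perP : ∀ k ≤ 2 * I + 1, P (k + (2 * I + 1)) = P k
  perR : ∀ k ≤ 2 * I + 1, R (k + (2 * I + 1)) = R k
  perS : ∀ k ≤ 2 * I + 1, S (k + (2 * I + 1)) = S k
  perc : ∀ k < 2 * I + 1, c (k + (2 * I + 1)) = c k
  Pone : ∀ i < 2 * I + 1, i ≠ 0 → P (1 + 2 * i) ≠ 1

lemma OddCyc.cyc {m B : ℤ} {I : ℕ} {P R S : ℕ → ℤ} {c : ℕ → ℕ} (h : OddCyc m B I P R S c) :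
    Cyc (2 * I + 1) P R S c where
  hP k hk := h.hP k (by omega)
  hR k hk := h.hR k (by omega)
  hS k hk := h.hS k (by omega)
  P0 := by have := h.perP 0 (by omega); rwa [zero_add] at this
  R0 := by have := h.perR 0 (by omega); rwa [zero_add] at this
  S0 := by have := h.perS 0 (by omega); rwa [zero_add] at this
  Spos k hk := h.Spos k (by omega)
  Ppos0 := h.Ppos0
  cpos k hk := h.cpos k (by omega)

/-- the count for odd cycles -/
theorem OddCyc.count {m B : ℤ} (hm : 0 < m) {I : ℕ} {P R S : ℕ → ℤ} {c : ℕ → ℕ}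
    (h : OddCyc m B I P R S c) (n : ℕ) (hn : n ≠ 0) :
    (SN m B n).ncard = ∑ k ∈ range (2 * I + 1), (edgeSet (P k) (R k) (S k) (c k) n).ncard := by
  have hSJ : S (2 * I + 1) = 1 := by
    have := h.perS 0 (by omega)
    rw [zero_add] at this
    rw [this, h.S1]
  rw [CG.count_odd hm (2 * I + 1) h.toCycM (by omega) h.Pone (by omega) hSJ n hn]
  apply CG.sum_odd_reindex I (fun k => (edgeSet (P k) (R k) (S k) (c k) n).ncard)
  intro k hk
  rw [h.perP k hk.le, h.perR k hk.le, h.perS k hk.le, h.perc k hk]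

/-- **T5 for cycles of odd length.** -/
theorem odd_T5 (m B : ℤ) (hm : 0 < m) (hm2 : m % 2 = 1) (hB2 : B % 2 = 1) {I : ℕ}
    {P R S : ℕ → ℤ} {c : ℕ → ℕ} (h : OddCyc m B I P R S c)
    [IsDomain (QuadraticAlgebra ℤ m B)] [UniqueFactorizationMonoid (QuadraticAlgebra ℤ m B)]
    {d : ℕ} (hd : (d : ℤ) = B ^ 2 + 4 * m) (h8 : d % 8 = 5)
    (q l : ℕ) (hq : 0 < q) [Fact l.Prime] (hcop : Nat.Coprime q d) (hl6 : ¬ l ∣ 6)
    (hld : ¬ l ∣ d)
    (χ : ZMod q → ZMod l)
    (hodd : ∀ x, χ (-x) = - χ x) (hmul : ∀ x y, χ (x * y) = χ x * χ y)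
    (hsum : ∑ u ∈ range q, (u : ZMod l) * χ (u : ZMod q) = 0) :
    ∑ k ∈ range (2 * I + 1), ∑ r ∈ range q, ∑ s ∈ range q,
      χ ((P k * (r : ℤ) ^ 2 + R k * r * s - S k * (s : ℤ) ^ 2 : ℤ) : ZMod q)
        * (3 * ((bZ q r : ZMod l) * bZ q s) - c k * b2Z q r) = 0 := by
  refine cyc_T5 h.cyc d h8 ?_ q l hq hcop hl6 hld ?_ χ hodd hmul hsum
  · intro n hn
    rw [← h.count hm n hn]
    exact (ncard_SN hd h8 n hn).2
  · intro f hper hodd'
    rw [h.Pm, h.RB, h.S1]
    apply mean_even m B hm2 hB2 q hq _ f hper hodd'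
    rw [← hd]
    exact Nat.isCoprime_iff_coprime.2 hcop

/-- a non-inert odd prime is represented by one of the edges -/
theorem odd_inert (m B : ℤ) (hm : 0 < m) {I : ℕ}
    {P R S : ℕ → ℤ} {c : ℕ → ℕ} (h : OddCyc m B I P R S c)
    [IsDomain (QuadraticAlgebra ℤ m B)] [UniqueFactorizationMonoid (QuadraticAlgebra ℤ m B)]
    {d : ℕ} (hd : (d : ℤ) = B ^ 2 + 4 * m) (h8 : d % 8 = 5)
    (p : ℕ) (hp : p.Prime) (hp2 : p ≠ 2) (hj : jacobiSym d p ≠ -1) :
    ∃ k < 2 * I + 1, ∃ x y : ℕ, 1 ≤ x ∧ y < c k * x ∧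
      P k * (x : ℤ) ^ 2 + R k * x * y - S k * (y : ℤ) ^ 2 = p := by
  obtain ⟨x, hx⟩ := exists_root_of_ne hd hp hp2 hj
  obtain ⟨π, hπ⟩ := exists_norm_of_root hp hx
  have h1 := h.count hm p hp.ne_zero
  have h2 := (ncard_SN hd h8 p hp.ne_zero).1
  have h3 : (SN m B p).ncard ≠ 0 := by
    rw [Ne, Set.ncard_eq_zero h2, ← Ne, ← Set.nonempty_iff_ne_empty]
    refine ⟨Associates.mk π, ?_⟩
    change absN _ = p
    rw [absN_mk]
    exact hπ
  rw [h1] at h3
  obtain ⟨k, hk, hk'⟩ := Finset.exists_ne_zero_of_sum_ne_zero h3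
  have hne : (edgeSet (P k) (R k) (S k) (c k) p).Nonempty :=
    Set.nonempty_of_ncard_ne_zero hk'
  obtain ⟨⟨x, y⟩, hx, hy, he⟩ := hne
  exact ⟨k, Finset.mem_range.1 hk, x, y, hx, hy, he⟩

end Pool.Agent.Lib_helper5
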