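import Pool.Agent.Lib_helper5.EvenT5
import Pool.Agent.Lib_helper4.Inert

/-!
The family `d = (an)² + 4a`, and inertness of small primes for both families.
-/

namespace Pool.Agent.Lib_helper5

open Finset (range)
open Pool.Agent.LibH4 Pool.Agent.LibH4.FA

/-- an element of norm `±n` gives a representation by one of the edges -/
theorem even_rep (m B : ℤ) (hm : 0 < m) {K : ℕ}
    {P R S : ℕ → ℤ} {c : ℕ → ℕ} (h : CG.CycM m B K P R S c) (J : ℕ) (hK : K = 2 * J) (hJ : 0 < J)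
    (hcl : CG.rho m B c K = CG.rho m B c (K + 1) * CG.om m B)
    (hP1 : ∀ k < K, k ≠ 1 → P k ≠ 1)
    [IsDomain (QuadraticAlgebra ℤ m B)] [UniqueFactorizationMonoid (QuadraticAlgebra ℤ m B)]
    {d : ℕ} (hd : (d : ℤ) = B ^ 2 + 4 * m) (h8 : d % 8 = 5)
    (n : ℕ) (hn : n ≠ 0) (π : QuadraticAlgebra ℤ m B) (hπ : π.norm.natAbs = n) :
    ∃ k < K, ∃ x y : ℕ, 1 ≤ x ∧ y < c k * x ∧
      P k * (x : ℤ) ^ 2 + R k * x * y - S k * (y : ℤ) ^ 2 = n := by
  have h1 := CG.count_even hm h J hK hJ hcl hP1 n hn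
  have h2 := (ncard_SN hd h8 n hn).1
  have h3 : (SN m B n).ncard ≠ 0 := by
    rw [Ne, Set.ncard_eq_zero h2, ← Ne, ← Set.nonempty_iff_ne_empty]
    refine ⟨Associates.mk π, ?_⟩
    change absN _ = n
    rw [absN_mk]
    exact hπ
  rw [h1] at h3
  obtain ⟨k, hk, hk'⟩ := Finset.exists_ne_zero_of_sum_ne_zero h3
  have hne : (edgeSet (P k) (R k) (S k) (c k) n).Nonempty :=
    Set.nonempty_of_ncard_ne_zero hk'
  obtain ⟨⟨x, y⟩, hx, hy, he⟩ := hne
  exact ⟨k, Finset.mem_range.1 hk, x, y, hx, hy, he⟩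

/-- a non-inert odd prime is represented by one of the edges -/
theorem even_inert (m B : ℤ) (hm : 0 < m) {K : ℕ}
    {P R S : ℕ → ℤ} {c : ℕ → ℕ} (h : CG.CycM m B K P R S c) (J : ℕ) (hK : K = 2 * J) (hJ : 0 < J)
    (hcl : CG.rho m B c K = CG.rho m B c (K + 1) * CG.om m B)
    (hP1 : ∀ k < K, k ≠ 1 → P k ≠ 1)
    [IsDomain (QuadraticAlgebra ℤ m B)] [UniqueFactorizationMonoid (QuadraticAlgebra ℤ m B)]
    {d : ℕ} (hd : (d : ℤ) = B ^ 2 + 4 * m) (h8 : d % 8 = 5)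
    (p : ℕ) (hp : p.Prime) (hp2 : p ≠ 2) (hj : jacobiSym d p ≠ -1) :
    ∃ k < K, ∃ x y : ℕ, 1 ≤ x ∧ y < c k * x ∧
      P k * (x : ℤ) ^ 2 + R k * x * y - S k * (y : ℤ) ^ 2 = p := by
  obtain ⟨x, hx⟩ := exists_root_of_ne hd hp hp2 hj
  obtain ⟨π, hπ⟩ := exists_norm_of_root hp hx
  exact even_rep m B hm h J hK hJ hcl hP1 hd h8 p hp.ne_zero π hπ

/-- a prime is not of the form `P x²` unless `x = 1` -/
lemma eq_of_prime_mul_sq {p : ℕ} (hp : p.Prime) {P : ℤ} {x : ℕ} (h : P * (x : ℤ) ^ 2 = p) :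
    P = p := by
  have hx : x = 1 := by
    have h1 : ((x : ℤ) ^ 2) ∣ (p : ℤ) := Dvd.intro_left _ h
    have h2 : x ^ 2 ∣ p := by exact_mod_cast h1
    by_contra hx1
    have h3 : x ∣ p := dvd_trans (dvd_pow_self x (by norm_num)) h2
    rcases (Nat.dvd_prime hp).1 h3 with h4 | h4
    · exact hx1 h4
    · rw [h4] at h2
      have h5 : p ^ 2 ≤ p := Nat.le_of_dvd hp.pos h2
      have := hp.two_le
      nlinarith
  rw [hx] at h
  simpa using h

namespace E1

/-- small primes are inert in the family `(an)² - 4a` -/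
theorem inert (a n : ℕ) (ha : 2 ≤ a) (ha2 : a % 2 = 1) (hn : 3 ≤ n) (hn2 : n % 2 = 1)
    [IsDomain (QuadraticAlgebra ℤ (w a n) (a * n - 2))]
    [UniqueFactorizationMonoid (QuadraticAlgebra ℤ (w a n) (a * n - 2))]
    {d : ℕ} (hd : (d : ℤ) = ((a : ℤ) * n) ^ 2 - 4 * a)
    (p : ℕ) (hp : p.Prime) (hp2 : p ≠ 2) (hpa : p ≠ a) (hpw : (p : ℤ) < w a n) :
    jacobiSym d p = -1 := by
  by_contra hj
  have hw := w_pos a n ha hn
  have hodd_an : (a * n) % 2 = 1 := by rw [Nat.mul_mod, ha2, hn2]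
  have hodd_an' : ((a : ℤ) * n) % 2 = 1 := by exact_mod_cast hodd_an
  have ha2' : (a : ℤ) % 2 = 1 := by exact_mod_cast ha2
  have h8 : d % 8 = 5 := by
    obtain ⟨k, hk⟩ : ∃ k : ℤ, (a : ℤ) * n = 2 * k + 1 := ⟨((a : ℤ) * n) / 2, by omega⟩
    obtain ⟨j, hj⟩ : ∃ j : ℤ, (a : ℤ) = 2 * j + 1 := ⟨(a : ℤ) / 2, by omega⟩
    obtain ⟨i, hi⟩ := Int.even_mul_succ_self k
    have : (d : ℤ) = 8 * i - 8 * j - 3 := by
      rw [hd, hk, hj]
      linear_combination 4 * hi
    omega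
  obtain ⟨k, hk, x, y, hx, hy, he⟩ := even_inert (w a n) (a * n - 2) (by omega)
    (cyc a n ha hn) 2 rfl (by norm_num) (closing a n ha hn) (by
      intro k hk hk1
      interval_cases k <;> simp only [P] <;> omega) (d := d) (by rw [hd]; unfold w; ring) h8
    p hp hp2 hj
  have hx' : (1 : ℤ) ≤ x := by exact_mod_cast hx
  have ha' : (2 : ℤ) ≤ a := by exact_mod_cast ha
  have hn' : (3 : ℤ) ≤ n := by exact_mod_cast hn
  have hxx : (1 : ℤ) ≤ (x : ℤ) ^ 2 := by nlinarith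
  rcases Nat.eq_zero_or_pos y with hy0 | hy0
  · subst hy0
    have he' : P a n k * (x : ℤ) ^ 2 = p := by rw [← he]; push_cast; ring
    have hP := eq_of_prime_mul_sq hp he'
    interval_cases k <;> simp only [P] at hP
    · rw [hP] at hpw; exact lt_irrefl _ hpw
    · have := hp.two_le
      omega
    · rw [hP] at hpw; exact lt_irrefl _ hpw
    · apply hpa; exact_mod_cast hP.symm
  · have hy1 : (1 : ℤ) ≤ y := by exact_mod_cast hy0
    have hyc : (y : ℤ) + 1 ≤ c a n k * x := by exact_mod_cast hy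
    interval_cases k <;> simp only [P, R, S, c] at he hyc
    · rw [cast_c0 a n ha hn] at hyc
      have h1 : w a n ≤ w a n * (x : ℤ) ^ 2 := by nlinarith
      have h2 : 0 ≤ (y : ℤ) * ((a * n - 2) * x - y) := mul_nonneg (by linarith) (by linarith)
      nlinarith
    · push_cast at hyc
      have h1 : 0 ≤ w a n * ((y : ℤ) * (x - y) - 1) := by
        apply mul_nonneg (by linarith)
        nlinarith
      have h2 : (1 : ℤ) * x ^ 2 + (a * n - 2) * x * y - w a n * y ^ 2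
        = w a n * (y * (x - y)) + x ^ 2 + (a - 1) * (x * y) := by unfold w; ring
      have h3 : 0 ≤ ((a : ℤ) - 1) * (x * y) := mul_nonneg (by linarith) (by nlinarith)
      linarith
    · rw [cast_c2 n hn] at hyc
      have h1 : w a n ≤ w a n * (x : ℤ) ^ 2 := by nlinarith
      have h2 : 0 ≤ (a : ℤ) * ((y : ℤ) * ((n - 2) * x - y)) :=
        mul_nonneg (by linarith) (mul_nonneg (by linarith) (by linarith))
      nlinarith
    · push_cast at hyc
      have h1 : 0 ≤ w a n * ((y : ℤ) * (x - y) - 1) := by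
        apply mul_nonneg (by linarith)
        nlinarith
      have h2 : (a : ℤ) * x ^ 2 + (a * n - 2 * a) * x * y - w a n * y ^ 2
        = w a n * (y * (x - y)) + a * (x * (x - y)) + x * y := by unfold w; ring
      have h3 : 0 ≤ (a : ℤ) * (x * (x - y)) :=
        mul_nonneg (by linarith) (mul_nonneg (by linarith) (by linarith))
      have h4 : 0 ≤ (x : ℤ) * y := by positivity
      linarith

end E1

/-! ### the family `d = (an)² + 4a` -/

namespace BL

/-- the first coefficients -/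
def P (a : ℕ) : ℕ → ℤ
  | 1 => 1
  | _ => a

/-- the middle coefficients -/
def R (a n : ℕ) : ℕ → ℤ := fun _ => a * n

/-- the last coefficients -/
def S (a : ℕ) : ℕ → ℤ
  | 1 => a
  | _ => 1

/-- the multipliers -/
def c (a n : ℕ) : ℕ → ℕ
  | 0 => a * n
  | _ => n

lemma cyc (a n : ℕ) (ha : 1 ≤ a) (hn : 1 ≤ n) : CG.CycM a (a * n) 2 (P a) (R a n) (S a) (c a n) where
  hP k hk := by
    interval_cases k <;> simp [P, S]
  hR k hk := by
    interval_cases k <;> simp only [R, S, c] <;> push_cast <;> ring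
  hS k hk := by
    interval_cases k <;> simp only [P, R, S, c] <;> push_cast <;> ring
  P0 := rfl
  R0 := rfl
  S0 := rfl
  Spos k hk := by
    interval_cases k <;> simp only [S] <;> omega
  Ppos0 := by
    simp only [P]; omega
  cpos k hk := by
    have : 1 ≤ a * n := Nat.mul_pos ha hn
    interval_cases k <;> simp only [c] <;> omega
  Pm := rfl
  RB := rfl
  S1 := rfl

lemma closing (a n : ℕ) :
    CG.rho (a : ℤ) (a * n) (c a n) 2 =
      CG.rho (a : ℤ) (a * n) (c a n) (2 + 1) * CG.om (a : ℤ) (a * n) := by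
  have e2 : CG.rho (a : ℤ) (a * n) (c a n) 2 = ⟨-(a * n), 1⟩ := by
    rw [CG.rho_add _ 0, CG.rho_zero, CG.rho_one]
    ext
    · simp [CG.om, c]
    · simp [CG.om, c]
  have e3 : CG.rho (a : ℤ) (a * n) (c a n) (2 + 1) = ⟨1 + a * n ^ 2, -n⟩ := by
    rw [CG.rho_add _ 1, CG.rho_one, e2]
    ext
    · simp [c, QuadraticAlgebra.re_one]; ring
    · simp [c, QuadraticAlgebra.im_one]
  rw [e2, e3, CG.om, QuadraticAlgebra.mk_mul_mk]
  ext
  · simp only; ring
  · simp only; ring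

lemma mod8 (a n : ℕ) (ha2 : a % 2 = 1) (hn2 : n % 2 = 1) {d : ℕ}
    (hd : (d : ℤ) = ((a : ℤ) * n) ^ 2 + 4 * a) : d % 8 = 5 := by
  have hodd_an : (a * n) % 2 = 1 := by rw [Nat.mul_mod, ha2, hn2]
  have hodd_an' : ((a : ℤ) * n) % 2 = 1 := by exact_mod_cast hodd_an
  have ha2' : (a : ℤ) % 2 = 1 := by exact_mod_cast ha2
  obtain ⟨k, hk⟩ : ∃ k : ℤ, (a : ℤ) * n = 2 * k + 1 := ⟨((a : ℤ) * n) / 2, by omega⟩
  obtain ⟨j, hj⟩ : ∃ j : ℤ, (a : ℤ) = 2 * j + 1 := ⟨(a : ℤ) / 2, by omega⟩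
  obtain ⟨i, hi⟩ := Int.even_mul_succ_self k
  have : (d : ℤ) = 8 * i + 8 * j + 5 := by
    rw [hd, hk, hj]
    linear_combination 4 * hi
  omega

/-- **T5 for the family `d = (an)² + 4a`**. -/
theorem T5 (a n : ℕ) (ha : 2 ≤ a) (ha2 : a % 2 = 1) (hn2 : n % 2 = 1)
    [IsDomain (QuadraticAlgebra ℤ (a : ℤ) (a * n))]
    [UniqueFactorizationMonoid (QuadraticAlgebra ℤ (a : ℤ) (a * n))]
    {d : ℕ} (hd : (d : ℤ) = ((a : ℤ) * n) ^ 2 + 4 * a)
    (q l : ℕ) (hq : 0 < q) [Fact l.Prime] (hcop : Nat.Coprime q d) (hl6 : ¬ l ∣ 6)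
    (hld : ¬ l ∣ d)
    (χ : ZMod q → ZMod l)
    (hodd : ∀ x, χ (-x) = - χ x) (hmul : ∀ x y, χ (x * y) = χ x * χ y)
    (hsum : ∑ u ∈ range q, (u : ZMod l) * χ (u : ZMod q) = 0) :
    (∑ r ∈ range q, ∑ s ∈ range q,
      χ ((a * (r : ℤ) ^ 2 + ((a : ℤ) * n) * r * s - 1 * (s : ℤ) ^ 2 : ℤ)
        : ZMod q) * (3 * ((bZ q r : ZMod l) * bZ q s) - ((a : ZMod l) * n) * b2Z q r))
    + (∑ r ∈ range q, ∑ s ∈ range q,
      χ ((1 * (r : ℤ) ^ 2 + ((a : ℤ) * n) * r * s - a * (s : ℤ) ^ 2 : ℤ)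
        : ZMod q) * (3 * ((bZ q r : ZMod l) * bZ q s) - (n : ZMod l) * b2Z q r)) = 0 := by
  have hodd_an : (a * n) % 2 = 1 := by rw [Nat.mul_mod, ha2, hn2]
  have hodd_an' : ((a : ℤ) * n) % 2 = 1 := by exact_mod_cast hodd_an
  have ha2' : (a : ℤ) % 2 = 1 := by exact_mod_cast ha2
  have key := even_T5 (a : ℤ) (a * n) (by omega) (by omega) (by omega)
    (cyc a n (by omega) (by omega)) 1 rfl (by norm_num) (closing a n) (by
      intro k hk hk1
      interval_cases k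
      · simp only [P]; omega
      · exact absurd rfl hk1) (d := d) (by rw [hd]) (mod8 a n ha2 hn2 hd)
    q l hq hcop hl6 hld χ hodd hmul hsum
  rw [← key]
  simp only [Finset.sum_range_succ, Finset.sum_range_zero (M := ZMod l), zero_add, P, R, S, c]
  push_cast
  rfl

/-- small primes are inert in the family `(an)² + 4a` -/
theorem inert (a n : ℕ) (ha : 2 ≤ a) (ha2 : a % 2 = 1) (hn2 : n % 2 = 1)
    [IsDomain (QuadraticAlgebra ℤ (a : ℤ) (a * n))]
    [UniqueFactorizationMonoid (QuadraticAlgebra ℤ (a : ℤ) (a * n))]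
    {d : ℕ} (hd : (d : ℤ) = ((a : ℤ) * n) ^ 2 + 4 * a)
    (p : ℕ) (hp : p.Prime) (hp2 : p ≠ 2) (hpa : p ≠ a)
    (hpw : p ≤ a * (n - 1) ∨ p < a) : jacobiSym d p = -1 := by
  by_contra hj
  obtain ⟨k, hk, x, y, hx, hy, he⟩ := even_inert (a : ℤ) (a * n) (by omega)
    (cyc a n (by omega) (by omega)) 1 rfl (by norm_num) (closing a n) (by
      intro k hk hk1
      interval_cases k
      · simp only [P]; omega
      · exact absurd rfl hk1) (d := d) (by rw [hd]) (mod8 a n ha2 hn2 hd) p hp hp2 hj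
  have hx' : (1 : ℤ) ≤ x := by exact_mod_cast hx
  have ha' : (2 : ℤ) ≤ a := by exact_mod_cast ha
  have hn' : (1 : ℤ) ≤ n := by omega
  have hxx : (1 : ℤ) ≤ (x : ℤ) ^ 2 := by nlinarith
  have hn1 : ((n - 1 : ℕ) : ℤ) = n - 1 := by rw [Nat.cast_sub (by omega)]; simp
  have hpw' : (p : ℤ) ≤ a * (n - 1) ∨ (p : ℤ) < a := by
    rcases hpw with h | h
    · left; rw [← hn1]; exact_mod_cast h
    · right; exact_mod_cast h
  rcases Nat.eq_zero_or_pos y with hy0 | hy0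
  · subst hy0
    have he' : P a k * (x : ℤ) ^ 2 = p := by rw [← he]; push_cast; ring
    have hP := eq_of_prime_mul_sq hp he'
    interval_cases k <;> simp only [P] at hP
    · apply hpa; exact_mod_cast hP.symm
    · have := hp.two_le
      omega
  · have hy1 : (1 : ℤ) ≤ y := by exact_mod_cast hy0
    have hyc : (y : ℤ) + 1 ≤ c a n k * x := by exact_mod_cast hy
    interval_cases k <;> simp only [P, R, S, c] at he hyc
    · push_cast at hyc
      -- a x² + y (a n x - y) ≥ a + (a n x - 1)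
      have h1 : (a : ℤ) ≤ a * x ^ 2 := by nlinarith
      have h2 : (a : ℤ) * n * x - 1 ≤ y * (a * n * x - y) := by nlinarith
      have h3 : (a : ℤ) * n ≤ a * n * x := by nlinarith [mul_pos (by linarith : (0:ℤ) < a) (by linarith : (0:ℤ) < n)]
      rcases hpw' with h | h
      · nlinarith
      · nlinarith
    · -- x² + a y (n x - y)
      have h2 : (n : ℤ) * x - 1 ≤ y * (n * x - y) := by nlinarith
      have h3 : (a : ℤ) * (n * x - 1) ≤ a * (y * (n * x - y)) := by nlinarith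
      have h5 : (1 : ℤ) ≤ n * x - 1 := by linarith
      rcases hpw' with h | h
      · have h4 : (a : ℤ) * (n * 1 - 1) ≤ a * (n * x - 1) := by nlinarith
        nlinarith
      · nlinarith

end BL

end Pool.Agent.Lib_helper5
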