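import Pool.Agent.Lib_helper5.RDType
import Pool.Agent.Lib_helper4.KMain

/-!
Real quadratic fields of type `d = m² ± 4r`, `r ∣ m`, `m` odd: conclusion.
-/

namespace Pool.Agent.Lib_helper5

open Finset (range)
open Pool.Agent.LibH4 Pool.Agent.LibH4.FA Pool.Agent.LibH4.KF
open scoped NumberField

lemma allB_of (a n d : ℕ) (h : BL.All a n d) : AllB a n d := by
  intro q l _ hl hco hl6 hld chi hodd hmul hsum
  have : Fact l.Prime := ⟨hl⟩
  have h := h q l (Nat.pos_of_ne_zero (NeZero.ne q)) hco hl6 hld chi hodd hmul hsum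
  rw [range_term, range_term] at h
  have s1 := XX_swap chi hodd (a : ℤ) ((a : ℤ) * n) (-1)
  have s2 := YX_swap chi hodd (a : ℤ) ((a : ℤ) * n) (-1)
  rw [neg_neg] at s1 s2
  rw [s1, s2] at h
  unfold RelB
  linear_combination h

lemma allE_of (a n d : ℕ) (h : E1.All a n d) : AllE a n d := by
  intro q l _ hl hco hl6 hld chi hodd hmul hsum
  have : Fact l.Prime := ⟨hl⟩
  have h := h q l (Nat.pos_of_ne_zero (NeZero.ne q)) hco hl6 hld chi hodd hmul hsum
  rw [range_term, range_term, range_term, range_term] at h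
  have s1 := XX_swap chi hodd ((a : ℤ) * n - a - 1) ((a : ℤ) * n - 2) (-1)
  have s2 := YX_swap chi hodd ((a : ℤ) * n - a - 1) ((a : ℤ) * n - 2) (-1)
  have s3 := XX_swap chi hodd ((a : ℤ) * n - a - 1) ((a : ℤ) * n - 2 * a) (-a)
  have s4 := YX_swap chi hodd ((a : ℤ) * n - a - 1) ((a : ℤ) * n - 2 * a) (-a)
  rw [neg_neg] at s1 s2 s3 s4
  rw [s1, s2, s3, s4] at h
  unfold RelE
  linear_combination h

theorem noLargeBL : NoLargeBL := fun a n d _ ha2 hn2 hd hin hT =>
  noLargeB ha2 hn2 hd hin (allB_of a n d hT)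

theorem noLargeE1 : NoLargeE1 := fun a n d _ ha2 _ hn2 hd hin hT =>
  noLargeE ha2 hn2 hd hin (allE_of a n d hT)

/-- **class number one for `d = m² ± 4r`** -/
theorem rdFinal (d m r : ℕ) (hm : m % 2 = 1) (hr : r ∣ m)
    (hd : d = m ^ 2 + 4 * r ∨ d + 4 * r = m ^ 2) (hsq : Squarefree d) (h1 : 1 < d) :
    UniqueFactorizationMonoid (𝓞 (KQ d)) ↔ d ∈ rdList :=
  rdTheorem noLargeBL noLargeE1 d m r hm hr hd hsq h1

end Pool.Agent.Lib_helper5
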