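import Pool.Agent.Lib_helper5.ConesOdd

/-!
The congruence modulo an arbitrary integer `N` coprime to `6 d`; in particular modulo `l ^ 3` for
a prime `l` dividing the conductor `q` exactly once.
-/

namespace Pool.Agent.Lib_helper5

open Finset (range)
open Pool.Agent.LibH4 Pool.Agent.LibH4.FA

namespace NN

variable {q N : ℕ} [NeZero N] (χ : ZMod q → ZMod N)

/-- the integral lift -/
def lift (x : ℤ) : ℤ := (χ (x : ZMod q)).valMinAbs

omit [NeZero N] in
lemma lift_cast (x : ℤ) : ((lift χ x : ℤ) : ZMod N) = χ (x : ZMod q) := by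
  unfold lift
  exact ZMod.coe_valMinAbs _

omit [NeZero N] in
lemma lift_per (x : ℤ) : lift χ (x + q) = lift χ x := by
  unfold lift
  push_cast
  simp

omit [NeZero N] in
lemma lift_odd (hN : N % 2 = 1) (hodd : ∀ x, χ (-x) = - χ x) (x : ℤ) :
    lift χ (-x) = - lift χ x := by
  unfold lift
  push_cast
  rw [hodd]
  apply ZMod.valMinAbs_neg_of_ne_half
  intro h
  omega

omit [NeZero N] in
lemma two_cancel (hN : N % 2 = 1) {x : ZMod N} (h : 2 * x = 0) : x = 0 := by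
  have hc : Nat.Coprime 2 N := by
    rw [Nat.coprime_two_left]; exact Nat.odd_iff.2 hN
  have hu : IsUnit (2 : ZMod N) := by
    have := (ZMod.unitOfCoprime 2 hc).isUnit
    simpa using this
  exact (hu.mul_right_eq_zero).1 h

omit [NeZero N] in
lemma chi_zero (hN : N % 2 = 1) (hodd : ∀ x, χ (-x) = - χ x) : χ 0 = 0 := by
  have h1 := hodd 0
  rw [neg_zero] at h1
  exact two_cancel hN (by linear_combination h1)

omit [NeZero N] in
lemma sum_reflect (q : ℕ) (hq : 0 < q) (h : ℕ → ZMod N) :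
    ∑ r ∈ range q, h ((q - r) % q) = ∑ r ∈ range q, h r := by
  apply Finset.sum_nbij' (fun r => (q - r) % q) (fun r => (q - r) % q)
  · intro r _
    exact Finset.mem_range.2 (Nat.mod_lt _ hq)
  · intro r _
    exact Finset.mem_range.2 (Nat.mod_lt _ hq)
  · intro r hr
    have hr' := Finset.mem_range.1 hr
    rcases Nat.eq_zero_or_pos r with h0 | h0
    · subst h0; simp
    · rw [Nat.mod_eq_of_lt (show q - r < q by omega), Nat.sub_sub_self hr'.le,
        Nat.mod_eq_of_lt hr']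
  · intro r hr
    have hr' := Finset.mem_range.1 hr
    rcases Nat.eq_zero_or_pos r with h0 | h0
    · subst h0; simp
    · rw [Nat.mod_eq_of_lt (show q - r < q by omega), Nat.sub_sub_self hr'.le,
        Nat.mod_eq_of_lt hr']
  · intro r _
    rfl

omit [NeZero N] in
lemma sum_chi_zero (hq : 0 < q) (hN : N % 2 = 1) (hodd : ∀ x, χ (-x) = - χ x) :
    ∑ r ∈ range q, χ (r : ZMod q) = 0 := by
  have h1 := sum_reflect (N := N) q hq (fun r => χ (r : ZMod q))
  have h2 : ∑ r ∈ range q, χ (((q - r) % q : ℕ) : ZMod q) = - ∑ r ∈ range q, χ (r : ZMod q) := by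
    rw [← Finset.sum_neg_distrib]
    apply Finset.sum_congr rfl
    intro r hr
    rw [← hodd]
    congr 1
    have hr' := Finset.mem_range.1 hr
    rw [ZMod.natCast_mod, Nat.cast_sub hr'.le]
    simp
  rw [h2] at h1
  exact two_cancel hN (by linear_combination -h1)

omit [NeZero N] in
lemma sum_chi_bZ (hq : 0 < q) (hN : N % 2 = 1) (hodd : ∀ x, χ (-x) = - χ x) :
    ∑ r ∈ range q, χ (r : ZMod q) * (bZ q r : ZMod N)
      = - 2 * ∑ u ∈ range q, (u : ZMod N) * χ (u : ZMod q) := by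
  have h1 : ∑ r ∈ range q, χ (r : ZMod q) * (bZ q r : ZMod N)
      = (q : ZMod N) * ∑ r ∈ range q, χ (r : ZMod q)
        - 2 * ∑ u ∈ range q, (u : ZMod N) * χ (u : ZMod q) := by
    rw [Finset.mul_sum, Finset.mul_sum, ← Finset.sum_sub_distrib]
    apply Finset.sum_congr rfl
    intro r _
    unfold bZ
    split_ifs with h
    · subst h
      simp [chi_zero χ hN hodd]
    · push_cast
      ring
  rw [h1, sum_chi_zero χ hq hN hodd]
  ring

omit [NeZero N] in
/-- the second factor is a multiple of `q` -/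
lemma sum_two {d : ℕ} (hq : 0 < q) (h8 : d % 8 = 5) (hcop : Nat.Coprime q d) (hN : N % 2 = 1)
    (hodd : ∀ x, χ (-x) = - χ x) :
    ∃ z : ZMod N, ∑ s ∈ range (q * d), χ (s : ZMod q) * (jacobiSym s d : ZMod N) *
      (bZ (q * d) s : ZMod N) = (q : ZMod N) * z := by
  -- the sum with `s` replaced by its residue modulo `q` vanishes
  have hf : ∑ s ∈ range (q * d), (((s : ℤ) % (q : ℤ)) * lift χ (s : ℤ)) * jacobiSym s d = 0 := by
    have key := row_zero (q := q) (d := d) (f := fun x : ℤ => (((x % q) * lift χ x : ℤ) : ℝ)) hq hcop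
      h8 (fun x => by
        rw [lift_per χ, Int.add_emod_right]) 1
    have h2 : ((∑ s ∈ range (q * d), (((s : ℤ) % (q : ℤ)) * lift χ (s : ℤ)) * jacobiSym s d : ℤ) : ℝ)
        = 0 := by
      rw [← key]
      push_cast
      apply Finset.sum_congr rfl
      intro s _
      unfold gs
      push_cast
      rw [one_mul]
    exact_mod_cast h2
  have hf' : ∑ s ∈ range (q * d), (((s % q : ℕ) : ZMod N) * χ (s : ZMod q)) *
      (jacobiSym s d : ZMod N) = 0 := by
    have h3 := congrArg (Int.cast : ℤ → ZMod N) hf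
    rw [Int.cast_sum, Int.cast_zero] at h3
    rw [← h3]
    apply Finset.sum_congr rfl
    intro s _
    have h1 := lift_cast χ (s : ℤ)
    rw [Int.cast_mul, Int.cast_mul, h1, ← Int.natCast_mod, Int.cast_natCast, Int.cast_natCast]
  refine ⟨∑ s ∈ range (q * d), χ (s : ZMod q) * (jacobiSym s d : ZMod N) *
      ((d : ZMod N) - 2 * ((s / q : ℕ) : ZMod N)), ?_⟩
  have e : ∀ s ∈ range (q * d), χ (s : ZMod q) * (jacobiSym s d : ZMod N) *
      (bZ (q * d) s : ZMod N) = (q : ZMod N) * (χ (s : ZMod q) * (jacobiSym s d : ZMod N) *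
      ((d : ZMod N) - 2 * ((s / q : ℕ) : ZMod N))) - 2 * ((((s % q : ℕ) : ZMod N) * χ (s : ZMod q)) *
      (jacobiSym s d : ZMod N)) := by
    intro s _
    have hs : ((s : ℕ) : ZMod N) = ((s % q : ℕ) : ZMod N) + (q : ZMod N) * ((s / q : ℕ) : ZMod N) := by
      have := Nat.mod_add_div s q
      have h2 := congrArg (Nat.cast : ℕ → ZMod N) this
      push_cast at h2
      rw [← h2]
    unfold bZ
    split_ifs with h
    · subst h
      simp [chi_zero χ hN hodd]
    · push_cast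
      linear_combination (-2 * (χ (s : ZMod q) * (jacobiSym s d : ZMod N))) * hs
  rw [Finset.sum_congr rfl e, Finset.sum_sub_distrib, ← Finset.mul_sum, ← Finset.mul_sum, hf']
  ring

end NN

section general

variable {K : ℕ} {P R S : ℕ → ℤ} {c : ℕ → ℕ}

/-- **general T5 modulo `N`** -/
theorem cyc_T5N (h : Cyc K P R S c) (d : ℕ) (h8 : d % 8 = 5)
    (hcnt : ∀ n : ℕ, n ≠ 0 →
      ((∑ k ∈ range K, (edgeSet (P k) (R k) (S k) (c k) n).ncard : ℕ) : ℤ) = sig d n)
    (q N : ℕ) (hq : 0 < q) (hcop : Nat.Coprime q d) (hN2 : N % 2 = 1)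
    (hNd : Nat.Coprime d N)
    (hmean : ∀ f : ℤ → ℝ, (∀ x, f (x + q) = f x) → (∀ x, f (-x) = - f x) →
      ∑ r ∈ range q, ∑ s ∈ range q,
        f (P 0 * (r : ℤ) ^ 2 + R 0 * r * s - S 0 * (s : ℤ) ^ 2) = 0)
    (χ : ZMod q → ZMod N)
    (hodd : ∀ x, χ (-x) = - χ x) (hmul : ∀ x y, χ (x * y) = χ x * χ y)
    (hsum : ∀ z : ZMod N,
      3 * ((∑ u ∈ range q, (u : ZMod N) * χ (u : ZMod q)) * ((q : ZMod N) * z)) = 0) :
    ∑ k ∈ range K, ∑ r ∈ range q, ∑ s ∈ range q,
      χ ((P k * (r : ℤ) ^ 2 + R k * r * s - S k * (s : ℤ) ^ 2 : ℤ) : ZMod q)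
        * (3 * ((bZ q r : ZMod N) * bZ q s) - c k * b2Z q r) = 0 := by
  have hd0 : 0 < d := by omega
  have hper' : ∀ x, ((NN.lift χ (x + q) : ℤ) : ℝ) = ((NN.lift χ x : ℤ) : ℝ) := fun x => by
    simp only [NN.lift_per χ]
  have hodd' : ∀ x, ((NN.lift χ (-x) : ℤ) : ℝ) = - ((NN.lift χ x : ℤ) : ℝ) := fun x => by
    simp only [NN.lift_odd χ hN2 hodd]; push_cast; ring
  have key := cyc_identity h d h8 q hq hcop
    (fun x => ((NN.lift χ x : ℤ) : ℝ)) hper' hodd'
    (hmean (fun x => ((NN.lift χ x : ℤ) : ℝ)) hper' hodd') hcnt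
  have i5 := bb_RZ hq hd0 (NN.lift χ)
  have hreal : (d : ℝ) * (2 * (∑ k ∈ range K, (3 * (XZ q (NN.lift χ) (P k) (R k) (S k) : ℝ)
      - c k * (YX q (NN.lift χ) (P k) (R k) (S k) : ℝ))))
      = 3 * (RZ q d (NN.lift χ) : ℝ) := by
    rw [← i5, ← key]
    simp only [Finset.mul_sum]
    apply Finset.sum_congr rfl
    intro k _
    rw [← SS_XZ hq, ← MX_YX hq]
    ring
  have hint : (d : ℤ) * (2 * (∑ k ∈ range K, (3 * XZ q (NN.lift χ) (P k) (R k) (S k)
      - c k * YX q (NN.lift χ) (P k) (R k) (S k))))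
      = 3 * RZ q d (NN.lift χ) := by
    exact_mod_cast hreal
  have hzmod : (d : ZMod N) * (2 * (∑ k ∈ range K, (3 * (XZ q (NN.lift χ) (P k) (R k) (S k) : ZMod N)
      - c k * (YX q (NN.lift χ) (P k) (R k) (S k) : ZMod N))))
      = 3 * (RZ q d (NN.lift χ) : ZMod N) := by
    have := congrArg (Int.cast : ℤ → ZMod N) hint
    push_cast at this
    exact this
  have hR : 3 * (RZ q d (NN.lift χ) : ZMod N) = 0 := by
    have e : (RZ q d (NN.lift χ) : ZMod N) = (∑ r ∈ range q, χ (r : ZMod q) * (bZ q r : ZMod N)) *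
        (∑ s ∈ range (q * d), χ (s : ZMod q) * (jacobiSym s d : ZMod N) * (bZ (q * d) s : ZMod N)) := by
      unfold RZ
      push_cast
      rw [Finset.sum_mul_sum]
      apply Finset.sum_congr rfl
      intro r _
      apply Finset.sum_congr rfl
      intro s _
      rw [NN.lift_cast]
      push_cast
      rw [hmul]
      ring
    obtain ⟨z, hz⟩ := NN.sum_two χ hq h8 hcop hN2 hodd
    rw [e, NN.sum_chi_bZ χ hq hN2 hodd, hz]
    have := hsum z
    linear_combination (-2) * this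
  rw [hR] at hzmod
  have hdu : IsUnit (d : ZMod N) := by
    have := (ZMod.unitOfCoprime d hNd).isUnit
    simpa using this
  have h1 := NN.two_cancel hN2 ((hdu.mul_right_eq_zero).1 hzmod)
  rw [← h1]
  apply Finset.sum_congr rfl
  intro k _
  unfold XZ YX
  push_cast
  simp only [Finset.mul_sum]
  rw [← Finset.sum_sub_distrib]
  apply Finset.sum_congr rfl
  intro r _
  rw [← Finset.sum_sub_distrib]
  apply Finset.sum_congr rfl
  intro s _
  rw [NN.lift_cast]
  push_cast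
  ring

end general

/-- **T5 modulo `N` for cycles of even length.** -/
theorem even_T5N (m B : ℤ) (hm : 0 < m) (hm2 : m % 2 = 1) (hB2 : B % 2 = 1) {K : ℕ}
    {P R S : ℕ → ℤ} {c : ℕ → ℕ} (h : CG.CycM m B K P R S c) (J : ℕ) (hK : K = 2 * J) (hJ : 0 < J)
    (hcl : CG.rho m B c K = CG.rho m B c (K + 1) * CG.om m B)
    (hP1 : ∀ k < K, k ≠ 1 → P k ≠ 1)
    [IsDomain (QuadraticAlgebra ℤ m B)] [UniqueFactorizationMonoid (QuadraticAlgebra ℤ m B)]
    {d : ℕ} (hd : (d : ℤ) = B ^ 2 + 4 * m) (h8 : d % 8 = 5)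
    (q N : ℕ) (hq : 0 < q) (hcop : Nat.Coprime q d) (hN2 : N % 2 = 1)
    (hNd : Nat.Coprime d N)
    (χ : ZMod q → ZMod N)
    (hodd : ∀ x, χ (-x) = - χ x) (hmul : ∀ x y, χ (x * y) = χ x * χ y)
    (hsum : ∀ z : ZMod N,
      3 * ((∑ u ∈ range q, (u : ZMod N) * χ (u : ZMod q)) * ((q : ZMod N) * z)) = 0) :
    ∑ k ∈ range K, ∑ r ∈ range q, ∑ s ∈ range q,
      χ ((P k * (r : ℤ) ^ 2 + R k * r * s - S k * (s : ℤ) ^ 2 : ℤ) : ZMod q)
        * (3 * ((bZ q r : ZMod N) * bZ q s) - c k * b2Z q r) = 0 := by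
  refine cyc_T5N h.toCyc d h8 ?_ q N hq hcop hN2 hNd ?_ χ hodd hmul hsum
  · intro n hn
    rw [← CG.count_even hm h J hK hJ hcl hP1 n hn]
    exact (ncard_SN hd h8 n hn).2
  · intro f hper hodd'
    rw [h.Pm, h.RB, h.S1]
    apply mean_even m B hm2 hB2 q hq _ f hper hodd'
    rw [← hd]
    exact Nat.isCoprime_iff_coprime.2 hcop

/-- **T5 modulo `N` for cycles of odd length.** -/
theorem odd_T5N (m B : ℤ) (hm : 0 < m) (hm2 : m % 2 = 1) (hB2 : B % 2 = 1) {I : ℕ}
    {P R S : ℕ → ℤ} {c : ℕ → ℕ} (h : OddCyc m B I P R S c)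
    [IsDomain (QuadraticAlgebra ℤ m B)] [UniqueFactorizationMonoid (QuadraticAlgebra ℤ m B)]
    {d : ℕ} (hd : (d : ℤ) = B ^ 2 + 4 * m) (h8 : d % 8 = 5)
    (q N : ℕ) (hq : 0 < q) (hcop : Nat.Coprime q d) (hN2 : N % 2 = 1)
    (hNd : Nat.Coprime d N)
    (χ : ZMod q → ZMod N)
    (hodd : ∀ x, χ (-x) = - χ x) (hmul : ∀ x y, χ (x * y) = χ x * χ y)
    (hsum : ∀ z : ZMod N,
      3 * ((∑ u ∈ range q, (u : ZMod N) * χ (u : ZMod q)) * ((q : ZMod N) * z)) = 0) :
    ∑ k ∈ range (2 * I + 1), ∑ r ∈ range q, ∑ s ∈ range q,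
      χ ((P k * (r : ℤ) ^ 2 + R k * r * s - S k * (s : ℤ) ^ 2 : ℤ) : ZMod q)
        * (3 * ((bZ q r : ZMod N) * bZ q s) - c k * b2Z q r) = 0 := by
  refine cyc_T5N h.cyc d h8 ?_ q N hq hcop hN2 hNd ?_ χ hodd hmul hsum
  · intro n hn
    rw [← h.count hm n hn]
    exact (ncard_SN hd h8 n hn).2
  · intro f hper hodd'
    rw [h.Pm, h.RB, h.S1]
    apply mean_even m B hm2 hB2 q hq _ f hper hodd'
    rw [← hd]
    exact Nat.isCoprime_iff_coprime.2 hcop

end Pool.Agent.Lib_helper5
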