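import Pool.Agent.Lib_helper4.E4Par
import Pool.Agent.Lib_helper5.EvenBL
import Pool.Agent.Lib_helper5.E5
import Pool.Agent.Lib_helper5.T5N

/-!
Period four: the palindromic cycle `(B; a, b, a)`.
-/

namespace Pool.Agent.Lib_helper5

open Finset (range)
open Pool.Agent.LibH4 Pool.Agent.LibH4.FA

namespace E4

/-- the first coefficients -/
def P (m r : ℤ) : ℕ → ℤ
  | 1 => 1
  | 3 => r
  | _ => m

/-- the middle coefficients -/
def R (a B : ℕ) (m : ℤ) : ℕ → ℤ
  | 2 => 2 * a * m - B
  | 3 => 2 * a * m - B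
  | _ => B

/-- the last coefficients -/
def S (m r : ℤ) : ℕ → ℤ
  | 0 => 1
  | 2 => r
  | 4 => 1
  | _ => m

/-- the multipliers -/
def c (a b B : ℕ) : ℕ → ℕ
  | 0 => B
  | 2 => b
  | _ => a

variable {a b B : ℕ} {m r : ℤ}

theorem cyc (h : Par a b B m r) : CG.CycM m B 4 (P m r) (R a B m) (S m r) (c a b B) where
  hP k hk := by
    interval_cases k <;> simp [P, S]
  hR k hk := by
    have h2 := h.e2
    interval_cases k <;> simp only [R, S, c] <;> linarith
  hS k hk := by
    have h1 := h.e1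
    have h2 := h.e2
    interval_cases k <;> simp only [P, R, S, c]
    · ring
    · linarith
    · linear_combination (b : ℤ) * h2
    · linarith
  P0 := rfl
  R0 := rfl
  S0 := rfl
  Spos k hk := by
    have h1 := h.hm
    have h2 := h.hr
    interval_cases k <;> simp only [S] <;> omega
  Ppos0 := by
    have h1 := h.hm
    simp only [P]; omega
  cpos k hk := by
    have h1 := h.ha
    have h2 := h.hb
    have h3 := h.hB
    interval_cases k <;> simp only [c] <;> omega
  Pm := rfl
  RB := rfl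
  S1 := rfl

lemma closing (h : Par a b B m r) :
    CG.rho m B (c a b B) 4 = CG.rho m B (c a b B) (4 + 1) * CG.om m B := by
  have e2 : CG.rho m B (c a b B) 2 = ⟨-B, 1⟩ := by
    rw [CG.rho_add _ 0, CG.rho_zero, CG.rho_one]
    ext
    · simp [CG.om, c]
    · simp [CG.om, c]
  have e3 : CG.rho m B (c a b B) 3 = ⟨1 + a * B, -a⟩ := by
    rw [CG.rho_add _ 1, CG.rho_one, e2]
    ext
    · simp [c, QuadraticAlgebra.re_one]
    · simp [c, QuadraticAlgebra.im_one]
  have e4 : CG.rho m B (c a b B) 4 = ⟨-B - b * (1 + a * B), 1 + b * a⟩ := by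
    rw [CG.rho_add _ 2, e2, e3]
    ext
    · simp [c]
    · simp [c]
  have e5 : CG.rho m B (c a b B) (4 + 1) =
      ⟨1 + a * B + a * (B + b * (1 + a * B)), - a - a * (1 + b * a)⟩ := by
    rw [CG.rho_add _ 3, e3, e4]
    ext
    · simp [c]; ring
    · simp [c]
  have h1 := h.e1
  have h2 := h.e2
  rw [e4, e5, CG.om, QuadraticAlgebra.mk_mul_mk]
  ext
  · simp only
    rw [h1] at h2
    linear_combination (-1) * h2
  · simp only; ring

lemma P_ne (h : Par a b B m r) : ∀ k < 4, k ≠ 1 → P m r k ≠ 1 := by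
  have h1 := h.hm
  have h2 := h.hr
  intro k hk hk1
  interval_cases k
  · simp only [P]; omega
  · exact absurd rfl hk1
  · simp only [P]; omega
  · simp only [P]; omega

/-- odd primes below `m`, different from `r`, are inert -/
theorem inert (h : Par a b B m r)
    [IsDomain (QuadraticAlgebra ℤ m (B : ℤ))]
    [UniqueFactorizationMonoid (QuadraticAlgebra ℤ m (B : ℤ))]
    {d : ℕ} (hd : (d : ℤ) = (B : ℤ) ^ 2 + 4 * m) (h8 : d % 8 = 5)
    (p : ℕ) (hp : p.Prime) (hp2 : p ≠ 2) (hpr : (p : ℤ) ≠ r) (hpm : (p : ℤ) < m) :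
    jacobiSym d p = -1 := by
  by_contra hj
  have hm0 : 0 < m := by have := h.hm; omega
  have hr0 : 0 < r := by have := h.hr; omega
  have hP0 := hp.two_le
  have hC := cyc h
  obtain ⟨k, hk, x, y, hx, hy, he⟩ := even_inert m B hm0 hC 2 rfl (by norm_num) (closing h)
    (P_ne h) hd h8 p hp hp2 hj
  have hx' : (1 : ℤ) ≤ x := by exact_mod_cast hx
  rcases Nat.eq_zero_or_pos y with hy0 | hy0
  · subst hy0
    have he' : P m r k * (x : ℤ) ^ 2 = p := by rw [← he]; push_cast; ring
    have hP := eq_of_prime_mul_sq hp he'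
    interval_cases k <;> simp only [P] at hP <;> omega
  · have hy1 : (1 : ℤ) ≤ y := by exact_mod_cast hy0
    have hyc : (y : ℤ) + 1 ≤ c a b B k * x := by exact_mod_cast hy
    have hxx : (1 : ℤ) ≤ (x : ℤ) ^ 2 := by nlinarith
    interval_cases k
    · simp only [P, R, S, c] at he hyc
      have h1 : m ≤ m * (x : ℤ) ^ 2 := by nlinarith
      have h2 : 0 ≤ (y : ℤ) * (B * x - y) := mul_nonneg (by linarith) (by linarith)
      nlinarith
    · have h1 := E5.edge_gt (hC.cpos 1 (by omega)) (hC.toCyc.Ppos (k := 1) (by omega))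
        (hC.Spos 1 (by omega)) (CG.hAend hC 1 (by omega)) hy1 hyc
      rw [he] at h1
      simp only [S] at h1
      omega
    · simp only [P, R, S, c] at he hyc
      -- `m x² + R x y - r y² ≥ m` since `R x - r y = r (b x - y)`
      have h1 : m ≤ m * (x : ℤ) ^ 2 := by nlinarith
      have h2 : 0 ≤ r * ((y : ℤ) * (b * x - y)) :=
        mul_nonneg hr0.le (mul_nonneg (by linarith) (by linarith))
      have h3 : (2 * (a : ℤ) * m - B) * x * y - r * (y : ℤ) ^ 2 = r * ((y : ℤ) * (b * x - y)) := by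
        rw [← h.e2]; ring
      nlinarith
    · have h1 := E5.edge_gt (hC.cpos 3 (by omega)) (hC.toCyc.Ppos (k := 3) (by omega))
        (hC.Spos 3 (by omega)) (CG.hAend hC 3 (by omega)) hy1 hyc
      rw [he] at h1
      simp only [S] at h1
      omega

end E4

end Pool.Agent.Lib_helper5
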