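import Pool.Agent.Lib_helper5.Family

/-!
The congruence modulo a prime `l`.
-/

namespace Pool.Agent.Lib_helper5

open Finset (range)
open Pool.Agent.LibH4 Pool.Agent.LibH4.FA

/-- `2 q * bet q r` as an integer -/
def bZ (q r : ℕ) : ℤ := if r = 0 then 0 else (q : ℤ) - 2 * r

/-- `6 q ^ 2 * B2 (s / q)` as an integer -/
def b2Z (q s : ℕ) : ℤ := 6 * (s : ℤ) ^ 2 - 6 * s * q + (q : ℤ) ^ 2

lemma bet_eq_bZ {q : ℕ} (hq : 0 < q) (r : ℕ) : 2 * (q : ℝ) * bet q r = (bZ q r : ℝ) := by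
  have hq' : (0:ℝ) < q := by exact_mod_cast hq
  unfold bet bZ
  split_ifs
  · simp
  · push_cast
    field_simp

lemma B2_eq_b2Z {q : ℕ} (hq : 0 < q) (s : ℕ) :
    6 * (q : ℝ) ^ 2 * B2 ((s : ℝ) / q) = (b2Z q s : ℝ) := by
  have hq' : (0:ℝ) < q := by exact_mod_cast hq
  unfold B2 b2Z
  push_cast
  field_simp

/-- integer version of `SS` -/
def XZ (q : ℕ) (f : ℤ → ℤ) (P R S : ℤ) : ℤ :=
  ∑ r ∈ range q, ∑ s ∈ range q, f (P * (r : ℤ) ^ 2 + R * r * s - S * (s : ℤ) ^ 2) *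
    (bZ q r * bZ q s)

/-- integer version of `MS` -/
def YZ (q : ℕ) (f : ℤ → ℤ) (P R S : ℤ) : ℤ :=
  ∑ r ∈ range q, ∑ s ∈ range q, f (P * (r : ℤ) ^ 2 + R * r * s - S * (s : ℤ) ^ 2) *
    b2Z q s

/-- integer version of the right side -/
def RZ (q d : ℕ) (f : ℤ → ℤ) : ℤ :=
  ∑ r ∈ range q, ∑ s ∈ range (q * d), (f ((r : ℤ) * s) * jacobiSym s d) *
    (bZ q r * bZ (q * d) s)

lemma SS_XZ {q : ℕ} (hq : 0 < q) (f : ℤ → ℤ) (P R S : ℤ) :
    4 * (q : ℝ) ^ 2 * SS q (fun x => (f x : ℝ)) P R S = (XZ q f P R S : ℝ) := by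
  unfold SS XZ
  push_cast
  rw [Finset.mul_sum]
  apply Finset.sum_congr rfl
  intro r _
  rw [Finset.mul_sum]
  apply Finset.sum_congr rfl
  intro s _
  rw [← bet_eq_bZ hq, ← bet_eq_bZ hq]
  ring

lemma MS_YZ {q : ℕ} (hq : 0 < q) (f : ℤ → ℤ) (P R S : ℤ) :
    6 * (q : ℝ) ^ 2 * MS q (fun x => (f x : ℝ)) P R S = (YZ q f P R S : ℝ) := by
  unfold MS YZ
  push_cast
  rw [Finset.mul_sum]
  apply Finset.sum_congr rfl
  intro r _
  rw [Finset.mul_sum]
  apply Finset.sum_congr rfl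
  intro s _
  rw [← B2_eq_b2Z hq]
  ring

lemma bb_RZ {q d : ℕ} (hq : 0 < q) (hd : 0 < d) (f : ℤ → ℤ) :
    4 * (q : ℝ) ^ 2 * d * bb q (q * d) (gs (fun x => (f x : ℝ)) (fun l => (jacobiSym l d : ℝ)))
      = (RZ q d f : ℝ) := by
  unfold bb RZ gs
  push_cast
  rw [Finset.mul_sum]
  apply Finset.sum_congr rfl
  intro r _
  rw [Finset.mul_sum]
  apply Finset.sum_congr rfl
  intro s _
  rw [← bet_eq_bZ hq, ← bet_eq_bZ (Nat.mul_pos hq hd)]
  push_cast
  ring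

section mod

variable {q l : ℕ} [Fact l.Prime] (χ : ZMod q → ZMod l)

/-- the integral lift -/
def lift (x : ℤ) : ℤ := (χ (x : ZMod q)).valMinAbs

lemma lift_cast (x : ℤ) : ((lift χ x : ℤ) : ZMod l) = χ (x : ZMod q) := by
  unfold lift
  exact ZMod.coe_valMinAbs _

lemma lift_per (x : ℤ) : lift χ (x + q) = lift χ x := by
  unfold lift
  push_cast
  simp

lemma two_ne (hl : ¬ l ∣ 6) : (2 : ZMod l) ≠ 0 := by
  intro h
  apply hl
  have : ((2 : ℕ) : ZMod l) = 0 := by exact_mod_cast h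
  rw [ZMod.natCast_eq_zero_iff] at this
  exact this.trans (by norm_num)

lemma lift_odd (hl : ¬ l ∣ 6) (hodd : ∀ x, χ (-x) = - χ x) (x : ℤ) :
    lift χ (-x) = - lift χ x := by
  unfold lift
  push_cast
  rw [hodd]
  apply ZMod.valMinAbs_neg_of_ne_half
  intro h
  apply hl
  have h2 : 2 ∣ l := ⟨_, h.symm⟩
  have hp : l.Prime := Fact.out
  have h3 := (Nat.prime_dvd_prime_iff_eq Nat.prime_two hp).1 h2
  rw [← h3]
  norm_num

lemma sum_reflect_zmod (q : ℕ) (hq : 0 < q) (h : ℕ → ZMod l) :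
    ∑ r ∈ range q, h ((q - r) % q) = ∑ r ∈ range q, h r := by
  apply Finset.sum_nbij' (fun r => (q - r) % q) (fun r => (q - r) % q)
  · intro r _
    exact Finset.mem_range.2 (Nat.mod_lt _ hq)
  · intro r _
    exact Finset.mem_range.2 (Nat.mod_lt _ hq)
  · intro r hr
    have hr' := Finset.mem_range.1 hr
    rcases Nat.eq_zero_or_pos r with h0 | h0
    · subst h0; simp
    · rw [Nat.mod_eq_of_lt (show q - r < q by omega), Nat.sub_sub_self hr'.le,
        Nat.mod_eq_of_lt hr']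
  · intro r hr
    have hr' := Finset.mem_range.1 hr
    rcases Nat.eq_zero_or_pos r with h0 | h0
    · subst h0; simp
    · rw [Nat.mod_eq_of_lt (show q - r < q by omega), Nat.sub_sub_self hr'.le,
        Nat.mod_eq_of_lt hr']
  · intro r _
    rfl

lemma sum_chi_zero (hq : 0 < q) (hl : ¬ l ∣ 6) (hodd : ∀ x, χ (-x) = - χ x) :
    ∑ r ∈ range q, χ (r : ZMod q) = 0 := by
  have h1 := sum_reflect_zmod (l := l) q hq (fun r => χ (r : ZMod q))
  have h2 : ∑ r ∈ range q, χ (((q - r) % q : ℕ) : ZMod q) = - ∑ r ∈ range q, χ (r : ZMod q) := by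
    rw [← Finset.sum_neg_distrib]
    apply Finset.sum_congr rfl
    intro r hr
    rw [← hodd]
    congr 1
    have hr' := Finset.mem_range.1 hr
    rw [ZMod.natCast_mod, Nat.cast_sub hr'.le]
    simp
  rw [h2] at h1
  have h3 : (2 : ZMod l) * ∑ r ∈ range q, χ (r : ZMod q) = 0 := by
    linear_combination -h1
  exact (mul_eq_zero.1 h3).resolve_left (two_ne hl)

lemma chi_zero (hl : ¬ l ∣ 6) (hodd : ∀ x, χ (-x) = - χ x) : χ 0 = 0 := by
  have h1 := hodd 0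
  rw [neg_zero] at h1
  have h3 : (2 : ZMod l) * χ 0 = 0 := by linear_combination h1
  exact (mul_eq_zero.1 h3).resolve_left (two_ne hl)

lemma sum_chi_bZ (hq : 0 < q) (hl : ¬ l ∣ 6) (hodd : ∀ x, χ (-x) = - χ x)
    (hsum : ∑ u ∈ range q, (u : ZMod l) * χ (u : ZMod q) = 0) :
    ∑ r ∈ range q, χ (r : ZMod q) * (bZ q r : ZMod l) = 0 := by
  have h1 : ∑ r ∈ range q, χ (r : ZMod q) * (bZ q r : ZMod l)
      = (q : ZMod l) * ∑ r ∈ range q, χ (r : ZMod q)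
        - 2 * ∑ u ∈ range q, (u : ZMod l) * χ (u : ZMod q) := by
    rw [Finset.mul_sum, Finset.mul_sum, ← Finset.sum_sub_distrib]
    apply Finset.sum_congr rfl
    intro r _
    unfold bZ
    split_ifs with h
    · subst h
      simp [chi_zero χ hl hodd]
    · push_cast
      ring
  rw [h1, hsum, sum_chi_zero χ hq hl hodd]
  ring

end mod

/-- **T5** -/
theorem T5 (a t d : ℕ) (ha : 1 ≤ a) (ht : 1 ≤ t)
    (hd : d = ((a ^ 2 + 1) * t + a) ^ 2 + 4 * (1 + a * t)) (h8 : d % 8 = 5)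
    [IsDomain (QuadraticAlgebra ℤ ((1 + a * t : ℕ) : ℤ) (((a ^ 2 + 1) * t + a : ℕ) : ℤ))]
    [UniqueFactorizationMonoid
      (QuadraticAlgebra ℤ ((1 + a * t : ℕ) : ℤ) (((a ^ 2 + 1) * t + a : ℕ) : ℤ))]
    (q l : ℕ) (hq : 0 < q) [Fact l.Prime] (hcop : Nat.Coprime q d) (hl6 : ¬ l ∣ 6)
    (hld : ¬ l ∣ d) (χ : ZMod q → ZMod l)
    (hodd : ∀ x, χ (-x) = - χ x) (hmul : ∀ x y, χ (x * y) = χ x * χ y)
    (hsum : ∑ u ∈ range q, (u : ZMod l) * χ (u : ZMod q) = 0) (m B : ℤ)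
    (hm : m = 1 + a * t) (hB : B = ((a : ℤ) ^ 2 + 1) * t + a) :
    ∑ r ∈ range q, ∑ s ∈ range q,
      χ ((1 * (r : ℤ) ^ 2 + B * r * s - m * (s : ℤ) ^ 2 : ℤ) : ZMod q)
        * (6 * ((bZ q r : ZMod l) * bZ q s) + B * b2Z q s)
    + ∑ r ∈ range q, ∑ s ∈ range q,
      χ ((m * (r : ℤ) ^ 2 + (2 * m * a - B) * r * s - m * (s : ℤ) ^ 2 : ℤ) : ZMod q)
        * (3 * ((bZ q r : ZMod l) * bZ q s))
    - ∑ r ∈ range q, ∑ s ∈ range q,
      χ ((-m * (r : ℤ) ^ 2 + B * r * s - (-1) * (s : ℤ) ^ 2 : ℤ) : ZMod q)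
        * (2 * a * b2Z q s) = 0 := by
  have hd0 : 0 < d := by omega
  have key := real_identity a t d ha ht hd h8 q hq hcop (fun x => ((lift χ x : ℤ) : ℝ))
    (fun x => by simp only [lift_per χ]) (fun x => by
      simp only [lift_odd χ hl6 hodd]; push_cast; ring) m B hm hB
  have i1 := SS_XZ hq (lift χ) 1 B m
  have i2 := SS_XZ hq (lift χ) m (2 * m * a - B) m
  have i3 := MS_YZ hq (lift χ) 1 B m
  have i4 := MS_YZ hq (lift χ) (-m) B (-1)
  have i5 := bb_RZ hq hd0 (lift χ)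
  have hreal : (d : ℝ) * (2 * (6 * (XZ q (lift χ) 1 B m : ℝ)
      + 3 * (XZ q (lift χ) m (2 * m * a - B) m : ℝ)
      + B * (YZ q (lift χ) 1 B m : ℝ) - 2 * a * (YZ q (lift χ) (-m) B (-1) : ℝ)))
      = 3 * (RZ q d (lift χ) : ℝ) := by
    rw [← i1, ← i2, ← i3, ← i4, ← i5, ← key]
    ring
  have hint : (d : ℤ) * (2 * (6 * XZ q (lift χ) 1 B m
      + 3 * XZ q (lift χ) m (2 * m * a - B) m
      + B * YZ q (lift χ) 1 B m - 2 * a * YZ q (lift χ) (-m) B (-1)))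
      = 3 * RZ q d (lift χ) := by
    exact_mod_cast hreal
  have hzmod : (d : ZMod l) * (2 * (6 * (XZ q (lift χ) 1 B m : ZMod l)
      + 3 * (XZ q (lift χ) m (2 * m * a - B) m : ZMod l)
      + B * (YZ q (lift χ) 1 B m : ZMod l) - 2 * a * (YZ q (lift χ) (-m) B (-1) : ZMod l)))
      = 3 * (RZ q d (lift χ) : ZMod l) := by
    have := congrArg (Int.cast : ℤ → ZMod l) hint
    push_cast at this
    exact this
  have hR : (RZ q d (lift χ) : ZMod l) = 0 := by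
    have e : (RZ q d (lift χ) : ZMod l) = (∑ r ∈ range q, χ (r : ZMod q) * (bZ q r : ZMod l)) *
        (∑ s ∈ range (q * d), χ (s : ZMod q) * (jacobiSym s d : ZMod l) * (bZ (q * d) s : ZMod l)) := by
      unfold RZ
      push_cast
      rw [Finset.sum_mul_sum]
      apply Finset.sum_congr rfl
      intro r _
      apply Finset.sum_congr rfl
      intro s _
      rw [lift_cast]
      push_cast
      rw [hmul]
      ring
    rw [e, sum_chi_bZ χ hq hl6 hodd hsum, zero_mul]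
  rw [hR, mul_zero] at hzmod
  have hd' : (d : ZMod l) ≠ 0 := by
    rw [Ne, ZMod.natCast_eq_zero_iff]
    exact hld
  have h1 := (mul_eq_zero.1 ((mul_eq_zero.1 hzmod).resolve_left hd')).resolve_left (two_ne hl6)
  rw [← h1]
  unfold XZ YZ
  push_cast
  simp only [Finset.mul_sum]
  rw [← Finset.sum_add_distrib, ← Finset.sum_sub_distrib, ← Finset.sum_add_distrib,
    ← Finset.sum_add_distrib, ← Finset.sum_sub_distrib]
  apply Finset.sum_congr rfl
  intro r _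
  rw [← Finset.sum_add_distrib, ← Finset.sum_sub_distrib, ← Finset.sum_add_distrib,
    ← Finset.sum_add_distrib, ← Finset.sum_sub_distrib]
  apply Finset.sum_congr rfl
  intro s _
  rw [lift_cast, lift_cast, lift_cast]
  push_cast
  ring

end Pool.Agent.Lib_helper5
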