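import Pool.Agent.Lib_helper5.Half

/-!
The two Frullani type limits.
-/

namespace Pool.Agent.Lib_helper5

open Real MeasureTheory Set Filter Topology
open Finset (range)

lemma le_K_of {u C X : ℝ} (hX : 0 < X) (h1 : u ≤ C * X) (h2 : u ≤ C * (1 / X)) :
    u ≤ (2 * C) * (X / (1 + X ^ 2)) := by
  rw [← mul_div_assoc, le_div_iff₀ (by positivity)]
  have h3 : u * X ^ 2 ≤ C * (1 / X) * X ^ 2 := by gcongr
  have h4 : C * (1 / X) * X ^ 2 = C * X := by field_simp
  nlinarith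

/-- the expansion of a product of two `psi`'s without its singular terms -/
noncomputable def TT (q1 r q2 s : ℕ) (x y : ℝ) : ℝ :=
  Gam ((s : ℝ) / q2) y / x + bet q1 r * bet q2 s + bet q1 r * Gam ((s : ℝ) / q2) y
    + Gam ((r : ℝ) / q1) x / y + Gam ((r : ℝ) / q1) x * bet q2 s
    + Gam ((r : ℝ) / q1) x * Gam ((s : ℝ) / q2) y

lemma FF_eq_TT (q1 q2 : ℕ) (g : ℕ → ℕ → ℝ)
    (hs : ∑ r ∈ range q1, ∑ s ∈ range q2, g r s = 0)
    (hs1 : ∑ r ∈ range q1, ∑ s ∈ range q2, g r s * bet q1 r = 0)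
    (hs2 : ∑ r ∈ range q1, ∑ s ∈ range q2, g r s * bet q2 s = 0)
    (l m : ℝ) :
    FF q1 q2 g l m = ∑ r ∈ range q1, ∑ s ∈ range q2, g r s * TT q1 r q2 s (q1 * l) (q2 * m) := by
  have h1 : FF q1 q2 g l m = (∑ r ∈ range q1, ∑ s ∈ range q2,
        (g r s * TT q1 r q2 s (q1 * l) (q2 * m)))
      + (∑ r ∈ range q1, ∑ s ∈ range q2, g r s) * (1 / (q1 * l) * (1 / (q2 * m)))
      + (∑ r ∈ range q1, ∑ s ∈ range q2, g r s * bet q1 r) * (1 / (q2 * m))
      + (∑ r ∈ range q1, ∑ s ∈ range q2, g r s * bet q2 s) * (1 / (q1 * l)) := by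
    unfold FF
    rw [Finset.sum_mul, Finset.sum_mul, Finset.sum_mul]
    simp only [Finset.sum_mul]
    simp only [← Finset.sum_add_distrib]
    apply Finset.sum_congr rfl
    intro r _
    apply Finset.sum_congr rfl
    intro s _
    unfold psi TT
    ring
  rw [h1, hs, hs1, hs2]
  ring

lemma div_mem01 {q r : ℕ} (hr : r < q) : 0 ≤ (r : ℝ) / q ∧ (r : ℝ) / q ≤ 1 := by
  have hq : (0:ℝ) < q := by exact_mod_cast (Nat.zero_le r).trans_lt hr
  constructor
  · positivity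
  · rw [div_le_one hq]
    exact_mod_cast hr.le

lemma TT_bound {q1 r q2 s : ℕ} (hr : r < q1) (hs : s < q2) {c1 c2 : ℝ} (hc1 : 0 < c1)
    (hc2 : 0 < c2) :
    ∃ C : ℝ, 0 ≤ C ∧ ∀ X x y : ℝ, 0 < X → c1 * X ≤ x → x ≤ c2 * X → c1 * X ≤ y → y ≤ c2 * X →
      |TT q1 r q2 s x y - TT q1 r q2 s (2 * x) (2 * y)| ≤ C * (X / (1 + X ^ 2)) := by
  obtain ⟨h1, h2⟩ := div_mem01 hr
  obtain ⟨h3, h4⟩ := div_mem01 hs
  obtain ⟨C1, hC1, B1⟩ := Gam_bounds h1 h2
  obtain ⟨C2, hC2, B2'⟩ := Gam_bounds h3 h4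
  set θ1 := (r : ℝ) / q1
  set θ2 := (s : ℝ) / q2
  set b1 := bet q1 r
  set b2 := bet q2 s
  -- constants
  refine ⟨2 * (C2 * c2 ^ 2 / c1 + C2 / c1) + 2 * (|b1| * (C2 * c2 + C2 / c1))
    + 2 * (C1 * c2 ^ 2 / c1 + C1 / c1) + 2 * (|b2| * (C1 * c2 + C1 / c1))
    + 2 * (C1 * C2 * c2 + C1 * C2 / c1) + 2 * (C1 * C2 * c2 + C1 * C2 / c1), by positivity, ?_⟩
  intro X x y hX hx1 hx2 hy1 hy2
  have hx : 0 < x := lt_of_lt_of_le (by positivity) hx1
  have hy : 0 < y := lt_of_lt_of_le (by positivity) hy1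
  obtain ⟨a1, a2, a3, a4, a5, a6⟩ := B1 x hx
  obtain ⟨e1, e2, e3, e4, e5, e6⟩ := B2' y hy
  obtain ⟨a1', a2', -, -, -, -⟩ := B1 (2 * x) (by linarith)
  have key : TT q1 r q2 s x y - TT q1 r q2 s (2 * x) (2 * y)
      = (2 * Gam θ2 y - Gam θ2 (2 * y)) / (2 * x) + b1 * (Gam θ2 y - Gam θ2 (2 * y))
        + (2 * Gam θ1 x - Gam θ1 (2 * x)) / (2 * y) + b2 * (Gam θ1 x - Gam θ1 (2 * x))
        + (Gam θ1 x - Gam θ1 (2 * x)) * Gam θ2 y
        + Gam θ1 (2 * x) * (Gam θ2 y - Gam θ2 (2 * y)) := by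
    unfold TT
    simp only [θ1, θ2, b1, b2]
    field_simp
    ring
  rw [key]
  -- bounds of the pieces
  have ix : 1 / x ≤ (1 / c1) * (1 / X) := by
    rw [one_div_mul_one_div]
    exact one_div_le_one_div_of_le (by positivity) hx1
  have iy : 1 / y ≤ (1 / c1) * (1 / X) := by
    rw [one_div_mul_one_div]
    exact one_div_le_one_div_of_le (by positivity) hy1
  have P1 : |(2 * Gam θ2 y - Gam θ2 (2 * y)) / (2 * x)|
      ≤ (2 * (C2 * c2 ^ 2 / c1 + C2 / c1)) * (X / (1 + X ^ 2)) := by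
    rw [abs_div, abs_of_pos (by positivity : 0 < 2 * x)]
    apply le_K_of hX
    · calc |2 * Gam θ2 y - Gam θ2 (2 * y)| / (2 * x) ≤ (C2 * y ^ 2) / (2 * x) := by gcongr
        _ ≤ (C2 * (c2 * X) ^ 2) / (c1 * X) := by
            have h2x : c1 * X ≤ 2 * x := by linarith
            apply div_le_div₀ (by positivity) _ (by positivity) h2x
            gcongr
        _ = (C2 * c2 ^ 2 / c1) * X := by field_simp
        _ ≤ _ := by
            apply mul_le_mul_of_nonneg_right _ hX.le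
            have : 0 ≤ C2 / c1 := by positivity
            linarith
    · calc |2 * Gam θ2 y - Gam θ2 (2 * y)| / (2 * x) ≤ C2 / (2 * x) := by gcongr
        _ ≤ C2 / (c1 * X) := by
            have h2x : c1 * X ≤ 2 * x := by linarith
            exact div_le_div_of_nonneg_left hC2 (by positivity) h2x
        _ = (C2 / c1) * (1 / X) := by field_simp
        _ ≤ _ := by
            apply mul_le_mul_of_nonneg_right _ (by positivity)
            have : 0 ≤ C2 * c2 ^ 2 / c1 := by positivity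
            linarith
  have P3 : |(2 * Gam θ1 x - Gam θ1 (2 * x)) / (2 * y)|
      ≤ (2 * (C1 * c2 ^ 2 / c1 + C1 / c1)) * (X / (1 + X ^ 2)) := by
    rw [abs_div, abs_of_pos (by positivity : 0 < 2 * y)]
    apply le_K_of hX
    · calc |2 * Gam θ1 x - Gam θ1 (2 * x)| / (2 * y) ≤ (C1 * x ^ 2) / (2 * y) := by gcongr
        _ ≤ (C1 * (c2 * X) ^ 2) / (c1 * X) := by
            have h2y : c1 * X ≤ 2 * y := by linarith
            apply div_le_div₀ (by positivity) _ (by positivity) h2y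
            gcongr
        _ = (C1 * c2 ^ 2 / c1) * X := by field_simp
        _ ≤ _ := by
            apply mul_le_mul_of_nonneg_right _ hX.le
            have : 0 ≤ C1 / c1 := by positivity
            linarith
    · calc |2 * Gam θ1 x - Gam θ1 (2 * x)| / (2 * y) ≤ C1 / (2 * y) := by gcongr
        _ ≤ C1 / (c1 * X) := by
            have h2y : c1 * X ≤ 2 * y := by linarith
            exact div_le_div_of_nonneg_left hC1 (by positivity) h2y
        _ = (C1 / c1) * (1 / X) := by field_simp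
        _ ≤ _ := by
            apply mul_le_mul_of_nonneg_right _ (by positivity)
            have : 0 ≤ C1 * c2 ^ 2 / c1 := by positivity
            linarith
  have Q2 : |Gam θ2 y - Gam θ2 (2 * y)| ≤ (2 * (C2 * c2 + C2 / c1)) * (X / (1 + X ^ 2)) := by
    apply le_K_of hX
    · calc |Gam θ2 y - Gam θ2 (2 * y)| ≤ C2 * y := e3
        _ ≤ C2 * (c2 * X) := by gcongr
        _ = (C2 * c2) * X := by ring
        _ ≤ _ := by
            apply mul_le_mul_of_nonneg_right _ hX.le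
            have : 0 ≤ C2 / c1 := by positivity
            linarith
    · calc |Gam θ2 y - Gam θ2 (2 * y)| ≤ C2 * (1 / y) := e4
        _ ≤ C2 * ((1 / c1) * (1 / X)) := by gcongr
        _ = (C2 / c1) * (1 / X) := by ring
        _ ≤ _ := by
            apply mul_le_mul_of_nonneg_right _ (by positivity)
            have : 0 ≤ C2 * c2 := by positivity
            linarith
  have Q1 : |Gam θ1 x - Gam θ1 (2 * x)| ≤ (2 * (C1 * c2 + C1 / c1)) * (X / (1 + X ^ 2)) := by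
    apply le_K_of hX
    · calc |Gam θ1 x - Gam θ1 (2 * x)| ≤ C1 * x := a3
        _ ≤ C1 * (c2 * X) := by gcongr
        _ = (C1 * c2) * X := by ring
        _ ≤ _ := by
            apply mul_le_mul_of_nonneg_right _ hX.le
            have : 0 ≤ C1 / c1 := by positivity
            linarith
    · calc |Gam θ1 x - Gam θ1 (2 * x)| ≤ C1 * (1 / x) := a4
        _ ≤ C1 * ((1 / c1) * (1 / X)) := by gcongr
        _ = (C1 / c1) * (1 / X) := by ring
        _ ≤ _ := by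
            apply mul_le_mul_of_nonneg_right _ (by positivity)
            have : 0 ≤ C1 * c2 := by positivity
            linarith
  have hK : 0 ≤ X / (1 + X ^ 2) := by positivity
  have P2 : |b1 * (Gam θ2 y - Gam θ2 (2 * y))|
      ≤ (2 * (|b1| * (C2 * c2 + C2 / c1))) * (X / (1 + X ^ 2)) := by
    rw [abs_mul]
    calc |b1| * |Gam θ2 y - Gam θ2 (2 * y)|
        ≤ |b1| * ((2 * (C2 * c2 + C2 / c1)) * (X / (1 + X ^ 2))) := by gcongr
      _ = _ := by ring
  have P4 : |b2 * (Gam θ1 x - Gam θ1 (2 * x))|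
      ≤ (2 * (|b2| * (C1 * c2 + C1 / c1))) * (X / (1 + X ^ 2)) := by
    rw [abs_mul]
    calc |b2| * |Gam θ1 x - Gam θ1 (2 * x)|
        ≤ |b2| * ((2 * (C1 * c2 + C1 / c1)) * (X / (1 + X ^ 2))) := by gcongr
      _ = _ := by ring
  have P5 : |(Gam θ1 x - Gam θ1 (2 * x)) * Gam θ2 y|
      ≤ (2 * (C1 * C2 * c2 + C1 * C2 / c1)) * (X / (1 + X ^ 2)) := by
    rw [abs_mul]
    calc |Gam θ1 x - Gam θ1 (2 * x)| * |Gam θ2 y|
        ≤ ((2 * (C1 * c2 + C1 / c1)) * (X / (1 + X ^ 2))) * C2 := by gcongr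
      _ = _ := by ring
  have P6 : |Gam θ1 (2 * x) * (Gam θ2 y - Gam θ2 (2 * y))|
      ≤ (2 * (C1 * C2 * c2 + C1 * C2 / c1)) * (X / (1 + X ^ 2)) := by
    rw [abs_mul]
    calc |Gam θ1 (2 * x)| * |Gam θ2 y - Gam θ2 (2 * y)|
        ≤ C1 * ((2 * (C2 * c2 + C2 / c1)) * (X / (1 + X ^ 2))) := by gcongr
      _ = _ := by ring
  rw [abs_le] at P1 P2 P3 P4 P5 P6 ⊢
  constructor <;> linarith [P1.1, P1.2, P2.1, P2.2, P3.1, P3.2, P4.1, P4.2, P5.1, P5.2, P6.1, P6.2]

end Pool.Agent.Lib_helper5
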