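import Pool.Agent.Lib_helper5.Cone

/-!
The Frullani type limit for a cone.
-/

namespace Pool.Agent.Lib_helper5

open Real MeasureTheory Set Filter Topology
open Finset (range)

lemma FF_diff_bound (q1 q2 : ℕ) (hq1 : 0 < q1) (hq2 : 0 < q2) (g : ℕ → ℕ → ℝ)
    (hs : ∑ r ∈ range q1, ∑ s ∈ range q2, g r s = 0)
    (hs1 : ∑ r ∈ range q1, ∑ s ∈ range q2, g r s * bet q1 r = 0)
    (hs2 : ∑ r ∈ range q1, ∑ s ∈ range q2, g r s * bet q2 s = 0)
    {c1 c2 : ℝ} (hc1 : 0 < c1) (hc2 : 0 < c2) :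
    ∃ C : ℝ, 0 ≤ C ∧ ∀ X l m : ℝ, 0 < X → c1 * X ≤ l → l ≤ c2 * X → c1 * X ≤ m → m ≤ c2 * X →
      |FF q1 q2 g l m - FF q1 q2 g (2 * l) (2 * m)| ≤ C * (X / (1 + X ^ 2)) := by
  have hq1' : (1:ℝ) ≤ q1 := by exact_mod_cast hq1
  have hq2' : (1:ℝ) ≤ q2 := by exact_mod_cast hq2
  have hch : ∀ r s : ℕ, ∃ C : ℝ, 0 ≤ C ∧ (r < q1 → s < q2 → ∀ X x y : ℝ, 0 < X →
      c1 * X ≤ x → x ≤ (c2 * (q1 + q2)) * X → c1 * X ≤ y → y ≤ (c2 * (q1 + q2)) * X →
      |TT q1 r q2 s x y - TT q1 r q2 s (2 * x) (2 * y)| ≤ C * (X / (1 + X ^ 2))) := by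
    intro r s
    by_cases hrs : r < q1 ∧ s < q2
    · obtain ⟨C, hC, h⟩ := TT_bound hrs.1 hrs.2 hc1 (c2 := c2 * (q1 + q2)) (by positivity)
      exact ⟨C, hC, fun _ _ => h⟩
    · exact ⟨0, le_rfl, fun a b => absurd ⟨a, b⟩ hrs⟩
  choose Cf hCf hCb using hch
  refine ⟨∑ r ∈ range q1, ∑ s ∈ range q2, |g r s| * Cf r s, ?_, ?_⟩
  · apply Finset.sum_nonneg
    intro r _
    apply Finset.sum_nonneg
    intro s _
    exact mul_nonneg (abs_nonneg _) (hCf r s)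
  intro X l m hX hl1 hl2 hm1 hm2
  have hl : 0 < l := lt_of_lt_of_le (by positivity) hl1
  have hm : 0 < m := lt_of_lt_of_le (by positivity) hm1
  rw [FF_eq_TT q1 q2 g hs hs1 hs2, FF_eq_TT q1 q2 g hs hs1 hs2, ← Finset.sum_sub_distrib]
  rw [Finset.sum_mul]
  refine (Finset.abs_sum_le_sum_abs _ _).trans (Finset.sum_le_sum ?_)
  intro r hr
  rw [← Finset.sum_sub_distrib, Finset.sum_mul]
  refine (Finset.abs_sum_le_sum_abs _ _).trans (Finset.sum_le_sum ?_)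
  intro s hs'
  rw [← mul_sub, abs_mul, mul_assoc]
  apply mul_le_mul_of_nonneg_left _ (abs_nonneg _)
  rw [show (q1:ℝ) * (2 * l) = 2 * (q1 * l) by ring, show (q2:ℝ) * (2 * m) = 2 * (q2 * m) by ring]
  apply hCb r s (Finset.mem_range.1 hr) (Finset.mem_range.1 hs') X (q1 * l) (q2 * m) hX
  · nlinarith
  · have h5 : (q1:ℝ) * l ≤ q1 * (c2 * X) := by gcongr
    have h6 : 0 ≤ (q2:ℝ) * (c2 * X) := by positivity
    linarith
  · nlinarith
  · have h5 : (q2:ℝ) * m ≤ q2 * (c2 * X) := by gcongr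
    have h6 : 0 ≤ (q1:ℝ) * (c2 * X) := by positivity
    linarith

lemma psi_continuousOn (q r : ℕ) (hq : 0 < q) : ContinuousOn (psi q r) (Ioi 0) := by
  have hq' : (0:ℝ) < q := by exact_mod_cast hq
  unfold psi
  apply ContinuousOn.add
  · apply ContinuousOn.add
    · apply ContinuousOn.div continuousOn_const (by fun_prop)
      intro x hx
      have hx' : 0 < x := hx
      positivity
    · exact continuousOn_const
  · apply (Gam_continuousOn ((r : ℝ) / q)).comp (by fun_prop)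
    intro x hx
    have hx' : 0 < x := hx
    exact mul_pos hq' hx'

lemma FF_continuousOn (q1 q2 : ℕ) (hq1 : 0 < q1) (hq2 : 0 < q2) (g : ℕ → ℕ → ℝ) :
    ContinuousOn (fun p : ℝ × ℝ => FF q1 q2 g p.1 p.2) (Ioi 0 ×ˢ Ioi 0) := by
  unfold FF
  apply continuousOn_finsetSum
  intro r _
  apply continuousOn_finsetSum
  intro s _
  apply ContinuousOn.mul continuousOn_const
  apply ContinuousOn.mul
  · exact (psi_continuousOn q1 r hq1).comp continuousOn_fst (fun p hp => hp.1)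
  · exact (psi_continuousOn q2 s hq2).comp continuousOn_snd (fun p hp => hp.2)

lemma psi_tendsto_atTop (q r : ℕ) (hq : 0 < q) :
    Tendsto (psi q r) atTop (𝓝 (if r = 0 then 1 / 2 else 0)) := by
  have hq' : (0:ℝ) < q := by exact_mod_cast hq
  have h1 : Tendsto (fun t : ℝ => 1 / ((q:ℝ) * t)) atTop (𝓝 0) := by
    apply tendsto_const_nhds.div_atTop
    exact tendsto_id.const_mul_atTop hq'
  have hT : Tendsto (fun t : ℝ => (q:ℝ) * t) atTop atTop := tendsto_id.const_mul_atTop hq'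
  by_cases hr : r = 0
  · subst hr
    have h2 := (h1.add (tendsto_const_nhds (x := bet q 0))).add (Gam_tendsto_atTop_zero.comp hT)
    simp only [Nat.cast_zero, if_true] at h2 ⊢
    have e : (0:ℝ) + bet q 0 + 1 / 2 = 1 / 2 := by simp [bet]
    rw [e] at h2
    refine h2.congr ?_
    intro t
    simp [psi]
  · have hpos : (0:ℝ) < (r : ℝ) / q := by
      have : (0:ℝ) < r := by exact_mod_cast Nat.pos_of_ne_zero hr
      positivity
    have h2 := (h1.add (tendsto_const_nhds (x := bet q r))).add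
      ((Gam_tendsto_atTop hpos).comp hT)
    simp only [hr, if_false]
    have e : (0:ℝ) + bet q r + -(1 / 2 - (r : ℝ) / q) = 0 := by simp [bet, hr]
    rw [e] at h2
    exact h2

lemma FF_tendsto_atTop (q1 q2 : ℕ) (hq1 : 0 < q1) (hq2 : 0 < q2) (g : ℕ → ℕ → ℝ)
    (h00 : g 0 0 = 0) {v w : ℝ} (hv : 0 < v) (hw : 0 < w) :
    Tendsto (fun X => FF q1 q2 g (v * X) (w * X)) atTop (𝓝 0) := by
  have e : (0:ℝ) = ∑ r ∈ range q1, ∑ s ∈ range q2, g r s *
      ((if r = 0 then 1 / 2 else 0) * (if s = 0 then 1 / 2 else 0)) := by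
    symm
    apply Finset.sum_eq_zero
    intro r _
    apply Finset.sum_eq_zero
    intro s _
    by_cases hr : r = 0
    · by_cases hs : s = 0
      · subst hr; subst hs; rw [h00, zero_mul]
      · simp [hs]
    · simp [hr]
  rw [e]
  unfold FF
  apply tendsto_finsetSum
  intro r _
  apply tendsto_finsetSum
  intro s _
  apply Tendsto.const_mul
  exact ((psi_tendsto_atTop q1 r hq1).comp (tendsto_id.const_mul_atTop hv)).mul
    ((psi_tendsto_atTop q2 s hq2).comp (tendsto_id.const_mul_atTop hw))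

lemma tendsto_mul_pos_nhdsGT {c : ℝ} (hc : 0 < c) :
    Tendsto (fun X : ℝ => c * X) (𝓝[>] 0) (𝓝[>] 0) := by
  rw [tendsto_nhdsWithin_iff]
  constructor
  · have : Tendsto (fun Y : ℝ => c * Y) (𝓝 0) (𝓝 (c * 0)) :=
      (continuous_const.mul continuous_id).tendsto 0
    rw [mul_zero] at this
    exact this.mono_left nhdsWithin_le_nhds
  · filter_upwards [self_mem_nhdsWithin] with Y hY
    have hY' : 0 < Y := hY
    exact mul_pos hc hY'

/-- the limit value -/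
noncomputable def aa (q1 q2 : ℕ) (g : ℕ → ℕ → ℝ) (v w : ℝ) : ℝ :=
  ∑ r ∈ range q1, ∑ s ∈ range q2, g r s * (bet q1 r * bet q2 s
    + (q2 * w) / (q1 * v) * (B2 ((s : ℝ) / q2) / 2)
    + (q1 * v) / (q2 * w) * (B2 ((r : ℝ) / q1) / 2))

lemma TT_tendsto {q1 r q2 s : ℕ} (hr : r < q1) (hs : s < q2) {v w : ℝ} (hv : 0 < v)
    (hw : 0 < w) :
    Tendsto (fun X => TT q1 r q2 s (q1 * (v * X)) (q2 * (w * X))) (𝓝[>] 0)
      (𝓝 (bet q1 r * bet q2 s
    + (q2 * w) / (q1 * v) * (B2 ((s : ℝ) / q2) / 2)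
    + (q1 * v) / (q2 * w) * (B2 ((r : ℝ) / q1) / 2))) := by
  have hq1 : (0:ℝ) < q1 := by exact_mod_cast (Nat.zero_le r).trans_lt hr
  have hq2 : (0:ℝ) < q2 := by exact_mod_cast (Nat.zero_le s).trans_lt hs
  obtain ⟨h1, h2⟩ := div_mem01 hr
  obtain ⟨h3, h4⟩ := div_mem01 hs
  have c1 : Tendsto (fun X : ℝ => (q1:ℝ) * (v * X)) (𝓝[>] 0) (𝓝[>] 0) := by
    have := tendsto_mul_pos_nhdsGT (mul_pos hq1 hv)
    simpa only [mul_assoc] using this
  have c2 : Tendsto (fun X : ℝ => (q2:ℝ) * (w * X)) (𝓝[>] 0) (𝓝[>] 0) := by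
    have := tendsto_mul_pos_nhdsGT (mul_pos hq2 hw)
    simpa only [mul_assoc] using this
  have g1 := (Gam_tendsto_zero h1 h2).comp c1
  have g2 := (Gam_tendsto_zero h3 h4).comp c2
  have d1 := (Gam_div_tendsto h1 h2).comp c1
  have d2 := (Gam_div_tendsto h3 h4).comp c2
  have E := (((((d2.const_mul ((q2 * w) / (q1 * v))).add
    (tendsto_const_nhds (x := bet q1 r * bet q2 s))).add (g2.const_mul (bet q1 r))).add
    (d1.const_mul ((q1 * v) / (q2 * w)))).add (g1.mul_const (bet q2 s))).add (g1.mul g2)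
  have e2 : (q2 * w) / (q1 * v) * (B2 ((s : ℝ) / q2) / 2) + bet q1 r * bet q2 s + bet q1 r * 0
      + (q1 * v) / (q2 * w) * (B2 ((r : ℝ) / q1) / 2) + 0 * bet q2 s + 0 * 0
      = bet q1 r * bet q2 s
    + (q2 * w) / (q1 * v) * (B2 ((s : ℝ) / q2) / 2)
    + (q1 * v) / (q2 * w) * (B2 ((r : ℝ) / q1) / 2) := by ring
  rw [e2] at E
  refine E.congr' ?_
  filter_upwards [self_mem_nhdsWithin] with X hX
  have hX' : 0 < X := hX
  unfold TT
  simp only [Function.comp]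
  have e3 : (q2:ℝ) * w / (q1 * v) * (Gam ((s : ℝ) / q2) (q2 * (w * X)) / (q2 * (w * X)))
      = Gam ((s : ℝ) / q2) (q2 * (w * X)) / (q1 * (v * X)) := by
    field_simp
  have e4 : (q1:ℝ) * v / (q2 * w) * (Gam ((r : ℝ) / q1) (q1 * (v * X)) / (q1 * (v * X)))
      = Gam ((r : ℝ) / q1) (q1 * (v * X)) / (q2 * (w * X)) := by
    field_simp
  rw [e3, e4]

lemma FF_tendsto_zero (q1 q2 : ℕ) (g : ℕ → ℕ → ℝ)
    (hs : ∑ r ∈ range q1, ∑ s ∈ range q2, g r s = 0)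
    (hs1 : ∑ r ∈ range q1, ∑ s ∈ range q2, g r s * bet q1 r = 0)
    (hs2 : ∑ r ∈ range q1, ∑ s ∈ range q2, g r s * bet q2 s = 0)
    {v w : ℝ} (hv : 0 < v) (hw : 0 < w) :
    Tendsto (fun X => FF q1 q2 g (v * X) (w * X)) (𝓝[>] 0) (𝓝 (aa q1 q2 g v w)) := by
  simp_rw [FF_eq_TT q1 q2 g hs hs1 hs2]
  unfold aa
  apply tendsto_finsetSum
  intro r hr
  apply tendsto_finsetSum
  intro s hs'
  apply Tendsto.const_mul
  exact TT_tendsto (Finset.mem_range.1 hr) (Finset.mem_range.1 hs') hv hw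

end Pool.Agent.Lib_helper5
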