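import Pool.Agent.Lib_helper5.Cone2

/-!
The Frullani type limit for a cone.
-/

namespace Pool.Agent.Lib_helper5

open Real MeasureTheory Set Filter Topology
open Finset (range)

attribute [local irreducible] FF

/-- the generating function along the rays -/
noncomputable def PhiC (q1 q2 : ℕ) (g : ℕ → ℕ → ℝ) (v w v' w' X Y : ℝ) : ℝ :=
  FF q1 q2 g (v * X + v' * Y) (w * X + w' * Y)

lemma PhiC_swap (q1 q2 : ℕ) (g : ℕ → ℕ → ℝ) (v w v' w' X Y : ℝ) :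
    PhiC q1 q2 g v w v' w' X Y = PhiC q1 q2 g v' w' v w Y X := by
  unfold PhiC
  rw [add_comm (v * X), add_comm (w * X)]

lemma PhiC_two (q1 q2 : ℕ) (g : ℕ → ℕ → ℝ) (v w v' w' X Y : ℝ) :
    PhiC q1 q2 g v w v' w' (2 * X) (2 * Y)
      = FF q1 q2 g (2 * (v * X + v' * Y)) (2 * (w * X + w' * Y)) := by
  unfold PhiC
  rw [show v * (2 * X) + v' * (2 * Y) = 2 * (v * X + v' * Y) by ring,
        show w * (2 * X) + w' * (2 * Y) = 2 * (w * X + w' * Y) by ring]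

lemma PhiC_continuousOn (q1 q2 : ℕ) (hq1 : 0 < q1) (hq2 : 0 < q2) (g : ℕ → ℕ → ℝ)
    {v w v' w' : ℝ} (hv : 0 < v) (hw : 0 < w) (hv' : 0 < v') (hw' : 0 < w') :
    ContinuousOn (fun p : ℝ × ℝ => PhiC q1 q2 g v w v' w' p.1 p.2) (Ioi 0 ×ˢ Ioi 0) := by
  have hFc := FF_continuousOn q1 q2 hq1 hq2 g
  have hmap : MapsTo (fun p : ℝ × ℝ => (v * p.1 + v' * p.2, w * p.1 + w' * p.2))
      (Ioi 0 ×ˢ Ioi 0) (Ioi 0 ×ˢ Ioi 0) := by
    intro p hp
    have h1 : 0 < p.1 := hp.1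
    have h2 : 0 < p.2 := hp.2
    have h3 : 0 < v * p.1 + v' * p.2 := by positivity
    have h4 : 0 < w * p.1 + w' * p.2 := by positivity
    exact ⟨h3, h4⟩
  have hc : ContinuousOn (fun p : ℝ × ℝ => (v * p.1 + v' * p.2, w * p.1 + w' * p.2))
      (Ioi 0 ×ˢ Ioi 0) := by
    apply Continuous.continuousOn
    fun_prop
  exact hFc.comp hc hmap

lemma PhiC_tendsto (q1 q2 : ℕ) (hq1 : 0 < q1) (hq2 : 0 < q2) (g : ℕ → ℕ → ℝ)
    {v w v' w' : ℝ} (hv : 0 < v) (hw : 0 < w) (X : ℝ) (hX : 0 < X) :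
    Tendsto (fun Y => PhiC q1 q2 g v w v' w' X Y) (𝓝[>] 0) (𝓝 (FF q1 q2 g (v * X) (w * X))) := by
  have hFc := FF_continuousOn q1 q2 hq1 hq2 g
  have hc : ContinuousAt (fun p : ℝ × ℝ => FF q1 q2 g p.1 p.2) (v * X, w * X) := by
    apply hFc.continuousAt
    apply prod_mem_nhds
    · exact Ioi_mem_nhds (mul_pos hv hX)
    · exact Ioi_mem_nhds (mul_pos hw hX)
  have ht : Tendsto (fun Y : ℝ => (v * X + v' * Y, w * X + w' * Y)) (𝓝[>] 0)
      (𝓝 (v * X, w * X)) := by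
    have : Tendsto (fun Y : ℝ => (v * X + v' * Y, w * X + w' * Y)) (𝓝 0)
        (𝓝 (v * X + v' * 0, w * X + w' * 0)) := by
      apply Continuous.tendsto
      fun_prop
    simp only [mul_zero, add_zero] at this
    exact this.mono_left nhdsWithin_le_nhds
  exact hc.tendsto.comp ht

lemma FFray_continuousOn (q1 q2 : ℕ) (hq1 : 0 < q1) (hq2 : 0 < q2) (g : ℕ → ℕ → ℝ)
    {v w : ℝ} (hv : 0 < v) (hw : 0 < w) :
    ContinuousOn (fun X => FF q1 q2 g (v * X) (w * X)) (Ioi 0) := by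
  have hFc := FF_continuousOn q1 q2 hq1 hq2 g
  have hc : ContinuousOn (fun X : ℝ => (v * X, w * X)) (Ioi 0) := by
    apply Continuous.continuousOn
    fun_prop
  refine hFc.comp hc ?_
  intro X hX
  have hX' : 0 < X := hX
  exact ⟨mul_pos hv hX', mul_pos hw hX'⟩

lemma PhiC_bound (q1 q2 : ℕ) (hq1 : 0 < q1) (hq2 : 0 < q2) (g : ℕ → ℕ → ℝ)
    (hs : ∑ r ∈ range q1, ∑ s ∈ range q2, g r s = 0)
    (hs1 : ∑ r ∈ range q1, ∑ s ∈ range q2, g r s * bet q1 r = 0)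
    (hs2 : ∑ r ∈ range q1, ∑ s ∈ range q2, g r s * bet q2 s = 0)
    {v w v' w' : ℝ} (hv : 0 < v) (hw : 0 < w) (hv' : 0 < v') (hw' : 0 < w') :
    ∃ C : ℝ, 0 ≤ C ∧ ∀ X Y : ℝ, 0 < X → 0 < Y → Y ≤ X →
      |PhiC q1 q2 g v w v' w' X Y - PhiC q1 q2 g v w v' w' (2 * X) (2 * Y)|
        ≤ C * (X / (1 + X ^ 2)) := by
  have hc1 : 0 < min v w := lt_min hv hw
  have hc2 : 0 < v + w + v' + w' := by positivity
  obtain ⟨C, hC, hb⟩ := FF_diff_bound q1 q2 hq1 hq2 g hs hs1 hs2 hc1 hc2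
  refine ⟨C, hC, fun X Y hX hY hYX => ?_⟩
  rw [PhiC_two]
  unfold PhiC
  have m1 : min v w ≤ v := min_le_left _ _
  have m2 : min v w ≤ w := min_le_right _ _
  have vY := mul_pos hv' hY
  have wY := mul_pos hw' hY
  have vX := mul_pos hv hX
  have wX := mul_pos hw hX
  have vX' := mul_pos hv' hX
  have wX' := mul_pos hw' hX
  apply hb X _ _ hX
  · have := mul_le_mul_of_nonneg_right m1 hX.le
    linarith
  · have := mul_le_mul_of_nonneg_left hYX hv'.le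
    linarith
  · have := mul_le_mul_of_nonneg_right m2 hX.le
    linarith
  · have := mul_le_mul_of_nonneg_left hYX hw'.le
    linarith

theorem cone_limit (q1 q2 : ℕ) (hq1 : 0 < q1) (hq2 : 0 < q2) (g : ℕ → ℕ → ℝ)
    (hs : ∑ r ∈ range q1, ∑ s ∈ range q2, g r s = 0)
    (hs1 : ∑ r ∈ range q1, ∑ s ∈ range q2, g r s * bet q1 r = 0)
    (hs2 : ∑ r ∈ range q1, ∑ s ∈ range q2, g r s * bet q2 s = 0)
    (h00 : g 0 0 = 0) {v w v' w' : ℝ} (hv : 0 < v) (hw : 0 < w) (hv' : 0 < v') (hw' : 0 < w') :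
    Tendsto (fun τ => ∫ X in Ioi (0:ℝ), X⁻¹ *
      GG q1 q2 g (v * X + v' * (τ / X)) (w * X + w' * (τ / X)))
      (𝓝[>] 0) (𝓝 (log 2 * (aa q1 q2 g v w + aa q1 q2 g v' w'))) := by
  obtain ⟨C1, hC1, hb1⟩ := PhiC_bound q1 q2 hq1 hq2 g hs hs1 hs2 hv hw hv' hw'
  obtain ⟨C2, hC2, hb2⟩ := PhiC_bound q1 q2 hq1 hq2 g hs hs1 hs2 hv' hw' hv hw
  have key := full_limit (PhiC q1 q2 g v w v' w')
    (fun X => FF q1 q2 g (v * X) (w * X)) (fun Y => FF q1 q2 g (v' * Y) (w' * Y)) (C1 + C2)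
    (aa q1 q2 g v w) (aa q1 q2 g v' w')
    (PhiC_continuousOn q1 q2 hq1 hq2 g hv hw hv' hw')
    (fun X hX => PhiC_tendsto q1 q2 hq1 hq2 g hv hw X hX)
    (fun Y hY => by
      have := PhiC_tendsto q1 q2 hq1 hq2 g hv' hw' (v' := v) (w' := w) Y hY
      simpa only [PhiC_swap q1 q2 g v' w' v w] using this)
    (fun X Y hX hY hYX _ => by
      refine (hb1 X Y hX hY hYX).trans ?_
      have : 0 ≤ X / (1 + X ^ 2) := by positivity
      nlinarith)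
    (fun X Y hX hY hXY _ => by
      have h := hb2 Y X hY hX hXY
      rw [PhiC_swap q1 q2 g v' w' v w, PhiC_swap q1 q2 g v' w' v w (2 * Y)] at h
      refine h.trans ?_
      have : 0 ≤ Y / (1 + Y ^ 2) := by positivity
      nlinarith)
    (FFray_continuousOn q1 q2 hq1 hq2 g hv hw)
    (FFray_continuousOn q1 q2 hq1 hq2 g hv' hw')
    (FF_tendsto_zero q1 q2 g hs hs1 hs2 hv hw) (FF_tendsto_atTop q1 q2 hq1 hq2 g h00 hv hw)
    (FF_tendsto_zero q1 q2 g hs hs1 hs2 hv' hw') (FF_tendsto_atTop q1 q2 hq1 hq2 g h00 hv' hw')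
  refine key.congr (fun τ => ?_)
  have : ∀ X : ℝ, X⁻¹ * (PhiC q1 q2 g v w v' w' X (τ / X)
      - PhiC q1 q2 g v w v' w' (2 * X) (2 * (τ / X)))
      = X⁻¹ * GG q1 q2 g (v * X + v' * (τ / X)) (w * X + w' * (τ / X)) := by
    intro X
    rw [PhiC_two]
    rfl
  simp_rw [this]

end Pool.Agent.Lib_helper5
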