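import Pool.Agent.Lib_helper5.ConesGen

/-!
Counting classes of associates by a cycle of even length.
-/

namespace Pool.Agent.Lib_helper5

open Finset (range)
open Pool.Agent.LibH4

namespace CG

variable {m B : ℤ} {K : ℕ} {P R S : ℕ → ℤ} {c : ℕ → ℕ}

lemma s1_zpow (hm : 0 < m) (v : (QuadraticAlgebra ℤ m B)ˣ) (k : ℤ) :
    s1 hm ((v ^ k : (QuadraticAlgebra ℤ m B)ˣ) : QuadraticAlgebra ℤ m B)
      = (s1 hm (v : QuadraticAlgebra ℤ m B)) ^ k := by
  have h := map_zpow (Units.map ((s1 hm : QuadraticAlgebra ℤ m B →ₐ[ℤ] ℝ) :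
    QuadraticAlgebra ℤ m B →* ℝ)) v k
  have h' := congrArg (fun u : ℝˣ => (u : ℝ)) h
  simp only [Units.val_zpow_eq_zpow_val] at h'
  exact h'

lemma s2_zpow (hm : 0 < m) (v : (QuadraticAlgebra ℤ m B)ˣ) (k : ℤ) :
    s2 hm ((v ^ k : (QuadraticAlgebra ℤ m B)ˣ) : QuadraticAlgebra ℤ m B)
      = (s2 hm (v : QuadraticAlgebra ℤ m B)) ^ k := by
  have h := map_zpow (Units.map ((s2 hm : QuadraticAlgebra ℤ m B →ₐ[ℤ] ℝ) :
    QuadraticAlgebra ℤ m B →* ℝ)) v k
  have h' := congrArg (fun u : ℝˣ => (u : ℝ)) h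
  simp only [Units.val_zpow_eq_zpow_val] at h'
  exact h'

lemma exists_in_cone (hm : 0 < m) (σ : ℝ) (u : (QuadraticAlgebra ℤ m B)ˣ)
    (hu1 : 0 < s1 hm (u : QuadraticAlgebra ℤ m B)) (hu2 : 0 < s2 hm (u : QuadraticAlgebra ℤ m B))
    (hul : sl hm 1 (u : QuadraticAlgebra ℤ m B) < 1) (v : QuadraticAlgebra ℤ m B)
    (hv1 : 0 < s1 hm v) (hv2 : 0 < σ * s2 hm v) (β : QuadraticAlgebra ℤ m B)
    (h1 : 0 < s1 hm β) (h2 : 0 < σ * s2 hm β) :
    ∃ γ ∈ cone hm σ v (u * v), Associated γ β := by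
  have hl0 : 0 < sl hm 1 (u : QuadraticAlgebra ℤ m B) := by
    unfold sl; rw [one_mul]; exact div_pos hu1 hu2
  set l := sl hm 1 (u : QuadraticAlgebra ℤ m B) with hl
  have hsb0 : 0 < sl hm σ β / sl hm σ v := div_pos (div_pos h1 h2) (div_pos hv1 hv2)
  have hv0 : 0 < sl hm σ v := div_pos hv1 hv2
  have hy : 1 < l⁻¹ := (one_lt_inv₀ hl0).mpr hul
  obtain ⟨n, hn1, hn2⟩ := exists_mem_Ioc_zpow hsb0 hy
  refine ⟨β * ((u ^ (n + 1) : (QuadraticAlgebra ℤ m B)ˣ) : QuadraticAlgebra ℤ m B), ?_,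
    associated_mul_unit_left β _ (Units.isUnit _)⟩
  have f1 : s1 hm (β * ((u ^ (n + 1) : (QuadraticAlgebra ℤ m B)ˣ) : QuadraticAlgebra ℤ m B)) =
      s1 hm β * (s1 hm (u : QuadraticAlgebra ℤ m B)) ^ (n + 1) := by rw [map_mul, s1_zpow]
  have f2 : s2 hm (β * ((u ^ (n + 1) : (QuadraticAlgebra ℤ m B)ˣ) : QuadraticAlgebra ℤ m B)) =
      s2 hm β * (s2 hm (u : QuadraticAlgebra ℤ m B)) ^ (n + 1) := by rw [map_mul, s2_zpow]
  have hu1' : 0 < (s1 hm (u : QuadraticAlgebra ℤ m B)) ^ (n + 1) := by positivity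
  have hu2' : 0 < (s2 hm (u : QuadraticAlgebra ℤ m B)) ^ (n + 1) := by positivity
  have f3 : sl hm σ (β * ((u ^ (n + 1) : (QuadraticAlgebra ℤ m B)ˣ) : QuadraticAlgebra ℤ m B)) =
      sl hm σ β * l ^ (n + 1) := by
    rw [hl]
    unfold sl
    rw [f1, f2, one_mul, div_zpow, ← mul_assoc, div_mul_div_comm]
  have f4 : sl hm σ ((u : QuadraticAlgebra ℤ m B) * v) = l * sl hm σ v := by
    rw [hl]
    unfold sl
    rw [map_mul, map_mul, one_mul, div_mul_div_comm]
    congr 1
    ring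
  have hk : 0 < l ^ (n + 1) := by positivity
  refine ⟨⟨?_, ?_⟩, ?_, ?_⟩
  · rw [f1]; exact mul_pos h1 hu1'
  · rw [f2, ← mul_assoc]; exact mul_pos h2 hu2'
  · rw [f3, f4]
    rw [lt_div_iff₀ hv0] at hn1
    have := mul_lt_mul_of_pos_right hn1 hk
    rw [inv_zpow, zpow_add₀ hl0.ne', zpow_one] at this
    have e : (l ^ n)⁻¹ * sl hm σ v * (l ^ n * l) = l * sl hm σ v := by
      field_simp
    rw [e] at this
    rwa [zpow_add₀ hl0.ne', zpow_one]
  · rw [f3]
    rw [div_le_iff₀ hv0] at hn2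
    have := mul_le_mul_of_nonneg_right hn2 hk.le
    rw [inv_zpow] at this
    have e : (l ^ (n + 1))⁻¹ * sl hm σ v * l ^ (n + 1) = sl hm σ v := by
      field_simp
    rw [e] at this
    exact this

lemma edgeSet_one {P R S : ℤ} {c : ℕ} (hc : 0 < c) (hP : 0 < P) (hS : 0 < S)
    (hA : 0 < P + R * c - S * (c : ℤ) ^ 2) :
    edgeSet P R S c 1 = if P = 1 then {((1 : ℕ), (0 : ℕ))} else ∅ := by
  ext ⟨x, y⟩
  simp only [edgeSet, Set.mem_ofPred_eq]
  constructor
  · rintro ⟨h1, h2, h3⟩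
    have h2' : (y : ℤ) < c * x := by exact_mod_cast h2
    have h1' : (1 : ℤ) ≤ x := by exact_mod_cast h1
    have hp := form_pos hc hP hS hA (x := x) (y := y) (by positivity) h2'.le
    rw [h3] at hp
    have hy : y = 0 := by
      by_contra hy
      have hy' : (1 : ℤ) ≤ y := by
        have : 1 ≤ y := Nat.pos_of_ne_zero hy
        exact_mod_cast this
      have h5 : (1 : ℤ) ≤ S * (y * (c * x - y)) := by
        have h6 : (1 : ℤ) ≤ c * x - y := by linarith
        have h7 : (1 : ℤ) ≤ y * (c * x - y) := by nlinarith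
        nlinarith
      have : (1 : ℤ) ≤ (x : ℤ) ^ 2 := by nlinarith
      have hone : ((1 : ℕ) : ℤ) = 1 := rfl
      rw [hone] at hp
      linarith
    subst hy
    have hone : ((1 : ℕ) : ℤ) = 1 := rfl
    rw [hone] at hp h3
    simp only [Nat.cast_zero, mul_zero, zero_mul, add_zero] at hp h3
    have hx : x = 1 := by
      have : (x : ℤ) = 1 := by nlinarith
      exact_mod_cast this
    subst hx
    have hP1 : P = 1 := by
      simp only [Nat.cast_one, one_pow, mul_one] at h3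
      linarith
    rw [if_pos hP1]
    rfl
  · intro hmem
    by_cases hP1 : P = 1
    · rw [if_pos hP1] at hmem
      have := Set.mem_singleton_iff.1 hmem
      rw [Prod.mk.injEq] at this
      obtain ⟨rfl, rfl⟩ := this
      refine ⟨le_rfl, by omega, ?_⟩
      rw [hP1]; simp
    · rw [if_neg hP1] at hmem
      exact absurd hmem (Set.notMem_empty _)

section even

variable (hm : 0 < m) (h : CycM m B K P R S c) (J : ℕ) (hK : K = 2 * J) (hJ : 0 < J)
  (hcl : rho m B c K = rho m B c (K + 1) * om m B) (hP1 : ∀ k < K, k ≠ 1 → P k ≠ 1)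

lemma sg_one : sg 1 = 1 := by unfold sg; norm_num
lemma sg_zero : sg 0 = -1 := by unfold sg; norm_num

include h hK hJ hP1 in
/-- the only element of absolute norm one in the positive domain is `1` -/
lemma pos_one (w : QuadraticAlgebra ℤ m B)
    (hw : w ∈ cone hm 1 1 (rho m B c (K + 1))) (hN : w.norm.natAbs = 1) : w = 1 := by
  have e1 : 1 + 2 * J = K + 1 := by omega
  have hch := Gs_chain hm h 1 J (by omega) 1
  rw [e1, sg_one, rho_one] at hch
  obtain ⟨hfin, hcard⟩ := hch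
  have hsum : ∑ i ∈ range J, (edgeSet (P (1 + 2 * i)) (R (1 + 2 * i)) (S (1 + 2 * i))
        (c (1 + 2 * i)) 1).ncard = 1 := by
    rw [Finset.sum_eq_single_of_mem 0 (Finset.mem_range.2 hJ)]
    · rw [mul_zero, add_zero, edgeSet_one (h.cpos 1 (by omega)) (h.Ppos (by omega))
        (h.Spos 1 (by omega)) (hAend h 1 (by omega)), if_pos]
      · exact Set.ncard_singleton _
      · rw [h.hP 0 (by omega), h.S1]
    · intro i hi hi0
      have hi' := Finset.mem_range.1 hi
      rw [edgeSet_one (h.cpos _ (by omega)) (h.Ppos (by omega))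
        (h.Spos _ (by omega)) (hAend h _ (by omega)), if_neg (hP1 _ (by omega) (by omega))]
      exact Set.ncard_empty _
  rw [hsum, Set.ncard_eq_one] at hcard
  obtain ⟨z, hz⟩ := hcard
  have m1 : w ∈ Gs hm 1 1 (rho m B c (K + 1)) 1 := ⟨hw, hN⟩
  have hlt : sl hm 1 (rho m B c (K + 1)) < sl hm 1 (1 : QuadraticAlgebra ℤ m B) := by
    have a1 := sl_chain hm h 3 (J - 1) (by omega)
    have a2 := sl_step hm h 1 (by omega)
    rw [show 3 + 2 * (J - 1) = K + 1 by omega] at a1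
    have : sg 3 = 1 := by unfold sg; norm_num
    rw [this] at a1
    rw [sg_one, rho_one] at a2
    linarith
  have m2 : (1 : QuadraticAlgebra ℤ m B) ∈ Gs hm 1 1 (rho m B c (K + 1)) 1 := by
    refine ⟨⟨⟨?_, ?_⟩, hlt, le_rfl⟩, ?_⟩
    · simp
    · simp
    · simp
  rw [hz, Set.mem_singleton_iff] at m1 m2
  rw [m1, m2]

include h hK hP1 in
/-- no element of absolute norm one in the negative domain -/
lemma neg_none (w : QuadraticAlgebra ℤ m B)
    (hw : w ∈ cone hm (-1) (om m B) (rho m B c K)) : w.norm.natAbs ≠ 1 := by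
  intro hN
  have hch := Gs_chain hm h 0 J (by omega) 1
  rw [zero_add, ← hK, sg_zero, rho_zero] at hch
  obtain ⟨hfin, hcard⟩ := hch
  have hsum : ∑ i ∈ range J, (edgeSet (P (0 + 2 * i)) (R (0 + 2 * i)) (S (0 + 2 * i))
        (c (0 + 2 * i)) 1).ncard = 0 := by
    apply Finset.sum_eq_zero
    intro i hi
    have hi' := Finset.mem_range.1 hi
    rw [edgeSet_one (h.cpos _ (by omega)) (h.Ppos (by omega))
        (h.Spos _ (by omega)) (hAend h _ (by omega)), if_neg (hP1 _ (by omega) (by omega))]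
    exact Set.ncard_empty _
  rw [hsum, Set.ncard_eq_zero hfin] at hcard
  have m1 : w ∈ Gs hm (-1) (om m B) (rho m B c K) 1 := ⟨hw, hN⟩
  rw [hcard] at m1
  exact m1

include h hK in
lemma norm_u : (rho m B c (K + 1)).norm = 1 := by
  rw [norm_rho h K le_rfl, h.S0, h.S1, hK, pow_mul]
  norm_num

include h hK in
lemma isUnit_u : IsUnit (rho m B c (K + 1)) := by
  rw [QuadraticAlgebra.isUnit_iff_norm_isUnit, norm_u h J hK]
  exact isUnit_one

lemma unit_norm (w : (QuadraticAlgebra ℤ m B)ˣ) :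
    (w : QuadraticAlgebra ℤ m B).norm.natAbs = 1 := by
  have h := QuadraticAlgebra.isUnit_iff_norm_isUnit.mp w.isUnit
  rwa [Int.isUnit_iff_natAbs_eq] at h

include h hK hJ hP1 in
/-- uniqueness in a cone -/
lemma unique_aux (σ : ℝ) (v β γ : QuadraticAlgebra ℤ m B) (hσ : σ ≠ 0)
    (hβ : β ∈ cone hm σ v (rho m B c (K + 1) * v)) (hγ : γ ∈ cone hm σ v (rho m B c (K + 1) * v))
    (hv1 : 0 < s1 hm v) (hv2 : 0 < σ * s2 hm v)
    (w : (QuadraticAlgebra ℤ m B)ˣ) (hw : β * w = γ) (hle : sl hm σ γ ≤ sl hm σ β) : β = γ := by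
  obtain ⟨⟨b1, b2⟩, b3, b4⟩ := hβ
  obtain ⟨⟨c1, c2⟩, c3, c4⟩ := hγ
  have e1 : s1 hm β * s1 hm (w : QuadraticAlgebra ℤ m B) = s1 hm γ := by rw [← map_mul, hw]
  have e2 : (σ * s2 hm β) * s2 hm (w : QuadraticAlgebra ℤ m B) = σ * s2 hm γ := by
    rw [mul_assoc, ← map_mul, hw]
  have hw1 : 0 < s1 hm (w : QuadraticAlgebra ℤ m B) := by
    rw [← e1] at c1
    exact (mul_pos_iff_of_pos_left b1).mp c1
  have hw2 : 0 < s2 hm (w : QuadraticAlgebra ℤ m B) := by
    rw [← e2] at c2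
    exact (mul_pos_iff_of_pos_left b2).mp c2
  have hsl : sl hm σ β * sl hm 1 (w : QuadraticAlgebra ℤ m B) = sl hm σ γ := by
    unfold sl
    rw [← e1, ← e2, one_mul, div_mul_div_comm]
  have hslv : sl hm σ (rho m B c (K + 1) * v) = sl hm 1 (rho m B c (K + 1)) * sl hm σ v := by
    unfold sl
    rw [map_mul, map_mul, one_mul, div_mul_div_comm]
    congr 1
    ring
  have hb0 : 0 < sl hm σ β := div_pos b1 b2
  have hv0 : 0 < sl hm σ v := div_pos hv1 hv2
  have hu1 := s1_rho hm h (K + 1) le_rfl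
  have hu2 := (s2_rho (B := B) hm c K).2
  have hsgK : sg (K + 1) = 1 := by
    rw [hK, add_comm, sg_even, sg_one]
  rw [hsgK, one_mul] at hu2
  have hu0 : 0 < sl hm 1 (rho m B c (K + 1)) := by
    unfold sl; rw [one_mul]; exact div_pos hu1 hu2
  have hmem : (w : QuadraticAlgebra ℤ m B) ∈ cone hm 1 1 (rho m B c (K + 1)) := by
    refine ⟨⟨hw1, by rw [one_mul]; exact hw2⟩, ?_, ?_⟩
    · rw [hslv, ← hsl] at c3
      by_contra hgt
      push Not at hgt
      have h0 : 0 ≤ sl hm 1 (w : QuadraticAlgebra ℤ m B) := by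
        unfold sl; rw [one_mul]; exact (div_pos hw1 hw2).le
      have : sl hm σ β * sl hm 1 (w : QuadraticAlgebra ℤ m B)
          ≤ sl hm σ v * sl hm 1 (rho m B c (K + 1)) := mul_le_mul b4 hgt h0 hv0.le
      linarith
    · rw [← hsl] at hle
      have : sl hm 1 (1 : QuadraticAlgebra ℤ m B) = 1 := by simp [sl]
      rw [this]
      by_contra hgt
      push Not at hgt
      nlinarith
  have := pos_one hm h J hK hJ hP1 (w : QuadraticAlgebra ℤ m B) hmem (unit_norm w)
  rw [← hw, this, mul_one]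

include hm h hK hJ hP1 hcl in
/-- **cone count for even cycles** -/
theorem count_even (n : ℕ) (hn : n ≠ 0) :
    (SN m B n).ncard = ∑ k ∈ range K, (edgeSet (P k) (R k) (S k) (c k) n).ncard := by
  obtain ⟨u, hu⟩ := isUnit_u h J hK
  have hu1 : 0 < s1 hm (u : QuadraticAlgebra ℤ m B) := by
    rw [hu]; exact s1_rho hm h (K + 1) le_rfl
  have hsgK : sg (K + 1) = 1 := by
    rw [hK, add_comm, sg_even, sg_one]
  have hu2 : 0 < s2 hm (u : QuadraticAlgebra ℤ m B) := by
    rw [hu]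
    have := (s2_rho (B := B) hm c K).2
    rwa [hsgK, one_mul] at this
  have hul : sl hm 1 (u : QuadraticAlgebra ℤ m B) < 1 := by
    have a1 := sl_chain hm h 3 (J - 1) (by omega)
    have a2 := sl_step hm h 1 (by omega)
    rw [show 3 + 2 * (J - 1) = K + 1 by omega] at a1
    have h3 : sg 3 = 1 := by unfold sg; norm_num
    rw [h3] at a1
    rw [sg_one, rho_one] at a2
    have h4 : sl hm 1 (1 : QuadraticAlgebra ℤ m B) = 1 := by simp [sl]
    rw [hu]
    linarith
  have hom1 : 0 < s1 hm (om m B) := by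
    have := s1_rho hm h 0 (by omega)
    rwa [rho_zero] at this
  have hom2 : 0 < (-1 : ℝ) * s2 hm (om m B) := by
    have := (s2_rho (B := B) hm c 0).1
    rwa [rho_zero, sg_zero] at this
  have hone1 : 0 < s1 hm (1 : QuadraticAlgebra ℤ m B) := by simp
  have hone2 : 0 < (1 : ℝ) * s2 hm (1 : QuadraticAlgebra ℤ m B) := by simp
  -- the two sets
  have chP := Gs_chain hm h 1 J (by omega) n
  rw [show 1 + 2 * J = K + 1 by omega, sg_one, rho_one] at chP
  have chN := Gs_chain hm h 0 J (by omega) n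
  rw [zero_add, ← hK, sg_zero, rho_zero] at chN
  obtain ⟨fP, nP⟩ := chP
  obtain ⟨fN, nN⟩ := chN
  set GP := Gs hm 1 1 (rho m B c (K + 1)) n with hGP
  set GN := Gs hm (-1) (om m B) (rho m B c K) n with hGN
  have hdisj : Disjoint GP GN := by
    rw [Set.disjoint_left]
    rintro β ⟨⟨⟨_, h1⟩, _⟩, _⟩ ⟨⟨⟨_, h2⟩, _⟩, _⟩
    linarith
  have himg : Associates.mk '' (GP ∪ GN) = SN m B n := by
    ext x
    constructor
    · rintro ⟨β, hβ, rfl⟩
      change absN _ = n
      rw [absN_mk]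
      rcases hβ with hβ | hβ
      · exact hβ.2
      · exact hβ.2
    · intro hx
      obtain ⟨β, rfl⟩ := Associates.mk_surjective x
      have hx' : β.norm.natAbs = n := hx
      have hne : s1 hm β * s2 hm β ≠ 0 := by
        rw [← norm_eq]
        intro h0
        have h1 : β.norm = 0 := by exact_mod_cast h0
        rw [h1] at hx'
        exact hn (by simpa using hx'.symm)
      have hne1 : s1 hm β ≠ 0 := left_ne_zero_of_mul hne
      have hne2 : s2 hm β ≠ 0 := right_ne_zero_of_mul hne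
      obtain ⟨β', hβ', hassoc, hne2'⟩ : ∃ β', 0 < s1 hm β' ∧ Associated β' β ∧
          s2 hm β' ≠ 0 := by
        rcases lt_or_gt_of_ne hne1 with h | h
        · refine ⟨-β, ?_, (Associated.refl β).neg_left, ?_⟩
          · rw [map_neg]; linarith
          · rw [map_neg]; exact neg_ne_zero.mpr hne2
        · exact ⟨β, h, Associated.refl β, hne2⟩
      have hnat : ∀ γ : QuadraticAlgebra ℤ m B, Associated γ β → γ.norm.natAbs = n := by
        intro γ hγ
        have := congrArg absN (Associates.mk_eq_mk_iff_associated.mpr hγ)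
        rw [absN_mk, absN_mk, hx'] at this
        exact this
      rcases lt_or_gt_of_ne hne2' with h2 | h2
      · obtain ⟨γ, hγ, hγ'⟩ := exists_in_cone hm (-1) u hu1 hu2 hul (om m B) hom1 hom2 β' hβ'
          (by linarith)
        rw [hu, ← hcl] at hγ
        exact ⟨γ, Or.inr ⟨hγ, hnat γ (hγ'.trans hassoc)⟩,
          Associates.mk_eq_mk_iff_associated.mpr (hγ'.trans hassoc)⟩
      · obtain ⟨γ, hγ, hγ'⟩ := exists_in_cone hm 1 u hu1 hu2 hul 1 hone1 hone2 β' hβ'
          (by linarith)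
        rw [hu, mul_one] at hγ
        exact ⟨γ, Or.inl ⟨hγ, hnat γ (hγ'.trans hassoc)⟩,
          Associates.mk_eq_mk_iff_associated.mpr (hγ'.trans hassoc)⟩
  -- injectivity
  have hcross : ∀ β γ : QuadraticAlgebra ℤ m B, β ∈ GP → γ ∈ GN → ¬ Associated β γ := by
    rintro β γ ⟨⟨⟨b1, b2⟩, _⟩, _⟩ ⟨⟨⟨c1, c2⟩, _⟩, _⟩ ⟨w, hw⟩
    have e1 : s1 hm β * s1 hm (w : QuadraticAlgebra ℤ m B) = s1 hm γ := by rw [← map_mul, hw]
    have e2 : s2 hm β * s2 hm (w : QuadraticAlgebra ℤ m B) = s2 hm γ := by rw [← map_mul, hw]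
    have hw1 : 0 < s1 hm (w : QuadraticAlgebra ℤ m B) := by
      rw [← e1] at c1
      exact (mul_pos_iff_of_pos_left b1).mp c1
    have hw2 : 0 < (-1 : ℝ) * s2 hm (w : QuadraticAlgebra ℤ m B) := by
      rw [one_mul] at b2
      rw [← e2] at c2
      have : 0 < s2 hm β * ((-1) * s2 hm (w : QuadraticAlgebra ℤ m B)) := by linarith
      exact (mul_pos_iff_of_pos_left b2).mp this
    obtain ⟨γ', hγ', hass⟩ := exists_in_cone hm (-1) u hu1 hu2 hul (om m B) hom1 hom2
      (w : QuadraticAlgebra ℤ m B) hw1 hw2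
    rw [hu, ← hcl] at hγ'
    apply neg_none hm h J hK hP1 γ' hγ'
    have := congrArg absN (Associates.mk_eq_mk_iff_associated.mpr hass)
    rw [absN_mk, absN_mk, unit_norm w] at this
    exact this
  have hinj : Set.InjOn (Associates.mk : QuadraticAlgebra ℤ m B → _) (GP ∪ GN) := by
    have hP : ∀ β γ : QuadraticAlgebra ℤ m B, β ∈ GP → γ ∈ GP → Associated β γ → β = γ := by
      intro β γ hβ hγ hass
      have hβ' : β ∈ cone hm 1 1 (rho m B c (K + 1) * 1) := by rw [mul_one]; exact hβ.1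
      have hγ' : γ ∈ cone hm 1 1 (rho m B c (K + 1) * 1) := by rw [mul_one]; exact hγ.1
      rcases le_total (sl hm 1 γ) (sl hm 1 β) with hle | hle
      · obtain ⟨w, hw⟩ := hass
        exact unique_aux hm h J hK hJ hP1 1 1 β γ one_ne_zero hβ' hγ' hone1 hone2 w hw hle
      · obtain ⟨w, hw⟩ := hass.symm
        exact (unique_aux hm h J hK hJ hP1 1 1 γ β one_ne_zero hγ' hβ' hone1 hone2 w hw hle).symm
    have hN : ∀ β γ : QuadraticAlgebra ℤ m B, β ∈ GN → γ ∈ GN → Associated β γ → β = γ := by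
      intro β γ hβ hγ hass
      have hβ' : β ∈ cone hm (-1) (om m B) (rho m B c (K + 1) * om m B) := by
        rw [← hcl]; exact hβ.1
      have hγ' : γ ∈ cone hm (-1) (om m B) (rho m B c (K + 1) * om m B) := by
        rw [← hcl]; exact hγ.1
      rcases le_total (sl hm (-1) γ) (sl hm (-1) β) with hle | hle
      · obtain ⟨w, hw⟩ := hass
        exact unique_aux hm h J hK hJ hP1 (-1) (om m B) β γ (by norm_num) hβ' hγ' hom1 hom2
          w hw hle
      · obtain ⟨w, hw⟩ := hass.symm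
        exact (unique_aux hm h J hK hJ hP1 (-1) (om m B) γ β (by norm_num) hγ' hβ' hom1 hom2
          w hw hle).symm
    intro β hβ γ hγ heq
    have hass := Associates.mk_eq_mk_iff_associated.mp heq
    rcases hβ with hβ | hβ
    · rcases hγ with hγ | hγ
      · exact hP β γ hβ hγ hass
      · exact absurd hass (hcross β γ hβ hγ)
    · rcases hγ with hγ | hγ
      · exact absurd hass.symm (hcross γ β hγ hβ)
      · exact hN β γ hβ hγ hass
  rw [← himg, hinj.ncard_image, Set.ncard_union_eq hdisj fP fN, nP, nN, hK]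
  clear_value GP GN
  have hsplit : ∀ (J : ℕ) (g : ℕ → ℕ), ∑ k ∈ range (2 * J), g k
      = ∑ i ∈ range J, g (1 + 2 * i) + ∑ i ∈ range J, g (0 + 2 * i) := by
    intro J g
    induction J with
    | zero => simp
    | succ J ih =>
      rw [show 2 * (J + 1) = 2 * J + 1 + 1 by ring, Finset.sum_range_succ, Finset.sum_range_succ,
        ih, Finset.sum_range_succ, Finset.sum_range_succ, show 1 + 2 * J = 2 * J + 1 by ring,
        zero_add]
      ring
  exact (hsplit J (fun k => (edgeSet (P k) (R k) (S k) (c k) n).ncard)).symm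

end even

end CG

end Pool.Agent.Lib_helper5
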