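import Pool.Agent.Lib_helper5.Cycle2

/-!
Cone decomposition for a cycle of even length.
-/

namespace Pool.Agent.Lib_helper5

open Finset (range)
open Pool.Agent.LibH4

namespace CG

variable {m B : ℤ}

/-- `√d` -/
noncomputable def sd (m B : ℤ) : ℝ := Real.sqrt ((B ^ 2 + 4 * m : ℤ) : ℝ)
/-- `α` -/
noncomputable def al (m B : ℤ) : ℝ := (B + sd m B) / 2
/-- `α'` -/
noncomputable def al' (m B : ℤ) : ℝ := (B - sd m B) / 2

lemma sd_sq (hm : 0 < m) : sd m B ^ 2 = (B : ℝ) ^ 2 + 4 * m := by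
  unfold sd
  rw [Real.sq_sqrt]
  · push_cast; ring
  · have h : (0 : ℤ) ≤ (B ^ 2 + 4 * m : ℤ) := by positivity
    exact_mod_cast h

lemma al_sq (hm : 0 < m) : al m B * al m B = m + B * al m B := by
  have := sd_sq (B := B) hm
  unfold al
  linear_combination this / 4

lemma al'_sq (hm : 0 < m) : al' m B * al' m B = m + B * al' m B := by
  have := sd_sq (B := B) hm
  unfold al'
  linear_combination this / 4

/-- first real embedding -/
noncomputable def s1 (hm : 0 < m) : QuadraticAlgebra ℤ m B →ₐ[ℤ] ℝ :=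
  QuadraticAlgebra.lift ⟨al m B, by rw [al_sq hm]; simp⟩

/-- second real embedding -/
noncomputable def s2 (hm : 0 < m) : QuadraticAlgebra ℤ m B →ₐ[ℤ] ℝ :=
  QuadraticAlgebra.lift ⟨al' m B, by rw [al'_sq hm]; simp⟩

lemma s1_apply (hm : 0 < m) (z : QuadraticAlgebra ℤ m B) :
    s1 hm z = (z.re : ℝ) + z.im * al m B := by
  simp [s1, QuadraticAlgebra.lift]

lemma s2_apply (hm : 0 < m) (z : QuadraticAlgebra ℤ m B) :
    s2 hm z = (z.re : ℝ) + z.im * al' m B := by
  simp [s2, QuadraticAlgebra.lift]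

lemma al_add (m B : ℤ) : al m B + al' m B = B := by
  unfold al al'; ring

lemma al_mul (hm : 0 < m) : al m B * al' m B = -m := by
  have := sd_sq (B := B) hm
  unfold al al'
  linear_combination -this / 4

lemma norm_eq (hm : 0 < m) (z : QuadraticAlgebra ℤ m B) :
    ((z.norm : ℤ) : ℝ) = s1 hm z * s2 hm z := by
  rw [s1_apply, s2_apply, QuadraticAlgebra.norm_def]
  push_cast
  have h1 := al_add m B
  have h2 := al_mul (B := B) hm
  linear_combination (-(z.re : ℝ) * z.im) * h1 - (z.im : ℝ) ^ 2 * h2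

lemma sd_gt (hm : 0 < m) : |(B : ℝ)| < sd m B := by
  apply Real.lt_sqrt_of_sq_lt
  rw [sq_abs]
  push_cast
  have : (0 : ℝ) < m := by exact_mod_cast hm
  linarith

lemma al_pos (hm : 0 < m) : 0 < al m B := by
  have := sd_gt (B := B) hm
  have h2 := neg_abs_le (B : ℝ)
  unfold al
  linarith

lemma al'_neg (hm : 0 < m) : al' m B < 0 := by
  have := sd_gt (B := B) hm
  have h2 := le_abs_self (B : ℝ)
  unfold al'
  linarith

/-- `ω` -/
def om (m B : ℤ) : QuadraticAlgebra ℤ m B := ⟨0, 1⟩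

/-- the chain -/
def rho (m B : ℤ) (c : ℕ → ℕ) : ℕ → QuadraticAlgebra ℤ m B
  | 0 => om m B
  | 1 => 1
  | (k + 2) => rho m B c k - (c k : QuadraticAlgebra ℤ m B) * rho m B c (k + 1)

lemma rho_zero (c : ℕ → ℕ) : rho m B c 0 = om m B := by rw [rho]
lemma rho_one (c : ℕ → ℕ) : rho m B c 1 = 1 := by rw [rho]
lemma rho_add (c : ℕ → ℕ) (k : ℕ) : rho m B c (k + 2) =
    rho m B c k - (c k : QuadraticAlgebra ℤ m B) * rho m B c (k + 1) := by rw [rho]

/-- points -/
def pt (m B : ℤ) (c : ℕ → ℕ) (k : ℕ) (z : ℤ × ℤ) : QuadraticAlgebra ℤ m B :=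
  (z.1 : QuadraticAlgebra ℤ m B) * rho m B c k - (z.2 : QuadraticAlgebra ℤ m B) * rho m B c (k + 1)

lemma pt_zero (c : ℕ → ℕ) (z : ℤ × ℤ) : pt m B c 0 z = ⟨-z.2, z.1⟩ := by
  unfold pt
  rw [rho_zero, rho_one]
  ext <;> simp [om]

lemma pt_succ (c : ℕ → ℕ) (k : ℕ) (z : ℤ × ℤ) :
    pt m B c (k + 1) z = pt m B c k (-z.2, -(z.1 + c k * z.2)) := by
  unfold pt
  rw [rho_add]
  push_cast
  ring

lemma pt_inj (c : ℕ → ℕ) (k : ℕ) : Function.Injective (pt m B c k) := by
  induction k with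
  | zero =>
    intro z w h
    rw [pt_zero, pt_zero] at h
    have h1 := congrArg QuadraticAlgebra.re h
    have h2 := congrArg QuadraticAlgebra.im h
    simp only at h1 h2
    exact Prod.ext h2 (by linarith)
  | succ k ih =>
    intro z w h
    rw [pt_succ, pt_succ] at h
    have h' := ih h
    rw [Prod.mk.injEq] at h'
    obtain ⟨h1, h2⟩ := h'
    have e2 : z.2 = w.2 := by linarith
    rw [e2] at h2
    exact Prod.ext (by linarith) e2

lemma pt_surj (c : ℕ → ℕ) (k : ℕ) : Function.Surjective (pt m B c k) := by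
  induction k with
  | zero =>
    intro β
    refine ⟨(β.im, -β.re), ?_⟩
    rw [pt_zero]
    ext <;> simp
  | succ k ih =>
    intro β
    obtain ⟨w, rfl⟩ := ih β
    refine ⟨(-w.2 + c k * w.1, -w.1), ?_⟩
    rw [pt_succ]
    congr 1
    ext
    · simp
    · simp

/-- hypotheses on the cycle -/
structure CycM (m B : ℤ) (K : ℕ) (P R S : ℕ → ℤ) (c : ℕ → ℕ) : Prop extends Cyc K P R S c where
  Pm : P 0 = m
  RB : R 0 = B
  S1 : S 0 = 1

variable {K : ℕ} {P R S : ℕ → ℤ} {c : ℕ → ℕ}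

lemma norm_pt (h : CycM m B K P R S c) (k : ℕ) (hk : k ≤ K) (z : ℤ × ℤ) :
    (pt m B c k z).norm = (-1) ^ (k + 1) * (P k * z.1 ^ 2 + R k * z.1 * z.2 - S k * z.2 ^ 2) := by
  induction k generalizing z with
  | zero =>
    rw [pt_zero, QuadraticAlgebra.norm_def, h.Pm, h.RB, h.S1]
    simp only
    ring
  | succ k ih =>
    rw [pt_succ, ih (by omega), h.hP k (by omega), h.hR k (by omega), h.hS k (by omega)]
    simp only
    ring

lemma norm_rho (h : CycM m B K P R S c) (k : ℕ) (hk : k ≤ K) :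
    (rho m B c (k + 1)).norm = (-1) ^ k * S k := by
  have h1 := norm_pt h k hk (0, -1)
  have e : pt m B c k (0, -1) = rho m B c (k + 1) := by
    unfold pt; simp
  rw [e] at h1
  rw [h1]
  ring

/-- the sign of the index `k` -/
def sg (k : ℕ) : ℝ := (-1) ^ (k + 1)

lemma sg_succ (k : ℕ) : sg (k + 1) = - sg k := by unfold sg; ring
lemma sg_add_two (k : ℕ) : sg (k + 2) = sg k := by unfold sg; ring
lemma sg_sq (k : ℕ) : sg k * sg k = 1 := by
  unfold sg
  rw [← pow_add, ← two_mul]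
  exact Even.neg_one_pow ⟨k + 1, by ring⟩

lemma s2_rho (hm : 0 < m) (c : ℕ → ℕ) (k : ℕ) :
    0 < sg k * s2 hm (rho m B c k) ∧ 0 < sg (k + 1) * s2 hm (rho m B c (k + 1)) := by
  induction k with
  | zero =>
    constructor
    · rw [rho_zero, s2_apply]
      have := al'_neg (B := B) hm
      simp only [sg, om, Int.cast_zero, Int.cast_one, zero_add, pow_one, one_mul]
      linarith
    · rw [rho_one, map_one]
      simp [sg]
  | succ k ih =>
    refine ⟨ih.2, ?_⟩
    rw [rho_add, map_sub, map_mul, map_natCast, sg_add_two, mul_sub]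
    have h1 := ih.2
    rw [sg_succ] at h1
    have h2 : 0 ≤ (c k : ℝ) * (-sg k * s2 hm (rho m B c (k + 1))) :=
      mul_nonneg (Nat.cast_nonneg _) h1.le
    have h3 := ih.1
    nlinarith

lemma s1_rho (hm : 0 < m) (h : CycM m B K P R S c) (k : ℕ) (hk : k ≤ K + 1) :
    0 < s1 hm (rho m B c k) := by
  rcases k with _ | k
  · rw [rho_zero, s1_apply]
    have := al_pos (B := B) hm
    simp only [om, Int.cast_zero, Int.cast_one]
    linarith
  · have h1 := (s2_rho (B := B) hm c k).2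
    have h2 := norm_eq hm (rho m B c (k + 1))
    rw [norm_rho h k (by omega)] at h2
    have h3 : (0 : ℝ) < S k := by exact_mod_cast h.Spos k (by omega)
    have h4 : sg (k + 1) * (s1 hm (rho m B c (k + 1)) * s2 hm (rho m B c (k + 1))) = S k := by
      rw [← h2]
      unfold sg
      push_cast
      rw [← mul_assoc, ← pow_add]
      have : (-1 : ℝ) ^ (k + 1 + 1 + k) = 1 := Even.neg_one_pow ⟨k + 1, by ring⟩
      rw [this, one_mul]
    have h5 : 0 < s1 hm (rho m B c (k + 1)) * (sg (k + 1) * s2 hm (rho m B c (k + 1))) := by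
      have : s1 hm (rho m B c (k + 1)) * (sg (k + 1) * s2 hm (rho m B c (k + 1))) = S k := by
        rw [← h4]; ring
      rw [this]; exact h3
    exact (mul_pos_iff_of_pos_right h1).mp h5

/-- slope for the sign `σ` -/
noncomputable def sl (hm : 0 < m) (σ : ℝ) (β : QuadraticAlgebra ℤ m B) : ℝ :=
  s1 hm β / (σ * s2 hm β)

/-- half open cone -/
def cone (hm : 0 < m) (σ : ℝ) (v w : QuadraticAlgebra ℤ m B) : Set (QuadraticAlgebra ℤ m B) :=
  {β | (0 < s1 hm β ∧ 0 < σ * s2 hm β) ∧ sl hm σ w < sl hm σ β ∧ sl hm σ β ≤ sl hm σ v}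

lemma cone_mem (hm : 0 < m) (σ : ℝ) (v w next : QuadraticAlgebra ℤ m B) (n : ℕ) (hn : 0 < n)
    (hv1 : 0 < s1 hm v) (hv2 : 0 < σ * s2 hm v) (hw1 : 0 < s1 hm w) (hw2 : σ * s2 hm w < 0)
    (hnext : next = v - (n : QuadraticAlgebra ℤ m B) * w) (hs : 0 < s1 hm next) (x y : ℤ) :
    (x : QuadraticAlgebra ℤ m B) * v - (y : QuadraticAlgebra ℤ m B) * w ∈ cone hm σ v next ↔
      0 ≤ y ∧ y < n * x := by
  have hn' : (0 : ℝ) < n := by exact_mod_cast hn
  have e1 : s1 hm next = s1 hm v - n * s1 hm w := by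
    rw [hnext, map_sub, map_mul, map_natCast]
  have e2 : σ * s2 hm next = σ * s2 hm v - n * (σ * s2 hm w) := by
    rw [hnext, map_sub, map_mul, map_natCast]; ring
  have hs2 : 0 < σ * s2 hm next := by
    rw [e2]
    nlinarith
  have key := Cone.cone_iff (s1 hm v) (σ * s2 hm v) (s1 hm w) (σ * s2 hm w) n x y hn' hv1 hv2
    hw1 hw2 (by rw [← e1]; exact hs)
  have f1 : s1 hm ((x : QuadraticAlgebra ℤ m B) * v - (y : QuadraticAlgebra ℤ m B) * w)
      = x * s1 hm v - y * s1 hm w := by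
    rw [map_sub, map_mul, map_mul, map_intCast, map_intCast]
  have f2 : σ * s2 hm ((x : QuadraticAlgebra ℤ m B) * v - (y : QuadraticAlgebra ℤ m B) * w)
      = x * (σ * s2 hm v) - y * (σ * s2 hm w) := by
    rw [map_sub, map_mul, map_mul, map_intCast, map_intCast]; ring
  have hR : (0 ≤ y ∧ y < n * x) ↔ ((0 : ℝ) ≤ y ∧ (y : ℝ) < n * x) := by
    constructor
    · rintro ⟨h1, h2⟩
      exact ⟨by exact_mod_cast h1, by exact_mod_cast h2⟩
    · rintro ⟨h1, h2⟩
      exact ⟨by exact_mod_cast h1, by exact_mod_cast h2⟩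
  rw [hR, ← key, ← e1, ← e2, ← f1, ← f2]
  unfold cone sl
  simp only [Set.mem_ofPred_eq]
  constructor
  · rintro ⟨⟨h1, h2⟩, h3, h4⟩
    refine ⟨⟨h1, h2⟩, ?_, ?_⟩
    · rwa [div_lt_div_iff₀ hs2 h2] at h3
    · rwa [div_le_div_iff₀ h2 hv2] at h4
  · rintro ⟨⟨h1, h2⟩, h3, h4⟩
    refine ⟨⟨h1, h2⟩, ?_, ?_⟩
    · rwa [div_lt_div_iff₀ hs2 h2]
    · rwa [div_le_div_iff₀ h2 hv2]

lemma slope_lt (hm : 0 < m) (σ : ℝ) (v w next : QuadraticAlgebra ℤ m B) (n : ℕ) (hn : 0 < n)
    (hv1 : 0 < s1 hm v) (hv2 : 0 < σ * s2 hm v) (hw1 : 0 < s1 hm w) (hw2 : σ * s2 hm w < 0)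
    (hnext : next = v - (n : QuadraticAlgebra ℤ m B) * w) : sl hm σ next < sl hm σ v := by
  have hn' : (0 : ℝ) < n := by exact_mod_cast hn
  have e1 : s1 hm next = s1 hm v - n * s1 hm w := by
    rw [hnext, map_sub, map_mul, map_natCast]
  have e2 : σ * s2 hm next = σ * s2 hm v - n * (σ * s2 hm w) := by
    rw [hnext, map_sub, map_mul, map_natCast]; ring
  have hs2 : 0 < σ * s2 hm next := by
    rw [e2]
    nlinarith
  unfold sl
  rw [div_lt_div_iff₀ hs2 hv2, e1, e2]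
  have : 0 < n * (s1 hm w * (σ * s2 hm v) - s1 hm v * (σ * s2 hm w)) := by
    apply mul_pos hn'
    nlinarith
  linarith

section chain

variable (hm : 0 < m) (h : CycM m B K P R S c)

include h in
lemma pt_mem (k : ℕ) (hk : k < K) (z : ℤ × ℤ) :
    pt m B c k z ∈ cone hm (sg k) (rho m B c k) (rho m B c (k + 2)) ↔
      0 ≤ z.2 ∧ z.2 < c k * z.1 := by
  have h2 := s2_rho (B := B) hm c k
  exact cone_mem hm (sg k) _ (rho m B c (k + 1)) _ (c k) (h.cpos k hk) (s1_rho hm h k (by omega))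
    h2.1 (s1_rho hm h (k + 1) (by omega)) (by have := h2.2; rw [sg_succ] at this; linarith)
    (rho_add c k) (s1_rho hm h (k + 2) (by omega)) z.1 z.2

include h in
lemma sl_step (k : ℕ) (hk : k < K) :
    sl hm (sg k) (rho m B c (k + 2)) < sl hm (sg k) (rho m B c k) := by
  have h2 := s2_rho (B := B) hm c k
  exact slope_lt hm (sg k) _ (rho m B c (k + 1)) _ (c k) (h.cpos k hk) (s1_rho hm h k (by omega))
    h2.1 (s1_rho hm h (k + 1) (by omega)) (by have := h2.2; rw [sg_succ] at this; linarith)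
    (rho_add c k)

include h in
lemma sl_chain (k j : ℕ) (hk : k + 2 * j ≤ K + 1) :
    sl hm (sg k) (rho m B c (k + 2 * j)) ≤ sl hm (sg k) (rho m B c k) := by
  induction j with
  | zero => exact le_rfl
  | succ j ih =>
    have h1 := ih (by omega)
    have h2 := sl_step hm h (k + 2 * j) (by omega)
    have e : sg (k + 2 * j) = sg k := by
      unfold sg
      rw [show k + 2 * j + 1 = (k + 1) + 2 * j by ring, pow_add, pow_mul]
      norm_num
    rw [e] at h2
    rw [show k + 2 * (j + 1) = k + 2 * j + 2 by ring]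
    linarith

lemma sg_even (k j : ℕ) : sg (k + 2 * j) = sg k := by
  unfold sg
  rw [show k + 2 * j + 1 = (k + 1) + 2 * j by ring, pow_add, pow_mul]
  norm_num

/-- points of a cone of given absolute norm -/
def Gs (hm : 0 < m) (σ : ℝ) (v w : QuadraticAlgebra ℤ m B) (n : ℕ) :
    Set (QuadraticAlgebra ℤ m B) := {β | β ∈ cone hm σ v w ∧ β.norm.natAbs = n}

/-- cast of pairs -/
def cst (z : ℕ × ℕ) : ℤ × ℤ := ((z.1 : ℤ), (z.2 : ℤ))

lemma cst_inj : Function.Injective cst := by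
  intro z w h
  simp only [cst, Prod.mk.injEq, Nat.cast_inj] at h
  exact Prod.ext h.1 h.2

lemma form_pos {P R S : ℤ} {n : ℕ} (hn : 0 < n) (hP : 0 < P) (hS : 0 < S)
    (hA : 0 < P + R * n - S * (n : ℤ) ^ 2) {x y : ℤ} (hy : 0 ≤ y) (hyx : y ≤ n * x) :
    x ^ 2 + S * (y * (n * x - y)) ≤ P * x ^ 2 + R * x * y - S * y ^ 2 := by
  have hn' : (0 : ℤ) < n := by exact_mod_cast hn
  have hx : 0 ≤ x := by
    by_contra hx
    push Not at hx
    nlinarith
  have e : (n : ℤ) * (P * x ^ 2 + R * x * y - S * y ^ 2) = (n * x - y) * x * P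
      + y * x * (P + R * n - S * (n : ℤ) ^ 2) + S * n * (y * (n * x - y)) := by ring
  have h1 : 0 ≤ (n * x - y) * x := mul_nonneg (by linarith) hx
  have h2 : 0 ≤ y * x := mul_nonneg hy hx
  have h3 : (n * x - y) * x ≤ (n * x - y) * x * P := by nlinarith
  have h4 : y * x ≤ y * x * (P + R * n - S * (n : ℤ) ^ 2) := by nlinarith
  have h7 : (n : ℤ) * (x ^ 2 + S * (y * (n * x - y)))
      ≤ (n : ℤ) * (P * x ^ 2 + R * x * y - S * y ^ 2) := by
    rw [e]; nlinarith
  exact le_of_mul_le_mul_left h7 hn'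

lemma hAend (h : CycM m B K P R S c) (k : ℕ) (hk : k < K) :
    0 < P k + R k * (c k) - S k * (c k : ℤ) ^ 2 := by
  rw [← h.hS k hk]; exact h.Spos (k + 1) hk

include h in
/-- one edge -/
lemma Gs_edge (k : ℕ) (hk : k < K) (n : ℕ) :
    Gs hm (sg k) (rho m B c k) (rho m B c (k + 2)) n =
      (fun z => pt m B c k (cst z)) '' edgeSet (P k) (R k) (S k) (c k) n := by
  ext β
  simp only [Gs, Set.mem_ofPred_eq, Set.mem_image]
  have hnorm : ∀ x y : ℤ, 0 ≤ y → y ≤ c k * x → (pt m B c k (x, y)).norm.natAbs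
      = (P k * x ^ 2 + R k * x * y - S k * y ^ 2).natAbs := by
    intro x y _ _
    rw [norm_pt h k hk.le]
    simp only
    rw [Int.natAbs_mul, Int.natAbs_pow]
    simp
  constructor
  · rintro ⟨hb, hN⟩
    obtain ⟨⟨x, y⟩, rfl⟩ := pt_surj (m := m) (B := B) c k β
    rw [pt_mem hm h k hk] at hb
    obtain ⟨h0, h1⟩ := hb
    simp only at h0 h1
    have hx : 1 ≤ x := by
      have hc : (0 : ℤ) < c k := by exact_mod_cast h.cpos k hk
      by_contra hx
      push Not at hx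
      have : x ≤ 0 := by linarith
      nlinarith
    obtain ⟨X, hX⟩ := Int.eq_ofNat_of_zero_le (by linarith : 0 ≤ x)
    obtain ⟨Y, hY⟩ := Int.eq_ofNat_of_zero_le h0
    refine ⟨(X, Y), ⟨?_, ?_, ?_⟩, ?_⟩
    · simp only; omega
    · simp only; rw [hX, hY] at h1; exact_mod_cast h1
    · rw [hnorm x y h0 h1.le] at hN
      have hp := form_pos (h.cpos k hk) (h.Ppos hk.le) (h.Spos k hk.le) (hAend h k hk) h0 h1.le
      have h5 : 0 ≤ S k * (y * (c k * x - y)) :=
        mul_nonneg (h.Spos k hk.le).le (mul_nonneg h0 (by linarith))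
      simp only
      rw [← hX, ← hY]
      have h6 : 0 ≤ x ^ 2 := sq_nonneg x
      omega
    · simp only [cst]; rw [← hX, ← hY]
  · rintro ⟨⟨X, Y⟩, ⟨h1, h2, h3⟩, rfl⟩
    simp only [cst] at *
    have h2' : (Y : ℤ) < c k * X := by exact_mod_cast h2
    refine ⟨(pt_mem hm h k hk _).2 ⟨by simp, by simpa using h2'⟩, ?_⟩
    rw [hnorm X Y (by positivity) h2'.le, h3]
    simp

include h in
lemma Gs_chain (k j : ℕ) (hk : k + 2 * j ≤ K + 1) (n : ℕ) :
    (Gs hm (sg k) (rho m B c k) (rho m B c (k + 2 * j)) n).Finite ∧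
    (Gs hm (sg k) (rho m B c k) (rho m B c (k + 2 * j)) n).ncard =
      ∑ i ∈ range j, (edgeSet (P (k + 2 * i)) (R (k + 2 * i)) (S (k + 2 * i))
        (c (k + 2 * i)) n).ncard := by
  induction j with
  | zero =>
    have : Gs hm (sg k) (rho m B c k) (rho m B c (k + 2 * 0)) n = ∅ := by
      ext β
      simp only [Gs, cone, mul_zero, add_zero, Set.mem_ofPred_eq, Set.mem_empty_iff_false,
        iff_false]
      rintro ⟨⟨_, h1, h2⟩, _⟩
      linarith
    rw [this]
    simp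
  | succ j ih =>
    obtain ⟨f1, n1⟩ := ih (by omega)
    have hk' : k + 2 * j < K := by omega
    have hE := Gs_edge hm h (k + 2 * j) hk' n
    rw [sg_even] at hE
    have hfin : (edgeSet (P (k + 2 * j)) (R (k + 2 * j)) (S (k + 2 * j)) (c (k + 2 * j)) n).Finite :=
      edgeSet_finite (h.cpos _ hk') (h.Ppos hk'.le) (h.Spos _ hk'.le) (hAend h _ hk') n
    have hinj : Function.Injective (fun z => pt m B c (k + 2 * j) (cst z)) :=
      (pt_inj c _).comp cst_inj
    have hun : Gs hm (sg k) (rho m B c k) (rho m B c (k + 2 * (j + 1))) n =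
        Gs hm (sg k) (rho m B c k) (rho m B c (k + 2 * j)) n ∪
        Gs hm (sg k) (rho m B c (k + 2 * j)) (rho m B c (k + 2 * j + 2)) n := by
      have a1 := sl_chain hm h k j (by omega)
      have a2 := sl_step hm h (k + 2 * j) hk'
      rw [sg_even] at a2
      rw [show k + 2 * (j + 1) = k + 2 * j + 2 by ring]
      ext β
      simp only [Gs, cone, Set.mem_ofPred_eq, Set.mem_union]
      constructor
      · rintro ⟨⟨h0, h3, h4⟩, h5⟩
        rcases lt_or_ge (sl hm (sg k) (rho m B c (k + 2 * j))) (sl hm (sg k) β) with h6 | h6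
        · left; exact ⟨⟨h0, h6, h4⟩, h5⟩
        · right; exact ⟨⟨h0, h3, h6⟩, h5⟩
      · rintro (⟨⟨h0, h3, h4⟩, h5⟩ | ⟨⟨h0, h3, h4⟩, h5⟩)
        · exact ⟨⟨h0, by linarith, h4⟩, h5⟩
        · exact ⟨⟨h0, h3, by linarith⟩, h5⟩
    have hdisj : Disjoint (Gs hm (sg k) (rho m B c k) (rho m B c (k + 2 * j)) n)
        (Gs hm (sg k) (rho m B c (k + 2 * j)) (rho m B c (k + 2 * j + 2)) n) := by
      rw [Set.disjoint_left]
      rintro β ⟨⟨_, h1, _⟩, _⟩ ⟨⟨_, _, h2⟩, _⟩
      linarith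
    have f2 : (Gs hm (sg k) (rho m B c (k + 2 * j)) (rho m B c (k + 2 * j + 2)) n).Finite := by
      rw [hE]; exact hfin.image _
    refine ⟨by rw [hun]; exact f1.union f2, ?_⟩
    rw [hun, Set.ncard_union_eq hdisj f1 f2, n1, Finset.sum_range_succ, hE,
      Set.ncard_image_of_injective _ hinj]

end chain

end CG

end Pool.Agent.Lib_helper5
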