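import Pool.Agent.Lib_helper5.TFive

/-!
Cycles of indefinite forms: the finite identity.
-/

namespace Pool.Agent.Lib_helper5

open Finset (range)
open Pool.Agent.LibH4 Pool.Agent.LibH4.FA

/-- a cycle of forms `P x² + R x y - S y²` with partial quotients `c` -/
structure Cyc (K : ℕ) (P R S : ℕ → ℤ) (c : ℕ → ℕ) : Prop where
  hP : ∀ k < K, P (k + 1) = S k
  hR : ∀ k < K, R (k + 1) = 2 * c k * S k - R k
  hS : ∀ k < K, S (k + 1) = P k + R k * c k - S k * (c k : ℤ) ^ 2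
  P0 : P K = P 0
  R0 : R K = R 0
  S0 : S K = S 0
  Spos : ∀ k ≤ K, 0 < S k
  Ppos0 : 0 < P 0
  cpos : ∀ k < K, 0 < c k

lemma Cyc.Ppos {K : ℕ} {P R S : ℕ → ℤ} {c : ℕ → ℕ} (h : Cyc K P R S c) {k : ℕ} (hk : k ≤ K) :
    0 < P k := by
  rcases k with _ | k
  · exact h.Ppos0
  · rw [h.hP k (by omega)]
    exact h.Spos k (by omega)

lemma sum_cyc (K : ℕ) (X : ℕ → ℝ) (h : X K = X 0) :
    ∑ k ∈ range K, X (k + 1) = ∑ k ∈ range K, X k := by
  have h1 := Finset.sum_range_succ X K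
  have h2 := Finset.sum_range_succ' X K
  linarith

section rel

variable {q : ℕ} [NeZero q] (F : ZMod q → ℝ)

/-- the substitution between consecutive edges -/
def eqn (n : ZMod q) : (ZMod q × ZMod q) ≃ (ZMod q × ZMod q) where
  toFun z := (z.2, n * z.2 + z.1)
  invFun w := (w.2 - n * w.1, w.1)
  left_inv z := by ext <;> simp
  right_inv w := by ext <;> simp

lemma QQ_next (P R S n v u : ZMod q) :
    QQ P R S u (n * u + v) = - QQ S (2 * n * S - R) (P + R * n - S * n ^ 2) v u := by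
  unfold QQ; ring

lemma rel_T (hodd : ∀ x, F (-x) = -F x) (P R S n : ZMod q) :
    FA.TT F P R S n = - FA.TT F S (2 * n * S - R) (P + R * n - S * n ^ 2) 0 := by
  unfold FA.TT
  rw [← S2_comp (eqn n) (fun x y => F (QQ P R S x y) * (b x * b (y - n * x))),
    neg_eq_neg_one_mul, ← S2_smul]
  apply S2_congr
  intro v u
  simp only [eqn, Equiv.coe_fn_mk]
  rw [QQ_next, hodd]
  have e : n * u + v - n * u = v := by ring
  rw [e, zero_mul, sub_zero]
  ring

lemma rel_M1 (hodd : ∀ x, F (-x) = -F x) (P R S n : ZMod q) :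
    MM F P R S n = - MW F S (2 * n * S - R) (P + R * n - S * n ^ 2) := by
  unfold FA.MM FA.MW
  rw [← S2_comp (eqn n) (fun x y => F (QQ P R S x y) * FA.c (y - n * x)),
    neg_eq_neg_one_mul, ← S2_smul]
  apply S2_congr
  intro v u
  simp only [eqn, Equiv.coe_fn_mk]
  rw [QQ_next, hodd]
  have e : n * u + v - n * u = v := by ring
  rw [e]
  ring

lemma rel_M2 (hodd : ∀ x, F (-x) = -F x) (P R S n : ZMod q) :
    MW F P R S = - MM F S (2 * n * S - R) (P + R * n - S * n ^ 2) 0 := by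
  unfold FA.MM FA.MW
  rw [← S2_comp (eqn n) (fun x y => F (QQ P R S x y) * FA.c x),
    neg_eq_neg_one_mul, ← S2_smul]
  apply S2_congr
  intro v u
  simp only [eqn, Equiv.coe_fn_mk]
  rw [QQ_next, hodd, zero_mul, sub_zero]
  ring

lemma rel_mean (hodd : ∀ x, F (-x) = -F x) (P R S n : ZMod q) :
    S2 (fun x y => F (QQ P R S x y)) =
      - S2 (fun x y => F (QQ S (2 * n * S - R) (P + R * n - S * n ^ 2) x y)) := by
  rw [← S2_comp (eqn n) (fun x y => F (QQ P R S x y)), neg_eq_neg_one_mul, ← S2_smul]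
  apply S2_congr
  intro v u
  simp only [eqn, Equiv.coe_fn_mk]
  rw [QQ_next, hodd]
  ring

end rel

/-- sum of the second Bernoulli function of the first coordinate -/
noncomputable def MX (q : ℕ) (f : ℤ → ℝ) (P R S : ℤ) : ℝ :=
  ∑ r ∈ range q, ∑ s ∈ range q, f (P * (r : ℤ) ^ 2 + R * r * s - S * (s : ℤ) ^ 2) *
    B2 ((r : ℝ) / q)

lemma MX_eq {q : ℕ} [NeZero q] {f : ℤ → ℝ} (hper : ∀ x, f (x + q) = f x) (P R S : ℤ) :
    MX q f P R S = MW (Fq q f) P R S := by
  unfold MX MW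
  rw [sum_range_S2 (q := q) (fun r s => f (P * (r : ℤ) ^ 2 + R * r * s - S * (s : ℤ) ^ 2) *
    B2 ((r : ℝ) / q))]
  apply S2_congr
  intro x y
  rw [← Fq_intCast hper]
  push_cast
  rw [ZMod.natCast_zmod_val, ZMod.natCast_zmod_val]
  rfl

lemma Ai_pos' {P R S : ℤ} {n : ℕ} (hn : 0 < n) (hP : 0 < P) (hS : 0 < S)
    (hA : 0 < P + R * n - S * (n : ℤ) ^ 2) (i : ℕ) (hi : i ≤ n) : 0 < Ai P R S i := by
  have hi' : (i : ℤ) ≤ n := by exact_mod_cast hi
  have hn' : (0 : ℤ) < n := by exact_mod_cast hn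
  have hi0 : (0 : ℤ) ≤ i := by positivity
  have e : (n : ℤ) * Ai P R S i = (n - i) * P + i * (P + R * n - S * (n : ℤ) ^ 2)
      + S * n * (i * (n - i)) := by
    unfold Ai; ring
  have h1 : 0 ≤ S * n * (i * (n - i)) := by
    apply mul_nonneg (by positivity)
    exact mul_nonneg hi0 (by linarith)
  have h2 : 0 < ((n : ℤ) - i) * P + i * (P + R * n - S * (n : ℤ) ^ 2) := by
    rcases Nat.eq_zero_or_pos i with h | h
    · subst h
      simp only [Nat.cast_zero, sub_zero, zero_mul, add_zero]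
      positivity
    · have h0 : (0 : ℤ) < i := by exact_mod_cast h
      have h3 : 0 ≤ ((n : ℤ) - i) * P := mul_nonneg (by linarith) hP.le
      have h4 : 0 < (i : ℤ) * (P + R * n - S * (n : ℤ) ^ 2) := mul_pos h0 hA
      linarith
  have h5 : 0 < (n : ℤ) * Ai P R S i := by rw [e]; linarith
  exact (mul_pos_iff_of_pos_left hn').mp h5

lemma Ai_end (P R S : ℤ) (n : ℕ) : Ai P R S n = P + R * n - S * (n : ℤ) ^ 2 := rfl

/-- **general T4** -/
theorem cyc_alg {K : ℕ} {P R S : ℕ → ℤ} {c : ℕ → ℕ} (h : Cyc K P R S c) (q : ℕ) (hq : 0 < q)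
    (f : ℤ → ℝ) (hodd : ∀ x, f (-x) = - f x) (hper : ∀ x, f (x + q) = f x) :
    ∑ k ∈ range K, ∑ i ∈ range (c k), Lam q f (Ai (P k) (R k) (S k) i) (Ci (P k) (R k) (S k) i)
      (Ai (P k) (R k) (S k) (i + 1)) =
    ∑ k ∈ range K, (2 * SS q f (P k) (R k) (S k) - c k * MX q f (P k) (R k) (S k)) := by
  have : NeZero q := ⟨hq.ne'⟩
  have hF := Fq_neg hper hodd
  have hF0 : Fq q f 0 = 0 := by
    have := hF 0
    rw [neg_zero] at this
    linarith
  simp only [Lam_eq hper, SS_eq hper, MX_eq hper]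
  set F := Fq q f with hFdef
  -- single edge
  have hedge : ∀ k ∈ range K, ∑ i ∈ range (c k), LamZ F (Ai (P k) (R k) (S k) i)
      (Ci (P k) (R k) (S k) i) (Ai (P k) (R k) (S k) (i + 1)) =
      FA.TT F (P k) (R k) (S k) 0 + FA.TT F (P (k + 1)) (R (k + 1)) (S (k + 1)) 0
        - (c k : ℝ) / 2 * MW F (P k) (R k) (S k)
        + (R k : ℝ) / (4 * P k) * MM F (P k) (R k) (S k) 0
        - (R (k + 1) : ℝ) / (4 * S (k + 1)) * MW F (P (k + 1)) (R (k + 1)) (S (k + 1)) := by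
    intro k hk
    have hk' := Finset.mem_range.1 hk
    have hA : 0 < P k + R k * (c k) - S k * (c k : ℤ) ^ 2 := by
      rw [← h.hS k hk']; exact h.Spos (k + 1) hk'
    have hAi : ∀ i : ℕ, i ≤ c k → Ai (P k) (R k) (S k) i ≠ 0 := fun i hi =>
      (Ai_pos' (h.cpos k hk') (h.Ppos hk'.le) (h.Spos k hk'.le) hA i hi).ne'
    rw [edge_sum F hF0 _ _ _ _ hAi]
    have eP : (((P (k + 1) : ℤ)) : ZMod q) = (S k : ZMod q) := by rw [h.hP k hk']
    have eR : (((R (k + 1) : ℤ)) : ZMod q) = 2 * (c k : ZMod q) * (S k : ZMod q) - R k := by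
      rw [h.hR k hk']; push_cast; ring
    have eS : (((S (k + 1) : ℤ)) : ZMod q)
        = (P k : ZMod q) + R k * (c k) - S k * (c k : ZMod q) ^ 2 := by
      rw [h.hS k hk']; push_cast; ring
    rw [eP, eR, eS, rel_T F hF (P k) (R k) (S k) (c k), rel_M1 F hF (P k) (R k) (S k) (c k)]
    have e1 : (Ai (P k) (R k) (S k) (c k) : ℝ) = S (k + 1) := by
      rw [Ai_end, ← h.hS k hk']
    have e2 : 2 * (S k : ℝ) * (c k) - R k = R (k + 1) := by
      rw [h.hR k hk']; push_cast; ring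
    rw [e1, e2]
    ring
  rw [Finset.sum_congr rfl hedge]
  have c1 := sum_cyc K (fun k => FA.TT F (P k) (R k) (S k) 0) (by rw [h.P0, h.R0, h.S0])
  have c2 := sum_cyc K (fun k => (R k : ℝ) / (4 * P k) * MM F (P k) (R k) (S k) 0)
    (by rw [h.P0, h.R0, h.S0])
  have c3 := sum_cyc K (fun k => (R k : ℝ) / (4 * S k) * MW F (P k) (R k) (S k))
    (by rw [h.P0, h.R0, h.S0])
  simp only [Finset.sum_add_distrib, Finset.sum_sub_distrib]
  rw [c1, c3, ← c2]
  have c4 : ∑ k ∈ range K, (R (k + 1) : ℝ) / (4 * P (k + 1)) *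
      MM F (P (k + 1)) (R (k + 1)) (S (k + 1)) 0 =
      ∑ k ∈ range K, - ((R (k + 1) : ℝ) / (4 * S k) * MW F (P k) (R k) (S k)) := by
    apply Finset.sum_congr rfl
    intro k hk
    have hk' := Finset.mem_range.1 hk
    have eR : (((R (k + 1) : ℤ)) : ZMod q) = 2 * (c k : ZMod q) * (S k : ZMod q) - R k := by
      rw [h.hR k hk']; push_cast; ring
    have eS : (((S (k + 1) : ℤ)) : ZMod q)
        = (P k : ZMod q) + R k * (c k) - S k * (c k : ZMod q) ^ 2 := by
      rw [h.hS k hk']; push_cast; ring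
    have h1 := rel_M2 F hF (P k) (R k) (S k) (c k)
    rw [← eR, ← eS] at h1
    rw [h.hP k hk', h1]
    ring
  rw [c4]
  have c5 : ∀ k ∈ range K, (c k : ℝ) = (R (k + 1) : ℝ) / (4 * S k) + (R k : ℝ) / (4 * S k)
      + (c k : ℝ) / 2 := by
    intro k hk
    have hk' := Finset.mem_range.1 hk
    have hS0 : (0 : ℝ) < S k := by exact_mod_cast h.Spos k hk'.le
    rw [h.hR k hk']
    push_cast
    field_simp
    ring
  have c6 : ∑ k ∈ range K, (c k : ℝ) * MW F (P k) (R k) (S k)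
      = ∑ k ∈ range K, ((R (k + 1) : ℝ) / (4 * S k) * MW F (P k) (R k) (S k)
        + (R k : ℝ) / (4 * S k) * MW F (P k) (R k) (S k)
        + (c k : ℝ) / 2 * MW F (P k) (R k) (S k)) := by
    apply Finset.sum_congr rfl
    intro k hk
    conv_lhs => rw [c5 k hk]
    ring
  rw [c6]
  simp only [Finset.sum_add_distrib, ← Finset.mul_sum, Finset.sum_neg_distrib]
  ring

end Pool.Agent.Lib_helper5
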