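import Pool.Agent.Lib_helper5.Cycle

/-!
Cycles of indefinite forms: the real identity and the congruence modulo `l`.
-/

namespace Pool.Agent.Lib_helper5

open Finset (range)
open Pool.Agent.LibH4 Pool.Agent.LibH4.FA

/-- value bound on an edge -/
lemma edge_ge {P R S : ℤ} {n : ℕ} (hn : 0 < n) (hP : 0 < P) (hS : 0 < S)
    (hA : 0 < P + R * n - S * (n : ℤ) ^ 2) {x y : ℤ} (hy : 0 ≤ y) (hyx : y ≤ n * x) :
    x ^ 2 + S * (y * (n * x - y)) / n ≤ P * x ^ 2 + R * x * y - S * y ^ 2 := by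
  have hn' : (0 : ℤ) < n := by exact_mod_cast hn
  have hx : 0 ≤ x := by
    by_contra hx
    push Not at hx
    nlinarith
  have e : (n : ℤ) * (P * x ^ 2 + R * x * y - S * y ^ 2) = (n * x - y) * x * P
      + y * x * (P + R * n - S * (n : ℤ) ^ 2) + S * n * (y * (n * x - y)) := by ring
  have h1 : 0 ≤ (n * x - y) * x := mul_nonneg (by linarith) hx
  have h2 : 0 ≤ y * x := mul_nonneg hy hx
  have h3 : (n * x - y) * x ≤ (n * x - y) * x * P := by nlinarith
  have h4 : y * x ≤ y * x * (P + R * n - S * (n : ℤ) ^ 2) := by nlinarith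
  have h5 : 0 ≤ S * (y * (n * x - y)) :=
    mul_nonneg hS.le (mul_nonneg hy (by linarith))
  have h6 : S * (y * (n * x - y)) / n ≤ S * (y * (n * x - y)) := by
    apply Int.ediv_le_self _ h5
  have h7 : (n : ℤ) * (x ^ 2 + S * (y * (n * x - y)))
      ≤ (n : ℤ) * (P * x ^ 2 + R * x * y - S * y ^ 2) := by
    rw [e]; nlinarith
  have h8 := le_of_mul_le_mul_left h7 hn'
  linarith

lemma edgeSet_finite {P R S : ℤ} {N : ℕ} (hN : 0 < N) (hP : 0 < P) (hS : 0 < S)
    (hA : 0 < P + R * N - S * (N : ℤ) ^ 2) (n : ℕ) : (edgeSet P R S N n).Finite := by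
  apply Set.Finite.subset (Set.Finite.prod (Set.finite_Iic n) (Set.finite_Iic (N * n)))
  rintro ⟨x, y⟩ ⟨h1, h2, h3⟩
  simp only at h1 h2 h3
  have h4 := edge_ge hN hP hS hA (x := x) (y := y) (by positivity) (by exact_mod_cast h2.le)
  have h5 : 0 ≤ S * ((y : ℤ) * (N * x - y)) / N := by
    apply Int.ediv_nonneg
    · apply mul_nonneg hS.le (mul_nonneg (by positivity) _)
      have : (y : ℤ) ≤ N * x := by exact_mod_cast h2.le
      linarith
    · positivity
  rw [h3] at h4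
  have h6 : (x : ℤ) ^ 2 ≤ n := by linarith
  have h7 : x ≤ n := by
    have : (x : ℤ) ≤ n := by
      have hx1 : (1 : ℤ) ≤ x := by exact_mod_cast h1
      nlinarith
    exact_mod_cast this
  refine ⟨h7, ?_⟩
  simp only [Set.mem_Iic]
  calc y ≤ N * x := h2.le
    _ ≤ N * n := Nat.mul_le_mul_left _ h7

section general

variable {K : ℕ} {P R S : ℕ → ℤ} {c : ℕ → ℕ} (h : Cyc K P R S c)

/-- mean values along the cycle -/
lemma Cyc.mean_all {q : ℕ} [NeZero q] (F : ZMod q → ℝ) (hF : ∀ x, F (-x) = -F x)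
    (h : Cyc K P R S c)
    (h0 : S2 (fun x y => F (QQ (P 0 : ZMod q) (R 0) (S 0) x y)) = 0) (k : ℕ) (hk : k ≤ K) :
    S2 (fun x y => F (QQ (P k : ZMod q) (R k) (S k) x y)) = 0 := by
  induction k with
  | zero => exact h0
  | succ k ih =>
    have hk' : k < K := by omega
    have h1 := ih (by omega)
    rw [rel_mean F hF (P k) (R k) (S k) (c k)] at h1
    have eP : (((P (k + 1) : ℤ)) : ZMod q) = (S k : ZMod q) := by rw [h.hP k hk']
    have eR : (((R (k + 1) : ℤ)) : ZMod q) = 2 * (c k : ZMod q) * (S k : ZMod q) - R k := by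
      rw [h.hR k hk']; push_cast; ring
    have eS : (((S (k + 1) : ℤ)) : ZMod q)
        = (P k : ZMod q) + R k * (c k) - S k * (c k : ZMod q) ^ 2 := by
      rw [h.hS k hk']; push_cast; ring
    rw [eP, eR, eS]
    linarith

/-- the general real identity -/
theorem cyc_identity (h : Cyc K P R S c) (d : ℕ) (h8 : d % 8 = 5)
    (q : ℕ) (hq : 0 < q) (hcop : Nat.Coprime q d) (f : ℤ → ℝ)
    (hper : ∀ x, f (x + q) = f x) (hodd : ∀ x, f (-x) = - f x)
    (hmean : ∑ r ∈ range q, ∑ s ∈ range q,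
      f (P 0 * (r : ℤ) ^ 2 + R 0 * r * s - S 0 * (s : ℤ) ^ 2) = 0)
    (hcnt : ∀ n : ℕ, n ≠ 0 →
      ((∑ k ∈ range K, (edgeSet (P k) (R k) (S k) (c k) n).ncard : ℕ) : ℤ) = sig d n) :
    ∑ k ∈ range K, (2 * SS q f (P k) (R k) (S k) - c k * MX q f (P k) (R k) (S k))
      = bb q (q * d) (gs f (fun l => (jacobiSym l d : ℝ))) := by
  have : NeZero q := ⟨hq.ne'⟩
  have hF := Fq_neg hper hodd
  rw [← cyc_alg h q hq f hodd hper]
  let s : Finset (Σ _ : ℕ, ℕ) := (range K).sigma (fun k => range (c k))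
  let A : (Σ _ : ℕ, ℕ) → ℤ := fun x => Ai (P x.1) (R x.1) (S x.1) x.2
  let C : (Σ _ : ℕ, ℕ) → ℤ := fun x => Ci (P x.1) (R x.1) (S x.1) x.2
  let E : (Σ _ : ℕ, ℕ) → ℤ := fun x => Ai (P x.1) (R x.1) (S x.1) (x.2 + 1)
  have hAend : ∀ k < K, 0 < P k + R k * (c k) - S k * (c k : ℤ) ^ 2 := by
    intro k hk
    rw [← h.hS k hk]; exact h.Spos (k + 1) hk
  have hpos : ∀ k < K, ∀ i ≤ c k, 0 < Ai (P k) (R k) (S k) i := fun k hk i hi =>
    Ai_pos' (h.cpos k hk) (h.Ppos hk.le) (h.Spos k hk.le) (hAend k hk) i hi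
  have hA : ∀ i ∈ s, 0 < A i := by
    rintro ⟨k, i⟩ hi
    simp only [s, Finset.mem_sigma, Finset.mem_range] at hi
    exact hpos k hi.1 i hi.2.le
  have hE : ∀ i ∈ s, 0 < E i := by
    rintro ⟨k, i⟩ hi
    simp only [s, Finset.mem_sigma, Finset.mem_range] at hi
    have := hpos k hi.1 (i + 1) hi.2
    push_cast at this
    exact this
  have hC : ∀ i ∈ s, 0 < C i := by
    rintro ⟨k, i⟩ hi
    have h1 := hA _ hi
    have h2 := hE _ hi
    simp only [s, Finset.mem_sigma, Finset.mem_range] at hi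
    simp only [A, E, C] at *
    rw [Ci_eq]
    have := h.Spos k hi.1.le
    linarith
  have hD : ∀ i ∈ s, 4 * A i * E i < (C i) ^ 2 := by
    rintro ⟨k, i⟩ hi
    simp only [s, Finset.mem_sigma, Finset.mem_range] at hi
    simp only [A, E, C]
    rw [disc_eq]
    have h1 : 0 ≤ R k ^ 2 := sq_nonneg _
    have h2 : 0 < P k * S k := mul_pos (h.Ppos hi.1.le) (h.Spos k hi.1.le)
    linarith
  have hray : ∀ g : ℤ → ℝ, ∑ i ∈ s, g (A i) = ∑ i ∈ s, g (E i) := by
    intro g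
    simp only [s, A, E]
    rw [Finset.sum_sigma, Finset.sum_sigma]
    have h1 : ∀ k ∈ range K, ∑ i ∈ range (c k), g (Ai (P k) (R k) (S k) i)
        = ∑ i ∈ range (c k), g (Ai (P k) (R k) (S k) (i + 1)) + (g (P k) - g (S (k + 1))) := by
      intro k hk
      have hk' := Finset.mem_range.1 hk
      have r := ray_edge (P k) (R k) (S k) (c k) g
      have v1 : Ai (P k) (R k) (S k) 0 = P k := by unfold Ai; ring
      have v2 : Ai (P k) (R k) (S k) (c k) = S (k + 1) := by rw [Ai_end, h.hS k hk']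
      rw [v1, v2] at r
      linarith
    rw [Finset.sum_congr rfl h1, Finset.sum_add_distrib]
    have h2 : ∑ k ∈ range K, (g (P k) - g (S (k + 1))) = 0 := by
      rw [Finset.sum_sub_distrib]
      have c1 := sum_cyc K (fun k => g (P k)) (by simp only [h.P0])
      have c2 := sum_cyc K (fun k => g (S k)) (by simp only [h.S0])
      have c3 : ∑ k ∈ range K, g (P (k + 1)) = ∑ k ∈ range K, g (S k) :=
        Finset.sum_congr rfl (fun k hk => by rw [h.hP k (Finset.mem_range.1 hk)])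
      rw [c2, ← c3, c1]
      ring
    rw [h2, add_zero]
  have hmean0 : S2 (fun x y => Fq q f (QQ (P 0 : ZMod q) (R 0) (S 0) x y)) = 0 := by
    rw [← hmean, sum_range_S2 (q := q) (fun r s => f (P 0 * (r : ℤ) ^ 2 + R 0 * r * s
      - S 0 * (s : ℤ) ^ 2))]
    apply S2_congr
    intro x y
    rw [← Fq_intCast hper]
    push_cast
    rw [ZMod.natCast_zmod_val, ZMod.natCast_zmod_val]
    rfl
  have hmean' : ∀ i ∈ s, ∑ r ∈ range q, ∑ u ∈ range q, gq f (A i) (C i) (E i) r u = 0 := by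
    rintro ⟨k, i⟩ hi
    simp only [s, Finset.mem_sigma, Finset.mem_range] at hi
    simp only [A, E, C]
    rw [mean_range hper, mean_cone (Fq q f) (P k) (R k) (S k) i]
    exact Cyc.mean_all (Fq q f) hF h hmean0 k hi.1.le
  have hcount : ∀ n : ℕ, n ≠ 0 → ∑ i ∈ s, (cnt (A i) (C i) (E i) n : ℝ)
      = ∑ l ∈ n.divisors, (jacobiSym l d : ℝ) := by
    intro n hn
    have h9 : ∑ l ∈ n.divisors, (jacobiSym l d : ℝ) = ((sig d n : ℤ) : ℝ) := by
      unfold sig; push_cast; rfl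
    rw [h9, ← hcnt n hn]
    simp only [s, A, E, C]
    rw [Finset.sum_sigma]
    simp only
    push_cast
    apply Finset.sum_congr rfl
    intro k hk
    have hk' := Finset.mem_range.1 hk
    rw [edge_count (P k) (R k) (S k) (c k) n
      (edgeSet_finite (h.cpos k hk') (h.Ppos hk'.le) (h.Spos k hk'.le) (hAend k hk') n)]
    push_cast
    rfl
  have key := engine (q := q) (D0 := d) (f := f) (ψ := fun l => (jacobiSym l d : ℝ)) s A C E
    hA hE hC hD hray hq (by omega) hper hodd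
    (by
      intro n
      show ((jacobiSym ((n % d : ℕ) : ℤ) d : ℤ) : ℝ) = (jacobiSym n d : ℝ)
      rw [Int.natCast_mod, ← jacobiSym.mod_left])
    (fun k _ => row_zero hq hcop h8 hper k) hmean' hcount
  rw [← key]
  simp only [s, A, E, C]
  rw [Finset.sum_sigma]

/-- integer version of `MX` -/
def YX (q : ℕ) (f : ℤ → ℤ) (P R S : ℤ) : ℤ :=
  ∑ r ∈ range q, ∑ s ∈ range q, f (P * (r : ℤ) ^ 2 + R * r * s - S * (s : ℤ) ^ 2) *
    b2Z q r

lemma MX_YX {q : ℕ} (hq : 0 < q) (f : ℤ → ℤ) (P R S : ℤ) :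
    6 * (q : ℝ) ^ 2 * MX q (fun x => (f x : ℝ)) P R S = (YX q f P R S : ℝ) := by
  unfold MX YX
  push_cast
  rw [Finset.mul_sum]
  apply Finset.sum_congr rfl
  intro r _
  rw [Finset.mul_sum]
  apply Finset.sum_congr rfl
  intro s _
  rw [← B2_eq_b2Z hq]
  ring

/-- **general T5** -/
theorem cyc_T5 (h : Cyc K P R S c) (d : ℕ) (h8 : d % 8 = 5)
    (hcnt : ∀ n : ℕ, n ≠ 0 →
      ((∑ k ∈ range K, (edgeSet (P k) (R k) (S k) (c k) n).ncard : ℕ) : ℤ) = sig d n)
    (q l : ℕ) (hq : 0 < q) [Fact l.Prime] (hcop : Nat.Coprime q d) (hl6 : ¬ l ∣ 6)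
    (hld : ¬ l ∣ d)
    (hmean : ∀ f : ℤ → ℝ, (∀ x, f (x + q) = f x) → (∀ x, f (-x) = - f x) →
      ∑ r ∈ range q, ∑ s ∈ range q,
        f (P 0 * (r : ℤ) ^ 2 + R 0 * r * s - S 0 * (s : ℤ) ^ 2) = 0)
    (χ : ZMod q → ZMod l)
    (hodd : ∀ x, χ (-x) = - χ x) (hmul : ∀ x y, χ (x * y) = χ x * χ y)
    (hsum : ∑ u ∈ range q, (u : ZMod l) * χ (u : ZMod q) = 0) :
    ∑ k ∈ range K, ∑ r ∈ range q, ∑ s ∈ range q,
      χ ((P k * (r : ℤ) ^ 2 + R k * r * s - S k * (s : ℤ) ^ 2 : ℤ) : ZMod q)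
        * (3 * ((bZ q r : ZMod l) * bZ q s) - c k * b2Z q r) = 0 := by
  have hd0 : 0 < d := by omega
  have hper' : ∀ x, ((lift χ (x + q) : ℤ) : ℝ) = ((lift χ x : ℤ) : ℝ) := fun x => by
    simp only [lift_per χ]
  have hodd' : ∀ x, ((lift χ (-x) : ℤ) : ℝ) = - ((lift χ x : ℤ) : ℝ) := fun x => by
    simp only [lift_odd χ hl6 hodd]; push_cast; ring
  have key := cyc_identity h d h8 q hq hcop
    (fun x => ((lift χ x : ℤ) : ℝ)) hper' hodd' (hmean (fun x => ((lift χ x : ℤ) : ℝ)) hper' hodd') hcnt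
  have i5 := bb_RZ hq hd0 (lift χ)
  have hreal : (d : ℝ) * (2 * (∑ k ∈ range K, (3 * (XZ q (lift χ) (P k) (R k) (S k) : ℝ)
      - c k * (YX q (lift χ) (P k) (R k) (S k) : ℝ))))
      = 3 * (RZ q d (lift χ) : ℝ) := by
    rw [← i5, ← key]
    simp only [Finset.mul_sum]
    apply Finset.sum_congr rfl
    intro k _
    rw [← SS_XZ hq, ← MX_YX hq]
    ring
  have hint : (d : ℤ) * (2 * (∑ k ∈ range K, (3 * XZ q (lift χ) (P k) (R k) (S k)
      - c k * YX q (lift χ) (P k) (R k) (S k))))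
      = 3 * RZ q d (lift χ) := by
    exact_mod_cast hreal
  have hzmod : (d : ZMod l) * (2 * (∑ k ∈ range K, (3 * (XZ q (lift χ) (P k) (R k) (S k) : ZMod l)
      - c k * (YX q (lift χ) (P k) (R k) (S k) : ZMod l))))
      = 3 * (RZ q d (lift χ) : ZMod l) := by
    have := congrArg (Int.cast : ℤ → ZMod l) hint
    push_cast at this
    exact this
  have hR : (RZ q d (lift χ) : ZMod l) = 0 := by
    have e : (RZ q d (lift χ) : ZMod l) = (∑ r ∈ range q, χ (r : ZMod q) * (bZ q r : ZMod l)) *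
        (∑ s ∈ range (q * d), χ (s : ZMod q) * (jacobiSym s d : ZMod l) * (bZ (q * d) s : ZMod l)) := by
      unfold RZ
      push_cast
      rw [Finset.sum_mul_sum]
      apply Finset.sum_congr rfl
      intro r _
      apply Finset.sum_congr rfl
      intro s _
      rw [lift_cast]
      push_cast
      rw [hmul]
      ring
    rw [e, sum_chi_bZ χ hq hl6 hodd hsum, zero_mul]
  rw [hR, mul_zero] at hzmod
  have hd' : (d : ZMod l) ≠ 0 := by
    rw [Ne, ZMod.natCast_eq_zero_iff]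
    exact hld
  have h1 := (mul_eq_zero.1 ((mul_eq_zero.1 hzmod).resolve_left hd')).resolve_left (two_ne hl6)
  rw [← h1]
  apply Finset.sum_congr rfl
  intro k _
  unfold XZ YX
  push_cast
  simp only [Finset.mul_sum]
  rw [← Finset.sum_sub_distrib]
  apply Finset.sum_congr rfl
  intro r _
  rw [← Finset.sum_sub_distrib]
  apply Finset.sum_congr rfl
  intro s _
  rw [lift_cast]
  push_cast
  ring

end general

end Pool.Agent.Lib_helper5
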