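import Pool.Agent.Lib_helper5.Engine3
import Pool.Agent.Lib_helper4.Cones

/-!
Points on an edge and points in unimodular cones; mean values.
-/

namespace Pool.Agent.Lib_helper5

open Finset (range)
open Pool.Agent.LibH4 Pool.Agent.LibH4.FA

/-- points of norm `n` on an edge -/
def edgeSet (P R S : ℤ) (N n : ℕ) : Set (ℕ × ℕ) :=
  {z | 1 ≤ z.1 ∧ z.2 < N * z.1 ∧ P * (z.1 : ℤ) ^ 2 + R * z.1 * z.2 - S * (z.2 : ℤ) ^ 2 = n}

lemma edge_count (P R S : ℤ) (N n : ℕ) (hfin : (edgeSet P R S N n).Finite) :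
    (edgeSet P R S N n).ncard =
      ∑ i ∈ range N, cnt (Ai P R S i) (Ci P R S i) (Ai P R S (i + 1)) n := by
  rw [Set.ncard_eq_toFinset_card _ hfin]
  have hmap : ∀ z ∈ hfin.toFinset, z.2 / z.1 ∈ range N := by
    intro z hz
    rw [Set.Finite.mem_toFinset] at hz
    obtain ⟨h1, h2, _⟩ := hz
    rw [Finset.mem_range]
    exact (Nat.div_lt_iff_lt_mul (by omega)).2 h2
  rw [Finset.card_eq_sum_card_fiberwise hmap]
  apply Finset.sum_congr rfl
  intro i hi
  have hiN := Finset.mem_range.1 hi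
  unfold cnt
  have hinj : Function.Injective (fun p : ℕ × ℕ => (p.1 + p.2, i * p.1 + (i + 1) * p.2)) := by
    rintro ⟨x, z⟩ ⟨x', z'⟩ h
    simp only [Prod.mk.injEq] at h
    obtain ⟨h1, h2⟩ := h
    have h3 : i * x + (i + 1) * z = i * (x + z) + z := by ring
    have h4 : i * x' + (i + 1) * z' = i * (x' + z') + z' := by ring
    rw [h3, h4, h1] at h2
    have h5 : z = z' := by omega
    ext <;> simp <;> omega
  rw [← Set.ncard_image_of_injective _ hinj, ← Set.ncard_coe_finset]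
  congr 1
  ext z
  simp only [Finset.coe_filter, Set.Finite.mem_toFinset, Set.mem_ofPred_eq, Set.mem_image,
    edgeSet]
  constructor
  · rintro ⟨⟨h1, h2, h3⟩, h4⟩
    have h5 : i * z.1 ≤ z.2 := by
      rw [← h4]; exact Nat.div_mul_le_self _ _
    have h6 : z.2 < (i + 1) * z.1 := by
      rw [← h4]
      exact Nat.lt_mul_of_div_lt (Nat.lt_succ_self _) (by omega)
    refine ⟨((i + 1) * z.1 - z.2, z.2 - i * z.1), ⟨?_, ?_⟩, ?_⟩
    · simp only; omega
    · simp only
      rw [Nat.cast_sub h6.le, Nat.cast_sub h5, ← h3]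
      push_cast
      unfold Ai Ci
      ring
    · have e1 : (i + 1) * z.1 = i * z.1 + z.1 := by ring
      ext
      · simp only
        omega
      · simp only
        zify [h6.le, h5]
        ring
  · rintro ⟨p, ⟨h1, h2⟩, rfl⟩
    simp only
    have e1 : i * p.1 + (i + 1) * p.2 = i * (p.1 + p.2) + p.2 := by ring
    have h7 : (i * p.1 + (i + 1) * p.2) / (p.1 + p.2) = i := by
      have hpos : 0 < p.1 + p.2 := by omega
      rw [e1, mul_comm i, Nat.mul_add_div hpos, Nat.div_eq_of_lt (by omega), add_zero]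
    refine ⟨⟨by omega, ?_, ?_⟩, h7⟩
    · rw [e1]
      have h8 : (i + 1) * (p.1 + p.2) ≤ N * (p.1 + p.2) := Nat.mul_le_mul_right _ hiN
      have e2 : (i + 1) * (p.1 + p.2) = i * (p.1 + p.2) + (p.1 + p.2) := by ring
      omega
    · rw [← h2]
      push_cast
      unfold Ai Ci
      ring

section mean

variable {q : ℕ} [NeZero q] (F : ZMod q → ℝ)

lemma mean_cone (P R S i : ℤ) :
    S2 (fun u v : ZMod q => F ((Ai P R S i : ZMod q) * u ^ 2 + (Ci P R S i : ZMod q) * u * v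
      + (Ai P R S (i + 1) : ZMod q) * v ^ 2)) = S2 (fun x y => F (QQ (P : ZMod q) R S x y)) := by
  rw [← S2_comp (eq1 (i : ZMod q)) (fun u v : ZMod q => F ((Ai P R S i : ZMod q) * u ^ 2 +
    (Ci P R S i : ZMod q) * u * v + (Ai P R S (i + 1) : ZMod q) * v ^ 2))]
  apply S2_congr
  intro x y
  simp only [eq1, Equiv.coe_fn_mk]
  congr 1
  unfold Ai Ci QQ
  push_cast
  ring

lemma mean_one (hodd : ∀ x, F (-x) = -F x) (a t : ZMod q) :
    S2 (fun x y => F (QQ 1 ((a ^ 2 + 1) * t + a) (1 + a * t) x y)) = 0 := by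
  have h1 : S2 (fun x y => F (QQ 1 ((a ^ 2 + 1) * t + a) (1 + a * t) x y))
      = S2 (fun x y => F (QQ (1 + a * t) ((a ^ 2 + 1) * t + a) 1 x y)) := by
    rw [← S2_comp (eq5 a) (fun x y => F (QQ 1 ((a ^ 2 + 1) * t + a) (1 + a * t) x y))]
    apply S2_congr
    intro x y
    simp only [eq5, Equiv.coe_fn_mk]
    congr 1
    unfold QQ
    ring
  have h2 : S2 (fun x y => F (QQ (1 + a * t) ((a ^ 2 + 1) * t + a) 1 x y))
      = - S2 (fun x y => F (QQ 1 ((a ^ 2 + 1) * t + a) (1 + a * t) x y)) := by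
    rw [← S2_comp eq3 (fun x y => F (QQ 1 ((a ^ 2 + 1) * t + a) (1 + a * t) x y)),
      neg_eq_neg_one_mul, ← S2_smul]
    apply S2_congr
    intro x y
    simp only [eq3, Equiv.coe_fn_mk]
    have e : QQ 1 ((a ^ 2 + 1) * t + a) (1 + a * t) y (-x)
        = - QQ (1 + a * t) ((a ^ 2 + 1) * t + a) 1 x y := by unfold QQ; ring
    rw [e, hodd]
    ring
  linarith

lemma mean_two (hodd : ∀ x, F (-x) = -F x) (a t : ZMod q) :
    S2 (fun x y => F (QQ (1 + a * t) ((a ^ 2 + 1) * t + a) 1 x y)) = 0 := by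
  rw [← mean_one F hodd a t]
  symm
  rw [← S2_comp (eq5 a) (fun x y => F (QQ 1 ((a ^ 2 + 1) * t + a) (1 + a * t) x y))]
  apply S2_congr
  intro x y
  simp only [eq5, Equiv.coe_fn_mk]
  congr 1
  unfold QQ
  ring

lemma mean_three (hodd : ∀ x, F (-x) = -F x) (a t : ZMod q) :
    S2 (fun x y => F (QQ (1 + a * t) (2 * (1 + a * t) * a - ((a ^ 2 + 1) * t + a)) (1 + a * t)
      x y)) = 0 := by
  rw [← mean_one F hodd a t]
  symm
  rw [← S2_comp (eq2 a) (fun x y => F (QQ 1 ((a ^ 2 + 1) * t + a) (1 + a * t) x y))]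
  apply S2_congr
  intro x y
  simp only [eq2, Equiv.coe_fn_mk]
  congr 1
  unfold QQ
  ring

/-- conversion of the mean value condition -/
lemma mean_range {f : ℤ → ℝ} (hper : ∀ x, f (x + q) = f x) (A C E : ℤ) :
    ∑ r ∈ range q, ∑ u ∈ range q, gq f A C E r u =
      S2 (fun u v : ZMod q => Fq q f ((A : ZMod q) * u ^ 2 + (C : ZMod q) * u * v
      + (E : ZMod q) * v ^ 2)) := by
  rw [sum_range_S2 (q := q) (fun r s => gq f A C E r s)]
  apply S2_congr
  intro x y
  unfold gq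
  rw [← Fq_intCast hper]
  push_cast
  rw [ZMod.natCast_zmod_val, ZMod.natCast_zmod_val]

end mean

end Pool.Agent.Lib_helper5
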