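import Pool.Agent.Lib_helper5.Exch
import Pool.Agent.Lib_helper4.FiniteAlg

/-!
The main identity between cone sums and split sums.
-/

namespace Pool.Agent.Lib_helper5

open Real MeasureTheory Set Filter Topology
open Finset (range)
open Pool.Agent.LibH4 (Lam)

section reflection

lemma sum_reflect (q : ℕ) (hq : 0 < q) (h : ℕ → ℝ) :
    ∑ r ∈ range q, h ((q - r) % q) = ∑ r ∈ range q, h r := by
  apply Finset.sum_nbij' (fun r => (q - r) % q) (fun r => (q - r) % q)
  · intro r _
    exact Finset.mem_range.2 (Nat.mod_lt _ hq)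
  · intro r _
    exact Finset.mem_range.2 (Nat.mod_lt _ hq)
  · intro r hr
    have hr' := Finset.mem_range.1 hr
    rcases Nat.eq_zero_or_pos r with h0 | h0
    · subst h0; simp
    · rw [Nat.mod_eq_of_lt (show q - r < q by omega), Nat.sub_sub_self hr'.le,
        Nat.mod_eq_of_lt hr']
  · intro r hr
    have hr' := Finset.mem_range.1 hr
    rcases Nat.eq_zero_or_pos r with h0 | h0
    · subst h0; simp
    · rw [Nat.mod_eq_of_lt (show q - r < q by omega), Nat.sub_sub_self hr'.le,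
        Nat.mod_eq_of_lt hr']
  · intro r _
    rfl

lemma bet_reflect (q r : ℕ) (hr : r < q) : bet q ((q - r) % q) = - bet q r := by
  have hq : (0:ℝ) < q := by exact_mod_cast (Nat.zero_le r).trans_lt hr
  rcases Nat.eq_zero_or_pos r with h0 | h0
  · subst h0; simp [bet]
  · rw [Nat.mod_eq_of_lt (show q - r < q by omega)]
    unfold bet
    rw [if_neg (by omega), if_neg (by omega), Nat.cast_sub hr.le]
    field_simp
    ring

lemma reflect_cast (q r : ℕ) (hr : r < q) : ∃ k : ℤ, (((q - r) % q : ℕ) : ℤ) = -r + k * q := by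
  rcases Nat.eq_zero_or_pos r with h0 | h0
  · subst h0; exact ⟨0, by simp⟩
  · refine ⟨1, ?_⟩
    rw [Nat.mod_eq_of_lt (show q - r < q by omega), Nat.cast_sub hr.le]
    ring

end reflection

lemma per_mul' {q : ℕ} {f : ℤ → ℝ} (hper : ∀ x, f (x + q) = f x) (x k : ℤ) :
    f (x + k * q) = f x := by
  induction k using Int.induction_on with
  | zero => simp
  | succ i ih =>
    rw [← ih, ← hper (x + i * q)]
    congr 1; ring
  | pred i ih =>
    rw [← ih, ← hper (x + (-i - 1) * q)]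
    congr 1; ring

lemma per_congr {q : ℕ} {f : ℤ → ℝ} (hper : ∀ x, f (x + q) = f x) {x y : ℤ}
    (h : ∃ k : ℤ, x = y + k * q) : f x = f y := by
  obtain ⟨k, rfl⟩ := h
  exact per_mul' hper y k

lemma mod_cast_eq (q x : ℕ) : ∃ k : ℤ, ((x % q : ℕ) : ℤ) = x + k * q := by
  refine ⟨-((x / q : ℕ) : ℤ), ?_⟩
  have := Nat.mod_add_div x q
  have h2 : ((x % q : ℕ) : ℤ) + q * ((x / q : ℕ) : ℤ) = x := by exact_mod_cast this
  linarith

section cone

variable (q : ℕ) (f : ℤ → ℝ) (A C E : ℤ)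

/-- the coefficient function of a cone -/
noncomputable def gq (x z : ℕ) : ℝ := f (A * (x : ℤ) ^ 2 + C * x * z + E * (z : ℤ) ^ 2)

variable {q f}

lemma gq_periodic (hper : ∀ x, f (x + q) = f x) (x z : ℕ) :
    gq f A C E (x % q) (z % q) = gq f A C E x z := by
  obtain ⟨k, hk⟩ := mod_cast_eq q x
  obtain ⟨l, hl⟩ := mod_cast_eq q z
  unfold gq
  rw [hk, hl]
  apply per_congr hper
  refine ⟨A * (2 * x * k + k ^ 2 * q) + C * (x * l + k * z + k * l * q) +
    E * (2 * z * l + l ^ 2 * q), ?_⟩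
  ring

lemma gq_reflect (hper : ∀ x, f (x + q) = f x) {r s : ℕ} (hr : r < q) (hs : s < q) :
    gq f A C E ((q - r) % q) ((q - s) % q) = gq f A C E r s := by
  obtain ⟨k, hk⟩ := reflect_cast q r hr
  obtain ⟨l, hl⟩ := reflect_cast q s hs
  unfold gq
  rw [hk, hl]
  apply per_congr hper
  refine ⟨A * (-2 * r * k + k ^ 2 * q) + C * (-r * l - k * s + k * l * q) +
    E * (-2 * s * l + l ^ 2 * q), ?_⟩
  ring

lemma gq_bet1 (hq : 0 < q) (hper : ∀ x, f (x + q) = f x) :
    ∑ r ∈ range q, ∑ s ∈ range q, gq f A C E r s * bet q r = 0 := by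
  have h1 : ∑ r ∈ range q, ∑ s ∈ range q, gq f A C E r s * bet q r
      = ∑ r ∈ range q, ∑ s ∈ range q,
        gq f A C E ((q - r) % q) ((q - s) % q) * bet q ((q - r) % q) := by
    rw [← sum_reflect q hq (fun r => ∑ s ∈ range q, gq f A C E r s * bet q r)]
    apply Finset.sum_congr rfl
    intro r _
    rw [← sum_reflect q hq (fun s => gq f A C E ((q - r) % q) s * bet q ((q - r) % q))]
  have h2 : ∑ r ∈ range q, ∑ s ∈ range q,
        gq f A C E ((q - r) % q) ((q - s) % q) * bet q ((q - r) % q)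
        = - ∑ r ∈ range q, ∑ s ∈ range q, gq f A C E r s * bet q r := by
    rw [← Finset.sum_neg_distrib]
    apply Finset.sum_congr rfl
    intro r hr
    rw [← Finset.sum_neg_distrib]
    apply Finset.sum_congr rfl
    intro s hs
    rw [gq_reflect A C E hper (Finset.mem_range.1 hr) (Finset.mem_range.1 hs),
      bet_reflect q r (Finset.mem_range.1 hr)]
    ring
  linarith

lemma gq_bet2 (hq : 0 < q) (hper : ∀ x, f (x + q) = f x) :
    ∑ r ∈ range q, ∑ s ∈ range q, gq f A C E r s * bet q s = 0 := by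
  have h1 : ∑ r ∈ range q, ∑ s ∈ range q, gq f A C E r s * bet q s
      = ∑ r ∈ range q, ∑ s ∈ range q,
        gq f A C E ((q - r) % q) ((q - s) % q) * bet q ((q - s) % q) := by
    rw [← sum_reflect q hq (fun r => ∑ s ∈ range q, gq f A C E r s * bet q s)]
    apply Finset.sum_congr rfl
    intro r _
    rw [← sum_reflect q hq (fun s => gq f A C E ((q - r) % q) s * bet q s)]
  have h2 : ∑ r ∈ range q, ∑ s ∈ range q,
        gq f A C E ((q - r) % q) ((q - s) % q) * bet q ((q - s) % q)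
        = - ∑ r ∈ range q, ∑ s ∈ range q, gq f A C E r s * bet q s := by
    rw [← Finset.sum_neg_distrib]
    apply Finset.sum_congr rfl
    intro r hr
    rw [← Finset.sum_neg_distrib]
    apply Finset.sum_congr rfl
    intro s hs
    rw [gq_reflect A C E hper (Finset.mem_range.1 hr) (Finset.mem_range.1 hs),
      bet_reflect q s (Finset.mem_range.1 hs)]
    ring
  linarith

end cone

/-- Data of the factorisation of an indefinite form with positive coefficients. -/
lemma factor_form {A C E : ℤ} (hA : 0 < A) (hE : 0 < E) (hC : 0 < C) (hD : 4 * A * E < C ^ 2) :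
    ∃ v w v' w' : ℝ, 0 < v ∧ 0 < w ∧ 0 < v' ∧ 0 < w' ∧ v * v' = A ∧ w * w' = E ∧
      v * w' + w * v' = C ∧ w / v + w' / v' = C / A ∧ v / w + v' / w' = C / E := by
  have hA' : (0:ℝ) < A := by exact_mod_cast hA
  have hE' : (0:ℝ) < E := by exact_mod_cast hE
  have hC' : (0:ℝ) < C := by exact_mod_cast hC
  have hD' : (4:ℝ) * A * E < C ^ 2 := by exact_mod_cast hD
  set D : ℝ := C ^ 2 - 4 * A * E with hDdef
  have hD0 : 0 < D := by linarith
  have hs2 : √D * √D = D := Real.mul_self_sqrt hD0.le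
  have hs0 : 0 < √D := Real.sqrt_pos.2 hD0
  have hs1 : √D < C := by
    rw [Real.sqrt_lt' hC']
    have : 0 < 4 * (A:ℝ) * E := by positivity
    linarith
  have hw : 0 < ((C:ℝ) + √D) / 2 := by linarith
  have hw' : 0 < ((C:ℝ) - √D) / (2 * A) := by
    apply div_pos <;> linarith
  have e1 : ((C:ℝ) + √D) / 2 * (((C:ℝ) - √D) / (2 * A)) = E := by
    have : ((C:ℝ) + √D) * ((C:ℝ) - √D) = 4 * A * E := by
      have : ((C:ℝ) + √D) * ((C:ℝ) - √D) = C ^ 2 - √D * √D := by ring
      rw [this, hs2, hDdef]; ring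
    field_simp
    linarith
  have e2 : (A:ℝ) * (((C:ℝ) - √D) / (2 * A)) + ((C:ℝ) + √D) / 2 * 1 = C := by
    field_simp
    ring
  refine ⟨A, ((C:ℝ) + √D) / 2, 1, ((C:ℝ) - √D) / (2 * A), hA', hw, one_pos, hw', by ring, e1, e2,
    ?_, ?_⟩
  · field_simp
    try ring
  · rw [div_add_div _ _ hw.ne' hw'.ne', e1]
    have e3 : (A:ℝ) * (((C:ℝ) - √D) / (2 * A)) + ((C:ℝ) + √D) / 2 * 1 = C := e2
    rw [e3]

end Pool.Agent.Lib_helper5
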