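import Pool.Agent.Lib_helper5.Engine

/-!
Sums over cones as sums over norms.
-/

namespace Pool.Agent.Lib_helper5

open Real MeasureTheory Set Filter Topology
open Finset (range)
open Pool.Agent.LibH4 (Lam)

section

variable {q : ℕ} {f : ℤ → ℝ} {A C E : ℤ}

/-- The cone integral. -/
lemma cone_data (hq : 0 < q) (hper : ∀ x, f (x + q) = f x) (f0 : f 0 = 0)
    (hA : 0 < A) (hE : 0 < E) (hC : 0 < C) (hD : 4 * A * E < C ^ 2)
    (hmean : ∑ r ∈ range q, ∑ s ∈ range q, gq f A C E r s = 0) :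
    ∃ H : ℝ → ℝ, (∀ τ, 0 < τ → HasSum (fun p : ℕ × ℕ => hw p.1 * hw p.2 *
      (gq f A C E p.1 p.2 * KK (τ * ((A * (p.1 : ℤ) ^ 2 + C * p.1 * p.2 + E * (p.2 : ℤ) ^ 2 : ℤ) : ℝ))))
      (H τ)) ∧ Tendsto H (𝓝[>] 0) (𝓝 (log 2 * (2 * Lam q f A C E))) := by
  obtain ⟨v, w, v', w', hv, hw0, hv', hw', e1, e2, e3, e4, e5⟩ := factor_form hA hE hC hD
  have h00 : gq f A C E 0 0 = 0 := by simp [gq, f0]
  refine ⟨fun τ => ∫ X in Ioi (0:ℝ), X⁻¹ *
      GG q q (gq f A C E) (v * X + v' * (τ / X)) (w * X + w' * (τ / X)), ?_, ?_⟩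
  · intro τ hτ
    have hc : 0 < min (min v w) (min v' w') := lt_min (lt_min hv hw0) (lt_min hv' hw')
    set c := min (min v w) (min v' w') with hcdef
    have m1 : c ≤ v := (min_le_left _ _).trans (min_le_left _ _)
    have m2 : c ≤ w := (min_le_left _ _).trans (min_le_right _ _)
    have m3 : c ≤ v' := (min_le_right _ _).trans (min_le_left _ _)
    have m4 : c ≤ w' := (min_le_right _ _).trans (min_le_right _ _)
    have hex := exchange q q hq hq (gq f A C E) (gq_periodic A C E hper) (v := v) (w := w)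
      (v' := v') (w' := w') (c := c) (Cb := 9 / c ^ 4) (τ := τ) hv.le hw0.le hv'.le hw'.le
      (by linarith) (by linarith) hc (by positivity) hτ ?_
    · refine hex.congr_fun ?_
      intro p
      rw [mul_assoc (hw p.1 * hw p.2)]
      congr 3
      push_cast
      rw [← e1, ← e2, ← e3]
      ring
    · rintro ⟨x, z⟩
      simp only
      by_cases h0 : x = 0 ∧ z = 0
      · left
        rw [h0.1, h0.2, h00]
      · right
        have hxz : 1 ≤ x + z := by omega
        have hxz' : (1:ℝ) ≤ (x:ℝ) + z := by exact_mod_cast hxz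
        have hx0 : (0:ℝ) ≤ x := Nat.cast_nonneg x
        have hz0 : (0:ℝ) ≤ z := Nat.cast_nonneg z
        have b1 : c * ((x:ℝ) + z) ≤ v * x + w * z := by
          have := mul_le_mul_of_nonneg_right m1 hx0
          have := mul_le_mul_of_nonneg_right m2 hz0
          linarith
        have b2 : c * ((x:ℝ) + z) ≤ v' * x + w' * z := by
          have := mul_le_mul_of_nonneg_right m3 hx0
          have := mul_le_mul_of_nonneg_right m4 hz0
          linarith
        have b3 : c ≤ c * ((x:ℝ) + z) := by nlinarith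
        refine ⟨b3.trans b1, b3.trans b2, ?_⟩
        have b4 : (1 + (x:ℝ)) * (1 + (z:ℝ)) ≤ 3 * ((x:ℝ) + z) ^ 2 := by
          nlinarith [mul_nonneg hx0 hz0]
        have b5 : (c * ((x:ℝ) + z)) * (c * ((x:ℝ) + z)) ≤ (v * x + w * z) * (v' * x + w' * z) := by
          apply mul_le_mul b1 b2 (by positivity)
          positivity
        calc (1 + (x:ℝ)) ^ 2 * (1 + (z:ℝ)) ^ 2 = ((1 + (x:ℝ)) * (1 + (z:ℝ))) ^ 2 := by ring
          _ ≤ (3 * ((x:ℝ) + z) ^ 2) ^ 2 := by gcongr
          _ = 9 / c ^ 4 * ((c * ((x:ℝ) + z)) * (c * ((x:ℝ) + z))) ^ 2 := by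
              field_simp
              norm_num
          _ ≤ 9 / c ^ 4 * ((v * x + w * z) * (v' * x + w' * z)) ^ 2 := by gcongr
          _ = _ := by ring
  · have hlim := cone_limit q q hq hq (gq f A C E) hmean (gq_bet1 A C E hq hper)
      (gq_bet2 A C E hq hper) h00 hv hw0 hv' hw'
    have e : aa q q (gq f A C E) v w + aa q q (gq f A C E) v' w' = 2 * Lam q f A C E := by
      unfold aa Lam
      rw [← Finset.sum_add_distrib, Finset.mul_sum]
      apply Finset.sum_congr rfl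
      intro r _
      rw [← Finset.sum_add_distrib, Finset.mul_sum]
      apply Finset.sum_congr rfl
      intro s _
      have hq' : (0:ℝ) < q := by exact_mod_cast hq
      have c1 : (q:ℝ) * w / (q * v) = w / v := by field_simp
      have c2 : (q:ℝ) * v / (q * w) = v / w := by field_simp
      have c3 : (q:ℝ) * w' / (q * v') = w' / v' := by field_simp
      have c4 : (q:ℝ) * v' / (q * w') = v' / w' := by field_simp
      rw [c1, c2, c3, c4]
      have d1 : (C:ℝ) / (4 * A) = (w / v + w' / v') / 4 := by rw [e4]; ring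
      have d2 : (C:ℝ) / (4 * E) = (v / w + v' / w') / 4 := by rw [e5]; ring
      rw [d1, d2]
      unfold gq
      ring
    rw [e] at hlim
    exact hlim

/-- one dimensional sums over rays -/
noncomputable def rho (f : ℤ → ℝ) (τ : ℝ) (n : ℤ) : ℝ :=
  ∑' x : ℕ, if x = 0 then 0 else f (n * (x : ℤ) ^ 2) * KK (τ * ((n * (x : ℤ) ^ 2 : ℤ) : ℝ))

/-- from half weights to half open cones -/
lemma halfopen {τ H : ℝ} (f0 : f 0 = 0)
    (h : HasSum (fun p : ℕ × ℕ => hw p.1 * hw p.2 *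
      (gq f A C E p.1 p.2 * KK (τ * ((A * (p.1 : ℤ) ^ 2 + C * p.1 * p.2 + E * (p.2 : ℤ) ^ 2 : ℤ) : ℝ))))
      H) :
    HasSum (fun p : ℕ × ℕ => if 1 ≤ p.1 then
      gq f A C E p.1 p.2 * KK (τ * ((A * (p.1 : ℤ) ^ 2 + C * p.1 * p.2 + E * (p.2 : ℤ) ^ 2 : ℤ) : ℝ))
      else 0) (H + 1 / 2 * rho f τ A - 1 / 2 * rho f τ E) := by
  set a : ℕ × ℕ → ℝ := fun p => gq f A C E p.1 p.2 *
    KK (τ * ((A * (p.1 : ℤ) ^ 2 + C * p.1 * p.2 + E * (p.2 : ℤ) ^ 2 : ℤ) : ℝ)) with ha
  have ha0 : a (0, 0) = 0 := by simp [ha, gq, f0]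
  -- summability
  have hsum : Summable a := by
    have h1 : Summable (fun p : ℕ × ℕ => |hw p.1 * hw p.2 * a p|) := h.summable.abs
    refine Summable.of_norm_bounded (h1.mul_left 4) ?_
    intro p
    rw [Real.norm_eq_abs, abs_mul (hw p.1 * hw p.2) (a p), abs_mul (hw p.1) (hw p.2),
      abs_of_nonneg (hw_nonneg _), abs_of_nonneg (hw_nonneg _)]
    have h2 : ∀ n, 1 / 2 ≤ hw n := by
      intro n; unfold hw; split_ifs <;> norm_num
    have h3 : 1 / 4 ≤ hw p.1 * hw p.2 := by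
      have := h2 p.1
      have := h2 p.2
      nlinarith
    have := mul_le_mul_of_nonneg_right h3 (abs_nonneg (a p))
    linarith
  have hr1 : HasSum (fun p : ℕ × ℕ => if p.2 = 0 ∧ p.1 ≠ 0 then a p else 0) (rho f τ A) := by
    have hinj : Function.Injective (fun x : ℕ => (x, 0) : ℕ → ℕ × ℕ) := by
      intro x y hxy
      simpa using hxy
    rw [← hinj.hasSum_iff]
    · have h4 : Summable ((fun p : ℕ × ℕ => if p.2 = 0 ∧ p.1 ≠ 0 then a p else 0) ∘
          (fun x : ℕ => (x, 0))) := by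
        apply Summable.comp_injective _ hinj
        refine Summable.of_norm_bounded hsum.norm ?_
        intro p
        split_ifs
        · exact le_rfl
        · simp
      have h5 : rho f τ A = ∑' x : ℕ, ((fun p : ℕ × ℕ => if p.2 = 0 ∧ p.1 ≠ 0 then a p else 0) ∘
          (fun x : ℕ => (x, 0))) x := by
        unfold rho
        apply tsum_congr
        intro x
        simp only [Function.comp]
        by_cases hx : x = 0
        · simp [hx]
        · simp [hx, ha, gq]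
      rw [h5]
      exact h4.hasSum
    · intro p hp
      have : ¬ (p.2 = 0 ∧ p.1 ≠ 0) := by
        rintro ⟨h6, _⟩
        apply hp
        exact ⟨p.1, by ext <;> simp [h6]⟩
      simp only [this, if_false]
  have hr2 : HasSum (fun p : ℕ × ℕ => if p.1 = 0 ∧ p.2 ≠ 0 then a p else 0) (rho f τ E) := by
    have hinj : Function.Injective (fun x : ℕ => (0, x) : ℕ → ℕ × ℕ) := by
      intro x y hxy
      simpa using hxy
    rw [← hinj.hasSum_iff]
    · have h4 : Summable ((fun p : ℕ × ℕ => if p.1 = 0 ∧ p.2 ≠ 0 then a p else 0) ∘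
          (fun x : ℕ => (0, x))) := by
        apply Summable.comp_injective _ hinj
        refine Summable.of_norm_bounded hsum.norm ?_
        intro p
        split_ifs
        · exact le_rfl
        · simp
      have h5 : rho f τ E = ∑' x : ℕ, ((fun p : ℕ × ℕ => if p.1 = 0 ∧ p.2 ≠ 0 then a p else 0) ∘
          (fun x : ℕ => (0, x))) x := by
        unfold rho
        apply tsum_congr
        intro x
        simp only [Function.comp]
        by_cases hx : x = 0
        · simp [hx]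
        · simp [hx, ha, gq]
      rw [h5]
      exact h4.hasSum
    · intro p hp
      have : ¬ (p.1 = 0 ∧ p.2 ≠ 0) := by
        rintro ⟨h6, _⟩
        apply hp
        exact ⟨p.2, by ext <;> simp [h6]⟩
      simp only [this, if_false]
  refine ((h.add (hr1.mul_left (1 / 2))).sub (hr2.mul_left (1 / 2))).congr_fun ?_
  rintro ⟨x, z⟩
  rcases Nat.eq_zero_or_pos x with hx | hx
  · rcases Nat.eq_zero_or_pos z with hz | hz
    · subst hx; subst hz
      have : gq f A C E 0 0 = 0 := by simp [gq, f0]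
      simp [this]
    · have hz' : z ≠ 0 := by omega
      subst hx
      simp [hw, hz', ha]
  · have hx' : x ≠ 0 := by omega
    have hx1 : 1 ≤ x := hx
    rcases Nat.eq_zero_or_pos z with hz | hz
    · subst hz
      simp [hw, hx', hx1, ha]
      ring
    · have hz' : z ≠ 0 := by omega
      simp [hw, hx', hx1, hz', ha]

/-- the fibre counts -/
noncomputable def cnt (A C E : ℤ) (n : ℕ) : ℕ :=
  {p : ℕ × ℕ | 1 ≤ p.1 ∧ A * (p.1 : ℤ) ^ 2 + C * p.1 * p.2 + E * (p.2 : ℤ) ^ 2 = n}.ncard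

lemma cone_fiber {τ T : ℝ} (hA : 0 < A) (hE : 0 < E) (hC : 0 < C)
    (h : HasSum (fun p : ℕ × ℕ => if 1 ≤ p.1 then
      gq f A C E p.1 p.2 * KK (τ * ((A * (p.1 : ℤ) ^ 2 + C * p.1 * p.2 + E * (p.2 : ℤ) ^ 2 : ℤ) : ℝ))
      else 0) T) :
    HasSum (fun n : ℕ => (cnt A C E n : ℝ) * (f n * KK (τ * n))) T := by
  set F : ℕ × ℕ → ℝ := fun p : ℕ × ℕ => if 1 ≤ p.1 then
      gq f A C E p.1 p.2 * KK (τ * ((A * (p.1 : ℤ) ^ 2 + C * p.1 * p.2 + E * (p.2 : ℤ) ^ 2 : ℤ) : ℝ))
      else 0 with hF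
  set φ : ℕ × ℕ → ℕ := fun p : ℕ × ℕ =>
    (A * (p.1 : ℤ) ^ 2 + C * p.1 * p.2 + E * (p.2 : ℤ) ^ 2).toNat with hφ
  have h1 : HasSum (fun c : ℕ => ∑' b : φ ⁻¹' {c}, F b) T := h.tsum_fiberwise φ
  refine h1.congr_fun ?_
  intro n
  rw [tsum_subtype (φ ⁻¹' {n}) F]
  have hnn : ∀ p : ℕ × ℕ, 0 ≤ A * (p.1 : ℤ) ^ 2 + C * p.1 * p.2 + E * (p.2 : ℤ) ^ 2 := by
    intro p
    positivity
  have h2 : ∀ p : ℕ × ℕ, (p ∈ φ ⁻¹' {n}) ↔
      A * (p.1 : ℤ) ^ 2 + C * p.1 * p.2 + E * (p.2 : ℤ) ^ 2 = n := by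
    intro p
    simp only [mem_preimage, mem_singleton_iff, hφ]
    have := Int.toNat_of_nonneg (hnn p)
    constructor
    · intro h3
      rw [h3] at this
      exact this.symm
    · intro h3
      rw [h3] at this ⊢
      exact_mod_cast this
  have h3 : (φ ⁻¹' {n}).indicator F = {p : ℕ × ℕ | 1 ≤ p.1 ∧
        A * (p.1 : ℤ) ^ 2 + C * p.1 * p.2 + E * (p.2 : ℤ) ^ 2 = n}.indicator
        (fun _ => f n * KK (τ * n)) := by
    ext p
    by_cases hp : A * (p.1 : ℤ) ^ 2 + C * p.1 * p.2 + E * (p.2 : ℤ) ^ 2 = n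
    · rw [indicator_of_mem ((h2 p).2 hp), hF]
      simp only
      by_cases hp1 : 1 ≤ p.1
      · rw [if_pos hp1, indicator_of_mem (by exact ⟨hp1, hp⟩)]
        unfold gq
        rw [hp]
        simp
      · rw [if_neg hp1, indicator_of_notMem]
        exact fun h4 => hp1 h4.1
    · rw [indicator_of_notMem (fun h4 => hp ((h2 p).1 h4)), indicator_of_notMem]
      exact fun h4 => hp h4.2
  rw [h3, ← tsum_subtype, tsum_const, nsmul_eq_mul]
  rfl

end

end Pool.Agent.Lib_helper5
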