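import Pool.Agent.Lib_helper5.Engine2

/-!
The split side and the main identity.
-/

namespace Pool.Agent.Lib_helper5

open Real MeasureTheory Set Filter Topology
open Finset (range)
open Pool.Agent.LibH4 (Lam)

/-- the coefficient function of the split side -/
noncomputable def gs (f : ℤ → ℝ) (ψ : ℕ → ℝ) (k l : ℕ) : ℝ := f ((k : ℤ) * l) * ψ l

section

variable {q D0 : ℕ} {f : ℤ → ℝ} {ψ : ℕ → ℝ}

lemma gs_periodic (hper : ∀ x, f (x + q) = f x) (hψ : ∀ n, ψ (n % D0) = ψ n) (x z : ℕ) :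
    gs f ψ (x % q) (z % (q * D0)) = gs f ψ x z := by
  unfold gs
  congr 1
  · obtain ⟨k, hk⟩ := mod_cast_eq q x
    obtain ⟨l, hl⟩ := mod_cast_eq (q * D0) z
    rw [hk, hl]
    apply per_congr hper
    refine ⟨k * (z + l * (q * D0)) + x * l * D0, ?_⟩
    push_cast
    ring
  · rw [← hψ (z % (q * D0)), Nat.mod_mul_left_mod, hψ]

lemma gs_col (hq : 0 < q) (hper : ∀ x, f (x + q) = f x) (hodd : ∀ x, f (-x) = - f x) (l : ℕ) :
    ∑ r ∈ range q, gs f ψ r l = 0 := by
  have h1 := sum_reflect q hq (fun r => gs f ψ r l)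
  have h2 : ∑ r ∈ range q, gs f ψ ((q - r) % q) l = - ∑ r ∈ range q, gs f ψ r l := by
    rw [← Finset.sum_neg_distrib]
    apply Finset.sum_congr rfl
    intro r hr
    unfold gs
    rw [← neg_mul]
    congr 1
    rw [← hodd]
    obtain ⟨k, hk⟩ := reflect_cast q r (Finset.mem_range.1 hr)
    rw [hk]
    apply per_congr hper
    exact ⟨k * l, by ring⟩
  linarith

lemma split_data (hq : 0 < q) (hD0 : 0 < D0) (hper : ∀ x, f (x + q) = f x)
    (hodd : ∀ x, f (-x) = - f x) (hψ : ∀ n, ψ (n % D0) = ψ n)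
    (hrow : ∀ k < q, ∑ l ∈ range (q * D0), gs f ψ k l = 0) :
    ∃ S : ℝ → ℝ, (∀ τ, 0 < τ →
      HasSum (fun n : ℕ => (∑ l ∈ n.divisors, ψ l) * (f n * KK (τ * n))) (S τ)) ∧
      Tendsto S (𝓝[>] 0) (𝓝 (log 2 * (2 * bb q (q * D0) (gs f ψ)))) := by
  have f0 : f 0 = 0 := by
    have := hodd 0
    simp only [neg_zero] at this
    linarith
  have hqD : 0 < q * D0 := Nat.mul_pos hq hD0
  have h0 : ∀ s, gs f ψ 0 s = 0 := by intro s; simp [gs, f0]
  have h0' : ∀ r, gs f ψ r 0 = 0 := by intro s; simp [gs, f0]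
  refine ⟨fun τ => ∫ X in Ioi (0:ℝ), X⁻¹ * GG q (q * D0) (gs f ψ) X (τ / X), ?_, ?_⟩
  · intro τ hτ
    have hex := exchange q (q * D0) hq hqD (gs f ψ) (gs_periodic hper hψ) (v := 1) (w := 0)
      (v' := 0) (w' := 1) (c := 1) (Cb := 16) (τ := τ) (by norm_num) (by norm_num) (by norm_num)
      (by norm_num) (by norm_num) (by norm_num) (by norm_num) (by norm_num) hτ ?_
    · simp only [one_mul, zero_mul, add_zero, zero_add] at hex
      set F : ℕ × ℕ → ℝ := fun p => hw p.1 * hw p.2 * gs f ψ p.1 p.2 * KK (τ * (p.1 * p.2))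
        with hF
      have h1 : HasSum (fun c : ℕ => ∑' b : (fun p : ℕ × ℕ => p.1 * p.2) ⁻¹' {c}, F b)
        (∫ X in Ioi (0:ℝ), X⁻¹ * GG q (q * D0) (gs f ψ) X (τ / X)) :=
          hex.tsum_fiberwise (fun p : ℕ × ℕ => p.1 * p.2)
      refine h1.congr_fun ?_
      intro n
      rw [tsum_subtype ((fun p : ℕ × ℕ => p.1 * p.2) ⁻¹' {n}) F]
      rcases Nat.eq_zero_or_pos n with hn | hn
      · subst hn
        rw [Nat.divisors_zero, Finset.sum_empty, zero_mul]
        symm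
        have hz : ∀ p, ((fun p : ℕ × ℕ => p.1 * p.2) ⁻¹' {0}).indicator F p = 0 := ?_
        · simp only [hz, tsum_zero]
        intro p
        by_cases hp : p ∈ ((fun p : ℕ × ℕ => p.1 * p.2) ⁻¹' {0})
        · rw [indicator_of_mem hp, hF]
          simp only [mem_preimage, mem_singleton_iff, mul_eq_zero] at hp
          rcases hp with hp | hp
          · simp only
            rw [hp, h0]
            ring
          · simp only
            rw [hp, h0']
            ring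
        · rw [indicator_of_notMem hp]
      · have hn' : n ≠ 0 := by omega
        rw [tsum_eq_sum (s := n.divisorsAntidiagonal)]
        · have h2 : ∀ p ∈ n.divisorsAntidiagonal,
              ((fun p : ℕ × ℕ => p.1 * p.2) ⁻¹' {n}).indicator F p
              = (fun (_ l : ℕ) => ψ l * (f n * KK (τ * n))) p.1 p.2 := by
            intro p hp
            rw [Nat.mem_divisorsAntidiagonal] at hp
            have hp1 : p ∈ ((fun p : ℕ × ℕ => p.1 * p.2) ⁻¹' {n}) := hp.1
            have hpn : p.1 ≠ 0 ∧ p.2 ≠ 0 := by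
              constructor
              · intro h; apply hn'; rw [← hp.1, h, zero_mul]
              · intro h; apply hn'; rw [← hp.1, h, mul_zero]
            rw [indicator_of_mem hp1, hF]
            simp only
            have e1 : ((p.1:ℝ)) * p.2 = n := by exact_mod_cast hp.1
            have e2 : ((p.1:ℤ)) * p.2 = n := by exact_mod_cast hp.1
            rw [e1]
            unfold gs hw
            rw [e2, if_neg hpn.1, if_neg hpn.2]
            ring
          rw [Finset.sum_congr rfl h2,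
            Nat.sum_divisorsAntidiagonal' (f := fun (_ l : ℕ) => ψ l * (f n * KK (τ * n))),
            Finset.sum_mul]
        · intro p hp
          rw [indicator_of_notMem]
          intro hp2
          apply hp
          rw [Nat.mem_divisorsAntidiagonal]
          exact ⟨hp2, hn'⟩
    · rintro ⟨x, z⟩
      simp only
      rcases Nat.eq_zero_or_pos x with hx | hx
      · left; rw [hx, h0]
      rcases Nat.eq_zero_or_pos z with hz | hz
      · left; rw [hz, h0']
      right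
      have hx' : (1:ℝ) ≤ x := by exact_mod_cast hx
      have hz' : (1:ℝ) ≤ z := by exact_mod_cast hz
      refine ⟨by linarith, by linarith, ?_⟩
      have b1 : (1 + (x:ℝ)) ^ 2 ≤ 4 * (x:ℝ) ^ 2 := by nlinarith
      have b2 : (1 + (z:ℝ)) ^ 2 ≤ 4 * (z:ℝ) ^ 2 := by nlinarith
      calc (1 + (x:ℝ)) ^ 2 * (1 + (z:ℝ)) ^ 2 ≤ (4 * (x:ℝ) ^ 2) * (4 * (z:ℝ) ^ 2) := by gcongr
        _ = _ := by ring
  · have := split_limit q (q * D0) hq hqD (gs f ψ) hrow (fun s _ => gs_col hq hper hodd s) h0 h0'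
    rw [← two_mul] at this
    exact this

/-- THE ENGINE. -/
theorem engine {ι : Type*} (s : Finset ι) (A C E : ι → ℤ)
    (hA : ∀ i ∈ s, 0 < A i) (hE : ∀ i ∈ s, 0 < E i) (hC : ∀ i ∈ s, 0 < C i)
    (hD : ∀ i ∈ s, 4 * A i * E i < (C i) ^ 2)
    (hray : ∀ h : ℤ → ℝ, ∑ i ∈ s, h (A i) = ∑ i ∈ s, h (E i))
    (hq : 0 < q) (hD0 : 0 < D0) (hper : ∀ x, f (x + q) = f x)
    (hodd : ∀ x, f (-x) = - f x) (hψ : ∀ n, ψ (n % D0) = ψ n)
    (hrow : ∀ k < q, ∑ l ∈ range (q * D0), gs f ψ k l = 0)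
    (hmean : ∀ i ∈ s, ∑ r ∈ range q, ∑ u ∈ range q, gq f (A i) (C i) (E i) r u = 0)
    (hcount : ∀ n : ℕ, n ≠ 0 → ∑ i ∈ s, (cnt (A i) (C i) (E i) n : ℝ) = ∑ l ∈ n.divisors, ψ l) :
    ∑ i ∈ s, Lam q f (A i) (C i) (E i) = bb q (q * D0) (gs f ψ) := by
  have f0 : f 0 = 0 := by
    have := hodd 0
    simp only [neg_zero] at this
    linarith
  obtain ⟨S, hS1, hS2⟩ := split_data hq hD0 hper hodd hψ hrow
  have hch : ∀ i, ∃ H : ℝ → ℝ, i ∈ s → ((∀ τ, 0 < τ → HasSum (fun p : ℕ × ℕ => hw p.1 * hw p.2 *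
      (gq f (A i) (C i) (E i) p.1 p.2 *
        KK (τ * ((A i * (p.1 : ℤ) ^ 2 + C i * p.1 * p.2 + E i * (p.2 : ℤ) ^ 2 : ℤ) : ℝ))))
      (H τ)) ∧ Tendsto H (𝓝[>] 0) (𝓝 (log 2 * (2 * Lam q f (A i) (C i) (E i))))) := by
    intro i
    by_cases hi : i ∈ s
    · obtain ⟨H, hH⟩ := cone_data hq hper f0 (hA i hi) (hE i hi) (hC i hi) (hD i hi) (hmean i hi)
      exact ⟨H, fun _ => hH⟩
    · exact ⟨fun _ => 0, fun h => absurd h hi⟩
  choose H hH using hch
  have hEq : ∀ τ, 0 < τ → ∑ i ∈ s, H i τ = S τ := by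
    intro τ hτ
    have h1 : ∀ i ∈ s, HasSum (fun n : ℕ => (cnt (A i) (C i) (E i) n : ℝ) * (f n * KK (τ * n)))
        (H i τ + 1 / 2 * rho f τ (A i) - 1 / 2 * rho f τ (E i)) := by
      intro i hi
      exact cone_fiber (hA i hi) (hE i hi) (hC i hi) (halfopen f0 ((hH i hi).1 τ hτ))
    have h2 := hasSum_sum h1
    have h3 : ∑ i ∈ s, (H i τ + 1 / 2 * rho f τ (A i) - 1 / 2 * rho f τ (E i))
        = ∑ i ∈ s, H i τ := by
      rw [Finset.sum_sub_distrib, Finset.sum_add_distrib, ← Finset.mul_sum, ← Finset.mul_sum,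
        hray (rho f τ)]
      ring
    rw [h3] at h2
    refine h2.unique ((hS1 τ hτ).congr_fun ?_)
    intro n
    rcases Nat.eq_zero_or_pos n with hn | hn
    · subst hn
      simp [f0]
    · rw [← Finset.sum_mul, hcount n (by omega)]
  have hlim1 : Tendsto (fun τ => ∑ i ∈ s, H i τ) (𝓝[>] 0)
      (𝓝 (∑ i ∈ s, log 2 * (2 * Lam q f (A i) (C i) (E i)))) :=
    tendsto_finsetSum _ (fun i hi => (hH i hi).2)
  have hlim2 : Tendsto (fun τ => ∑ i ∈ s, H i τ) (𝓝[>] 0)
      (𝓝 (log 2 * (2 * bb q (q * D0) (gs f ψ)))) := by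
    refine hS2.congr' ?_
    filter_upwards [self_mem_nhdsWithin] with τ hτ
    exact (hEq τ hτ).symm
  have h4 := tendsto_nhds_unique hlim1 hlim2
  rw [← Finset.mul_sum, ← Finset.mul_sum] at h4
  have h5 : (0:ℝ) < log 2 := Real.log_pos (by norm_num)
  have h6 := mul_left_cancel₀ h5.ne' h4
  linarith

end

end Pool.Agent.Lib_helper5
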