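import Pool.Agent.Lib_helper5.NormNeg

/-!
The congruence for cycles of even length (fundamental unit of norm `+1`).
-/

namespace Pool.Agent.Lib_helper5

open Finset (range)
open Pool.Agent.LibH4 Pool.Agent.LibH4.FA

/-- **T5 for cycles of even length.** -/
theorem even_T5 (m B : ℤ) (hm : 0 < m) (hm2 : m % 2 = 1) (hB2 : B % 2 = 1) {K : ℕ}
    {P R S : ℕ → ℤ} {c : ℕ → ℕ} (h : CG.CycM m B K P R S c) (J : ℕ) (hK : K = 2 * J) (hJ : 0 < J)
    (hcl : CG.rho m B c K = CG.rho m B c (K + 1) * CG.om m B)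
    (hP1 : ∀ k < K, k ≠ 1 → P k ≠ 1)
    [IsDomain (QuadraticAlgebra ℤ m B)] [UniqueFactorizationMonoid (QuadraticAlgebra ℤ m B)]
    {d : ℕ} (hd : (d : ℤ) = B ^ 2 + 4 * m) (h8 : d % 8 = 5)
    (q l : ℕ) (hq : 0 < q) [Fact l.Prime] (hcop : Nat.Coprime q d) (hl6 : ¬ l ∣ 6)
    (hld : ¬ l ∣ d)
    (χ : ZMod q → ZMod l)
    (hodd : ∀ x, χ (-x) = - χ x) (hmul : ∀ x y, χ (x * y) = χ x * χ y)
    (hsum : ∑ u ∈ range q, (u : ZMod l) * χ (u : ZMod q) = 0) :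
    ∑ k ∈ range K, ∑ r ∈ range q, ∑ s ∈ range q,
      χ ((P k * (r : ℤ) ^ 2 + R k * r * s - S k * (s : ℤ) ^ 2 : ℤ) : ZMod q)
        * (3 * ((bZ q r : ZMod l) * bZ q s) - c k * b2Z q r) = 0 := by
  refine cyc_T5 h.toCyc d h8 ?_ q l hq hcop hl6 hld ?_ χ hodd hmul hsum
  · intro n hn
    rw [← CG.count_even hm h J hK hJ hcl hP1 n hn]
    exact (ncard_SN hd h8 n hn).2
  · intro f hper hodd'
    rw [h.Pm, h.RB, h.S1]
    apply mean_even m B hm2 hB2 q hq _ f hper hodd'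
    rw [← hd]
    exact Nat.isCoprime_iff_coprime.2 hcop

/-! ### the family `d = (an)² - 4a` -/

namespace E1

/-- `w` -/
def w (a n : ℕ) : ℤ := (a : ℤ) * n - a - 1

/-- the first coefficients -/
def P (a n : ℕ) : ℕ → ℤ
  | 1 => 1
  | 3 => a
  | _ => w a n

/-- the middle coefficients -/
def R (a n : ℕ) : ℕ → ℤ
  | 2 => a * n - 2 * a
  | 3 => a * n - 2 * a
  | _ => a * n - 2

/-- the last coefficients -/
def S (a n : ℕ) : ℕ → ℤ
  | 0 => 1
  | 2 => a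
  | 4 => 1
  | _ => w a n

/-- the multipliers -/
def c (a n : ℕ) : ℕ → ℕ
  | 0 => a * n - 2
  | 2 => n - 2
  | _ => 1

lemma w_pos (a n : ℕ) (ha : 2 ≤ a) (hn : 3 ≤ n) : 3 ≤ w a n := by
  unfold w
  have h1 : (2 : ℤ) ≤ a := by exact_mod_cast ha
  have h2 : (3 : ℤ) ≤ n := by exact_mod_cast hn
  nlinarith

lemma cast_c0 (a n : ℕ) (ha : 2 ≤ a) (hn : 3 ≤ n) : ((a * n - 2 : ℕ) : ℤ) = a * n - 2 := by
  have : 2 ≤ a * n := by nlinarith
  rw [Nat.cast_sub this]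
  push_cast
  ring

lemma cast_c2 (n : ℕ) (hn : 3 ≤ n) : ((n - 2 : ℕ) : ℤ) = n - 2 := by
  rw [Nat.cast_sub (by omega)]
  push_cast
  ring

lemma cyc (a n : ℕ) (ha : 2 ≤ a) (hn : 3 ≤ n) :
    CG.CycM (w a n) (a * n - 2) 4 (P a n) (R a n) (S a n) (c a n) where
  hP k hk := by
    interval_cases k <;> simp [P, S]
  hR k hk := by
    interval_cases k <;> simp only [R, S, c, w]
    · rw [cast_c0 a n ha hn]; ring
    · push_cast; ring
    · rw [cast_c2 n hn]; ring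
    · push_cast; ring
  hS k hk := by
    interval_cases k <;> simp only [P, R, S, c, w]
    · rw [cast_c0 a n ha hn]; ring
    · push_cast; ring
    · rw [cast_c2 n hn]; ring
    · push_cast; ring
  P0 := rfl
  R0 := rfl
  S0 := rfl
  Spos k hk := by
    have := w_pos a n ha hn
    interval_cases k <;> simp only [S] <;> omega
  Ppos0 := by
    have := w_pos a n ha hn
    simp only [P]; omega
  cpos k hk := by
    have : 6 ≤ a * n := by nlinarith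
    interval_cases k <;> simp only [c] <;> omega
  Pm := rfl
  RB := rfl
  S1 := rfl

lemma closing (a n : ℕ) (ha : 2 ≤ a) (hn : 3 ≤ n) :
    CG.rho (w a n) (a * n - 2) (c a n) 4 =
      CG.rho (w a n) (a * n - 2) (c a n) (4 + 1) * CG.om (w a n) (a * n - 2) := by
  have e2 : CG.rho (w a n) (a * n - 2) (c a n) 2 = ⟨-(a * n - 2), 1⟩ := by
    rw [CG.rho_add _ 0, CG.rho_zero, CG.rho_one]
    have := cast_c0 a n ha hn
    ext
    · simp [CG.om, c, this]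
    · simp [CG.om, c]
  have e3 : CG.rho (w a n) (a * n - 2) (c a n) 3 = ⟨a * n - 1, -1⟩ := by
    rw [CG.rho_add _ 1, CG.rho_one, e2]
    ext
    · simp [c, QuadraticAlgebra.re_one]; ring
    · simp [c, QuadraticAlgebra.im_one]
  have e4 : CG.rho (w a n) (a * n - 2) (c a n) 4 =
      ⟨-(a * n - 2) - (n - 2) * (a * n - 1), n - 1⟩ := by
    rw [CG.rho_add _ 2, e2, e3]
    have := cast_c2 n hn
    ext
    · simp [c, this]
    · simp [c, this]
      try ring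
  have e5 : CG.rho (w a n) (a * n - 2) (c a n) (4 + 1) =
      ⟨a * n - 1 + (a * n - 2) + (n - 2) * (a * n - 1), - 1 - (n - 1)⟩ := by
    rw [CG.rho_add _ 3, e3, e4]
    ext
    · simp [c]; ring
    · simp [c]
  rw [e4, e5, CG.om, QuadraticAlgebra.mk_mul_mk]
  ext
  · simp only [w]; ring
  · ring

/-- **T5 for the family `d = (an)² - 4a`**. -/
theorem T5 (a n : ℕ) (ha : 2 ≤ a) (ha2 : a % 2 = 1) (hn : 3 ≤ n) (hn2 : n % 2 = 1)
    [IsDomain (QuadraticAlgebra ℤ (w a n) (a * n - 2))]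
    [UniqueFactorizationMonoid (QuadraticAlgebra ℤ (w a n) (a * n - 2))]
    {d : ℕ} (hd : (d : ℤ) = ((a : ℤ) * n) ^ 2 - 4 * a)
    (q l : ℕ) (hq : 0 < q) [Fact l.Prime] (hcop : Nat.Coprime q d) (hl6 : ¬ l ∣ 6)
    (hld : ¬ l ∣ d)
    (χ : ZMod q → ZMod l)
    (hodd : ∀ x, χ (-x) = - χ x) (hmul : ∀ x y, χ (x * y) = χ x * χ y)
    (hsum : ∑ u ∈ range q, (u : ZMod l) * χ (u : ZMod q) = 0) :
    (∑ r ∈ range q, ∑ s ∈ range q,
      χ ((((a : ℤ) * n - a - 1) * (r : ℤ) ^ 2 + ((a : ℤ) * n - 2) * r * s - 1 * (s : ℤ) ^ 2 : ℤ)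
        : ZMod q) * (3 * ((bZ q r : ZMod l) * bZ q s) - ((a : ZMod l) * n - 2) * b2Z q r))
    + (∑ r ∈ range q, ∑ s ∈ range q,
      χ ((1 * (r : ℤ) ^ 2 + ((a : ℤ) * n - 2) * r * s - ((a : ℤ) * n - a - 1) * (s : ℤ) ^ 2 : ℤ)
        : ZMod q) * (3 * ((bZ q r : ZMod l) * bZ q s) - 1 * b2Z q r))
    + (∑ r ∈ range q, ∑ s ∈ range q,
      χ ((((a : ℤ) * n - a - 1) * (r : ℤ) ^ 2 + ((a : ℤ) * n - 2 * a) * r * s - a * (s : ℤ) ^ 2 : ℤ)
        : ZMod q) * (3 * ((bZ q r : ZMod l) * bZ q s) - ((n : ZMod l) - 2) * b2Z q r))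
    + (∑ r ∈ range q, ∑ s ∈ range q,
      χ ((a * (r : ℤ) ^ 2 + ((a : ℤ) * n - 2 * a) * r * s - ((a : ℤ) * n - a - 1) * (s : ℤ) ^ 2 : ℤ)
        : ZMod q) * (3 * ((bZ q r : ZMod l) * bZ q s) - 1 * b2Z q r)) = 0 := by
  have hw := w_pos a n ha hn
  have hodd_an : (a * n) % 2 = 1 := by rw [Nat.mul_mod, ha2, hn2]
  have hodd_an' : ((a : ℤ) * n) % 2 = 1 := by exact_mod_cast hodd_an
  have ha2' : (a : ℤ) % 2 = 1 := by exact_mod_cast ha2
  have h8 : d % 8 = 5 := by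
    obtain ⟨k, hk⟩ : ∃ k : ℤ, (a : ℤ) * n = 2 * k + 1 := ⟨((a : ℤ) * n) / 2, by omega⟩
    obtain ⟨j, hj⟩ : ∃ j : ℤ, (a : ℤ) = 2 * j + 1 := ⟨(a : ℤ) / 2, by omega⟩
    obtain ⟨i, hi⟩ := Int.even_mul_succ_self k
    have : (d : ℤ) = 8 * i - 8 * j - 3 := by
      rw [hd, hk, hj]
      linear_combination 4 * hi
    omega
  have key := even_T5 (w a n) (a * n - 2) (by omega) (by unfold w; omega) (by omega)
    (cyc a n ha hn) 2 rfl (by norm_num) (closing a n ha hn) (by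
      intro k hk hk1
      interval_cases k <;> simp only [P] <;> omega) (d := d) (by rw [hd]; unfold w; ring) h8
    q l hq hcop hl6 hld χ hodd hmul hsum
  rw [← key]
  simp only [Finset.sum_range_succ, Finset.sum_range_zero (M := ZMod l), zero_add, P, R, S, c, w]
  have c0 : ((a * n - 2 : ℕ) : ZMod l) = (a : ZMod l) * n - 2 := by
    have := congrArg (Int.cast : ℤ → ZMod l) (cast_c0 a n ha hn)
    push_cast at this
    exact this
  have c2 : ((n - 2 : ℕ) : ZMod l) = (n : ZMod l) - 2 := by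
    have := congrArg (Int.cast : ℤ → ZMod l) (cast_c2 n hn)
    push_cast at this
    exact this
  rw [c0, c2]
  push_cast
  rfl

end E1

end Pool.Agent.Lib_helper5
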