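import Pool.Agent.Lib_helper5.Split

/-!
Exchange of summation and integration; the kernel.
-/

namespace Pool.Agent.Lib_helper5

open Real MeasureTheory Set Filter Topology
open Finset (range)

/-- the kernel -/
noncomputable def KK (y : ℝ) : ℝ := ∫ X in Ioi (0:ℝ), X⁻¹ * kf (X + y / X)

lemma KK_scale {β γ : ℝ} (hβ : 0 < β) :
    ∫ X in Ioi (0:ℝ), X⁻¹ * kf (β * X + γ / X) = KK (β * γ) := by
  have h := integral_comp_mul_left_Ioi (fun X => X⁻¹ * kf (X + (β * γ) / X)) 0 hβ
  rw [mul_zero, smul_eq_mul] at h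
  unfold KK
  have h2 : ∀ X ∈ Ioi (0:ℝ), X⁻¹ * kf (β * X + γ / X)
      = β * ((β * X)⁻¹ * kf (β * X + (β * γ) / (β * X))) := by
    intro X hX
    have hX' : 0 < X := hX
    have e1 : (β * γ) / (β * X) = γ / X := by field_simp
    rw [e1]
    field_simp
  rw [setIntegral_congr_fun measurableSet_Ioi h2, integral_const_mul, h, ← mul_assoc,
    mul_inv_cancel₀ hβ.ne', one_mul]

lemma exp_neg_half_bound {y : ℝ} (hy : 0 < y) : exp (-(y / 2)) ≤ 16 / y ^ 2 := by
  have h1 := exp_neg_le_inv (y := y / 4) (by positivity)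
  have h2 : exp (-(y / 2)) = exp (-(y / 4)) ^ 2 := by
    rw [← exp_nat_mul]
    congr 1
    push_cast
    ring
  rw [h2]
  calc exp (-(y / 4)) ^ 2 ≤ (1 / (y / 4)) ^ 2 := by gcongr
    _ = 16 / y ^ 2 := by field_simp; norm_num

lemma summable_box (C : ℝ) :
    Summable (fun p : ℕ × ℕ => C * (1 / ((1 + (p.1:ℝ)) ^ 2 * (1 + (p.2:ℝ)) ^ 2))) := by
  have h1 : Summable (fun n : ℕ => 1 / (1 + (n:ℝ)) ^ 2) := by
    have := (summable_nat_add_iff 1).2 (Real.summable_one_div_nat_pow.2 (by norm_num : 1 < 2))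
    refine this.congr ?_
    intro n
    push_cast
    rw [add_comm]
  have h2 := Summable.mul_of_nonneg h1 h1 (fun n => by simp only [Pi.zero_apply]; positivity)
    (fun n => by simp only [Pi.zero_apply]; positivity)
  refine (h2.mul_left C).congr ?_
  intro p
  field_simp

lemma abs_le_sum_of_periodic (q1 q2 : ℕ) (hq1 : 0 < q1) (hq2 : 0 < q2) (g : ℕ → ℕ → ℝ)
    (hg : ∀ x z, g (x % q1) (z % q2) = g x z) (x z : ℕ) :
    |g x z| ≤ ∑ r ∈ range q1, ∑ s ∈ range q2, |g r s| := by
  rw [← hg]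
  have h1 : |g (x % q1) (z % q2)| ≤ ∑ s ∈ range q2, |g (x % q1) s| :=
    Finset.single_le_sum (f := fun s => |g (x % q1) s|) (fun _ _ => abs_nonneg _)
      (Finset.mem_range.2 (Nat.mod_lt _ hq2))
  refine h1.trans ?_
  exact Finset.single_le_sum (f := fun r => ∑ s ∈ range q2, |g r s|)
    (fun _ _ => Finset.sum_nonneg (fun _ _ => abs_nonneg _))
      (Finset.mem_range.2 (Nat.mod_lt _ hq1))

theorem exchange (q1 q2 : ℕ) (hq1 : 0 < q1) (hq2 : 0 < q2) (g : ℕ → ℕ → ℝ)
    (hg : ∀ x z, g (x % q1) (z % q2) = g x z) {v w v' w' c Cb τ : ℝ}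
    (hv : 0 ≤ v) (hw : 0 ≤ w) (hv' : 0 ≤ v') (hw' : 0 ≤ w') (hvv : 0 < v + v') (hww : 0 < w + w')
    (hc : 0 < c) (hCb : 0 ≤ Cb) (hτ : 0 < τ)
    (hcase : ∀ p : ℕ × ℕ, g p.1 p.2 = 0 ∨ (c ≤ v * p.1 + w * p.2 ∧ c ≤ v' * p.1 + w' * p.2 ∧
      (1 + (p.1:ℝ)) ^ 2 * (1 + (p.2:ℝ)) ^ 2
        ≤ Cb * ((v * p.1 + w * p.2) ^ 2 * (v' * p.1 + w' * p.2) ^ 2))) :
    HasSum (fun p : ℕ × ℕ => Pool.Agent.Lib_helper5.hw p.1 * Pool.Agent.Lib_helper5.hw p.2
      * g p.1 p.2 * KK (τ * ((v * p.1 + w * p.2) * (v' * p.1 + w' * p.2))))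
      (∫ X in Ioi (0:ℝ), X⁻¹ * GG q1 q2 g (v * X + v' * (τ / X)) (w * X + w' * (τ / X))) := by
  set M : ℝ := ∑ r ∈ range q1, ∑ s ∈ range q2, |g r s| with hM
  have hM0 : 0 ≤ M := Finset.sum_nonneg (fun _ _ => Finset.sum_nonneg (fun _ _ => abs_nonneg _))
  have hgM : ∀ x z, |g x z| ≤ M := abs_le_sum_of_periodic q1 q2 hq1 hq2 g hg
  -- the functions
  let F : ℕ × ℕ → ℝ → ℝ := fun p X => X⁻¹ * (Pool.Agent.Lib_helper5.hw p.1 *
    Pool.Agent.Lib_helper5.hw p.2 * g p.1 p.2 *
    kf ((v * X + v' * (τ / X)) * p.1 + (w * X + w' * (τ / X)) * p.2))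
  let bnd : ℕ × ℕ → ℝ → ℝ := fun p X => (M * (512 / (c * τ ^ 3)) *
    (Cb * (1 / ((1 + (p.1:ℝ)) ^ 2 * (1 + (p.2:ℝ)) ^ 2)))) * exp (-(c / 2) * X)
  have hbs : Summable (fun p : ℕ × ℕ => (M * (512 / (c * τ ^ 3)) *
    (Cb * (1 / ((1 + (p.1:ℝ)) ^ 2 * (1 + (p.2:ℝ)) ^ 2))))) :=
    (summable_box Cb).mul_left _
  have hkey : ∀ p : ℕ × ℕ, ∀ X : ℝ,
      (v * X + v' * (τ / X)) * (p.1:ℝ) + (w * X + w' * (τ / X)) * p.2
        = (v * p.1 + w * p.2) * X + ((v' * p.1 + w' * p.2) * τ) / X := by
    intro p X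
    ring
  have hS : HasSum (fun p => ∫ X in Ioi (0:ℝ), F p X)
      (∫ X in Ioi (0:ℝ), X⁻¹ * GG q1 q2 g (v * X + v' * (τ / X)) (w * X + w' * (τ / X))) := by
    refine hasSum_integral_of_dominated_convergence bnd ?_ ?_ ?_ ?_ ?_
    · intro p
      apply ContinuousOn.aestronglyMeasurable _ measurableSet_Ioi
      apply ContinuousOn.mul
      · exact continuousOn_inv₀.mono (fun x hx => ne_of_gt hx)
      · apply ContinuousOn.mul continuousOn_const
        apply kf_continuous.comp_continuousOn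
        have hd : ContinuousOn (fun X : ℝ => τ / X) (Ioi 0) :=
          continuousOn_const.div continuousOn_id (fun x hx => ne_of_gt hx)
        have hi : ContinuousOn (fun X : ℝ => X) (Ioi 0) := continuousOn_id
        exact (((continuousOn_const.mul hi).add (continuousOn_const.mul hd)).mul
          continuousOn_const).add
          (((continuousOn_const.mul hi).add (continuousOn_const.mul hd)).mul continuousOn_const)
    · intro p
      filter_upwards [ae_restrict_mem measurableSet_Ioi] with X hX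
      have hX' : 0 < X := hX
      simp only [F, bnd]
      rcases hcase p with h0 | ⟨h1, h2, h3⟩
      · rw [h0, mul_zero, zero_mul, mul_zero, norm_zero]
        positivity
      rw [hkey p X]
      set β := v * p.1 + w * p.2 with hβ
      set β' := v' * p.1 + w' * p.2 with hβ'
      have hβ0 : 0 < β := lt_of_lt_of_le hc h1
      have hβ'0 : 0 < β' := lt_of_lt_of_le hc h2
      have hs0 : 0 ≤ β * X + β' * τ / X := by positivity
      rw [norm_mul, norm_mul, norm_mul, norm_mul, Real.norm_eq_abs, Real.norm_eq_abs,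
        Real.norm_eq_abs, Real.norm_eq_abs, Real.norm_eq_abs, abs_of_pos (inv_pos.2 hX'),
        abs_of_nonneg (hw_nonneg _), abs_of_nonneg (hw_nonneg _), abs_of_nonneg (kf_nonneg hs0)]
      have i1 : kf (β * X + β' * τ / X) ≤ exp (-(β * X / 2)) * exp (-((β' * τ / X) / 2))
          * (exp (-(β * X / 2)) * exp (-((β' * τ / X) / 2))) := by
        refine (kf_le _).trans (le_of_eq ?_)
        rw [← exp_add, ← exp_add]
        congr 1
        ring
      have i2 : exp (-(β * X / 2)) ≤ 16 / (β * X) ^ 2 := exp_neg_half_bound (by positivity)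
      have i3 : exp (-((β' * τ / X) / 2)) ≤ 16 / (β' * τ / X) ^ 2 :=
        exp_neg_half_bound (by positivity)
      have i4 : exp (-(β * X / 2)) ≤ exp (-(c / 2) * X) := by
        apply exp_le_exp.2
        have := mul_le_mul_of_nonneg_right h1 hX'.le
        linarith
      have i5 : exp (-((β' * τ / X) / 2)) ≤ 2 * X / (c * τ) := by
        have i6 := exp_neg_le_inv (y := (c * τ / X) / 2) (by positivity)
        have i7 : exp (-((β' * τ / X) / 2)) ≤ exp (-((c * τ / X) / 2)) := by
          apply exp_le_exp.2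
          have : c * τ / X ≤ β' * τ / X := by gcongr
          linarith
        refine (i7.trans i6).trans (le_of_eq ?_)
        field_simp
      have i8 : (16 / (β * X) ^ 2) * (16 / (β' * τ / X) ^ 2)
          = 256 / τ ^ 2 * (1 / (β ^ 2 * β' ^ 2)) := by
        field_simp
        norm_num
      have i9 : 1 / (β ^ 2 * β' ^ 2) ≤ Cb * (1 / ((1 + (p.1:ℝ)) ^ 2 * (1 + (p.2:ℝ)) ^ 2)) := by
        rw [mul_one_div, div_le_div_iff₀ (by positivity) (by positivity), one_mul]
        exact h3
      calc X⁻¹ * (Pool.Agent.Lib_helper5.hw p.1 * Pool.Agent.Lib_helper5.hw p.2 * |g p.1 p.2| *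
            kf (β * X + β' * τ / X))
          ≤ X⁻¹ * (1 * 1 * M * (((16 / (β * X) ^ 2) * (16 / (β' * τ / X) ^ 2)) *
            (exp (-(c / 2) * X) * (2 * X / (c * τ))))) := by
            have w1 := hw_le_one p.1
            have w2 := hw_le_one p.2
            have w10 := hw_nonneg p.1
            have w20 := hw_nonneg p.2
            have g1 := hgM p.1 p.2
            have kk := kf_nonneg hs0
            have i10 : kf (β * X + β' * τ / X) ≤ ((16 / (β * X) ^ 2) * (16 / (β' * τ / X) ^ 2)) *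
              (exp (-(c / 2) * X) * (2 * X / (c * τ))) := by
              refine i1.trans ?_
              gcongr
            gcongr
        _ = (M * (512 / (c * τ ^ 3)) * (1 / (β ^ 2 * β' ^ 2))) * exp (-(c / 2) * X) := by
            rw [i8]
            field_simp
            ring
        _ ≤ _ := by gcongr
    · filter_upwards with X
      exact hbs.mul_right _
    · simp only [bnd, tsum_mul_right]
      apply Integrable.const_mul
      exact exp_neg_integrableOn_Ioi 0 (by positivity)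
    · filter_upwards [ae_restrict_mem measurableSet_Ioi] with X hX
      have hX' : 0 < X := hX
      have hX2 : 0 < τ / X := by positivity
      simp only [F]
      apply HasSum.mul_left
      apply hasSum_GG q1 q2 hq1 hq2 g hg
      · rcases hv.eq_or_lt with h | h
        · rw [← h] at hvv ⊢
          have : 0 < v' * (τ / X) := by
            apply mul_pos _ hX2
            linarith
          linarith
        · have := mul_pos h hX'
          have := mul_nonneg hv' hX2.le
          linarith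
      · rcases hw.eq_or_lt with h | h
        · rw [← h] at hww ⊢
          have : 0 < w' * (τ / X) := by
            apply mul_pos _ hX2
            linarith
          linarith
        · have := mul_pos h hX'
          have := mul_nonneg hw' hX2.le
          linarith
  refine hS.congr_fun ?_
  intro p
  simp only [F]
  rcases hcase p with h0 | ⟨h1, h2, h3⟩
  · rw [h0]
    simp
  · have hβ0 : 0 < v * p.1 + w * p.2 := lt_of_lt_of_le hc h1
    have e1 : ∀ X : ℝ, X⁻¹ * (Pool.Agent.Lib_helper5.hw p.1 *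
        Pool.Agent.Lib_helper5.hw p.2 * g p.1 p.2 *
        kf ((v * X + v' * (τ / X)) * p.1 + (w * X + w' * (τ / X)) * p.2))
        = (Pool.Agent.Lib_helper5.hw p.1 * Pool.Agent.Lib_helper5.hw p.2 * g p.1 p.2) *
          (X⁻¹ * kf ((v * p.1 + w * p.2) * X + ((v' * p.1 + w' * p.2) * τ) / X)) := by
      intro X
      rw [hkey p X]
      ring
    simp_rw [e1]
    rw [integral_const_mul, KK_scale hβ0]
    congr 2
    ring

end Pool.Agent.Lib_helper5
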