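import Pool.Agent.Lib_helper5.EdgeCount
import Pool.Agent.Lib_helper4.Counting

/-!
The identity for the family of cf-period three.
-/

namespace Pool.Agent.Lib_helper5

open Finset (range)
open Pool.Agent.LibH4 Pool.Agent.LibH4.FA

section permutation

lemma sum_mul_perm (Q n : ℕ) (hQ : 0 < Q) (hn : Nat.Coprime n Q) (h : ℕ → ℝ) :
    ∑ l ∈ range Q, h ((n * l) % Q) = ∑ l ∈ range Q, h l := by
  have hmaps : ∀ l ∈ range Q, (n * l) % Q ∈ range Q := fun l _ =>
    Finset.mem_range.2 (Nat.mod_lt _ hQ)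
  have hinj : Set.InjOn (fun l => (n * l) % Q) (range Q : Set ℕ) := by
    intro x hx y hy hxy
    have hx' := Finset.mem_range.1 (Finset.mem_coe.1 hx)
    have hy' := Finset.mem_range.1 (Finset.mem_coe.1 hy)
    have h1 : n * x ≡ n * y [MOD Q] := hxy
    have h2 : x ≡ y [MOD Q] := Nat.ModEq.cancel_left_of_coprime hn.symm h1
    have h3 : x % Q = y % Q := h2
    rwa [Nat.mod_eq_of_lt hx', Nat.mod_eq_of_lt hy'] at h3
  apply Finset.sum_nbij (fun l => (n * l) % Q) hmaps hinj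
  · exact Finset.surjOn_of_injOn_of_card_le _ hmaps hinj le_rfl
  · intro _ _; rfl

lemma J_two {d : ℕ} (h8 : d % 8 = 5) : jacobiSym 2 d = -1 := by
  rw [jacobiSym.at_two (Nat.odd_iff.2 (by omega)), ZMod.χ₈_nat_eq_if_mod_eight]
  simp [h8]
  omega

lemma row_zero {q d : ℕ} {f : ℤ → ℝ} (hq : 0 < q) (hcop : Nat.Coprime q d) (h8 : d % 8 = 5)
    (hper : ∀ x, f (x + q) = f x) (k : ℕ) :
    ∑ l ∈ range (q * d), gs f (fun l => (jacobiSym l d : ℝ)) k l = 0 := by
  have hd : 0 < d := by omega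
  have hψ : ∀ n : ℕ, ((jacobiSym ((n % d : ℕ) : ℤ) d : ℤ) : ℝ) = (jacobiSym n d : ℝ) := by
    intro n
    rw [Int.natCast_mod, ← jacobiSym.mod_left]
  obtain ⟨n, hn1, hn2⟩ := Nat.chineseRemainder hcop 1 2
  have hnq : Nat.Coprime n q := by
    have := hn1.gcd_eq
    rw [Nat.gcd_one_left] at this
    exact this
  have hnd : Nat.Coprime n d := by
    have := hn2.gcd_eq
    have h2 : Nat.gcd 2 d = 1 := by
      rw [← Nat.coprime_iff_gcd_eq_one, Nat.coprime_two_left]
      exact Nat.odd_iff.2 (by omega)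
    rw [h2] at this
    exact this
  have hnQ : Nat.Coprime n (q * d) := Nat.Coprime.mul_right hnq hnd
  have h1 := sum_mul_perm (q * d) n (Nat.mul_pos hq hd) hnQ
    (fun l => gs f (fun l => (jacobiSym l d : ℝ)) k l)
  have h2 : ∑ l ∈ range (q * d), gs f (fun l => (jacobiSym l d : ℝ)) k ((n * l) % (q * d))
      = - ∑ l ∈ range (q * d), gs f (fun l => (jacobiSym l d : ℝ)) k l := by
    rw [← Finset.sum_neg_distrib]
    apply Finset.sum_congr rfl
    intro l _
    unfold gs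
    rw [neg_mul_eq_mul_neg]
    congr 1
    · apply per_congr hper
      obtain ⟨u, hu⟩ := mod_cast_eq (q * d) (n * l)
      obtain ⟨c, hc⟩ : ∃ c : ℤ, (n : ℤ) = 1 + c * q := by
        have := (Nat.modEq_iff_dvd.1 hn1.symm)
        obtain ⟨c, hc⟩ := this
        exact ⟨c, by push_cast at hc; linarith⟩
      refine ⟨k * (c * l) + k * (u * d), ?_⟩
      rw [hu]
      push_cast
      rw [hc]
      ring
    · have e1 : ((jacobiSym (((n * l) % (q * d) : ℕ) : ℤ) d : ℤ) : ℝ)
          = (jacobiSym ((n * l : ℕ) : ℤ) d : ℝ) := by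
        rw [← hψ ((n * l) % (q * d)), Nat.mod_mul_left_mod, hψ]
      simp only
      rw [e1]
      push_cast
      rw [jacobiSym.mul_left]
      have e2 : jacobiSym (n : ℤ) d = -1 := by
        rw [← J_two h8, jacobiSym.mod_left]
        have : ((n : ℤ)) % d = (2 : ℤ) % d := by
          have h5 : n % d = 2 % d := hn2
          exact_mod_cast h5
        rw [this, ← jacobiSym.mod_left]
      rw [e2]
      push_cast
      ring
  linarith

end permutation

lemma A1_pos (a t : ℕ) (i : ℕ) (hi : i ≤ a) :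
    0 < Ai 1 (((a : ℤ) ^ 2 + 1) * t + a) (1 + a * t) i := by
  have hi' : (i : ℤ) ≤ a := by exact_mod_cast hi
  have h1 : 0 ≤ (1 + (a : ℤ) * t) * (i * (a - i)) := by
    apply mul_nonneg (by positivity)
    apply mul_nonneg (by positivity) (by linarith)
  have h2 : 0 ≤ (t : ℤ) * i := by positivity
  have e : Ai 1 (((a : ℤ) ^ 2 + 1) * t + a) (1 + a * t) i
      = 1 + (1 + (a : ℤ) * t) * (i * (a - i)) + (t : ℤ) * i := by
    unfold Ai; ring
  rw [e]
  linarith

lemma A2_pos (a t : ℕ) (i : ℕ) (hi : i ≤ (a ^ 2 + 1) * t + a) :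
    0 < Ai (1 + a * t) (((a : ℤ) ^ 2 + 1) * t + a) 1 i := by
  have hi' : (i : ℤ) ≤ ((a : ℤ) ^ 2 + 1) * t + a := by exact_mod_cast hi
  have h1 : 0 ≤ (i : ℤ) * (((a : ℤ) ^ 2 + 1) * t + a - i) :=
    mul_nonneg (by positivity) (by linarith)
  have h2 : 0 ≤ (a : ℤ) * t := by positivity
  have e : Ai (1 + a * t) (((a : ℤ) ^ 2 + 1) * t + a) 1 i
      = 1 + a * t + (i : ℤ) * (((a : ℤ) ^ 2 + 1) * t + a - i) := by
    unfold Ai; ring
  rw [e]
  linarith

lemma A3_pos (a t : ℕ) (i : ℕ) (hi : i ≤ a) :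
    0 < Ai (1 + a * t) (2 * (1 + a * t) * a - (((a : ℤ) ^ 2 + 1) * t + a)) (1 + a * t) i := by
  have hi' : (i : ℤ) ≤ a := by exact_mod_cast hi
  have h1 : 0 ≤ (1 + (a : ℤ) * t) * (i * (a - i)) := by
    apply mul_nonneg (by positivity)
    apply mul_nonneg (by positivity) (by linarith)
  have h2 : 0 ≤ (t : ℤ) * (a - i) := mul_nonneg (by positivity) (by linarith)
  have e : Ai (1 + a * t) (2 * (1 + a * t) * a - (((a : ℤ) ^ 2 + 1) * t + a)) (1 + a * t) i
      = 1 + (1 + (a : ℤ) * t) * (i * (a - i)) + (t : ℤ) * (a - i) := by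
    unfold Ai; ring
  rw [e]
  linarith

lemma Ci_eq (P R S i : ℤ) : Ci P R S i = Ai P R S i + Ai P R S (i + 1) + S := by
  unfold Ai Ci; ring

lemma disc_eq (P R S i : ℤ) :
    (Ci P R S i) ^ 2 = 4 * Ai P R S i * Ai P R S (i + 1) + (R ^ 2 + 4 * P * S) := by
  unfold Ai Ci; ring

lemma ray_edge (P R S : ℤ) (n : ℕ) (h : ℤ → ℝ) :
    ∑ i ∈ range n, h (Ai P R S i) - ∑ i ∈ range n, h (Ai P R S (i + 1))
      = h (Ai P R S 0) - h (Ai P R S n) := by
  rw [← Finset.sum_sub_distrib]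
  have := Finset.sum_range_sub' (fun i : ℕ => h (Ai P R S i)) n
  simp only [Nat.cast_zero, Nat.cast_add, Nat.cast_one] at this
  exact this

/-- the real identity -/
theorem real_identity (a t d : ℕ) (ha : 1 ≤ a) (ht : 1 ≤ t)
    (hd : d = ((a ^ 2 + 1) * t + a) ^ 2 + 4 * (1 + a * t)) (h8 : d % 8 = 5)
    [IsDomain (QuadraticAlgebra ℤ ((1 + a * t : ℕ) : ℤ) (((a ^ 2 + 1) * t + a : ℕ) : ℤ))]
    [UniqueFactorizationMonoid
      (QuadraticAlgebra ℤ ((1 + a * t : ℕ) : ℤ) (((a ^ 2 + 1) * t + a : ℕ) : ℤ))]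
    (q : ℕ) (hq : 0 < q) (hcop : Nat.Coprime q d) (f : ℤ → ℝ)
    (hper : ∀ x, f (x + q) = f x) (hodd : ∀ x, f (-x) = - f x) (m B : ℤ)
    (hm : m = 1 + a * t) (hB : B = ((a : ℤ) ^ 2 + 1) * t + a) :
    4 * SS q f 1 B m + 2 * SS q f m (2 * m * a - B) m + B * MS q f 1 B m
      - 2 * a * MS q f (-m) B (-1) = bb q (q * d) (gs f (fun l => (jacobiSym l d : ℝ))) := by
  have : NeZero q := ⟨hq.ne'⟩
  rw [← finite_alg a t q ha hq f hodd hper m B hm hB]
  set Bn : ℕ := (a ^ 2 + 1) * t + a with hBn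
  have hBn' : B = (Bn : ℤ) := by rw [hB, hBn]; push_cast; ring
  have hm' : m = ((1 + a * t : ℕ) : ℤ) := by rw [hm]; push_cast; ring
  have hmpos : 0 < m := by rw [hm]; positivity
  let s : Finset (ℕ ⊕ (ℕ ⊕ ℕ)) := (range a).disjSum ((range Bn).disjSum (range a))
  let A : ℕ ⊕ (ℕ ⊕ ℕ) → ℤ := Sum.elim (fun i : ℕ => Ai 1 B m i)
    (Sum.elim (fun i : ℕ => Ai m B 1 i) (fun i : ℕ => Ai m (2 * m * a - B) m i))
  let C : ℕ ⊕ (ℕ ⊕ ℕ) → ℤ := Sum.elim (fun i : ℕ => Ci 1 B m i)
    (Sum.elim (fun i : ℕ => Ci m B 1 i) (fun i : ℕ => Ci m (2 * m * a - B) m i))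
  let E : ℕ ⊕ (ℕ ⊕ ℕ) → ℤ := Sum.elim (fun i : ℕ => Ai 1 B m (i + 1))
    (Sum.elim (fun i : ℕ => Ai m B 1 (i + 1)) (fun i : ℕ => Ai m (2 * m * a - B) m (i + 1)))
  have p1 : ∀ i : ℕ, i ≤ a → 0 < Ai 1 B m i := by
    intro i hi; rw [hm, hB]; exact A1_pos a t i hi
  have p2 : ∀ i : ℕ, i ≤ Bn → 0 < Ai m B 1 i := by
    intro i hi; rw [hm, hB]; exact A2_pos a t i hi
  have p3 : ∀ i : ℕ, i ≤ a → 0 < Ai m (2 * m * a - B) m i := by
    intro i hi; rw [hm, hB]; exact A3_pos a t i hi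
  have hA : ∀ i ∈ s, 0 < A i := by
    rintro (i | i | i) hi
    · simp only [s, Finset.inl_mem_disjSum, Finset.mem_range] at hi
      exact p1 i hi.le
    · simp only [s, Finset.inr_mem_disjSum, Finset.inl_mem_disjSum, Finset.mem_range] at hi
      exact p2 i hi.le
    · simp only [s, Finset.inr_mem_disjSum, Finset.mem_range] at hi
      exact p3 i hi.le
  have hE : ∀ i ∈ s, 0 < E i := by
    rintro (i | i | i) hi
    · simp only [s, Finset.inl_mem_disjSum, Finset.mem_range] at hi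
      have := p1 (i + 1) hi
      push_cast at this
      exact this
    · simp only [s, Finset.inr_mem_disjSum, Finset.inl_mem_disjSum, Finset.mem_range] at hi
      have := p2 (i + 1) hi
      push_cast at this
      exact this
    · simp only [s, Finset.inr_mem_disjSum, Finset.mem_range] at hi
      have := p3 (i + 1) hi
      push_cast at this
      exact this
  have hC : ∀ i ∈ s, 0 < C i := by
    intro i hi
    have h1 := hA i hi
    have h2 := hE i hi
    rcases i with (i | i | i)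
    · simp only [A, E, C, Sum.elim_inl] at *
      rw [Ci_eq]; linarith
    · simp only [A, E, C, Sum.elim_inl, Sum.elim_inr] at *
      rw [Ci_eq]; linarith
    · simp only [A, E, C, Sum.elim_inr] at *
      rw [Ci_eq]; linarith
  have hD : ∀ i ∈ s, 4 * A i * E i < (C i) ^ 2 := by
    rintro (i | i | i) hi
    · simp only [A, E, C, Sum.elim_inl]
      rw [disc_eq]
      have : 0 ≤ B ^ 2 := sq_nonneg _
      linarith
    · simp only [A, E, C, Sum.elim_inl, Sum.elim_inr]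
      rw [disc_eq]
      have : 0 ≤ B ^ 2 := sq_nonneg _
      linarith
    · simp only [A, E, C, Sum.elim_inr]
      rw [disc_eq]
      have : 0 ≤ (2 * m * a - B) ^ 2 := sq_nonneg _
      have : 0 < m * m := mul_pos hmpos hmpos
      linarith
  have hray : ∀ h : ℤ → ℝ, ∑ i ∈ s, h (A i) = ∑ i ∈ s, h (E i) := by
    intro h
    simp only [s, Finset.sum_disjSum, A, E, Sum.elim_inl, Sum.elim_inr]
    have r1 := ray_edge 1 B m a h
    have r2 := ray_edge m B 1 Bn h
    have r3 := ray_edge m (2 * m * a - B) m a h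
    have v1 : Ai 1 B m 0 = 1 := by unfold Ai; ring
    have v2 : Ai 1 B m a = m := by unfold Ai; rw [hm, hB]; ring
    have v3 : Ai m B 1 0 = m := by unfold Ai; ring
    have v4 : Ai m B 1 Bn = m := by unfold Ai; rw [← hBn']; ring
    have v5 : Ai m (2 * m * a - B) m 0 = m := by unfold Ai; ring
    have v6 : Ai m (2 * m * a - B) m a = 1 := by unfold Ai; rw [hm, hB]; ring
    rw [v1, v2] at r1
    rw [v3, v4] at r2
    rw [v5, v6] at r3
    linarith
  have hmean : ∀ i ∈ s, ∑ r ∈ range q, ∑ u ∈ range q, gq f (A i) (C i) (E i) r u = 0 := by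
    have hoddF := Fq_neg hper hodd
    rintro (i | i | i) hi
    · simp only [A, E, C, Sum.elim_inl]
      rw [mean_range hper]
      rw [mean_cone (Fq q f) 1 B m i]
      have := mean_one (Fq q f) hoddF a t
      rw [hm, hB]
      push_cast
      exact this
    · simp only [A, E, C, Sum.elim_inl, Sum.elim_inr]
      rw [mean_range hper]
      rw [mean_cone (Fq q f) m B 1 i]
      have := mean_two (Fq q f) hoddF a t
      rw [hm, hB]
      push_cast
      exact this
    · simp only [A, E, C, Sum.elim_inr]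
      rw [mean_range hper]
      rw [mean_cone (Fq q f) m (2 * m * a - B) m i]
      have := mean_three (Fq q f) hoddF a t
      rw [hm, hB]
      push_cast
      exact this
  have hcount : ∀ n : ℕ, n ≠ 0 → ∑ i ∈ s, (cnt (A i) (C i) (E i) n : ℝ)
      = ∑ l ∈ n.divisors, (jacobiSym l d : ℝ) := by
    intro n hn
    obtain ⟨⟨f1, f2, f3⟩, hc⟩ := cone_count a t n ha ht hn
    obtain ⟨_, hsn⟩ := ncard_SN (m := ((1 + a * t : ℕ) : ℤ))
      (B := (((a ^ 2 + 1) * t + a : ℕ) : ℤ)) (d := d) (by rw [hd, hBn]; push_cast; ring) h8 n hn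
    have s1 : Cone.E1 a t n = edgeSet 1 B m a n := by
      ext z
      simp only [Cone.E1, edgeSet, Set.mem_ofPred_eq, one_mul, hm', hBn', hBn]
    have s2 : Cone.E2 a t n = edgeSet m B 1 Bn n := by
      ext z
      simp only [Cone.E2, edgeSet, Set.mem_ofPred_eq, one_mul, hm', hBn', hBn]
    have s3 : Cone.E3 a t n = edgeSet m (2 * m * a - B) m a n := by
      ext z
      simp only [Cone.E3, edgeSet, Set.mem_ofPred_eq, hm', hBn', hBn]
    rw [s1] at f1
    rw [s2] at f2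
    rw [s3] at f3
    rw [s1, s2, s3, edge_count 1 B m a n f1, edge_count m B 1 Bn n f2,
      edge_count m (2 * m * a - B) m a n f3] at hc
    simp only [s, Finset.sum_disjSum, A, E, C, Sum.elim_inl, Sum.elim_inr]
    have h9 : ∑ l ∈ n.divisors, (jacobiSym l d : ℝ) = ((sig d n : ℤ) : ℝ) := by
      unfold sig; push_cast; rfl
    rw [h9, ← hsn]
    have h10 : (((SN ((1 + a * t : ℕ) : ℤ) (((a ^ 2 + 1) * t + a : ℕ) : ℤ) n).ncard : ℤ) : ℝ)
      = (((SN ((1 + a * t : ℕ) : ℤ) (((a ^ 2 + 1) * t + a : ℕ) : ℤ) n).ncard : ℕ) : ℝ) := by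
      push_cast; rfl
    rw [h10, hc]
    push_cast
    ring
  have key := engine (q := q) (D0 := d) (f := f) (ψ := fun l => (jacobiSym l d : ℝ)) s A C E
    hA hE hC hD hray hq (by omega) hper hodd
    (by
      intro n
      show ((jacobiSym ((n % d : ℕ) : ℤ) d : ℤ) : ℝ) = (jacobiSym n d : ℝ)
      rw [Int.natCast_mod, ← jacobiSym.mod_left])
    (fun k _ => row_zero hq hcop h8 hper k) hmean hcount
  rw [← key]
  simp only [s, Finset.sum_disjSum, A, E, C, Sum.elim_inl, Sum.elim_inr]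
  rw [add_assoc]

end Pool.Agent.Lib_helper5
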