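import Pool.Agent.Lib_helper5.Psi

/-!
Limits of Frullani type integrals depending on a parameter.
-/

namespace Pool.Agent.Lib_helper5

open Real MeasureTheory Set Filter Topology

lemma integrable_bd (C : ℝ) : IntegrableOn (fun X : ℝ => C * (1 / (1 + X ^ 2))) (Ioi 0) := by
  have h := (integrable_inv_one_add_sq).const_mul C
  refine (h.integrableOn).congr_fun ?_ measurableSet_Ioi
  intro x _
  simp

lemma half_limit (Φ : ℝ → ℝ → ℝ) (Φ0 : ℝ → ℝ) (C a : ℝ)
    (hcont : ContinuousOn (fun p : ℝ × ℝ => Φ p.1 p.2) (Ioi 0 ×ˢ Ioi 0))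
    (h1 : ∀ X, 0 < X → Tendsto (fun Y => Φ X Y) (𝓝[>] 0) (𝓝 (Φ0 X)))
    (hb : ∀ X Y, 0 < X → 0 < Y → Y ≤ X → Y ≤ 1 / X →
      |Φ X Y - Φ (2 * X) (2 * Y)| ≤ C * (X / (1 + X ^ 2)))
    (h0c : ContinuousOn Φ0 (Ioi 0))
    (h00 : Tendsto Φ0 (𝓝[>] 0) (𝓝 a)) (h0i : Tendsto Φ0 atTop (𝓝 0)) :
    Tendsto (fun τ => ∫ X in Ioi √τ, X⁻¹ * (Φ X (τ / X) - Φ (2 * X) (2 * (τ / X))))
      (𝓝[>] 0) (𝓝 (log 2 * a)) := by
  -- bound of the limit function
  have hlim : ∀ X, 0 < X → Tendsto (fun Y => Φ X Y - Φ (2 * X) (2 * Y)) (𝓝[>] 0)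
      (𝓝 (Φ0 X - Φ0 (2 * X))) := by
    intro X hX
    have h2 := h1 (2 * X) (by linarith)
    have h3 : Tendsto (fun Y : ℝ => 2 * Y) (𝓝[>] 0) (𝓝[>] 0) := by
      rw [tendsto_nhdsWithin_iff]
      constructor
      · have : Tendsto (fun Y : ℝ => 2 * Y) (𝓝 0) (𝓝 (2 * 0)) :=
          (continuous_const.mul continuous_id).tendsto 0
        rw [mul_zero] at this
        exact this.mono_left nhdsWithin_le_nhds
      · filter_upwards [self_mem_nhdsWithin] with Y hY
        simp only [mem_Ioi] at hY ⊢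
        linarith
    exact (h1 X hX).sub (h2.comp h3)
  have hbl : ∀ X, 0 < X → |Φ0 X - Φ0 (2 * X)| ≤ C * (X / (1 + X ^ 2)) := by
    intro X hX
    have h3 := (hlim X hX).abs
    refine le_of_tendsto h3 ?_
    have hmin : 0 < min X (1 / X) := lt_min hX (by positivity)
    have : Ioo 0 (min X (1 / X)) ∈ 𝓝[>] (0 : ℝ) := Ioo_mem_nhdsGT hmin
    filter_upwards [this] with Y hY
    exact hb X Y hX hY.1 (hY.2.le.trans (min_le_left _ _)) (hY.2.le.trans (min_le_right _ _))
  have hint0 : IntegrableOn (fun X => X⁻¹ • (Φ0 (1 * X) - Φ0 (2 * X))) (Ioi 0) := by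
    refine Integrable.mono' (integrable_bd C) ?_ ?_
    · apply ContinuousOn.aestronglyMeasurable _ measurableSet_Ioi
      simp only [smul_eq_mul]
      apply ContinuousOn.mul
      · exact continuousOn_inv₀.mono (fun x hx => ne_of_gt hx)
      · apply ContinuousOn.sub
        · apply h0c.comp (by fun_prop)
          intro x hx
          simpa using hx
        · apply h0c.comp (by fun_prop)
          intro x hx
          simp only [mem_Ioi] at hx ⊢
          linarith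
    · filter_upwards [ae_restrict_mem measurableSet_Ioi] with X hX
      have hX' : 0 < X := hX
      rw [one_mul, smul_eq_mul, norm_mul, Real.norm_eq_abs, Real.norm_eq_abs,
        abs_of_pos (inv_pos.2 hX')]
      calc X⁻¹ * |Φ0 X - Φ0 (2 * X)| ≤ X⁻¹ * (C * (X / (1 + X ^ 2))) := by
            gcongr
            exact hbl X hX'
        _ = C * (1 / (1 + X ^ 2)) := by field_simp
  have hfr : ∫ X in Ioi (0:ℝ), X⁻¹ • (Φ0 (1 * X) - Φ0 (2 * X)) = log 2 * a := by
    have := Frullani.integral_Ioi_eq (f := Φ0) (a := 1) (b := 2) (L := a) (R := 0)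
      (h0c.locallyIntegrableOn measurableSet_Ioi) (by norm_num) (by norm_num) h00 h0i hint0
    rw [this]
    simp
  rw [← hfr]
  have hconv : ∀ τ : ℝ, ∫ X in Ioi √τ, X⁻¹ * (Φ X (τ / X) - Φ (2 * X) (2 * (τ / X)))
      = ∫ X in Ioi (0:ℝ), (Ioi √τ).indicator
        (fun X => X⁻¹ * (Φ X (τ / X) - Φ (2 * X) (2 * (τ / X)))) X := by
    intro τ
    rw [setIntegral_indicator measurableSet_Ioi]
    congr 2
    rw [inter_eq_right.2]
    exact Ioi_subset_Ioi (Real.sqrt_nonneg τ)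
  simp_rw [hconv]
  have hev : ∀ᶠ τ : ℝ in 𝓝[>] 0, 0 < τ ∧ τ ≤ 1 := by
    filter_upwards [Ioo_mem_nhdsGT (zero_lt_one)] with τ hτ
    exact ⟨hτ.1, hτ.2.le⟩
  refine tendsto_integral_filter_of_dominated_convergence
    (fun X : ℝ => C * (1 / (1 + X ^ 2))) ?_ ?_ (integrable_bd C) ?_
  · filter_upwards [hev] with τ hτ
    obtain ⟨hτ0, hτ1⟩ := hτ
    apply AEStronglyMeasurable.indicator _ measurableSet_Ioi
    apply ContinuousOn.aestronglyMeasurable _ measurableSet_Ioi
    apply ContinuousOn.mul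
    · exact continuousOn_inv₀.mono (fun x hx => ne_of_gt hx)
    · have hd : ContinuousOn (fun X : ℝ => τ / X) (Ioi 0) :=
        continuousOn_const.div continuousOn_id (fun x hx => ne_of_gt hx)
      apply ContinuousOn.sub
      · exact hcont.comp (continuousOn_id.prodMk hd)
          (fun x hx => ⟨hx, div_pos hτ0 hx⟩)
      · refine hcont.comp ((continuousOn_const.mul continuousOn_id).prodMk
          (continuousOn_const.mul hd)) (fun x hx => ?_)
        have hx' : 0 < x := hx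
        have h7 : 0 < 2 * x := by linarith
        have h8 : 0 < 2 * (τ / x) := by positivity
        exact ⟨h7, h8⟩
  · filter_upwards [hev] with τ hτ
    obtain ⟨hτ0, hτ1⟩ := hτ
    filter_upwards [ae_restrict_mem measurableSet_Ioi] with X hX
    have hX' : 0 < X := hX
    have hC0 : 0 ≤ C * (X / (1 + X ^ 2)) := (abs_nonneg _).trans (hbl X hX')
    have hC1 : C * (1 / (1 + X ^ 2)) = X⁻¹ * (C * (X / (1 + X ^ 2))) := by field_simp
    by_cases hXτ : X ∈ Ioi √τ
    · rw [indicator_of_mem hXτ, norm_mul, Real.norm_eq_abs, Real.norm_eq_abs,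
        abs_of_pos (inv_pos.2 hX'), hC1]
      have hXτ' : √τ < X := hXτ
      gcongr
      apply hb X (τ / X) hX' (div_pos hτ0 hX')
      · rw [div_le_iff₀ hX', ← Real.sqrt_le_sqrt_iff (by positivity), Real.sqrt_mul_self hX'.le]
        exact hXτ'.le
      · gcongr
    · rw [indicator_of_notMem hXτ, norm_zero, hC1]
      positivity
  · filter_upwards [ae_restrict_mem measurableSet_Ioi] with X hX
    have hX' : 0 < X := hX
    have h5 : Tendsto (fun τ : ℝ => τ / X) (𝓝[>] 0) (𝓝[>] 0) := by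
      rw [tendsto_nhdsWithin_iff]
      constructor
      · have : Tendsto (fun Y : ℝ => Y / X) (𝓝 0) (𝓝 (0 / X)) :=
          (continuous_id.div_const X).tendsto 0
        rw [zero_div] at this
        exact this.mono_left nhdsWithin_le_nhds
      · filter_upwards [self_mem_nhdsWithin] with Y hY
        simp only [mem_Ioi] at hY ⊢
        positivity
    have h6 := ((hlim X hX').comp h5).const_mul X⁻¹
    rw [one_mul, smul_eq_mul]
    refine h6.congr' ?_
    have : Ioo 0 (X ^ 2) ∈ 𝓝[>] (0 : ℝ) := Ioo_mem_nhdsGT (by positivity)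
    filter_upwards [this] with τ hτ
    have hXτ : X ∈ Ioi √τ := by
      simp only [mem_Ioi]
      rw [Real.sqrt_lt' hX']
      exact hτ.2
    rw [indicator_of_mem hXτ]
    rfl

/-- Inversion `X ↦ τ / X` on `(0,∞)`. -/
lemma integral_comp_div_Ioi (g : ℝ → ℝ) (τ : ℝ) (hτ : 0 < τ) :
    ∫ x in Ioi (0:ℝ), (τ / x ^ 2) * g (τ / x) = ∫ y in Ioi (0:ℝ), g y := by
  have h1 := integral_comp_rpow_Ioi (fun y => τ * g (τ * y)) (p := -1) (by norm_num)
  have h2 := integral_comp_mul_left_Ioi g 0 hτ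
  rw [mul_zero] at h2
  rw [integral_const_mul, h2] at h1
  simp only [smul_eq_mul] at h1
  rw [← mul_assoc, mul_inv_cancel₀ hτ.ne', one_mul] at h1
  rw [← h1]
  apply setIntegral_congr_fun measurableSet_Ioi
  intro x hx
  have hx' : 0 < x := hx
  simp only
  rw [Real.rpow_neg_one]
  have : x ^ ((-1:ℝ) - 1) = (x ^ 2)⁻¹ := by
    rw [show ((-1:ℝ) - 1) = -(2:ℕ) by norm_num, Real.rpow_neg hx'.le, Real.rpow_natCast]
  rw [this]
  simp
  ring_nf

lemma full_limit (Φ : ℝ → ℝ → ℝ) (Φ1 Φ2 : ℝ → ℝ) (C a1 a2 : ℝ)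
    (hcont : ContinuousOn (fun p : ℝ × ℝ => Φ p.1 p.2) (Ioi 0 ×ˢ Ioi 0))
    (h1 : ∀ X, 0 < X → Tendsto (fun Y => Φ X Y) (𝓝[>] 0) (𝓝 (Φ1 X)))
    (h2 : ∀ Y, 0 < Y → Tendsto (fun X => Φ X Y) (𝓝[>] 0) (𝓝 (Φ2 Y)))
    (hb1 : ∀ X Y, 0 < X → 0 < Y → Y ≤ X → Y ≤ 1 / X →
      |Φ X Y - Φ (2 * X) (2 * Y)| ≤ C * (X / (1 + X ^ 2)))
    (hb2 : ∀ X Y, 0 < X → 0 < Y → X ≤ Y → X ≤ 1 / Y →
      |Φ X Y - Φ (2 * X) (2 * Y)| ≤ C * (Y / (1 + Y ^ 2)))
    (h1c : ContinuousOn Φ1 (Ioi 0)) (h2c : ContinuousOn Φ2 (Ioi 0))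
    (h10 : Tendsto Φ1 (𝓝[>] 0) (𝓝 a1)) (h1i : Tendsto Φ1 atTop (𝓝 0))
    (h20 : Tendsto Φ2 (𝓝[>] 0) (𝓝 a2)) (h2i : Tendsto Φ2 atTop (𝓝 0)) :
    Tendsto (fun τ => ∫ X in Ioi (0:ℝ), X⁻¹ * (Φ X (τ / X) - Φ (2 * X) (2 * (τ / X))))
      (𝓝[>] 0) (𝓝 (log 2 * (a1 + a2))) := by
  have H1 := half_limit Φ Φ1 C a1 hcont h1 hb1 h1c h10 h1i
  have hcont' : ContinuousOn (fun p : ℝ × ℝ => Φ p.2 p.1) (Ioi 0 ×ˢ Ioi 0) := by
    refine hcont.comp (continuous_swap.continuousOn) ?_
    intro p hp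
    exact ⟨hp.2, hp.1⟩
  have H2 := half_limit (fun X Y => Φ Y X) Φ2 C a2 hcont' h2
    (fun X Y hX hY h3 h4 => hb2 Y X hY hX h3 h4) h2c h20 h2i
  have H := H2.add H1
  rw [← mul_add, add_comm a2 a1] at H
  refine H.congr' ?_
  filter_upwards [Ioo_mem_nhdsGT (zero_lt_one)] with τ hτ
  have hτ0 : 0 < τ := hτ.1
  have hτ1 : τ ≤ 1 := hτ.2.le
  have hs0 : 0 < √τ := Real.sqrt_pos.2 hτ0
  set h : ℝ → ℝ := fun X => X⁻¹ * (Φ X (τ / X) - Φ (2 * X) (2 * (τ / X))) with hh
  have hcont3 : ContinuousOn h (Ioi 0) := by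
    apply ContinuousOn.mul
    · exact continuousOn_inv₀.mono (fun x hx => ne_of_gt hx)
    · have hd : ContinuousOn (fun X : ℝ => τ / X) (Ioi 0) :=
        continuousOn_const.div continuousOn_id (fun x hx => ne_of_gt hx)
      apply ContinuousOn.sub
      · exact hcont.comp (continuousOn_id.prodMk hd)
          (fun x hx => ⟨hx, div_pos hτ0 hx⟩)
      · refine hcont.comp ((continuousOn_const.mul continuousOn_id).prodMk
          (continuousOn_const.mul hd)) (fun x hx => ?_)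
        have hx' : 0 < x := hx
        have h7 : 0 < 2 * x := by linarith
        have h8 : 0 < 2 * (τ / x) := by positivity
        exact ⟨h7, h8⟩
  have hI1 : IntegrableOn h (Ioi √τ) := by
    have hsub : Ioi √τ ⊆ Ioi 0 := Ioi_subset_Ioi hs0.le
    refine Integrable.mono' ((integrable_bd C).mono_set hsub) ?_ ?_
    · exact (hcont3.mono hsub).aestronglyMeasurable measurableSet_Ioi
    · filter_upwards [ae_restrict_mem measurableSet_Ioi] with X hX
      have hX1 : √τ < X := hX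
      have hX' : 0 < X := hs0.trans hX1
      rw [hh, norm_mul, Real.norm_eq_abs, Real.norm_eq_abs, abs_of_pos (inv_pos.2 hX')]
      have hC1 : C * (1 / (1 + X ^ 2)) = X⁻¹ * (C * (X / (1 + X ^ 2))) := by field_simp
      rw [hC1]
      gcongr
      apply hb1 X (τ / X) hX' (div_pos hτ0 hX')
      · rw [div_le_iff₀ hX', ← Real.sqrt_le_sqrt_iff (by positivity), Real.sqrt_mul_self hX'.le]
        exact hX1.le
      · gcongr
  have hI2 : IntegrableOn h (Ioc 0 √τ) := by
    have hC0 : 0 ≤ C := by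
      have := (abs_nonneg _).trans (hb1 1 1 one_pos one_pos le_rfl (by norm_num))
      norm_num at this
      linarith
    have hci : IntegrableOn (fun _ : ℝ => C / τ) (Ioc 0 √τ) := by
      exact integrableOn_const (by simp) (by simp)
    refine Integrable.mono' hci ?_ ?_
    · exact (hcont3.mono (fun x hx => hx.1)).aestronglyMeasurable measurableSet_Ioc
    · filter_upwards [ae_restrict_mem measurableSet_Ioc] with X hX
      have hX' : 0 < X := hX.1
      rw [hh, norm_mul, Real.norm_eq_abs, Real.norm_eq_abs, abs_of_pos (inv_pos.2 hX')]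
      have h3 : |Φ X (τ / X) - Φ (2 * X) (2 * (τ / X))|
          ≤ C * ((τ / X) / (1 + (τ / X) ^ 2)) := by
        apply hb2 X (τ / X) hX' (div_pos hτ0 hX')
        · rw [le_div_iff₀ hX', ← Real.sqrt_le_sqrt_iff hτ0.le, Real.sqrt_mul_self hX'.le]
          exact hX.2
        · rw [one_div_div]
          rw [le_div_iff₀ hτ0]
          nlinarith
      calc X⁻¹ * |Φ X (τ / X) - Φ (2 * X) (2 * (τ / X))|
          ≤ X⁻¹ * (C * ((τ / X) / (1 + (τ / X) ^ 2))) := by gcongr
        _ ≤ X⁻¹ * (C * (X / τ)) := by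
            have h9 : (τ / X) / (1 + (τ / X) ^ 2) ≤ X / τ := by
              rw [div_le_div_iff₀ (by positivity) hτ0]
              have : (τ / X) * τ = X * (τ / X) ^ 2 := by field_simp
              rw [this]
              nlinarith
            exact mul_le_mul_of_nonneg_left (mul_le_mul_of_nonneg_left h9 hC0)
              (inv_nonneg.2 hX'.le)
        _ = C / τ := by field_simp
  have hsplit : ∫ X in Ioi (0:ℝ), h X = (∫ X in Ioc 0 √τ, h X) + ∫ X in Ioi √τ, h X := by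
    rw [← setIntegral_union _ measurableSet_Ioi hI2 hI1, Ioc_union_Ioi_eq_Ioi hs0.le]
    exact Set.disjoint_left.2 (fun x hx hx2 => not_lt.2 hx.2 hx2)
  rw [hsplit]
  congr 1
  -- the substitution
  have h4 : ∫ X in Ioc 0 √τ, h X = ∫ y in Ioi (0:ℝ), (Ioc 0 √τ).indicator h y := by
    rw [setIntegral_indicator measurableSet_Ioc]
    congr 2
    rw [inter_eq_right.2]
    intro x hx
    exact hx.1
  rw [h4, ← integral_comp_div_Ioi _ τ hτ0]
  have h5 : ∀ X ∈ Ioi (0:ℝ), τ / X ^ 2 * (Ioc 0 √τ).indicator h (τ / X) = (Ici √τ).indicator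
      (fun X => X⁻¹ * (Φ (τ / X) X - Φ (2 * (τ / X)) (2 * X))) X := by
    intro X hX
    have hX' : 0 < X := hX
    have hmem : τ / X ∈ Ioc 0 √τ ↔ X ∈ Ici √τ := by
      rw [mem_Ioc, mem_Ici]
      have e : √τ * √τ = τ := Real.mul_self_sqrt hτ0.le
      constructor
      · rintro ⟨_, h7⟩
        rw [div_le_iff₀ hX'] at h7
        nlinarith
      · intro h7
        refine ⟨div_pos hτ0 hX', ?_⟩
        rw [div_le_iff₀ hX']
        nlinarith
    by_cases hm : X ∈ Ici √τ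
    · rw [indicator_of_mem hm, indicator_of_mem (hmem.2 hm), hh]
      simp only
      have e1 : τ / (τ / X) = X := by field_simp
      rw [e1]
      field_simp
    · rw [indicator_of_notMem hm, indicator_of_notMem (fun h8 => hm (hmem.1 h8)), mul_zero]
  rw [setIntegral_congr_fun measurableSet_Ioi h5, setIntegral_indicator measurableSet_Ici,
    inter_eq_right.2 (Ici_subset_Ioi.2 hs0), integral_Ici_eq_integral_Ioi]

end Pool.Agent.Lib_helper5
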