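import Pool.Agent.Lib_helper5.LKRel

/-!
Interface between the kernel checks and the relations.
-/

namespace Pool.Agent.Lib_helper5.LK

open Finset Pool.Agent.LibH4 Pool.Agent.LibH4.Ker Pool.Agent.LibH4.T6 Pool.Agent.LibH4.KF

/-! ### loops -/

/-- conjunction over a list; the reduction passes through a definition at every step -/
def allQ {α : Type} (p : α → Bool) (L : List α) : Bool :=
  @List.rec α (fun _ => Bool) true (fun x _ ih => andB (p x) ih) L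

lemma allQ_spec {α : Type} {p : α → Bool} {L : List α} (h : allQ p L = true) :
    ∀ x ∈ L, p x = true := by
  induction L with
  | nil => simp
  | cons y L ih =>
    have h' : andB (p y) (allQ p L) = true := h
    obtain ⟨h1, h2⟩ := andB_spec h'
    intro x hx
    rcases List.mem_cons.1 hx with rfl | hx
    · exact h1
    · exact ih h2 x hx

/-- map in continuation passing style -/
def mapC {α β : Type} (f : α → (β → Bool) → Bool) (L : List α) : (List β → Bool) → Bool :=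
  @List.rec α (fun _ => (List β → Bool) → Bool) (fun k => k [])
    (fun x _ ih k => f x fun y => ih fun r => k (y :: r)) L

lemma mapC_ex {α β : Type} {f : α → (β → Bool) → Bool} {L : List α} {k : List β → Bool}
    (h' : ∀ x ∈ L, ∀ k', f x k' = true → ∃ y, k' y = true) (h : mapC f L k = true) :
    ∃ r, k r = true := by
  induction L generalizing k with
  | nil => exact ⟨[], h⟩
  | cons x L ih =>
    have h1 : f x (fun y => mapC f L fun r => k (y :: r)) = true := h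
    obtain ⟨y, hy⟩ := h' x (by simp) _ h1
    obtain ⟨r, hr⟩ := ih (fun z hz => h' z (by simp [hz])) hy
    exact ⟨y :: r, hr⟩

lemma mapC_mem {α β : Type} {f : α → (β → Bool) → Bool} {L : List α} {k : List β → Bool}
    {x0 : α} {g0 : β} {C : Prop} (hx : x0 ∈ L) (h0 : ∀ k', f x0 k' = true → k' g0 = true ∧ C)
    (h' : ∀ x ∈ L, ∀ k', f x k' = true → ∃ y, k' y = true) (h : mapC f L k = true) :
    ∃ r, k r = true ∧ g0 ∈ r ∧ C := by
  induction L generalizing k with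
  | nil => exact absurd hx (by simp)
  | cons x L ih =>
    have h1 : f x (fun y => mapC f L fun r => k (y :: r)) = true := h
    rcases List.mem_cons.1 hx with rfl | hx
    · obtain ⟨h2, h3⟩ := h0 _ h1
      obtain ⟨r, hr⟩ := mapC_ex (fun z hz => h' z (by simp [hz])) h2
      exact ⟨g0 :: r, hr, by simp, h3⟩
    · obtain ⟨y, hy⟩ := h' x (by simp) _ h1
      obtain ⟨r, hr, h4, h5⟩ := ih hx (fun z hz => h' z (by simp [hz])) hy
      exact ⟨y :: r, hr, by simp [h4], h5⟩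

/-- membership test -/
def memB (c : ℕ) (L : List ℕ) : Bool :=
  @List.rec ℕ (fun _ => Bool) false (fun x _ ih => @Bool.rec (fun _ => Bool) ih true (Nat.beq x c)) L

lemma memB_spec {c : ℕ} {L : List ℕ} (h : memB c L = true) : c ∈ L := by
  induction L with
  | nil => exact absurd h (by simp [memB])
  | cons x L ih =>
    have h' : @Bool.rec (fun _ => Bool) (memB c L) true (Nat.beq x c) = true := h
    cases hb : Nat.beq x c with
    | false => rw [hb] at h'; simp [ih h']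
    | true => simp [Nat.eq_of_beq_eq_true hb]

lemma cond0_zero {n : ℕ} {a : Bool} (hn : n = 0) (h : cond0 n a = true) : a = true := by
  subst hn; exact h

/-! ### values -/

/-- the row of a list of forms -/
def RA (n1 T1 w W Y1 Y0 l : ℕ) (D : ℤ) (J : List Fm) : ℕ :=
  rp (2 ^ w) (rowX n1 T1 w W Y1 Y0 (rs n1 D)) (J.map (fkO n1 l))

/-- the vector of the middle component -/
def VA (n2 T2 w3 w : ℕ) (L2 : List (ℕ × ℕ)) (J : List Fm) : ℕ :=
  rp (2 ^ w) (pv n2 T2 (2 ^ w3) L2) (J.map (fkI n2))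

/-- the vector of the inner component -/
def VB (n3 T3 w3 : ℕ) (L3 : List (ℕ × ℕ)) (J : List Fm) : ℕ :=
  packL (2 ^ w3) (pv n3 T3 (2 ^ 80) L3) (J.map (fkI n3))

/-- the vector of the inner component, by completing the square -/
def VC (p T w3 : ℕ) (D : ℤ) (J : List Fm) : ℕ :=
  packL (2 ^ w3) (fun x => packL (2 ^ 80) (vf p T (rs p D) x.2.1 x.2.2) (PL p)) (J.map (fkI p))

/-- the conditions of a row -/
def RC (n1 T1 fr l : ℕ) (D : ℤ) (J : List Fm) : Prop :=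
  ∀ x ∈ J.map (fkO n1 l), rowC n1 T1 fr l (rs n1 D) x

lemma rowA_use {p T w : ℕ} (hw : 16 ≤ w) (hp : 0 < p) {ds : List ℕ} {W Y1 Y0 fr l : ℕ} {D : ℤ}
    {J : List Fm} {k : ℕ → Bool}
    (h : rowA p T w (ds.map fun δ => (δ, gg p T w δ, gs p T δ)) W Y1 Y0 fr l (rs p D)
      (J.map (fkO p l)) (nat_lit 0) (fun A => strict A k) = true) :
    k (RA p T w W Y1 Y0 l D J) = true ∧ RC p T fr l D J := by
  obtain ⟨h1, h2⟩ := rowA_spec hw hp h
  rw [strict_eq] at h1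
  refine ⟨?_, h2⟩
  rw [← h1]
  congr 1
  unfold RA
  change _ = 0 * _ + _
  rw [zero_mul, zero_add]

lemma rowA_ex {p T w : ℕ} (hw : 16 ≤ w) (hp : 0 < p) {ds : List ℕ} {W Y1 Y0 fr l d : ℕ}
    {FK : List ((ℕ × ℕ) × (ℕ × ℕ))} {acc : ℕ} {k : ℕ → Bool}
    (h : rowA p T w (ds.map fun δ => (δ, gg p T w δ, gs p T δ)) W Y1 Y0 fr l d FK acc
      (fun A => strict A k) = true) : ∃ y, k y = true := by
  obtain ⟨h1, _⟩ := rowA_spec hw hp h
  rw [strict_eq] at h1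
  exact ⟨_, h1⟩

lemma vecA_use {n T w3 w : ℕ} {L : List (ℕ × ℕ)} {J : List Fm} :
    vecA n T (Nat.pow (nat_lit 2) w3) w L (J.map (fkI n)) (nat_lit 0) = VA n T w3 w L J := by
  rw [vecA_eq]
  unfold VA
  change 0 * _ + _ = _
  rw [zero_mul, zero_add]
  rfl

lemma vecB_use {n T w3 : ℕ} {L : List (ℕ × ℕ)} {J : List Fm} :
    vecB n T (nat_lit 1208925819614629174706176) w3 L (J.map (fkI n)) = VB n T w3 L J := by
  have h80 : (1208925819614629174706176 : ℕ) = 2 ^ 80 := by norm_num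
  unfold VB
  rw [vecB_eq]
  change packL (2 ^ w3) (pv n T (1208925819614629174706176 : ℕ) L) (J.map (fkI n)) = _
  rw [h80]

lemma vecC_use {p T wb : ℕ} (hp : 0 < p) {ds : List ℕ} {D : ℤ} {J : List Fm} {k : ℕ → Bool}
    (h : vecC p T (nat_lit 80) wb (ds.map fun δ => (δ, gg p T (nat_lit 80) δ, gs p T δ)) (rs p D)
      (J.map (fkI p)) (fun v => strict v k) = true) :
    k (VC p T wb D J) = true ∧ ∀ x ∈ J.map (fkI p), 2 * x.2.2 * ii p x.2.2 % p = 1 := by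
  obtain ⟨h1, h2⟩ := vecC_spec (by norm_num) hp h
  rw [strict_eq] at h1
  exact ⟨h1, h2⟩

lemma vecC_ex {p T wb : ℕ} (hp : 0 < p) {ds : List ℕ} {d : ℕ} {F : List (ℕ × ℕ × ℕ)}
    {k : ℕ → Bool}
    (h : vecC p T (nat_lit 80) wb (ds.map fun δ => (δ, gg p T (nat_lit 80) δ, gs p T δ)) d F
      (fun v => strict v k) = true) : ∃ y, k y = true := by
  obtain ⟨h1, _⟩ := vecC_spec (by norm_num) hp h
  rw [strict_eq] at h1
  exact ⟨_, h1⟩

/-! ### digits -/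

lemma pv_cast {n N T : ℕ} [NeZero n] (j : Fm) (Q : ℕ × ℕ) :
    ((chw T (nf n (rs n j.P) (rs n j.R) (rs n j.S) Q.1 Q.2) : ℕ) : ZMod N) =
      tabc n N T (fz n j.P j.R j.S (Q.1 : ZMod n) (Q.2 : ZMod n)) := by
  have e0 : nf n (rs n j.P) (rs n j.R) (rs n j.S) Q.1 Q.2 =
      (Q.1 * (rs n j.P * Q.1 + rs n j.R * Q.2) + rs n j.S * (Q.2 * Q.2)) % n := rfl
  have e : fz n j.P j.R j.S (Q.1 : ZMod n) (Q.2 : ZMod n) =
      ((Q.1 * (rs n j.P * Q.1 + rs n j.R * Q.2) + rs n j.S * (Q.2 * Q.2) : ℕ) : ZMod n) := by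
    unfold fz
    push_cast
    rw [rs_cast, rs_cast, rs_cast]
    ring
  rw [e, tabc_natCast, e0]

lemma pv_le {n N T : ℕ} [NeZero n] (ht : ∀ u < n, chw T u < N) (P R S : ℕ) (Q : ℕ × ℕ) :
    chw T (nf n P R S Q.1 Q.2) ≤ N :=
  (ht _ (Nat.mod_lt _ (Nat.pos_of_ne_zero (NeZero.ne n)))).le

/-- oddness and the condition on the sum -/
def relOk (n1 n2 n3 N T1 T2 T3 : ℕ) : Bool :=
  strict (Nat.mul (Nat.mul n1 n2) n3) fun q =>
  andB (Nat.beq (chi3 n1 n2 n3 N T1 T2 T3 (Nat.sub q (nat_lit 1))) (Nat.sub N (nat_lit 1)))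
    (Nat.beq (Nat.mod (Nat.mul (sumR (fun u => Nat.mul u (chi3 n1 n2 n3 N T1 T2 T3 u)) q) q) N)
      (nat_lit 0))

section Final

variable {n1 n2 n3 e1 e2 e3 N l fr T1 T2 T3 : ℕ} {L2 L3 : List (ℕ × ℕ)} {w3 w W Y1 Y0 : ℕ}
  [NeZero n1] [NeZero n2] [NeZero n3] [NeZero (n1 * n2)] [NeZero (n1 * n2 * n3)]

/-- conditions on a list of forms -/
structure JOk (D : ℤ) (J : List Fm) : Prop where
  ne : J ≠ []
  hκ : ∀ j ∈ J, j.κ ≤ 6
  hD : ∀ j ∈ J, j.R ^ 2 - 4 * j.P * j.S = D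

lemma hb_of {K len3 x : ℕ} (h : K * len3 * x < 2 ^ 80) (hK : 0 < K) (hl : 0 < len3) :
    x < 2 ^ 80 := by
  refine lt_of_le_of_lt ?_ h
  exact Nat.le_mul_of_pos_left x (Nat.mul_pos hK hl)

/-- three components -/
theorem Good.three (G : Good n1 n2 n3 e1 e2 e3 N l fr T1 T2 T3 L2 L3 w3 w W Y1 Y0)
    {J : List Fm} {D : ℤ} (HJ : JOk D J) (hC : RC n1 T1 fr l D J)
    (hrel : Rel N (tri (tabc n1 N T1) (tabc n2 N T2) (tabc n3 N T3)) J)
    {u3 : Fm → ℕ × ℕ → ℕ} {D3 : ℕ} (hD3 : 0 < D3)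
    (c3 : ∀ j ∈ J, ∀ Q ∈ L3, ((u3 j Q : ℕ) : ZMod N) =
      tabc n3 N T3 (fz n3 j.P j.R j.S (Q.1 : ZMod n3) (Q.2 : ZMod n3)))
    (b3 : ∀ j ∈ J, ∀ Q ∈ L3, u3 j Q ≤ D3) {K : ℕ} (hK : K = J.length)
    (hB : K * L3.length * (L2.length * (BA n1 N l * N) * D3) < 2 ^ 80) {sh sh2 : ℕ}
    (hsh : sh = 80 * (K * L3.length - 1)) (hsh2 : sh2 = w3 * (L2.length - 1)) :
    ip N sh (red w w3 sh2 K (RA n1 T1 w W Y1 Y0 l D J) (VA n2 T2 w3 w L2 J))
      (packL (2 ^ w3) (fun j => packL (2 ^ 80) (u3 j) L3) J) = 0 := by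
  subst hK
  have hN : 2 ≤ N := by have := G.qn.N3; omega
  have hN0 : 0 < N := by omega
  have hn1 : 0 < n1 := G.hp.pos
  have ht1 := tabCk_lt G.t1
  have hl2 := List.length_pos_of_ne_nil G.ne2
  have hJl := List.length_pos_of_ne_nil HJ.ne
  have hl3 := List.length_pos_of_ne_nil G.ne3
  have : NeZero l := ⟨G.l0.ne'⟩
  have hb1 : L2.length * (BA n1 N l * N) < 2 ^ 80 := by
    refine lt_of_le_of_lt ?_ (hb_of hB hJl hl3)
    exact Nat.le_mul_of_pos_right _ hD3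
  have hb0 : (n1 + 1) * (N * (N * N)) < 2 ^ 80 := by
    refine lt_of_le_of_lt ?_ hb1
    have : (n1 + 1) * (N * (N * N)) ≤ BA n1 N l := Nat.le_mul_of_pos_left _ (by omega)
    calc (n1 + 1) * (N * (N * N)) ≤ BA n1 N l := this
      _ ≤ BA n1 N l * N := Nat.le_mul_of_pos_right _ hN0
      _ ≤ _ := Nat.le_mul_of_pos_left _ hl2
  have eR : RA n1 T1 w W Y1 Y0 l D J = rp (2 ^ w) (fun j => rp (2 ^ 80)
      (arow n1 n2 n3 e1 e2 e3 N T1 T2 T3 (rs n1 D) (fkO n1 l j)) (L2 ×ˢ L3)) J := by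
    unfold RA
    rw [rp_map]
    apply rp_congr
    intro j _
    exact rowX_eq G.ws G.hw3 G.hw hN0 hn1 ht1 hb0 (rs_lt j.S)
  have eV : VA n2 T2 w3 w L2 J = rp (2 ^ w) (fun j => packL (2 ^ w3) (fun Q =>
      chw T2 (nf n2 (rs n2 j.P) (rs n2 j.R) (rs n2 j.S) Q.1 Q.2)) L2) J := by
    unfold VA
    rw [rp_map]
    rfl
  rw [eR, eV, red_row (L2 := L2) (L3 := L3) (n1 := n1) (n2 := n2) (n3 := n3) (e1 := e1) (e2 := e2)
    (e3 := e3) (N := N) (l := l) (T1 := T1) (T2 := T2) (T3 := T3) G.hw3 G.hw hN0 hn1 ht1 G.ne2 G.ne3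
    (x := fkO n1 l) HJ.hκ (fun j _ => (rs_lt j.α).le) (fun j _ => rs_lt j.S)
    (fun j _ Q _ => pv_le (tabCk_lt G.t2) _ _ _ Q) hN0 hb1 hsh2]
  exact G.zero HJ.ne HJ.hκ HJ.hD hC hrel (fun j _ Q _ => pv_cast j Q) c3
    (fun j _ Q _ => pv_le (tabCk_lt G.t2) _ _ _ Q) b3 hB hsh

/-- two components -/
theorem Good.two (G : Good n1 1 n3 e1 e2 e3 N l fr T1 T2 T3 PO L3 w3 w W Y1 Y0)
    [NeZero (n1 * 1)] [NeZero (n1 * 1 * n3)]
    {J : List Fm} {D : ℤ} (HJ : JOk D J) (hC : RC n1 T1 fr l D J) (hT2 : chw T2 0 = 1)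
    (hrel : Rel N (tri (tabc n1 N T1) (tabc 1 N T2) (tabc n3 N T3)) J)
    {u3 : Fm → ℕ × ℕ → ℕ} {D3 : ℕ} (hD3 : 0 < D3)
    (c3 : ∀ j ∈ J, ∀ Q ∈ L3, ((u3 j Q : ℕ) : ZMod N) =
      tabc n3 N T3 (fz n3 j.P j.R j.S (Q.1 : ZMod n3) (Q.2 : ZMod n3)))
    (b3 : ∀ j ∈ J, ∀ Q ∈ L3, u3 j Q ≤ D3) {K : ℕ} (hK : K = J.length)
    (hB : K * L3.length * (1 * (BA n1 N l * 1) * D3) < 2 ^ 80) {sh : ℕ}
    (hsh : sh = 80 * (K * L3.length - 1)) :
    ip N sh (RA n1 T1 w W Y1 Y0 l D J)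
      (packL (2 ^ w3) (fun j => packL (2 ^ 80) (u3 j) L3) J) = 0 := by
  subst hK
  have hN : 2 ≤ N := by have := G.qn.N3; omega
  have hN0 : 0 < N := by omega
  have hn1 : 0 < n1 := G.hp.pos
  have ht1 := tabCk_lt G.t1
  have hJl := List.length_pos_of_ne_nil HJ.ne
  have hl3 := List.length_pos_of_ne_nil G.ne3
  have : NeZero l := ⟨G.l0.ne'⟩
  have hb1 : BA n1 N l < 2 ^ 80 := by
    refine lt_of_le_of_lt ?_ (hb_of hB hJl hl3)
    rw [one_mul, mul_one]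
    exact Nat.le_mul_of_pos_right _ hD3
  have hb0 : (n1 + 1) * (N * (N * N)) < 2 ^ 80 := by
    refine lt_of_le_of_lt ?_ hb1
    exact Nat.le_mul_of_pos_left _ (by omega)
  have hw' : w = w3 := by have := G.hw; rw [this]; simp [PO]
  have eR : RA n1 T1 w W Y1 Y0 l D J = rp (2 ^ w3) (fun j => rp (2 ^ 80)
      (brow n1 1 n3 e1 e2 e3 N T1 T2 T3 (rs n1 D) PO (fkO n1 l j) (fun _ => 1)) L3) J := by
    unfold RA
    rw [rp_map, hw']
    apply rp_congr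
    intro j _
    have e := rowX_eq (x := fkO n1 l j) (d := rs n1 D) G.ws G.hw3 G.hw hN0 hn1 ht1 hb0 (rs_lt j.S)
    rw [hw'] at e
    rw [e]
    have e2 : PO ×ˢ L3 = L3.map (Prod.mk (0, 0)) := by
      unfold PO
      rw [List.product_cons, List.nil_product, List.append_nil]
    rw [e2, rp_map]
    apply rp_congr
    intro R _
    unfold brow PO
    simp
  rw [eR]
  refine G.zero (D2 := 1) HJ.ne HJ.hκ HJ.hD hC hrel ?_ c3 (fun _ _ _ _ => le_rfl) b3 ?_ hsh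
  · intro j _ Q _
    have e : (fz 1 j.P j.R j.S (Q.1 : ZMod 1) (Q.2 : ZMod 1)) = ((0 : ℕ) : ZMod 1) :=
      Subsingleton.elim _ _
    rw [e, tabc_natCast, Nat.zero_mod, hT2]
  · simpa [PO] using hB

/-- the digits of `VB` -/
lemma VB_eq (n T w3 : ℕ) (L : List (ℕ × ℕ)) (J : List Fm) : VB n T w3 L J =
    packL (2 ^ w3) (fun j => packL (2 ^ 80) (fun Q =>
      chw T (nf n (rs n j.P) (rs n j.R) (rs n j.S) Q.1 Q.2)) L) J := by
  unfold VB
  rw [packL_map]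
  rfl

/-- the digits of `VC` -/
lemma VC_eq (p T w3 : ℕ) (D : ℤ) (J : List Fm) : VC p T w3 D J =
    packL (2 ^ w3) (fun j => packL (2 ^ 80) (vf p T (rs p D) (rs p j.R) (rs p j.S)) (PL p)) J := by
  unfold VC
  rw [packL_map]
  rfl

/-- two components, direct vectors -/
theorem Good.twoB (G : Good n1 1 n3 e1 e2 e3 N l fr T1 T2 T3 PO L3 w3 w W Y1 Y0)
    [NeZero (n1 * 1)] [NeZero (n1 * 1 * n3)]
    {J : List Fm} {D : ℤ} (HJ : JOk D J) (hC : RC n1 T1 fr l D J) (hT2 : chw T2 0 = 1)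
    (hrel : Rel N (tri (tabc n1 N T1) (tabc 1 N T2) (tabc n3 N T3)) J)
    {K : ℕ} (hK : K = J.length)
    (hB : K * L3.length * (1 * (BA n1 N l * 1) * N) < 2 ^ 80) {sh : ℕ}
    (hsh : sh = 80 * (K * L3.length - 1)) :
    ip N sh (RA n1 T1 w W Y1 Y0 l D J) (VB n3 T3 w3 L3 J) = 0 := by
  have hN0 : 0 < N := by have := G.qn.N3; omega
  rw [VB_eq]
  exact G.two HJ hC hT2 hrel hN0 (fun j _ Q _ => pv_cast j Q)
    (fun j _ Q _ => pv_le (tabCk_lt G.t3) _ _ _ Q) hK hB hsh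

/-- three components, direct vectors -/
theorem Good.threeB (G : Good n1 n2 n3 e1 e2 e3 N l fr T1 T2 T3 L2 L3 w3 w W Y1 Y0)
    {J : List Fm} {D : ℤ} (HJ : JOk D J) (hC : RC n1 T1 fr l D J)
    (hrel : Rel N (tri (tabc n1 N T1) (tabc n2 N T2) (tabc n3 N T3)) J)
    {K : ℕ} (hK : K = J.length)
    (hB : K * L3.length * (L2.length * (BA n1 N l * N) * N) < 2 ^ 80) {sh sh2 : ℕ}
    (hsh : sh = 80 * (K * L3.length - 1)) (hsh2 : sh2 = w3 * (L2.length - 1)) :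
    ip N sh (red w w3 sh2 K (RA n1 T1 w W Y1 Y0 l D J) (VA n2 T2 w3 w L2 J)) (VB n3 T3 w3 L3 J)
      = 0 := by
  have hN0 : 0 < N := by have := G.qn.N3; omega
  rw [VB_eq]
  exact G.three HJ hC hrel hN0 (fun j _ Q _ => pv_cast j Q)
    (fun j _ Q _ => pv_le (tabCk_lt G.t3) _ _ _ Q) hK hB hsh hsh2

lemma vf_ok {p N T : ℕ} [NeZero p] (ht : tabCk p N T = true) (hN : 0 < N) {D : ℤ} {J : List Fm}
    (HJ : JOk D J) (hi : ∀ x ∈ J.map (fkI p), 2 * x.2.2 * ii p x.2.2 % p = 1) :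
    (∀ j ∈ J, ∀ Q ∈ PL p, ((vf p T (rs p D) (rs p j.R) (rs p j.S) Q : ℕ) : ZMod N) =
      tabc p N T (fz p j.P j.R j.S (Q.1 : ZMod p) (Q.2 : ZMod p))) ∧
    (∀ j ∈ J, ∀ Q ∈ PL p, vf p T (rs p D) (rs p j.R) (rs p j.S) Q ≤ N * N) := by
  refine ⟨?_, ?_⟩
  · intro j hj Q hQ
    have hd : ((rs p D : ℕ) : ZMod p) = (j.R : ZMod p) ^ 2 - 4 * j.P * j.S := by
      rw [rs_cast, ← HJ.hD j hj]; push_cast; ring
    exact vf_cast (tabCk_char ht) (rs_cast j.R) (rs_cast j.S) (rs_lt j.S) hd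
      (hi _ (List.mem_map_of_mem hj)) hQ
  · intro j _ Q _
    exact vf_le (Nat.pos_of_ne_zero (NeZero.ne p)) hN (tabCk_lt ht) (rs_lt j.S) Q

/-- two components, vectors by completing the square -/
theorem Good.twoC (G : Good n1 1 n3 e1 e2 e3 N l fr T1 T2 T3 PO (PL n3) w3 w W Y1 Y0)
    [NeZero (n1 * 1)] [NeZero (n1 * 1 * n3)]
    {J : List Fm} {D : ℤ} (HJ : JOk D J) (hC : RC n1 T1 fr l D J) (hT2 : chw T2 0 = 1)
    (hrel : Rel N (tri (tabc n1 N T1) (tabc 1 N T2) (tabc n3 N T3)) J)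
    (hi : ∀ x ∈ J.map (fkI n3), 2 * x.2.2 * ii n3 x.2.2 % n3 = 1)
    {K : ℕ} (hK : K = J.length)
    (hB : K * (n3 + 1) * (1 * (BA n1 N l * 1) * (N * N)) < 2 ^ 80) {sh : ℕ}
    (hsh : sh = 80 * (K * (n3 + 1) - 1)) :
    ip N sh (RA n1 T1 w W Y1 Y0 l D J) (VC n3 T3 w3 D J) = 0 := by
  have hN0 : 0 < N := by have := G.qn.N3; omega
  obtain ⟨h1, h2⟩ := vf_ok G.t3 hN0 HJ hi
  rw [VC_eq]
  exact G.two HJ hC hT2 hrel (Nat.mul_pos hN0 hN0) h1 h2 hK (by rw [PL_length]; exact hB)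
    (by rw [PL_length]; exact hsh)

/-- three components, vectors by completing the square -/
theorem Good.threeC (G : Good n1 n2 n3 e1 e2 e3 N l fr T1 T2 T3 L2 (PL n3) w3 w W Y1 Y0)
    {J : List Fm} {D : ℤ} (HJ : JOk D J) (hC : RC n1 T1 fr l D J)
    (hrel : Rel N (tri (tabc n1 N T1) (tabc n2 N T2) (tabc n3 N T3)) J)
    (hi : ∀ x ∈ J.map (fkI n3), 2 * x.2.2 * ii n3 x.2.2 % n3 = 1)
    {K : ℕ} (hK : K = J.length)
    (hB : K * (n3 + 1) * (L2.length * (BA n1 N l * N) * (N * N)) < 2 ^ 80) {sh sh2 : ℕ}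
    (hsh : sh = 80 * (K * (n3 + 1) - 1)) (hsh2 : sh2 = w3 * (L2.length - 1)) :
    ip N sh (red w w3 sh2 K (RA n1 T1 w W Y1 Y0 l D J) (VA n2 T2 w3 w L2 J)) (VC n3 T3 w3 D J)
      = 0 := by
  have hN0 : 0 < N := by have := G.qn.N3; omega
  obtain ⟨h1, h2⟩ := vf_ok G.t3 hN0 HJ hi
  rw [VC_eq]
  exact G.three HJ hC hrel (Nat.mul_pos hN0 hN0) h1 h2 hK (by rw [PL_length]; exact hB)
    (by rw [PL_length]; exact hsh) hsh2

end Final

end Pool.Agent.Lib_helper5.LK
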