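import Pool.Agent.Lib_helper4.KerSpec

/-!
Packed numbers: products as inner products, rotations and lane-wise division.
-/

namespace Pool.Agent.Lib_helper5.LK

open Pool.Agent.LibH4.Ker

/-- reverse packing: the first element is the most significant one -/
def rp {α : Type} (V : ℕ) (f : α → ℕ) : List α → ℕ
  | [] => 0
  | x :: xs => f x * V ^ xs.length + rp V f xs

lemma rp_cons {α : Type} (V : ℕ) (f : α → ℕ) (x : α) (xs : List α) :
    rp V f (x :: xs) = f x * V ^ xs.length + rp V f xs := rfl

lemma rp_append {α : Type} (V : ℕ) (f : α → ℕ) (L M : List α) :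
    rp V f (L ++ M) = rp V f L * V ^ M.length + rp V f M := by
  induction L with
  | nil => simp [rp]
  | cons x xs ih =>
    rw [List.cons_append, rp_cons, rp_cons, ih, List.length_append, pow_add]
    ring

lemma rp_map {α β : Type} (V : ℕ) (f : β → ℕ) (g : α → β) (L : List α) :
    rp V f (L.map g) = rp V (fun x => f (g x)) L := by
  induction L with
  | nil => rfl
  | cons x xs ih => rw [List.map_cons, rp_cons, rp_cons, ih, List.length_map]

lemma rp_congr {α : Type} (V : ℕ) {f g : α → ℕ} {L : List α} (h : ∀ x ∈ L, f x = g x) :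
    rp V f L = rp V g L := by
  induction L with
  | nil => rfl
  | cons x xs ih =>
    rw [rp_cons, rp_cons, h x (by simp), ih (fun y hy => h y (by simp [hy]))]

lemma rp_add {α : Type} (V : ℕ) (f g : α → ℕ) (L : List α) :
    rp V (fun x => f x + g x) L = rp V f L + rp V g L := by
  induction L with
  | nil => rfl
  | cons x xs ih => rw [rp_cons, rp_cons, rp_cons, ih]; ring

lemma rp_mul {α : Type} (V c : ℕ) (f : α → ℕ) (L : List α) :
    rp V (fun x => c * f x) L = c * rp V f L := by
  induction L with
  | nil => rfl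
  | cons x xs ih => rw [rp_cons, rp_cons, ih]; ring

lemma rp_zero {α : Type} (V : ℕ) (L : List α) : rp V (fun _ => 0) L = 0 := by
  induction L with
  | nil => rfl
  | cons x xs ih => rw [rp_cons, ih]; ring

/-- linearity over a list -/
lemma rp_sum {α β : Type} (V : ℕ) (f : β → α → ℕ) (M : List β) (L : List α) :
    (M.map fun k => rp V (f k) L).sum = rp V (fun x => (M.map fun k => f k x).sum) L := by
  induction M with
  | nil => simp [rp_zero]
  | cons k ks ih =>
    simp only [List.map_cons, List.sum_cons]
    rw [ih, rp_add]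

/-- the sum `1 + V + … + V ^ (n - 1)` -/
def geo (V : ℕ) : ℕ → ℕ
  | 0 => 0
  | n + 1 => 1 + V * geo V n

lemma geo_pow (V n : ℕ) (hV : 1 ≤ V) : (V - 1) * geo V n + 1 = V ^ n := by
  obtain ⟨W, rfl⟩ := Nat.exists_eq_add_of_le hV
  rw [Nat.add_sub_cancel_left]
  induction n with
  | zero => simp [geo]
  | succ n ih =>
    rw [geo, pow_succ', ← ih]
    ring

lemma geo_mono (V n : ℕ) : V * geo V n ≤ geo V (n + 1) := by
  rw [geo]; omega

lemma geo_succ' (V n : ℕ) : geo V (n + 1) = geo V n + V ^ n := by
  induction n with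
  | zero => simp [geo]
  | succ n ih =>
    have h1 : geo V (n + 2) = 1 + V * geo V (n + 1) := rfl
    have h2 : geo V (n + 1) = 1 + V * geo V n := rfl
    rw [h1, ih, pow_succ']
    rw [ih] at h2
    nlinarith

lemma rp_le {α : Type} {V A : ℕ} {a : α → ℕ} {L : List α} (h : ∀ x ∈ L, a x ≤ A) :
    rp V a L ≤ A * geo V L.length := by
  induction L with
  | nil => simp [rp]
  | cons x xs ih =>
    rw [rp_cons, List.length_cons, geo_succ']
    have h1 := h x (by simp)
    have h2 := ih (fun y hy => h y (by simp [hy]))
    have h3 : a x * V ^ xs.length ≤ A * V ^ xs.length := Nat.mul_le_mul_right _ h1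
    calc _ ≤ A * V ^ xs.length + A * geo V xs.length := by omega
      _ = _ := by ring

lemma rp_lt {α : Type} {V : ℕ} {a : α → ℕ} {L : List α} (h : ∀ x ∈ L, a x < V) :
    rp V a L < V ^ L.length := by
  induction L with
  | nil => simp [rp]
  | cons x xs ih =>
    rw [rp_cons, List.length_cons, pow_succ']
    have h1 := h x (by simp)
    have h2 := ih (fun y hy => h y (by simp [hy]))
    calc _ < a x * V ^ xs.length + V ^ xs.length := by omega
      _ = (a x + 1) * V ^ xs.length := by ring
      _ ≤ V * V ^ xs.length := Nat.mul_le_mul_right _ h1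

lemma packL_lt {α : Type} {V : ℕ} {f : α → ℕ} {L : List α} (h : ∀ x ∈ L, f x < V) :
    packL V f L < V ^ L.length := by
  induction L with
  | nil => simp [packL]
  | cons x xs ih =>
    rw [packL_cons, List.length_cons, pow_succ']
    have h1 := h x (by simp)
    have h2 := ih (fun y hy => h y (by simp [hy]))
    calc f x + V * packL V f xs < V + V * packL V f xs := by omega
      _ = V * (packL V f xs + 1) := by ring
      _ ≤ V * V ^ xs.length := Nat.mul_le_mul_left _ h2

lemma packL_append {α : Type} (V : ℕ) (f : α → ℕ) (L M : List α) :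
    packL V f (L ++ M) = packL V f L + V ^ L.length * packL V f M := by
  induction L with
  | nil => simp [packL]
  | cons x xs ih =>
    rw [List.cons_append, packL_cons, packL_cons, ih, List.length_cons, pow_succ]
    ring

lemma packL_map {α β : Type} (V : ℕ) (f : β → ℕ) (g : α → β) (L : List α) :
    packL V f (L.map g) = packL V (fun x => f (g x)) L := by
  induction L with
  | nil => rfl
  | cons x xs ih => rw [List.map_cons, packL_cons, packL_cons, ih]

/-- the product of a reverse packing and a packing -/
lemma ip_aux {α : Type} (V A B : ℕ) (a b : α → ℕ) (x : α) (L : List α)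
    (ha : ∀ y ∈ x :: L, a y ≤ A) (hb : ∀ y ∈ x :: L, b y ≤ B) :
    ∃ lo hi, rp V a (x :: L) * packL V b (x :: L) =
      lo + V ^ L.length * (((x :: L).map fun y => a y * b y).sum + V * hi) ∧
      lo ≤ (L.length * (A * B)) * geo V L.length := by
  induction L generalizing x with
  | nil =>
    refine ⟨0, 0, ?_, by simp⟩
    simp [rp, packL_cons, packL_nil]
  | cons z L ih =>
    obtain ⟨lo, hi, h1, h2⟩ := ih z (fun y hy => ha y (by simp [hy])) (fun y hy => hb y (by simp [hy]))
    have h3 : rp V a (z :: L) ≤ A * geo V (L.length + 1) :=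
      rp_le (fun y hy => ha y (by simp [hy]))
    have h4 : b x ≤ B := hb x (by simp)
    refine ⟨rp V a (z :: L) * b x + V * lo, a x * packL V b (z :: L) + hi, ?_, ?_⟩
    · rw [rp_cons, packL_cons, List.map_cons, List.sum_cons]
      have e : (a x * V ^ (z :: L).length + rp V a (z :: L)) * (b x + V * packL V b (z :: L)) =
        a x * V ^ (z :: L).length * b x + V ^ (z :: L).length * (V * (a x * packL V b (z :: L)))
        + rp V a (z :: L) * b x + V * (rp V a (z :: L) * packL V b (z :: L)) := by ring
      rw [e, h1, List.length_cons, pow_succ]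
      ring
    · rw [List.length_cons]
      have h5 : rp V a (z :: L) * b x ≤ (A * geo V (L.length + 1)) * B := Nat.mul_le_mul h3 h4
      have h6 : V * lo ≤ L.length * (A * B) * geo V (L.length + 1) := by
        calc V * lo ≤ V * ((L.length * (A * B)) * geo V L.length) := Nat.mul_le_mul_left _ h2
          _ = (L.length * (A * B)) * (V * geo V L.length) := by ring
          _ ≤ _ := Nat.mul_le_mul_left _ (geo_mono V _)
      calc _ ≤ (A * geo V (L.length + 1)) * B + L.length * (A * B) * geo V (L.length + 1) := by
            omega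
        _ = _ := by ring

/-- **inner products by one multiplication** -/
lemma ip_eq {α : Type} {V A B : ℕ} {a b : α → ℕ} {L : List α} (hL : L ≠ [])
    (ha : ∀ y ∈ L, a y ≤ A) (hb : ∀ y ∈ L, b y ≤ B) (hV : L.length * (A * B) < V) :
    rp V a L * packL V b L / V ^ (L.length - 1) % V = (L.map fun y => a y * b y).sum := by
  obtain ⟨x, M, rfl⟩ := List.exists_cons_of_ne_nil hL
  obtain ⟨lo, hi, h1, h2⟩ := ip_aux V A B a b x M ha hb
  have hV1 : 1 ≤ V := by omega
  rw [h1, List.length_cons, Nat.add_sub_cancel]
  rw [List.length_cons] at hV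
  have hlo : lo < V ^ M.length := by
    have h3 := geo_pow V M.length hV1
    have h4 : M.length * (A * B) ≤ V - 1 := by
      have : M.length * (A * B) ≤ (M.length + 1) * (A * B) := Nat.mul_le_mul_right _ (by omega)
      omega
    have h5 : (M.length * (A * B)) * geo V M.length ≤ (V - 1) * geo V M.length :=
      Nat.mul_le_mul_right _ h4
    omega
  have hS : ((x :: M).map fun y => a y * b y).sum < V := by
    refine lt_of_le_of_lt ?_ hV
    have : ∀ N : List α, (∀ y ∈ N, a y ≤ A) → (∀ y ∈ N, b y ≤ B) →
        (N.map fun y => a y * b y).sum ≤ N.length * (A * B) := by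
      intro N
      induction N with
      | nil => intro _ _; simp
      | cons z N ih =>
        intro h h'
        rw [List.map_cons, List.sum_cons, List.length_cons]
        have h6 := ih (fun y hy => h y (by simp [hy])) (fun y hy => h' y (by simp [hy]))
        have h7 : a z * b z ≤ A * B := Nat.mul_le_mul (h z (by simp)) (h' z (by simp))
        calc _ ≤ A * B + N.length * (A * B) := by omega
          _ = _ := by ring
    exact this (x :: M) ha hb
  have hpos : 0 < V ^ M.length := by positivity
  rw [Nat.add_mul_div_left _ _ hpos, Nat.div_eq_of_lt hlo, zero_add, Nat.add_mul_mod_self_left,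
    Nat.mod_eq_of_lt hS]

/-- a window of a packing -/
lemma packL_window {V : ℕ} {f : ℕ → ℕ} (hf : ∀ i, f i < V) (h m n : ℕ) (hn : h + m ≤ n) :
    packL V f (List.range n) / V ^ h % V ^ m = packL V (fun i => f (h + i)) (List.range m) := by
  have hV : 0 < V := lt_of_le_of_lt (Nat.zero_le _) (hf 0)
  obtain ⟨k, rfl⟩ := Nat.exists_eq_add_of_le hn
  rw [List.range_add, List.range_add, packL_append, packL_append, packL_map, packL_map,
    List.length_append, List.length_map, List.length_range, List.length_range]
  have h1 : packL V f (List.range h) < V ^ h := by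
    have := packL_lt (V := V) (f := f) (L := List.range h) (fun x _ => hf x)
    rwa [List.length_range] at this
  have h2 : packL V (fun i => f (h + i)) (List.range m) < V ^ m := by
    have := packL_lt (V := V) (f := fun i => f (h + i)) (L := List.range m) (fun x _ => hf _)
    rwa [List.length_range] at this
  have e : packL V f (List.range h) + V ^ h * packL V (fun x => f (h + x)) (List.range m) +
      V ^ (h + m) * packL V (fun x => f (h + m + x)) (List.range k) =
      packL V f (List.range h) + V ^ h * (packL V (fun x => f (h + x)) (List.range m) +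
      V ^ m * packL V (fun x => f (h + m + x)) (List.range k)) := by
    rw [pow_add]; ring
  rw [e, Nat.add_mul_div_left _ _ (by positivity), Nat.div_eq_of_lt h1, zero_add,
    Nat.add_mul_mod_self_left, Nat.mod_eq_of_lt h2]

/-- `land` of two numbers with a low digit split off -/
lemma land_split {w a b c d : ℕ} (ha : a < 2 ^ w) (hc : c < 2 ^ w) :
    Nat.land (a + 2 ^ w * b) (c + 2 ^ w * d) = Nat.land a c + 2 ^ w * Nat.land b d := by
  have hac : Nat.land a c < 2 ^ w := Nat.and_lt_two_pow _ hc
  apply Nat.eq_of_testBit_eq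
  intro i
  have e1 : (Nat.land (a + 2 ^ w * b) (c + 2 ^ w * d)).testBit i =
      ((a + 2 ^ w * b).testBit i && (c + 2 ^ w * d).testBit i) := Nat.testBit_land _ _ _
  have e2 : (Nat.land a c).testBit i = (a.testBit i && c.testBit i) := Nat.testBit_land _ _ _
  have e3 : ∀ j, (Nat.land b d).testBit j = (b.testBit j && d.testBit j) :=
    fun j => Nat.testBit_land _ _ _
  rw [e1, add_comm a, add_comm c, add_comm (Nat.land a c), Nat.testBit_two_pow_mul_add _ ha,
    Nat.testBit_two_pow_mul_add _ hc, Nat.testBit_two_pow_mul_add _ hac]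
  split_ifs
  · rw [e2]
  · rw [e3]

/-- lane-wise division by a power of two -/
lemma land_floor {α : Type} {w k : ℕ} (hk : k ≤ w) {f : α → ℕ} {L : List α}
    (h : ∀ x ∈ L, f x < 2 ^ w) :
    Nat.land (packL (2 ^ w) f L / 2 ^ k) (packL (2 ^ w) (fun _ => 2 ^ (w - k) - 1) L) =
      packL (2 ^ w) (fun x => f x / 2 ^ k) L := by
  induction L with
  | nil =>
    change (0 / 2 ^ k) &&& 0 = 0
    simp
  | cons x xs ih =>
    rw [packL_cons, packL_cons, packL_cons]
    have hx := h x (by simp)
    have hw : (2 : ℕ) ^ w = 2 ^ k * 2 ^ (w - k) := by rw [← pow_add]; congr 1; omega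
    set P := packL (2 ^ w) f xs with hP
    -- divide
    have e1 : (f x + 2 ^ w * P) / 2 ^ k = f x / 2 ^ k + 2 ^ (w - k) * P := by
      rw [hw, mul_assoc, Nat.add_mul_div_left _ _ (by positivity)]
    have hfk : f x / 2 ^ k < 2 ^ (w - k) := by
      rw [Nat.div_lt_iff_lt_mul (by positivity), mul_comm, ← hw]
      exact hx
    -- split `P`
    have e2 : P = P % 2 ^ k + 2 ^ k * (P / 2 ^ k) := (Nat.mod_add_div _ _).symm
    have e3 : f x / 2 ^ k + 2 ^ (w - k) * P =
        (f x / 2 ^ k + 2 ^ (w - k) * (P % 2 ^ k)) + 2 ^ w * (P / 2 ^ k) := by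
      conv_lhs => rw [e2]
      rw [hw]; ring
    have hlow : f x / 2 ^ k + 2 ^ (w - k) * (P % 2 ^ k) < 2 ^ w := by
      have h1 : P % 2 ^ k + 1 ≤ 2 ^ k := Nat.mod_lt _ (by positivity)
      calc _ < 2 ^ (w - k) + 2 ^ (w - k) * (P % 2 ^ k) := by omega
        _ = 2 ^ (w - k) * (P % 2 ^ k + 1) := by ring
        _ ≤ 2 ^ (w - k) * 2 ^ k := Nat.mul_le_mul_left _ h1
        _ = 2 ^ w := by rw [hw]; ring
    have hmask : 2 ^ (w - k) - 1 < 2 ^ w := by
      have : (2 : ℕ) ^ (w - k) ≤ 2 ^ w := Nat.pow_le_pow_right (by norm_num) (by omega)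
      have : 0 < (2 : ℕ) ^ (w - k) := by positivity
      omega
    rw [e1, e3, land_split hlow hmask, ih (fun y hy => h y (by simp [hy]))]
    congr 1
    change (f x / 2 ^ k + 2 ^ (w - k) * (P % 2 ^ k)) &&& (2 ^ (w - k) - 1) = f x / 2 ^ k
    rw [Nat.and_two_pow_sub_one_eq_mod, Nat.add_mul_mod_self_left, Nat.mod_eq_of_lt hfk]

end Pool.Agent.Lib_helper5.LK
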