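import Pool.Agent.Lib_helper5.LKW

/-!
The check of the packed weights for arbitrary lists of representatives.
-/

namespace Pool.Agent.Lib_helper5.LK

open Finset Pool.Agent.LibH4 Pool.Agent.LibH4.Ker Pool.Agent.LibH4.T6 Pool.Agent.LibH4.KF

/-- the first coordinates, kernel friendly -/
def patK (e1 e2 e3 q a b c : ℕ) : ℕ :=
  Nat.mod (Nat.add (Nat.mul a e1) (Nat.add (Nat.mul b e2) (Nat.mul c e3))) q

/-- lookup -/
def lkX (X : ℕ) (L : List (ℕ × ℕ)) : ℕ :=
  @List.rec (ℕ × ℕ) (fun _ => ℕ) (nat_lit 0) (fun x _ ih =>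
    @Bool.rec (fun _ => ℕ) ih x.2 (Nat.beq x.1 X)) L

/-- a table of values -/
def tabX {β : Type} (f : ℕ → ℕ) (L : List ℕ) (k : List (ℕ × ℕ) → β) : β :=
  @List.rec ℕ (fun _ => (List (ℕ × ℕ) → β) → β) (fun k => k [])
    (fun x _ ih k => strict (f x) fun y => ih fun r => k ((x, y) :: r)) L k

/-- values indexed by the first coordinates -/
def withT {β : Type} (f : ℕ → ℕ) (e1 e2 e3 q : ℕ) (XS : List ℕ)
    (k : (ℕ → ℕ → ℕ → ℕ) → β) : β :=
  tabX f XS fun T => k fun a b c => lkX (patK e1 e2 e3 q a b c) T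

lemma tabX_eq {β : Type} (f : ℕ → ℕ) (L : List ℕ) (k : List (ℕ × ℕ) → β) :
    tabX f L k = k (L.map fun x => (x, f x)) := by
  induction L generalizing k with
  | nil => rfl
  | cons x L ih =>
    have : tabX f (x :: L) k = strict (f x) fun y => tabX f L fun r => k ((x, y) :: r) := rfl
    rw [this, strict_eq, ih]
    rfl

lemma lkX_eq {f : ℕ → ℕ} {L : List ℕ} {X : ℕ} (h : X ∈ L) :
    lkX X (L.map fun x => (x, f x)) = f X := by
  induction L with
  | nil => exact absurd h (by simp)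
  | cons x L ih =>
    have e : lkX X ((x :: L).map fun x => (x, f x)) =
      @Bool.rec (fun _ => ℕ) (lkX X (L.map fun x => (x, f x))) (f x) (Nat.beq x X) := rfl
    rw [e]
    cases hb : Nat.beq x X with
    | true =>
      have : x = X := Nat.eq_of_beq_eq_true hb
      rw [this]
    | false =>
      rcases List.mem_cons.1 h with h' | h'
      · exfalso
        rw [h', Nat.beq_refl] at hb
        exact absurd hb (by simp)
      · exact ih h'

lemma withT_spec {β : Type} (f : ℕ → ℕ) (e1 e2 e3 q : ℕ) (XS : List ℕ)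
    (k : (ℕ → ℕ → ℕ → ℕ) → β) :
    ∃ d : ℕ → ℕ → ℕ → ℕ, withT f e1 e2 e3 q XS k = k d ∧
      ∀ a b c, pat e1 e2 e3 q a b c ∈ XS → d a b c = f (pat e1 e2 e3 q a b c) := by
  refine ⟨fun a b c => lkX (patK e1 e2 e3 q a b c) (XS.map fun x => (x, f x)), ?_, ?_⟩
  · unfold withT
    rw [tabX_eq]
  · intro a b c h
    exact lkX_eq h

lemma wdG_eq {q N CT e1 e2 e3 : ℕ} (H : QN q N) {d : ℕ → ℕ → ℕ → ℕ} {P Q R : ℕ × ℕ}
    (hd : d P.1 Q.1 R.1 =
      packL (2 ^ 64) (fun i => lane q N CT (pat e1 e2 e3 q P.1 Q.1 R.1) (q - 1 - i)) (List.range q)) :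
    wd q N e1 e2 e3 d P Q R = wv q N CT e1 e2 e3 P Q R := by
  have hq : 0 < q := by have := H.q2; omega
  unfold wd wv
  rw [strict_eq]
  change @Nat.rec (fun _ => ℕ) 0 (fun _ _ => _) ((P.2 * e1 + (Q.2 * e2 + R.2 * e3)) % q) = _
  have hlt : (P.2 * e1 + (Q.2 * e2 + R.2 * e3)) % q < q := Nat.mod_lt _ hq
  generalize hY : (P.2 * e1 + (Q.2 * e2 + R.2 * e3)) % q = Y at hlt ⊢
  have hY' : Nat.mod (Nat.add (Nat.mul P.2 e1) (Nat.add (Nat.mul Q.2 e2) (Nat.mul R.2 e3))) q = Y := hY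
  cases Y with
  | zero => simp
  | succ y =>
    rw [if_neg (Nat.succ_ne_zero y)]
    change (Nat.shiftRight (d P.1 Q.1 R.1) (64 * (q - 1 -
      Nat.mod (Nat.add (Nat.mul P.2 e1) (Nat.add (Nat.mul Q.2 e2) (Nat.mul R.2 e3))) q))) %
      18446744073709551616 % N = _
    rw [hY', hd]
    congr 1
    change (packL _ _ _) >>> (64 * (q - 1 - (y + 1))) % _ = _
    rw [Nat.shiftRight_eq_div_pow, pow_mul]
    have h64 : (18446744073709551616 : ℕ) = 2 ^ 64 := by norm_num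
    rw [h64]
    have hdig := packL_digit (V := 2 ^ 64) (f := fun i => lane q N CT (pat e1 e2 e3 q P.1 Q.1 R.1)
      (q - 1 - i)) (L := List.range q) (fun i _ => lane_lt H CT _ _) (q - 1 - (y + 1))
      (by rw [List.length_range]; omega)
    rw [hdig, List.getElem_range]
    congr 1
    omega

/-- check of the packed weights; `XS` is the list of the values of the first coordinates -/
def wchkG (n1 n2 n3 e1 e2 e3 N l fr T1 T2 T3 : ℕ) (XS : List ℕ) (L1 L2 L3 : List (ℕ × ℕ))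
    (w3 w W Y1 Y0 : ℕ) : Bool :=
  strict (Nat.mul (Nat.mul n1 n2) n3) fun q =>
  strict (csq n1 n2 n3 q N T1 T2 T3) fun CT =>
  strict (packR (nat_lit 64) (fun _ => nat_lit 1) q) fun On =>
  strict (packR (nat_lit 64) (fun y => Nat.sub (Nat.sub q (nat_lit 1)) y) q) fun Yv =>
  strict (Nat.mul (nat_lit 16777215) On) fun Mk =>
  strict (Nat.succ (Nat.div (nat_lit 1099511627776) q)) fun cc =>
  strict (Nat.pow (nat_lit 2) w3) fun v3 =>
  strict (Nat.pow (nat_lit 2) w) fun v =>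
  withT (dv q N cc CT Yv On Mk) e1 e2 e3 q XS fun d =>
  withT (ev q N CT) e1 e2 e3 q XS fun e =>
  strict (wrev q N e1 e2 e3 d L1 L2 L3 (nat_lit 1208925819614629174706176) v3 v) fun W' =>
  strict (wyrev e (nat_lit 1) L2 L3 (nat_lit 1208925819614629174706176) v3) fun Y1' =>
  strict (wyrev e (nat_lit 0) L2 L3 (nat_lit 1208925819614629174706176) v3) fun Y0' =>
    @Bool.rec (fun _ => Bool) false (@Bool.rec (fun _ => Bool) false
      (@Bool.rec (fun _ => Bool) false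
        (allL (fun Q => allL (fun R =>
          @Bool.rec (fun _ => Bool) false
            (Nat.beq (Nat.mod (Nat.mul fr (e (nat_lit 0) Q.1 R.1)) (Nat.mul l l)) (nat_lit 0))
            (Nat.beq (Nat.mod (Nat.mul fr (e (nat_lit 1) Q.1 R.1)) l) (nat_lit 0))) L3) L2)
        (Nat.beq Y0' Y0)) (Nat.beq Y1' Y1)) (Nat.beq W' W)

theorem wchkG_spec {n1 n2 n3 e1 e2 e3 N l fr T1 T2 T3 : ℕ} {XS : List ℕ} {L1 L2 L3 : List (ℕ × ℕ)}
    {w3 w W Y1 Y0 : ℕ} (H : QN (n1 * n2 * n3) N)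
    (bb : ∀ P ∈ L1, ∀ Q ∈ L2, ∀ R ∈ L3, pat e1 e2 e3 (n1 * n2 * n3) P.1 Q.1 R.1 ∈ XS)
    (b1 : ∀ Q ∈ L2, ∀ R ∈ L3, pat e1 e2 e3 (n1 * n2 * n3) 1 Q.1 R.1 ∈ XS)
    (b0 : ∀ Q ∈ L2, ∀ R ∈ L3, pat e1 e2 e3 (n1 * n2 * n3) 0 Q.1 R.1 ∈ XS)
    (h : wchkG n1 n2 n3 e1 e2 e3 N l fr T1 T2 T3 XS L1 L2 L3 w3 w W Y1 Y0 = true) :
    WSpec n1 n2 n3 e1 e2 e3 N l fr T1 T2 T3 L1 L2 L3 w3 w W Y1 Y0 := by
  unfold wchkG at h
  simp only [strict_eq] at h
  set q := n1 * n2 * n3 with hq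
  have hq' : Nat.mul (Nat.mul n1 n2) n3 = q := rfl
  rw [hq'] at h
  have hct : csq n1 n2 n3 q N T1 T2 T3 = csqT n1 n2 n3 N T1 T2 T3 := rfl
  rw [hct] at h
  obtain ⟨d, hd, hd'⟩ := withT_spec (β := Bool) (dv q N (Nat.succ (Nat.div (nat_lit 1099511627776) q))
    (csqT n1 n2 n3 N T1 T2 T3)
    (packR (nat_lit 64) (fun y => Nat.sub (Nat.sub q (nat_lit 1)) y) q)
    (packR (nat_lit 64) (fun _ => nat_lit 1) q)
    (Nat.mul (nat_lit 16777215) (packR (nat_lit 64) (fun _ => nat_lit 1) q))) e1 e2 e3 q XS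
    (fun d => withT (ev q N (csqT n1 n2 n3 N T1 T2 T3)) e1 e2 e3 q XS fun e =>
      @Bool.rec (fun _ => Bool) false (@Bool.rec (fun _ => Bool) false
      (@Bool.rec (fun _ => Bool) false
        (allL (fun Q => allL (fun R =>
          @Bool.rec (fun _ => Bool) false
            (Nat.beq (Nat.mod (Nat.mul fr (e (nat_lit 0) Q.1 R.1)) (Nat.mul l l)) (nat_lit 0))
            (Nat.beq (Nat.mod (Nat.mul fr (e (nat_lit 1) Q.1 R.1)) l) (nat_lit 0))) L3) L2)
        (Nat.beq (wyrev e (nat_lit 0) L2 L3 (nat_lit 1208925819614629174706176)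
          (Nat.pow (nat_lit 2) w3)) Y0))
        (Nat.beq (wyrev e (nat_lit 1) L2 L3 (nat_lit 1208925819614629174706176)
          (Nat.pow (nat_lit 2) w3)) Y1))
        (Nat.beq (wrev q N e1 e2 e3 d L1 L2 L3 (nat_lit 1208925819614629174706176)
          (Nat.pow (nat_lit 2) w3) (Nat.pow (nat_lit 2) w)) W))
  rw [hd] at h
  obtain ⟨e, he, he'⟩ := withT_spec (β := Bool) (ev q N (csqT n1 n2 n3 N T1 T2 T3)) e1 e2 e3 q XS
    (fun e => @Bool.rec (fun _ => Bool) false (@Bool.rec (fun _ => Bool) false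
      (@Bool.rec (fun _ => Bool) false
        (allL (fun Q => allL (fun R =>
          @Bool.rec (fun _ => Bool) false
            (Nat.beq (Nat.mod (Nat.mul fr (e (nat_lit 0) Q.1 R.1)) (Nat.mul l l)) (nat_lit 0))
            (Nat.beq (Nat.mod (Nat.mul fr (e (nat_lit 1) Q.1 R.1)) l) (nat_lit 0))) L3) L2)
        (Nat.beq (wyrev e (nat_lit 0) L2 L3 (nat_lit 1208925819614629174706176)
          (Nat.pow (nat_lit 2) w3)) Y0))
        (Nat.beq (wyrev e (nat_lit 1) L2 L3 (nat_lit 1208925819614629174706176)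
          (Nat.pow (nat_lit 2) w3)) Y1))
        (Nat.beq (wrev q N e1 e2 e3 d L1 L2 L3 (nat_lit 1208925819614629174706176)
          (Nat.pow (nat_lit 2) w3) (Nat.pow (nat_lit 2) w)) W))
  rw [he] at h
  obtain ⟨h1, h⟩ := boolrec_spec h
  obtain ⟨h2, h⟩ := boolrec_spec h
  obtain ⟨h3, h⟩ := boolrec_spec h
  have g1 := Nat.eq_of_beq_eq_true h1
  have g2 := Nat.eq_of_beq_eq_true h2
  have g3 := Nat.eq_of_beq_eq_true h3
  have h80 : ∀ (f : ℕ × ℕ → ℕ) (L : List (ℕ × ℕ)),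
      rp (nat_lit 1208925819614629174706176) f L = rp (2 ^ 80) f L := by
    intro f L
    have h80' : (1208925819614629174706176 : ℕ) = 2 ^ 80 := by norm_num
    have : rp (1208925819614629174706176 : ℕ) f L = rp (2 ^ 80) f L := by rw [h80']
    exact this
  have hdv : ∀ a b c, pat e1 e2 e3 q a b c ∈ XS → d a b c =
      packL (2 ^ 64) (fun i => lane q N (csqT n1 n2 n3 N T1 T2 T3) (pat e1 e2 e3 q a b c)
        (q - 1 - i)) (List.range q) := by
    intro a b c hh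
    rw [hd' a b c hh, ← dv_eq H]
    have e1' : packR (nat_lit 64) (fun y => Nat.sub (Nat.sub q (nat_lit 1)) y) q =
        packL (2 ^ 64) (fun i => q - 1 - i) (List.range q) := packR_eq _ _ _
    have e2' : packR (nat_lit 64) (fun _ => nat_lit 1) q =
        packL (2 ^ 64) (fun _ => 1) (List.range q) := packR_eq _ _ _
    rw [e1', e2']
    have e3' : Nat.succ (Nat.div (nat_lit 1099511627776) q) = Nat.succ (2 ^ 40 / q) := by
      norm_num
      rfl
    rw [e3']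
    rfl
  refine ⟨?_, ?_, ?_, ?_, ?_⟩
  · rw [← g1]
    unfold wrev
    rw [rpk_eq0]
    apply rp_congr
    intro P hP
    rw [rpk_eq0]
    apply rp_congr
    intro Q hQ
    rw [rpk_eq0, h80]
    apply rp_congr
    intro R hR
    exact wdG_eq H (hdv _ _ _ (bb P hP Q hQ R hR))
  · rw [← g2]
    unfold wyrev
    rw [rpk_eq0]
    apply rp_congr
    intro Q hQ
    rw [rpk_eq0, h80]
    apply rp_congr
    intro R hR
    exact he' _ _ _ (b1 Q hQ R hR)
  · rw [← g3]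
    unfold wyrev
    rw [rpk_eq0]
    apply rp_congr
    intro Q hQ
    rw [rpk_eq0, h80]
    apply rp_congr
    intro R hR
    exact he' _ _ _ (b0 Q hQ R hR)
  · intro Q hQ R hR
    have h4 := boolrec_spec (allL_spec (allL_spec h Q hQ) R hR)
    have h5 : fr * e 1 Q.1 R.1 % l = 0 := Nat.eq_of_beq_eq_true h4.1
    rw [he' 1 _ _ (b1 Q hQ R hR)] at h5
    exact h5
  · intro Q hQ R hR
    have h4 := boolrec_spec (allL_spec (allL_spec h Q hQ) R hR)
    have h5 : fr * e 0 Q.1 R.1 % (l * l) = 0 := Nat.eq_of_beq_eq_true h4.2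
    rw [he' 0 _ _ (b0 Q hQ R hR)] at h5
    exact h5

end Pool.Agent.Lib_helper5.LK
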