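import Pool.Agent.Lib_helper5.LK1

/-!
Kernel friendly functions for relations attached to characters of conductor `n1 n2 n3`.
Character tables are packed in base `2 ^ 16`, inner products in base `2 ^ 80`, weight vectors in
base `2 ^ 64`.
-/

namespace Pool.Agent.Lib_helper5.LK

open Pool.Agent.LibH4.Ker

/-- table lookup -/
def chw (T x : ℕ) : ℕ := Nat.mod (Nat.shiftRight T (Nat.mul (nat_lit 16) x)) (nat_lit 65536)

/-- the value of a form modulo `n` -/
def nf (n P R S x y : ℕ) : ℕ :=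
  Nat.mod (Nat.add (Nat.mul x (Nat.add (Nat.mul P x) (Nat.mul R y))) (Nat.mul S (Nat.mul y y))) n

/-- selection -/
def sel (x a b : ℕ) : ℕ := @Nat.rec (fun _ => ℕ) a (fun _ _ => b) x

/-- reverse packing, kernel friendly -/
def rpk {α : Type} (V : ℕ) (f : α → ℕ) (L : List α) : ℕ → ℕ :=
  @List.rec α (fun _ => ℕ → ℕ) (fun acc => acc)
    (fun x _ ih acc => strict (Nat.add (Nat.mul acc V) (f x)) ih) L

/-! ### weights -/

/-- the character of conductor `n1 n2 n3` modulo `N` -/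
def chi3 (n1 n2 n3 N T1 T2 T3 u : ℕ) : ℕ :=
  Nat.mod (Nat.mul (Nat.mod (Nat.mul (chw T1 (Nat.mod u n1)) (chw T2 (Nat.mod u n2))) N)
    (chw T3 (Nat.mod u n3))) N

/-- table of the squares of the character -/
def csq (n1 n2 n3 q N T1 T2 T3 : ℕ) : ℕ :=
  packR (nat_lit 16) (fun u => strict (chi3 n1 n2 n3 N T1 T2 T3 u) fun c =>
    Nat.mod (Nat.mul c c) N) q

/-- `q - 2 r` modulo `N`, and `0` at `0` -/
def bzn (q N r : ℕ) : ℕ := @Nat.rec (fun _ => ℕ) (nat_lit 0)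
  (fun _ _ => Nat.add q (Nat.mul (Nat.sub N (nat_lit 2)) r)) r

/-- `6 r ^ 2 - 6 q r + q ^ 2` modulo `N` -/
def gzn (q N r : ℕ) : ℕ := Nat.add (Nat.add (Nat.mul (nat_lit 6) (Nat.mul r r))
  (Nat.mul (Nat.mul (nat_lit 6) (Nat.sub N (nat_lit 1))) (Nat.mul q r))) (Nat.mul q q)

/-- packed triple: sum of the coefficients times the floors, sum of the coefficients, and sum of
the coefficients times the argument -/
def dvt (q N cc CT Yv Mk X u : ℕ) (k : ℕ → ℕ → ℕ → ℕ) (fl s0 s1 : ℕ) : ℕ :=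
  @Nat.rec (fun _ => ℕ) (k fl s0 s1) (fun c _ =>
    strict (Nat.mod (Nat.mul (Nat.succ c) (bzn q N (Nat.mod (Nat.mul u X) q))) N) fun co =>
    strict (Nat.add fl (Nat.mul co (Nat.land (Nat.shiftRight (Nat.mul (Nat.mul u cc) Yv)
      (nat_lit 40)) Mk))) fun fl' =>
    strict (Nat.add s0 co) fun s0' => strict (Nat.add s1 (Nat.mul co u)) fun s1' =>
      k fl' s0' s1') (chw CT u)

/-- the loop over `u` -/
def dvl (q N cc CT Yv Mk X : ℕ) (k : ℕ → ℕ → ℕ → ℕ) (n : ℕ) : ℕ → ℕ → ℕ → ℕ :=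
  @Nat.rec (fun _ => ℕ → ℕ → ℕ → ℕ) k
    (fun u ih fl s0 s1 => dvt q N cc CT Yv Mk X u ih fl s0 s1) n

/-- the vector of the weights `D (X, Y)`, `Y < q` -/
def dv (q N cc CT Yv On Mk X : ℕ) : ℕ :=
  dvl q N cc CT Yv Mk X (fun fl s0 s1 => Nat.add (Nat.mul (Nat.mul q s0) On)
    (Nat.mul (Nat.sub N (nat_lit 2)) (Nat.sub (Nat.mul s1 Yv) (Nat.mul q fl)))) q
    (nat_lit 0) (nat_lit 0) (nat_lit 0)

/-- the weight `E (X)` -/
def ev (q N CT X : ℕ) : ℕ :=
  Nat.mod (sumR (fun u => @Nat.rec (fun _ => ℕ) (nat_lit 0) (fun c _ =>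
    Nat.mul (Nat.succ c) (gzn q N (Nat.mod (Nat.mul u X) q))) (chw CT u)) q) N

/-- eight numbers indexed by the first coordinates -/
def with8 {β : Type} (f : ℕ → ℕ) (e1 e2 e3 q : ℕ)
    (k : (ℕ → ℕ → ℕ → ℕ) → β) : β :=
  strict (f (nat_lit 0)) fun f000 => strict (f (Nat.mod e3 q)) fun f001 =>
  strict (f (Nat.mod e2 q)) fun f010 => strict (f (Nat.mod (Nat.add e2 e3) q)) fun f011 =>
  strict (f (Nat.mod e1 q)) fun f100 => strict (f (Nat.mod (Nat.add e1 e3) q)) fun f101 =>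
  strict (f (Nat.mod (Nat.add e1 e2) q)) fun f110 =>
  strict (f (Nat.mod (Nat.add e1 (Nat.add e2 e3)) q)) fun f111 =>
  k fun a b c => sel a (sel b (sel c f000 f001) (sel c f010 f011))
    (sel b (sel c f100 f101) (sel c f110 f111))

/-- weight at a representative -/
def wd (q N e1 e2 e3 : ℕ) (d : ℕ → ℕ → ℕ → ℕ) (P Q R : ℕ × ℕ) : ℕ :=
  strict (Nat.mod (Nat.add (Nat.mul P.2 e1) (Nat.add (Nat.mul Q.2 e2) (Nat.mul R.2 e3))) q) fun Y =>
  @Nat.rec (fun _ => ℕ) (nat_lit 0) (fun _ _ =>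
    Nat.mod (Nat.mod (Nat.shiftRight (d P.1 Q.1 R.1) (Nat.mul (nat_lit 64)
      (Nat.sub (Nat.sub q (nat_lit 1)) Y))) (nat_lit 18446744073709551616)) N) Y

/-- the weights packed -/
def wrev (q N e1 e2 e3 : ℕ) (d : ℕ → ℕ → ℕ → ℕ) (L1 L2 L3 : List (ℕ × ℕ)) (V w3 w : ℕ) : ℕ :=
  rpk w (fun P => rpk w3 (fun Q => rpk V (fun R => wd q N e1 e2 e3 d P Q R) L3 (nat_lit 0)) L2
    (nat_lit 0)) L1 (nat_lit 0)

/-- the weights `E` packed -/
def wyrev (e : ℕ → ℕ → ℕ → ℕ) (x1 : ℕ) (L2 L3 : List (ℕ × ℕ)) (V w3 : ℕ) : ℕ :=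
  rpk w3 (fun Q => rpk V (fun R => e x1 Q.1 R.1) L3 (nat_lit 0)) L2 (nat_lit 0)

/-- set up of a relation: the packed weights; `w3`, `w` are bit widths -/
def setup {β : Type} (n1 n2 n3 e1 e2 e3 N T1 T2 T3 : ℕ) (L1 L2 L3 : List (ℕ × ℕ)) (w3 w : ℕ)
    (k : (ℕ → ℕ → ℕ → ℕ) → ℕ → ℕ → ℕ → β) : β :=
  strict (Nat.mul (Nat.mul n1 n2) n3) fun q =>
  strict (csq n1 n2 n3 q N T1 T2 T3) fun CT =>
  strict (packR (nat_lit 64) (fun _ => nat_lit 1) q) fun On =>
  strict (packR (nat_lit 64) (fun y => Nat.sub (Nat.sub q (nat_lit 1)) y) q) fun Yv =>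
  strict (Nat.mul (nat_lit 16777215) On) fun Mk =>
  strict (Nat.succ (Nat.div (nat_lit 1099511627776) q)) fun cc =>
  strict (Nat.pow (nat_lit 2) w3) fun v3 =>
  strict (Nat.pow (nat_lit 2) w) fun v =>
  with8 (dv q N cc CT Yv On Mk) e1 e2 e3 q fun d =>
  with8 (ev q N CT) e1 e2 e3 q fun e =>
  strict (wrev q N e1 e2 e3 d L1 L2 L3 (nat_lit 1208925819614629174706176) v3 v) fun W =>
  strict (wyrev e (nat_lit 1) L2 L3 (nat_lit 1208925819614629174706176) v3) fun WY1 =>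
  strict (wyrev e (nat_lit 0) L2 L3 (nat_lit 1208925819614629174706176) v3) fun WY0 =>
    k e W WY1 WY0

/-- check of the packed weights -/
def wchk (n1 n2 n3 e1 e2 e3 N l fr T1 T2 T3 : ℕ) (L1 L2 L3 : List (ℕ × ℕ)) (w3 w W Y1 Y0 : ℕ) :
    Bool :=
  setup n1 n2 n3 e1 e2 e3 N T1 T2 T3 L1 L2 L3 w3 w fun e W' Y1' Y0' =>
    @Bool.rec (fun _ => Bool) false (@Bool.rec (fun _ => Bool) false
      (@Bool.rec (fun _ => Bool) false
        (allL (fun Q => allL (fun R =>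
          @Bool.rec (fun _ => Bool) false
            (Nat.beq (Nat.mod (Nat.mul fr (e (nat_lit 0) Q.1 R.1)) (Nat.mul l l)) (nat_lit 0))
            (Nat.beq (Nat.mod (Nat.mul fr (e (nat_lit 1) Q.1 R.1)) l) (nat_lit 0))) L3) L2)
        (Nat.beq Y0' Y0)) (Nat.beq Y1' Y1)) (Nat.beq W' W)

/-! ### the outer component -/

/-- doubled base vector; `w` is the width in bits of a digit -/
def gg (p T w δ : ℕ) : ℕ :=
  packR w (fun z => chw T (Nat.mod (Nat.add (Nat.mul z z) (Nat.sub p δ)) p))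
    (Nat.mul (nat_lit 2) p)
/-- total of the base vector -/
def gs (p T δ : ℕ) : ℕ :=
  sumR (fun z => chw T (Nat.mod (Nat.add (Nat.mul z z) (Nat.sub p δ)) p)) p

/-- the list of base vectors -/
def ggl {β : Type} (p T w : ℕ) (L : List ℕ) (k : List (ℕ × ℕ × ℕ) → β) : β :=
  @List.rec ℕ (fun _ => (List (ℕ × ℕ × ℕ) → β) → β) (fun k => k [])
    (fun δ _ ih k => strict (gg p T w δ) fun G => strict (gs p T δ) fun g =>
      ih fun rest => k ((δ, G, g) :: rest)) L k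

/-- lookup -/
def look (δ : ℕ) (L : List (ℕ × ℕ × ℕ)) (k : ℕ → ℕ → Bool) : Bool :=
  @List.rec (ℕ × ℕ × ℕ) (fun _ => Bool) false (fun x _ ih =>
    @Bool.rec (fun _ => Bool) ih (k x.2.1 x.2.2) (Nat.beq x.1 δ)) L

/-- the vector of values of a form on the representatives of the projective line, with the sum
over the finite part and the value at infinity -/
def fvec (p T w : ℕ) (Gs : List (ℕ × ℕ × ℕ)) (d R S : ℕ) (k : ℕ → ℕ → ℕ → Bool) : Bool :=
  strict (Nat.mod (Nat.pow (Nat.mul (nat_lit 2) S) (Nat.sub p (nat_lit 2))) p) fun i =>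
  @Bool.rec (fun _ => Bool) false
    (strict (Nat.mod (Nat.mul R i) p) fun h =>
    look (Nat.mod (Nat.mul d (Nat.mul i i)) p) Gs fun G g =>
    strict (chw T S) fun s =>
    strict (Nat.mul s (Nat.add (Nat.mod (Nat.shiftRight G (Nat.mul w h))
      (Nat.pow (nat_lit 2) (Nat.mul w p))) (Nat.pow (nat_lit 2) (Nat.mul w p))))
      fun v => k v (Nat.mul s g) s)
    (Nat.beq (Nat.mod (Nat.mul (Nat.mul (nat_lit 2) S) i) p) (nat_lit 1))

/-- the packed row of a list of forms (with coefficients `κ, α`), for a class of the outer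
component; `fr = 1` demands the divisibility of the sums by `l` -/
def rowA (p T w : ℕ) (Gs : List (ℕ × ℕ × ℕ)) (W WY1 WY0 fr l d : ℕ)
    (FK : List ((ℕ × ℕ) × (ℕ × ℕ))) : ℕ → (ℕ → Bool) → Bool :=
  @List.rec _ (fun _ => ℕ → (ℕ → Bool) → Bool) (fun acc k => k acc)
    (fun x _ ih acc k => fvec p T w Gs d x.1.1 x.1.2 fun v g s =>
      @Bool.rec (fun _ => Bool) false
        (strict (Nat.add (Nat.shiftLeft acc w) (Nat.add
          (Nat.mul x.2.1 (Nat.mod (Nat.shiftRight (Nat.mul W v) (Nat.mul w p)) (Nat.pow (nat_lit 2) w)))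
          (Nat.mul x.2.2 (Nat.add (Nat.mul g WY1) (Nat.mul s WY0))))) fun acc' => ih acc' k)
        (Nat.beq (Nat.mod (Nat.mul fr g) l) (nat_lit 0))) FK

/-! ### the inner components -/

/-- values of a form on a list of representatives, packed in base `V` -/
def pv (n T V : ℕ) (L : List (ℕ × ℕ)) (f : ℕ × ℕ × ℕ) : ℕ :=
  packL V (fun Q => chw T (nf n f.1 f.2.1 f.2.2 Q.1 Q.2)) L

/-- vectors of a list of forms, first form most significant -/
def vecA (n T V w : ℕ) (L : List (ℕ × ℕ)) (F : List (ℕ × ℕ × ℕ)) : ℕ → ℕ :=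
  @List.rec _ (fun _ => ℕ → ℕ) (fun acc => acc) (fun f _ ih acc =>
    strict (Nat.add (Nat.shiftLeft acc w) (pv n T V L f)) ih) F

/-- vectors of a list of forms, first form least significant -/
def vecB (n T V w : ℕ) (L : List (ℕ × ℕ)) (F : List (ℕ × ℕ × ℕ)) : ℕ :=
  packL (Nat.pow (nat_lit 2) w) (pv n T V L) F

/-- contraction with the middle component: `K` forms, blocks of width `w`, results of width `w3`,
`sh` the shift to the middle digit -/
def red (w w3 sh K : ℕ) : ℕ → ℕ → ℕ :=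
  @Nat.rec (fun _ => ℕ → ℕ → ℕ) (fun _ _ => (nat_lit 0)) (fun _ ih A v =>
    Nat.add (Nat.shiftLeft (ih (Nat.shiftRight A w) (Nat.shiftRight v w)) w3)
      (Nat.mod (Nat.shiftRight (Nat.mul (Nat.mod A (Nat.pow (nat_lit 2) w))
        (Nat.mod v (Nat.pow (nat_lit 2) w))) sh) (Nat.pow (nat_lit 2) w3))) K

/-- inner product: digit at the shift `sh` modulo `N` -/
def ip (N sh A v : ℕ) : ℕ :=
  Nat.mod (Nat.mod (Nat.shiftRight (Nat.mul A v) sh) (nat_lit 1208925819614629174706176)) N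

/-- conditional -/
def cond0 (n : ℕ) (a : Bool) : Bool := @Nat.rec (fun _ => Bool) a (fun _ _ => true) n

end Pool.Agent.Lib_helper5.LK
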