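import Pool.Agent.Lib_helper4.KFSound
import Pool.Agent.Lib_helper5.LKer

/-!
Sums attached to characters of conductor `n1 n2 n3`.
-/

namespace Pool.Agent.Lib_helper5.LK

open Finset Pool.Agent.LibH4 Pool.Agent.LibH4.T6 Pool.Agent.LibH4.KF

/-- multiplicative functions that vanish on non units -/
structure IsChar {n N : ℕ} (χ : ZMod n → ZMod N) : Prop where
  mul : ∀ x y, χ (x * y) = χ x * χ y
  nu : ∀ x, ¬ IsUnit x → χ x = 0

/-- product of two characters -/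
def prodC {n1 n2 N : ℕ} (χ1 : ZMod n1 → ZMod N) (χ2 : ZMod n2 → ZMod N) :
    ZMod (n1 * n2) → ZMod N :=
  fun x => χ1 (ZMod.castHom (dvd_mul_right n1 n2) (ZMod n1) x) *
    χ2 (ZMod.castHom (dvd_mul_left n2 n1) (ZMod n2) x)

lemma castHom_val {n m : ℕ} [NeZero n] (h : m ∣ n) (x : ZMod n) :
    ZMod.castHom h (ZMod m) x = ((x.val : ℕ) : ZMod m) := by
  conv_lhs => rw [← ZMod.natCast_zmod_val x]
  exact map_natCast _ _

lemma IsChar.prodC {n1 n2 N : ℕ} [NeZero (n1 * n2)] {χ1 : ZMod n1 → ZMod N}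
    {χ2 : ZMod n2 → ZMod N} (h1 : IsChar χ1) (h2 : IsChar χ2) : IsChar (prodC χ1 χ2) where
  mul x y := by
    unfold LK.prodC
    rw [map_mul, map_mul, h1.mul, h2.mul]
    ring
  nu x hx := by
    unfold LK.prodC
    by_cases h : IsUnit (ZMod.castHom (dvd_mul_right n1 n2) (ZMod n1) x)
    · have h' : ¬ IsUnit (ZMod.castHom (dvd_mul_left n2 n1) (ZMod n2) x) := by
        intro h'
        apply hx
        rw [castHom_val, ZMod.isUnit_iff_coprime] at h h'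
        rw [← ZMod.natCast_zmod_val x, ZMod.isUnit_iff_coprime]
        exact Nat.Coprime.mul_right h h'
      rw [h2.nu _ h', mul_zero]
    · rw [h1.nu _ h, zero_mul]

lemma isP1_congr {n : ℕ} [NeZero n] {L L' : List (ℕ × ℕ)}
    (h : (L.map fun P => (((P.1 : ℕ) : ZMod n), ((P.2 : ℕ) : ZMod n))) =
      L'.map fun P => (((P.1 : ℕ) : ZMod n), ((P.2 : ℕ) : ZMod n))) (H : IsP1 n L) :
    IsP1 n L' := by
  intro K _ F hF
  rw [H K F hF]
  have e : ∀ M : List (ℕ × ℕ), (M.map fun P => ∑ u : (ZMod n)ˣ, F (u * (P.1 : ZMod n))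
      (u * (P.2 : ZMod n))) = (M.map fun P => (((P.1 : ℕ) : ZMod n), ((P.2 : ℕ) : ZMod n))).map
        fun p => ∑ u : (ZMod n)ˣ, F (u * p.1) (u * p.2) := by
    intro M
    rw [List.map_map]
    rfl
  rw [e, e, h]

/-- the product of three lists of representatives -/
def triL (e1 e2 e3 : ℕ) (L1 L2 L3 : List (ℕ × ℕ)) : List (ℕ × ℕ) :=
  L1.flatMap fun P => L2.flatMap fun Q => L3.map fun R =>
    (P.1 * e1 + (Q.1 * e2 + R.1 * e3), P.2 * e1 + (Q.2 * e2 + R.2 * e3))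

/-- idempotents modulo `n1 n2 n3` -/
structure Idem (n1 n2 n3 e1 e2 e3 : ℕ) : Prop where
  co12 : n1.Coprime n2
  co3 : (n1 * n2).Coprime n3
  h11 : (e1 : ZMod n1) = 1
  h12 : (e1 : ZMod n2) = 0
  h13 : (e1 : ZMod n3) = 0
  h21 : (e2 : ZMod n1) = 0
  h22 : (e2 : ZMod n2) = 1
  h23 : (e2 : ZMod n3) = 0
  h31 : (e3 : ZMod n1) = 0
  h32 : (e3 : ZMod n2) = 0
  h33 : (e3 : ZMod n3) = 1
  h3' : (e3 : ZMod (n1 * n2)) = 0
  h12' : ((e1 + e2 : ℕ) : ZMod (n1 * n2)) = 1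
  m11 : (e1 : ZMod (n1 * n2 * n3)) * e1 = e1
  m22 : (e2 : ZMod (n1 * n2 * n3)) * e2 = e2
  m12 : (e1 : ZMod (n1 * n2 * n3)) * e2 = 0

section Tri

variable {n1 n2 n3 e1 e2 e3 N : ℕ} [NeZero n1] [NeZero n2] [NeZero n3] [NeZero (n1 * n2)]
  [NeZero (n1 * n2 * n3)] {L1 L2 L3 : List (ℕ × ℕ)}

omit [NeZero n1] [NeZero n2] [NeZero n3] [NeZero (n1 * n2)] [NeZero (n1 * n2 * n3)] in
lemma crt_tri (E : ℕ) (L1 L2 L3 : List (ℕ × ℕ)) : crtList E e3 (crtList e1 e2 L1 L2) L3 =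
    L1.flatMap fun P => L2.flatMap fun Q => L3.map fun R =>
    ((P.1 * e1 + Q.1 * e2) * E + R.1 * e3, (P.2 * e1 + Q.2 * e2) * E + R.2 * e3) := by
  unfold crtList
  rw [List.flatMap_assoc]
  simp only [List.flatMap_map]

lemma isP1_tri (H : Idem n1 n2 n3 e1 e2 e3) (h1 : IsP1 n1 L1) (h2 : IsP1 n2 L2)
    (h3 : IsP1 n3 L3) : IsP1 (n1 * n2 * n3) (triL e1 e2 e3 L1 L2 L3) := by
  have a1 := isP1_mul H.co12 H.h11 H.h12 H.h21 H.h22 h1 h2
  have a2 := isP1_mul (e1 := e1 + e2) (e2 := e3) H.co3 (by exact H.h12')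
    (by push_cast; rw [H.h13, H.h23, add_zero]) H.h3' H.h33 a1 h3
  refine isP1_congr ?_ a2
  rw [crt_tri]
  unfold triL
  rw [List.map_flatMap, List.map_flatMap]
  congr 1
  funext P
  rw [List.map_flatMap, List.map_flatMap]
  congr 1
  funext Q
  rw [List.map_map, List.map_map]
  apply List.map_congr_left
  intro R _
  have key : ∀ x y z : ℕ, (((x * e1 + y * e2) * (e1 + e2) + z * e3 : ℕ) : ZMod (n1 * n2 * n3)) =
      ((x * e1 + (y * e2 + z * e3) : ℕ) : ZMod (n1 * n2 * n3)) := by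
    intro x y z
    push_cast
    have m11 := H.m11
    have m22 := H.m22
    have m12 := H.m12
    linear_combination (x : ZMod (n1 * n2 * n3)) * m11 + (y : ZMod (n1 * n2 * n3)) * m22 +
      ((x : ZMod (n1 * n2 * n3)) + y) * m12
  simp only [Function.comp, key]

/-- the product of three characters -/
def tri (χ1 : ZMod n1 → ZMod N) (χ2 : ZMod n2 → ZMod N) (χ3 : ZMod n3 → ZMod N) :
    ZMod (n1 * n2 * n3) → ZMod N := prodC (prodC χ1 χ2) χ3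

variable {χ1 : ZMod n1 → ZMod N} {χ2 : ZMod n2 → ZMod N} {χ3 : ZMod n3 → ZMod N}

omit [NeZero n1] [NeZero n2] [NeZero n3] in
lemma tri_char (h1 : IsChar χ1) (h2 : IsChar χ2) (h3 : IsChar χ3) :
    IsChar (tri χ1 χ2 χ3) := (h1.prodC h2).prodC h3

omit [NeZero n1] [NeZero n2] [NeZero n3] [NeZero (n1 * n2)] [NeZero (n1 * n2 * n3)] in
lemma tri_natCast (x : ℕ) : tri χ1 χ2 χ3 (x : ZMod (n1 * n2 * n3)) =
    χ1 (x : ZMod n1) * χ2 (x : ZMod n2) * χ3 (x : ZMod n3) := by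
  unfold tri prodC
  simp only [map_natCast]

omit [NeZero n1] [NeZero n2] [NeZero n3] [NeZero (n1 * n2)] [NeZero (n1 * n2 * n3)] in
lemma tri_fz (H : Idem n1 n2 n3 e1 e2 e3) (P R S : ℤ) (p Q r : ℕ × ℕ) :
    tri χ1 χ2 χ3 (fz (n1 * n2 * n3) P R S
      ((p.1 * e1 + (Q.1 * e2 + r.1 * e3) : ℕ) : ZMod (n1 * n2 * n3))
      ((p.2 * e1 + (Q.2 * e2 + r.2 * e3) : ℕ) : ZMod (n1 * n2 * n3))) =
    χ1 (fz n1 P R S (p.1 : ZMod n1) (p.2 : ZMod n1)) *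
    χ2 (fz n2 P R S (Q.1 : ZMod n2) (Q.2 : ZMod n2)) *
    χ3 (fz n3 P R S (r.1 : ZMod n3) (r.2 : ZMod n3)) := by
  unfold tri prodC
  have c1 : ∀ (m n : ℕ) (h : m ∣ n) (x y : ZMod n), ZMod.castHom h (ZMod m) (fz n P R S x y) =
      fz m P R S (ZMod.castHom h (ZMod m) x) (ZMod.castHom h (ZMod m) y) := by
    intro m n h x y
    unfold fz
    simp only [map_add, map_mul, map_pow, map_intCast]
  rw [c1, c1, c1, c1]
  simp only [map_natCast]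
  push_cast
  rw [H.h11, H.h12, H.h13, H.h21, H.h22, H.h23, H.h31, H.h32, H.h33]
  simp

lemma sum_form3 (H : Idem n1 n2 n3 e1 e2 e3) (p1 : IsP1 n1 L1) (p2 : IsP1 n2 L2)
    (p3 : IsP1 n3 L3) (h1 : IsChar χ1) (h2 : IsChar χ2) (h3 : IsChar χ3) (P R S : ℤ)
    (w : ZMod (n1 * n2 * n3) → ZMod (n1 * n2 * n3) → ZMod N) :
    ∑ x, ∑ y, tri χ1 χ2 χ3 (fz (n1 * n2 * n3) P R S x y) * w x y =
      (L1.map fun p => (L2.map fun Q => (L3.map fun r =>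
        (χ1 (fz n1 P R S (p.1 : ZMod n1) (p.2 : ZMod n1)) *
        χ2 (fz n2 P R S (Q.1 : ZMod n2) (Q.2 : ZMod n2)) *
        χ3 (fz n3 P R S (r.1 : ZMod n3) (r.2 : ZMod n3))) *
        ∑ z, tri χ1 χ2 χ3 z ^ 2 *
          w (z * ((p.1 * e1 + (Q.1 * e2 + r.1 * e3) : ℕ) : ZMod (n1 * n2 * n3)))
            (z * ((p.2 * e1 + (Q.2 * e2 + r.2 * e3) : ℕ) : ZMod (n1 * n2 * n3)))).sum).sum).sum := by
  have hc := tri_char (n1 := n1) (n2 := n2) (n3 := n3) h1 h2 h3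
  have h0 := form_sum (isP1_tri H p1 p2 p3) (tri χ1 χ2 χ3) hc.mul hc.nu
    (P : ZMod (n1 * n2 * n3)) (R : ZMod (n1 * n2 * n3)) (S : ZMod (n1 * n2 * n3)) w
  have e : ∀ x y : ZMod (n1 * n2 * n3), fz (n1 * n2 * n3) P R S x y =
      (P : ZMod (n1 * n2 * n3)) * x ^ 2 + (R : ZMod (n1 * n2 * n3)) * x * y +
      (S : ZMod (n1 * n2 * n3)) * y ^ 2 := fun x y => rfl
  simp only [e]
  rw [h0]
  unfold triL
  rw [list_sum_flatMap]
  congr 1
  apply List.map_congr_left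
  intro p _
  rw [list_sum_flatMap]
  congr 1
  apply List.map_congr_left
  intro Q _
  rw [List.map_map]
  congr 1
  apply List.map_congr_left
  intro r _
  simp only [Function.comp]
  have := tri_fz (χ1 := χ1) (χ2 := χ2) (χ3 := χ3) H P R S p Q r
  rw [e] at this
  rw [this]

/-- first sum -/
lemma XX3 (H : Idem n1 n2 n3 e1 e2 e3) (p1 : IsP1 n1 L1) (p2 : IsP1 n2 L2)
    (p3 : IsP1 n3 L3) (h1 : IsChar χ1) (h2 : IsChar χ2) (h3 : IsChar χ3) (P R S : ℤ) :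
    XX (tri χ1 χ2 χ3) P R S =
      (L1.map fun p => (L2.map fun Q => (L3.map fun r =>
        (χ1 (fz n1 P R S (p.1 : ZMod n1) (p.2 : ZMod n1)) *
        χ2 (fz n2 P R S (Q.1 : ZMod n2) (Q.2 : ZMod n2)) *
        χ3 (fz n3 P R S (r.1 : ZMod n3) (r.2 : ZMod n3))) *
        DZ (tri χ1 χ2 χ3) ((p.1 * e1 + (Q.1 * e2 + r.1 * e3) : ℕ) : ZMod (n1 * n2 * n3))
          ((p.2 * e1 + (Q.2 * e2 + r.2 * e3) : ℕ) : ZMod (n1 * n2 * n3))).sum).sum).sum := by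
  unfold XX
  rw [sum_form3 H p1 p2 p3 h1 h2 h3 P R S (fun x y => bz (n1 * n2 * n3) N x * bz (n1 * n2 * n3) N y)]
  rfl

/-- third sum -/
lemma YX3 (H : Idem n1 n2 n3 e1 e2 e3) (p1 : IsP1 n1 L1) (p2 : IsP1 n2 L2)
    (p3 : IsP1 n3 L3) (h1 : IsChar χ1) (h2 : IsChar χ2) (h3 : IsChar χ3) (P R S : ℤ) :
    YX (tri χ1 χ2 χ3) P R S =
      (L1.map fun p => (L2.map fun Q => (L3.map fun r =>
        (χ1 (fz n1 P R S (p.1 : ZMod n1) (p.2 : ZMod n1)) *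
        χ2 (fz n2 P R S (Q.1 : ZMod n2) (Q.2 : ZMod n2)) *
        χ3 (fz n3 P R S (r.1 : ZMod n3) (r.2 : ZMod n3))) *
        EZ (tri χ1 χ2 χ3) ((p.1 * e1 + (Q.1 * e2 + r.1 * e3) : ℕ) :
          ZMod (n1 * n2 * n3))).sum).sum).sum := by
  unfold YX
  rw [sum_form3 H p1 p2 p3 h1 h2 h3 P R S (fun x _ => gz (n1 * n2 * n3) N x)]
  rfl

end Tri

end Pool.Agent.Lib_helper5.LK
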