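import Pool.Agent.Lib_helper5.LKVal

/-!
The values computed by the kernel functions are the values of the relations.
-/

namespace Pool.Agent.Lib_helper5.LK

open Finset Pool.Agent.LibH4 Pool.Agent.LibH4.Ker Pool.Agent.LibH4.T6 Pool.Agent.LibH4.KF

lemma lsum_comm {α β K : Type} [AddCommMonoid K] (f : α → β → K) (L : List α) (M : List β) :
    (L.map fun x => (M.map fun y => f x y).sum).sum =
      (M.map fun y => (L.map fun x => f x y).sum).sum := by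
  induction L with
  | nil => simp
  | cons x L ih =>
    simp only [List.map_cons, List.sum_cons]
    rw [ih, List.sum_map_add]

lemma lsum_congr {α K : Type} [AddCommMonoid K] {f g : α → K} {L : List α}
    (h : ∀ x ∈ L, f x = g x) : (L.map f).sum = (L.map g).sum := by
  congr 1
  exact List.map_congr_left h

lemma cast_lsum {α : Type} {N : ℕ} (f : α → ℕ) (L : List α) :
    (((L.map f).sum : ℕ) : ZMod N) = (L.map fun x => ((f x : ℕ) : ZMod N)).sum := by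
  rw [Nat.cast_list_sum, List.map_map]
  rfl

lemma lrange_sum {K : Type} [AddCommMonoid K] (f : ℕ → K) (n : ℕ) :
    ((List.range n).map f).sum = ∑ i ∈ range n, f i := by
  induction n with
  | zero => simp
  | succ n ih => rw [List.range_succ, List.map_append, List.sum_append, ih, sum_range_succ]; simp

section Cast

variable {n1 n2 n3 e1 e2 e3 N l fr T1 T2 T3 : ℕ} {L2 L3 : List (ℕ × ℕ)} {w3 w W Y1 Y0 : ℕ}
  [NeZero n1] [NeZero n2] [NeZero n3] [NeZero (n1 * n2)] [NeZero (n1 * n2 * n3)]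

/-- splitting of the second sum -/
lemma YX_split (H : Idem n1 n2 n3 e1 e2 e3) (hp : n1.Prime)
    (p2 : IsP1 n2 L2) (p3 : IsP1 n3 L3) {χ1 : ZMod n1 → ZMod N} {χ2 : ZMod n2 → ZMod N}
    {χ3 : ZMod n3 → ZMod N} (h1 : IsChar χ1) (h2 : IsChar χ2) (h3 : IsChar χ3) (P R S : ℤ) :
    YX (tri χ1 χ2 χ3) P R S =
      (∑ y : ZMod n1, χ1 (fz n1 P R S 1 y)) * (L3.map fun r => (L2.map fun Q =>
        (χ2 (fz n2 P R S (Q.1 : ZMod n2) (Q.2 : ZMod n2)) *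
        χ3 (fz n3 P R S (r.1 : ZMod n3) (r.2 : ZMod n3))) *
        EZ (tri χ1 χ2 χ3) ((1 * e1 + (Q.1 * e2 + r.1 * e3) : ℕ) : ZMod (n1 * n2 * n3))).sum).sum +
      χ1 (S : ZMod n1) * (L3.map fun r => (L2.map fun Q =>
        (χ2 (fz n2 P R S (Q.1 : ZMod n2) (Q.2 : ZMod n2)) *
        χ3 (fz n3 P R S (r.1 : ZMod n3) (r.2 : ZMod n3))) *
        EZ (tri χ1 χ2 χ3) ((0 * e1 + (Q.1 * e2 + r.1 * e3) : ℕ) : ZMod (n1 * n2 * n3))).sum).sum := by
  rw [YX3 H (isP1_PL hp) p2 p3 h1 h2 h3 P R S]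
  have key : ∀ p : ℕ × ℕ, (L2.map fun Q => (L3.map fun r =>
        (χ1 (fz n1 P R S (p.1 : ZMod n1) (p.2 : ZMod n1)) *
        χ2 (fz n2 P R S (Q.1 : ZMod n2) (Q.2 : ZMod n2)) *
        χ3 (fz n3 P R S (r.1 : ZMod n3) (r.2 : ZMod n3))) *
        EZ (tri χ1 χ2 χ3) ((p.1 * e1 + (Q.1 * e2 + r.1 * e3) : ℕ) :
          ZMod (n1 * n2 * n3))).sum).sum =
      χ1 (fz n1 P R S (p.1 : ZMod n1) (p.2 : ZMod n1)) * (L3.map fun r => (L2.map fun Q =>
        (χ2 (fz n2 P R S (Q.1 : ZMod n2) (Q.2 : ZMod n2)) *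
        χ3 (fz n3 P R S (r.1 : ZMod n3) (r.2 : ZMod n3))) *
        EZ (tri χ1 χ2 χ3) ((p.1 * e1 + (Q.1 * e2 + r.1 * e3) : ℕ) :
          ZMod (n1 * n2 * n3))).sum).sum := by
    intro p
    rw [lsum_comm, ← List.sum_map_mul_left]
    apply lsum_congr
    intro r _
    rw [← List.sum_map_mul_left]
    apply lsum_congr
    intro Q _
    ring
  simp only [key]
  unfold PL
  rw [List.map_append, List.sum_append, List.map_map, List.map_singleton, List.sum_singleton]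
  congr 1
  · rw [sum_zmod_range, Finset.sum_mul]
    rw [lrange_sum]
    apply Finset.sum_congr rfl
    intro y _
    simp only [Function.comp, Nat.cast_one]
  · congr 2
    unfold fz
    push_cast
    ring

/-- cast of the contraction -/
lemma val_cast (H : Idem n1 n2 n3 e1 e2 e3) (hp : n1.Prime)
    (p2 : IsP1 n2 L2) (p3 : IsP1 n3 L3) (hN : 2 ≤ N) (hN16 : N ≤ 2 ^ 16)
    (h1 : IsChar (tabc n1 N T1)) (h2 : IsChar (tabc n2 N T2)) (h3 : IsChar (tabc n3 N T3))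
    {j : Fm} {x : (ℕ × ℕ) × (ℕ × ℕ)} {d : ℕ} (hR : (x.1.1 : ZMod n1) = j.R)
    (hS : (x.1.2 : ZMod n1) = j.S) (hSp : x.1.2 < n1)
    (hd : (d : ZMod n1) = j.R ^ 2 - 4 * j.P * j.S) (hi : 2 * x.1.2 * ii n1 x.1.2 % n1 = 1)
    {u2 u3 : ℕ × ℕ → ℕ}
    (c2 : ∀ Q ∈ L2, ((u2 Q : ℕ) : ZMod N) =
      tabc n2 N T2 (fz n2 j.P j.R j.S (Q.1 : ZMod n2) (Q.2 : ZMod n2)))
    (c3 : ∀ Q ∈ L3, ((u3 Q : ℕ) : ZMod N) =
      tabc n3 N T3 (fz n3 j.P j.R j.S (Q.1 : ZMod n3) (Q.2 : ZMod n3))) :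
    (((L3.map fun R => brow n1 n2 n3 e1 e2 e3 N T1 T2 T3 d L2 x u2 R * u3 R).sum : ℕ) : ZMod N) =
      x.2.1 * XX (tri (tabc n1 N T1) (tabc n2 N T2) (tabc n3 N T3)) j.P j.R j.S +
      x.2.2 * YX (tri (tabc n1 N T1) (tabc n2 N T2) (tabc n3 N T3)) j.P j.R j.S := by
  have hc := tri_char (n1 := n1) (n2 := n2) (n3 := n3) h1 h2 h3
  rw [YX_split H hp p2 p3 h1 h2 h3, XX3 H (isP1_PL hp) p2 p3 h1 h2 h3]
  have hG := gf_cast (N := N) (T := T1) (P' := j.P) h1 hR hS hSp hd hi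
  have hs : ((chw T1 x.1.2 : ℕ) : ZMod N) = tabc n1 N T1 (j.S : ZMod n1) := by
    rw [← hS, tabc_natCast, Nat.mod_eq_of_lt hSp]
  rw [← hG, ← hs]
  -- the first sum
  have eX : ((PL n1).map fun p => (L2.map fun Q => (L3.map fun r =>
        (tabc n1 N T1 (fz n1 j.P j.R j.S (p.1 : ZMod n1) (p.2 : ZMod n1)) *
        tabc n2 N T2 (fz n2 j.P j.R j.S (Q.1 : ZMod n2) (Q.2 : ZMod n2)) *
        tabc n3 N T3 (fz n3 j.P j.R j.S (r.1 : ZMod n3) (r.2 : ZMod n3))) *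
        DZ (tri (tabc n1 N T1) (tabc n2 N T2) (tabc n3 N T3))
          ((p.1 * e1 + (Q.1 * e2 + r.1 * e3) : ℕ) : ZMod (n1 * n2 * n3))
          ((p.2 * e1 + (Q.2 * e2 + r.2 * e3) : ℕ) : ZMod (n1 * n2 * n3))).sum).sum).sum =
      (L3.map fun r => (L2.map fun Q => ((PL n1).map fun p =>
        (((wv (n1 * n2 * n3) N (csqT n1 n2 n3 N T1 T2 T3) e1 e2 e3 p Q r : ℕ) : ZMod N) *
          ((vf n1 T1 d x.1.1 x.1.2 p : ℕ) : ZMod N)) * ((u2 Q : ℕ) : ZMod N) *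
          ((u3 r : ℕ) : ZMod N)).sum).sum).sum := by
    have e1 : ∀ p : ℕ × ℕ, (L2.map fun Q => (L3.map fun r =>
        (tabc n1 N T1 (fz n1 j.P j.R j.S (p.1 : ZMod n1) (p.2 : ZMod n1)) *
        tabc n2 N T2 (fz n2 j.P j.R j.S (Q.1 : ZMod n2) (Q.2 : ZMod n2)) *
        tabc n3 N T3 (fz n3 j.P j.R j.S (r.1 : ZMod n3) (r.2 : ZMod n3))) *
        DZ (tri (tabc n1 N T1) (tabc n2 N T2) (tabc n3 N T3))
          ((p.1 * e1 + (Q.1 * e2 + r.1 * e3) : ℕ) : ZMod (n1 * n2 * n3))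
          ((p.2 * e1 + (Q.2 * e2 + r.2 * e3) : ℕ) : ZMod (n1 * n2 * n3))).sum).sum =
        (L3.map fun r => (L2.map fun Q =>
        (tabc n1 N T1 (fz n1 j.P j.R j.S (p.1 : ZMod n1) (p.2 : ZMod n1)) *
        tabc n2 N T2 (fz n2 j.P j.R j.S (Q.1 : ZMod n2) (Q.2 : ZMod n2)) *
        tabc n3 N T3 (fz n3 j.P j.R j.S (r.1 : ZMod n3) (r.2 : ZMod n3))) *
        DZ (tri (tabc n1 N T1) (tabc n2 N T2) (tabc n3 N T3))
          ((p.1 * e1 + (Q.1 * e2 + r.1 * e3) : ℕ) : ZMod (n1 * n2 * n3))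
          ((p.2 * e1 + (Q.2 * e2 + r.2 * e3) : ℕ) : ZMod (n1 * n2 * n3))).sum).sum :=
      fun p => lsum_comm _ _ _
    simp only [e1]
    rw [lsum_comm]
    apply lsum_congr
    intro r hr
    rw [lsum_comm]
    apply lsum_congr
    intro Q hQ
    apply lsum_congr
    intro p hpp
    rw [wv_cast hN hN16 hc, vf_cast h1 hR hS hSp hd hi hpp, c2 Q hQ, c3 r hr]
    ring
  rw [eX, cast_lsum]
  have eE : ∀ c : ℕ, (L3.map fun r => (L2.map fun Q =>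
        (tabc n2 N T2 (fz n2 j.P j.R j.S (Q.1 : ZMod n2) (Q.2 : ZMod n2)) *
        tabc n3 N T3 (fz n3 j.P j.R j.S (r.1 : ZMod n3) (r.2 : ZMod n3))) *
        EZ (tri (tabc n1 N T1) (tabc n2 N T2) (tabc n3 N T3))
          ((c * e1 + (Q.1 * e2 + r.1 * e3) : ℕ) : ZMod (n1 * n2 * n3))).sum).sum =
      (L3.map fun r => (L2.map fun Q => ((u2 Q : ℕ) : ZMod N) * ((u3 r : ℕ) : ZMod N) *
        ((ew n1 n2 n3 e1 e2 e3 N T1 T2 T3 c Q r : ℕ) : ZMod N)).sum).sum := by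
    intro c
    apply lsum_congr
    intro r hr
    apply lsum_congr
    intro Q hQ
    rw [ew_cast (by omega) hN16, c2 Q hQ, c3 r hr]
  rw [eE 1, eE 0]
  simp only [← List.sum_map_mul_left, ← List.sum_map_add]
  apply lsum_congr
  intro r _
  unfold brow
  rw [Nat.cast_mul, cast_lsum, ← List.sum_map_mul_right]
  apply lsum_congr
  intro Q _
  unfold arow
  rw [Nat.cast_mul, Nat.cast_add, Nat.cast_mul x.2.1, cast_lsum]
  have : (List.map (fun p => (x.2.1 : ZMod N) *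
      (((wv (n1 * n2 * n3) N (csqT n1 n2 n3 N T1 T2 T3) e1 e2 e3 p Q r : ℕ) : ZMod N) *
      ((vf n1 T1 d x.1.1 x.1.2 p : ℕ) : ZMod N) * ((u2 Q : ℕ) : ZMod N) *
      ((u3 r : ℕ) : ZMod N))) (PL n1)).sum = x.2.1 * (List.map (fun p =>
      (((wv (n1 * n2 * n3) N (csqT n1 n2 n3 N T1 T2 T3) e1 e2 e3 p Q r *
      vf n1 T1 d x.1.1 x.1.2 p : ℕ) : ZMod N))) (PL n1)).sum * ((u2 Q : ℕ) : ZMod N) *
      ((u3 r : ℕ) : ZMod N) := by
    rw [← List.sum_map_mul_left, ← List.sum_map_mul_right, ← List.sum_map_mul_right]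
    apply lsum_congr
    intro p _
    push_cast
    ring
  rw [this]
  push_cast
  ring

end Cast

lemma lsum_zero {α K : Type} [AddCommMonoid K] {f : α → K} {L : List α}
    (h : ∀ x ∈ L, f x = 0) : (L.map f).sum = 0 := by
  rw [lsum_congr h]
  simp

/-- **the verified data of a relation** -/
structure Good (n1 n2 n3 e1 e2 e3 N l fr T1 T2 T3 : ℕ) (L2 L3 : List (ℕ × ℕ))
    (w3 w W Y1 Y0 : ℕ) [NeZero n1] [NeZero n2] [NeZero n3] [NeZero (n1 * n2)]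
    [NeZero (n1 * n2 * n3)] : Prop where
  hp : n1.Prime
  idem : Idem n1 n2 n3 e1 e2 e3
  p2 : IsP1 n2 L2
  p3 : IsP1 n3 L3
  ne2 : L2 ≠ []
  ne3 : L3 ≠ []
  qn : QN (n1 * n2 * n3) N
  t1 : tabCk n1 N T1 = true
  t2 : tabCk n2 N T2 = true
  t3 : tabCk n3 N T3 = true
  ws : WSpec n1 n2 n3 e1 e2 e3 N l fr T1 T2 T3 (PL n1) L2 L3 w3 w W Y1 Y0
  hw3 : w3 = 80 * L3.length
  hw : w = w3 * L2.length
  l0 : 0 < l
  hfr : N = l ∨ (fr = 1 ∧ N = l * (l * l))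

section Final

variable {n1 n2 n3 e1 e2 e3 N l fr T1 T2 T3 : ℕ} {L2 L3 : List (ℕ × ℕ)} {w3 w W Y1 Y0 : ℕ}
  [NeZero n1] [NeZero n2] [NeZero n3] [NeZero (n1 * n2)] [NeZero (n1 * n2 * n3)]

lemma Good.lYX (G : Good n1 n2 n3 e1 e2 e3 N l fr T1 T2 T3 L2 L3 w3 w W Y1 Y0) {j : Fm} {D : ℤ}
    (hD : j.R ^ 2 - 4 * j.P * j.S = D) (hC : rowC n1 T1 fr l (rs n1 D) (fkO n1 l j)) :
    (l : ZMod N) * YX (tri (tabc n1 N T1) (tabc n2 N T2) (tabc n3 N T3)) j.P j.R j.S = 0 := by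
  have hN : 2 ≤ N := by have := G.qn.N3; omega
  have hN16 : N ≤ 2 ^ 16 := by have := G.qn.N8; omega
  rcases G.hfr with h | ⟨hf, h⟩
  · have : (l : ZMod N) = 0 := by rw [← h]; exact ZMod.natCast_self N
    rw [this, zero_mul]
  · have h1 := tabCk_char G.t1
    have h2 := tabCk_char G.t2
    have h3 := tabCk_char G.t3
    have hNz : ((l * (l * l) : ℕ) : ZMod N) = 0 := by rw [← h]; exact ZMod.natCast_self N
    have hd : ((rs n1 D : ℕ) : ZMod n1) = (j.R : ZMod n1) ^ 2 - 4 * j.P * j.S := by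
      rw [rs_cast, ← hD]; push_cast; ring
    have hG := gf_cast (N := N) (T := T1) (P' := j.P) (d := rs n1 D) h1 (rs_cast j.R) (rs_cast j.S)
      (rs_lt j.S) hd hC.1
    rw [YX_split G.idem G.hp G.p2 G.p3 h1 h2 h3, ← hG, mul_add]
    have hC2 := hC.2
    rw [hf, one_mul] at hC2
    have y1 : ∀ Q ∈ L2, ∀ R ∈ L3, (l : ZMod N) * ((gf n1 T1 (rs n1 D) (rs n1 j.S) : ℕ) : ZMod N) *
        EZ (tri (tabc n1 N T1) (tabc n2 N T2) (tabc n3 N T3))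
          ((1 * e1 + (Q.1 * e2 + R.1 * e3) : ℕ) : ZMod (n1 * n2 * n3)) = 0 := by
      intro Q hQ R hR
      rw [← ew_cast (by omega) hN16 1 Q R]
      have h4 := G.ws.d1 Q hQ R hR
      rw [hf, one_mul] at h4
      obtain ⟨u, hu⟩ := Nat.dvd_of_mod_eq_zero hC2
      obtain ⟨v, hv⟩ := Nat.dvd_of_mod_eq_zero h4
      have hu' : gf n1 T1 (rs n1 D) (rs n1 j.S) = l * u := hu
      have hv' : ew n1 n2 n3 e1 e2 e3 N T1 T2 T3 1 Q R = l * v := hv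
      rw [hu', hv']
      have : (l : ZMod N) * ((l * u : ℕ) : ZMod N) * ((l * v : ℕ) : ZMod N) =
        ((l * (l * l) : ℕ) : ZMod N) * u * v := by push_cast; ring
      rw [this, hNz]
      ring
    have y0 : ∀ Q ∈ L2, ∀ R ∈ L3, (l : ZMod N) *
        EZ (tri (tabc n1 N T1) (tabc n2 N T2) (tabc n3 N T3))
          ((0 * e1 + (Q.1 * e2 + R.1 * e3) : ℕ) : ZMod (n1 * n2 * n3)) = 0 := by
      intro Q hQ R hR
      rw [← ew_cast (by omega) hN16 0 Q R]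
      have h4 := G.ws.d0 Q hQ R hR
      rw [hf, one_mul] at h4
      obtain ⟨v, hv⟩ := Nat.dvd_of_mod_eq_zero h4
      have hv' : ew n1 n2 n3 e1 e2 e3 N T1 T2 T3 0 Q R = l * l * v := hv
      rw [hv']
      have : (l : ZMod N) * ((l * l * v : ℕ) : ZMod N) =
        ((l * (l * l) : ℕ) : ZMod N) * v := by push_cast; ring
      rw [this, hNz]
      ring
    have z1 : (l : ZMod N) * (((gf n1 T1 (rs n1 D) (rs n1 j.S) : ℕ) : ZMod N) *
        (L3.map fun r => (L2.map fun Q =>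
        (tabc n2 N T2 (fz n2 j.P j.R j.S (Q.1 : ZMod n2) (Q.2 : ZMod n2)) *
        tabc n3 N T3 (fz n3 j.P j.R j.S (r.1 : ZMod n3) (r.2 : ZMod n3))) *
        EZ (tri (tabc n1 N T1) (tabc n2 N T2) (tabc n3 N T3))
          ((1 * e1 + (Q.1 * e2 + r.1 * e3) : ℕ) : ZMod (n1 * n2 * n3))).sum).sum) = 0 := by
      rw [← mul_assoc, ← List.sum_map_mul_left]
      apply lsum_zero
      intro r hr
      rw [← List.sum_map_mul_left]
      apply lsum_zero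
      intro Q hQ
      have := y1 Q hQ r hr
      linear_combination (tabc n2 N T2 (fz n2 j.P j.R j.S (Q.1 : ZMod n2) (Q.2 : ZMod n2)) *
        tabc n3 N T3 (fz n3 j.P j.R j.S (r.1 : ZMod n3) (r.2 : ZMod n3))) * this
    have z0 : (l : ZMod N) * (tabc n1 N T1 (j.S : ZMod n1) *
        (L3.map fun r => (L2.map fun Q =>
        (tabc n2 N T2 (fz n2 j.P j.R j.S (Q.1 : ZMod n2) (Q.2 : ZMod n2)) *
        tabc n3 N T3 (fz n3 j.P j.R j.S (r.1 : ZMod n3) (r.2 : ZMod n3))) *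
        EZ (tri (tabc n1 N T1) (tabc n2 N T2) (tabc n3 N T3))
          ((0 * e1 + (Q.1 * e2 + r.1 * e3) : ℕ) : ZMod (n1 * n2 * n3))).sum).sum) = 0 := by
      rw [← mul_assoc, ← List.sum_map_mul_left]
      apply lsum_zero
      intro r hr
      rw [← List.sum_map_mul_left]
      apply lsum_zero
      intro Q hQ
      have := y0 Q hQ r hr
      linear_combination (tabc n1 N T1 (j.S : ZMod n1) *
        (tabc n2 N T2 (fz n2 j.P j.R j.S (Q.1 : ZMod n2) (Q.2 : ZMod n2)) *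
        tabc n3 N T3 (fz n3 j.P j.R j.S (r.1 : ZMod n3) (r.2 : ZMod n3)))) * this
    exact (congrArg₂ (· + ·) z1 z0).trans (add_zero 0)

/-- the relation -/
def Rel (N : ℕ) {q : ℕ} [NeZero q] (χ : ZMod q → ZMod N) (J : List Fm) : Prop :=
  (J.map fun j => (j.κ : ZMod N) * XX χ j.P j.R j.S + (j.α : ZMod N) * YX χ j.P j.R j.S).sum = 0

/-- **vanishing of the final value** -/
theorem Good.zero (G : Good n1 n2 n3 e1 e2 e3 N l fr T1 T2 T3 L2 L3 w3 w W Y1 Y0)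
    {J : List Fm} (hJ : J ≠ []) (hκ : ∀ j ∈ J, j.κ ≤ 6) {D : ℤ}
    (hD : ∀ j ∈ J, j.R ^ 2 - 4 * j.P * j.S = D)
    (hC : ∀ x ∈ J.map (fkO n1 l), rowC n1 T1 fr l (rs n1 D) x)
    (hrel : Rel N (tri (tabc n1 N T1) (tabc n2 N T2) (tabc n3 N T3)) J)
    {u2 u3 : Fm → ℕ × ℕ → ℕ} {D2 D3 : ℕ}
    (c2 : ∀ j ∈ J, ∀ Q ∈ L2, ((u2 j Q : ℕ) : ZMod N) =
      tabc n2 N T2 (fz n2 j.P j.R j.S (Q.1 : ZMod n2) (Q.2 : ZMod n2)))
    (c3 : ∀ j ∈ J, ∀ Q ∈ L3, ((u3 j Q : ℕ) : ZMod N) =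
      tabc n3 N T3 (fz n3 j.P j.R j.S (Q.1 : ZMod n3) (Q.2 : ZMod n3)))
    (b2 : ∀ j ∈ J, ∀ Q ∈ L2, u2 j Q ≤ D2) (b3 : ∀ j ∈ J, ∀ Q ∈ L3, u3 j Q ≤ D3)
    (hB : J.length * L3.length * (L2.length * (BA n1 N l * D2) * D3) < 2 ^ 80) {sh : ℕ}
    (hsh : sh = 80 * (J.length * L3.length - 1)) :
    ip N sh (rp (2 ^ w3) (fun j => rp (2 ^ 80) (brow n1 n2 n3 e1 e2 e3 N T1 T2 T3 (rs n1 D) L2
      (fkO n1 l j) (u2 j)) L3) J) (packL (2 ^ w3) (fun j => packL (2 ^ 80) (u3 j) L3) J) = 0 := by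
  have hN : 2 ≤ N := by have := G.qn.N3; omega
  have hN0 : 0 < N := by omega
  have hN16 : N ≤ 2 ^ 16 := by have := G.qn.N8; omega
  have h1 := tabCk_char G.t1
  have h2 := tabCk_char G.t2
  have h3 := tabCk_char G.t3
  have hn1 : 0 < n1 := G.hp.pos
  have : NeZero l := ⟨G.l0.ne'⟩
  have hC' : ∀ j ∈ J, rowC n1 T1 fr l (rs n1 D) (fkO n1 l j) := fun j hj =>
    hC _ (List.mem_map_of_mem hj)
  rw [ip_fin (C := L2.length * (BA n1 N l * D2)) (D := D3) hJ G.ne3 ?_ b3 hB G.hw3 hsh]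
  · rw [← Nat.dvd_iff_mod_eq_zero, ← ZMod.natCast_eq_zero_iff, cast_lsum]
    unfold Rel at hrel
    rw [← hrel]
    apply lsum_congr
    intro j hj
    have hd : ((rs n1 D : ℕ) : ZMod n1) = (j.R : ZMod n1) ^ 2 - 4 * j.P * j.S := by
      rw [rs_cast, ← hD j hj]; push_cast; ring
    have key := val_cast (L2 := L2) (L3 := L3) (x := fkO n1 l j) (d := rs n1 D) (j := j) G.idem G.hp
      G.p2 G.p3 hN hN16 h1 h2 h3 (rs_cast j.R) (rs_cast j.S) (rs_lt j.S) hd (hC' j hj).1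
      (c2 j hj) (c3 j hj)
    rw [key]
    have hl := G.lYX (hD j hj) (hC' j hj)
    have e : (j.α : ZMod N) = ((rs l j.α : ℕ) : ZMod N) + (l : ZMod N) * ((j.α / l : ℤ) : ZMod N) := by
      have e1 : (rs l j.α : ℤ) = j.α % l := by
        unfold rs
        rw [ZMod.val_intCast]
      have e2 := Int.emod_add_mul_ediv j.α l
      rw [← e1] at e2
      have e3 := congrArg (fun x : ℤ => (x : ZMod N)) e2
      rw [← e3]
      push_cast
      ring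
    change (j.κ : ZMod N) * _ + ((rs l j.α : ℕ) : ZMod N) * _ = _
    rw [e]
    linear_combination (-((j.α / l : ℤ) : ZMod N)) * hl
  · intro j hj R _
    exact brow_le hN0 hn1 (tabCk_lt G.t1) (hκ j hj) (rs_lt j.α).le (rs_lt j.S) (b2 j hj) R

end Final

end Pool.Agent.Lib_helper5.LK
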