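import Pool.Agent.Lib_helper5.LKW

/-!
Meaning of the kernel functions for relations.
-/

namespace Pool.Agent.Lib_helper5.LK

open Finset Pool.Agent.LibH4 Pool.Agent.LibH4.Ker Pool.Agent.LibH4.T6 Pool.Agent.LibH4.KF

/-! ### residues and forms -/

/-- residue -/
def rs (p : ℕ) (x : ℤ) : ℕ := (x : ZMod p).val

lemma rs_lt {p : ℕ} [NeZero p] (x : ℤ) : rs p x < p := ZMod.val_lt _

lemma rs_cast {p : ℕ} [NeZero p] (x : ℤ) : ((rs p x : ℕ) : ZMod p) = (x : ZMod p) :=
  ZMod.natCast_zmod_val _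

lemma rs_of {p : ℕ} {n : ℕ} {x : ℤ} (h : (n : ZMod p) = (x : ZMod p)) : n % p = rs p x := by
  unfold rs
  rw [← h, ZMod.val_natCast]

/-- a form with its coefficients in the relation -/
structure Fm where
  /-- coefficient -/
  P : ℤ
  /-- coefficient -/
  R : ℤ
  /-- coefficient -/
  S : ℤ
  /-- multiplicity of the first sum -/
  κ : ℕ
  /-- multiplicity of the second sum -/
  α : ℤ

/-- outer data of a form -/
def fkO (p l : ℕ) (j : Fm) : (ℕ × ℕ) × (ℕ × ℕ) := ((rs p j.R, rs p j.S), (j.κ, rs l j.α))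
/-- inner data of a form -/
def fkI (p : ℕ) (j : Fm) : ℕ × ℕ × ℕ := (rs p j.P, rs p j.R, rs p j.S)

/-! ### nested packings -/

lemma rp_flat {α β : Type} (V : ℕ) (f : α → β → ℕ) (L : List α) (M : List β) :
    rp (V ^ M.length) (fun x => rp V (f x) M) L =
      rp V (fun y : α × β => f y.1 y.2) (L ×ˢ M) := by
  induction L with
  | nil => rfl
  | cons x L ih =>
    rw [rp_cons, List.product_cons, rp_append, rp_map, ih, List.length_product, ← pow_mul,
      mul_comm M.length]

lemma packL_flat {α β : Type} (V : ℕ) (f : α → β → ℕ) (L : List α) (M : List β) :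
    packL (V ^ M.length) (fun x => packL V (f x) M) L =
      packL V (fun y : α × β => f y.1 y.2) (L ×ˢ M) := by
  induction L with
  | nil => rfl
  | cons x L ih =>
    rw [packL_cons, List.product_cons, packL_append, packL_map, ih, List.length_map]

lemma sum_flat {α β : Type} (f : α → β → ℕ) (L : List α) (M : List β) :
    ((L ×ˢ M).map fun y : α × β => f y.1 y.2).sum =
      (L.map fun x => (M.map fun y => f x y).sum).sum := by
  induction L with
  | nil => rfl
  | cons x L ih =>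
    rw [List.product_cons, List.map_append, List.sum_append, List.map_cons, List.sum_cons, ih,
      List.map_map]
    rfl

lemma rp_sumL {α β : Type} (V : ℕ) (a : α → β → ℕ) (b : α → ℕ) (L : List α) (M : List β) :
    (L.map fun x => rp V (a x) M * b x).sum =
      rp V (fun y => (L.map fun x => a x y * b x).sum) M := by
  rw [← rp_sum]
  congr 1
  apply List.map_congr_left
  intro x _
  rw [mul_comm, ← rp_mul]
  apply rp_congr
  intro y _
  rw [mul_comm]

/-- contraction of a block -/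
lemma blk {α β : Type} {V C D : ℕ} {a : α → β → ℕ} {b : α → ℕ} {L : List α} {M : List β}
    (hL : L ≠ []) (ha : ∀ x ∈ L, ∀ y ∈ M, a x y ≤ C) (hb : ∀ x ∈ L, b x ≤ D)
    (h : L.length * (C * D) < V) :
    rp (V ^ M.length) (fun x => rp V (a x) M) L * packL (V ^ M.length) b L /
      (V ^ M.length) ^ (L.length - 1) % V ^ M.length =
      rp V (fun y => (L.map fun x => a x y * b x).sum) M := by
  have hV : 1 ≤ V := by omega
  have h1 : L.length * ((C * geo V M.length) * D) < V ^ M.length := by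
    have h2 := geo_pow V M.length hV
    have h3 : L.length * (C * D) ≤ V - 1 := by omega
    calc L.length * ((C * geo V M.length) * D) = (L.length * (C * D)) * geo V M.length := by ring
      _ ≤ (V - 1) * geo V M.length := Nat.mul_le_mul_right _ h3
      _ < _ := by omega
  rw [ip_eq hL (A := C * geo V M.length) (B := D) (fun x hx => rp_le fun y hy => ha x hx y hy) hb h1,
    rp_sumL]

/-! ### rows -/

/-- the row of a form -/
def rowX (p T w W Y1 Y0 d : ℕ) (x : (ℕ × ℕ) × (ℕ × ℕ)) : ℕ :=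
  x.2.1 * (W * packL (2 ^ w) (vf p T d x.1.1 x.1.2) (PL p) / 2 ^ (w * p) % 2 ^ w) +
    x.2.2 * (gf p T d x.1.2 * Y1 + chw T x.1.2 * Y0)

/-- the conditions verified with a row -/
def rowC (p T fr l d : ℕ) (x : (ℕ × ℕ) × (ℕ × ℕ)) : Prop :=
  2 * x.1.2 * ii p x.1.2 % p = 1 ∧ fr * gf p T d x.1.2 % l = 0

lemma rowA_spec {p T w : ℕ} (hw : 16 ≤ w) (hp : 0 < p) {ds : List ℕ} {W Y1 Y0 fr l d : ℕ}
    {FK : List ((ℕ × ℕ) × (ℕ × ℕ))} {acc : ℕ} {k : ℕ → Bool}
    (h : rowA p T w (ds.map fun δ => (δ, gg p T w δ, gs p T δ)) W Y1 Y0 fr l d FK acc k = true) :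
    k (acc * (2 ^ w) ^ FK.length + rp (2 ^ w) (rowX p T w W Y1 Y0 d) FK) = true ∧
      ∀ x ∈ FK, rowC p T fr l d x := by
  induction FK generalizing acc with
  | nil =>
    refine ⟨?_, by simp⟩
    have h' : k acc = true := h
    simpa [rp] using h'
  | cons x FK ih =>
    have h1 : fvec p T w (ds.map fun δ => (δ, gg p T w δ, gs p T δ)) d x.1.1 x.1.2 (fun v g s =>
      @Bool.rec (fun _ => Bool) false
        (strict (Nat.add (Nat.shiftLeft acc w) (Nat.add
          (Nat.mul x.2.1 (Nat.mod (Nat.shiftRight (Nat.mul W v) (Nat.mul w p))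
            (Nat.pow (nat_lit 2) w)))
          (Nat.mul x.2.2 (Nat.add (Nat.mul g Y1) (Nat.mul s Y0))))) fun acc' =>
            rowA p T w (ds.map fun δ => (δ, gg p T w δ, gs p T δ)) W Y1 Y0 fr l d FK acc' k)
        (Nat.beq (Nat.mod (Nat.mul fr g) l) (nat_lit 0))) = true := h
    obtain ⟨h2, h3⟩ := fvec_spec hw hp h1
    obtain ⟨h4, h5⟩ := boolrec_spec h3
    rw [strict_eq] at h5
    obtain ⟨h6, h7⟩ := ih h5
    refine ⟨?_, ?_⟩
    · rw [← h6]
      congr 1
      have e : Nat.add (Nat.shiftLeft acc w) (Nat.add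
          (Nat.mul x.2.1 (Nat.mod (Nat.shiftRight (Nat.mul W (packL (2 ^ w)
            (vf p T d x.1.1 x.1.2) (PL p))) (Nat.mul w p)) (Nat.pow (nat_lit 2) w)))
          (Nat.mul x.2.2 (Nat.add (Nat.mul (gf p T d x.1.2) Y1) (Nat.mul (chw T x.1.2) Y0)))) =
          acc * 2 ^ w + rowX p T w W Y1 Y0 d x := by
        unfold rowX
        change acc <<< w + (x.2.1 * ((W * packL (2 ^ w) (vf p T d x.1.1 x.1.2) (PL p)) >>>
          (w * p) % 2 ^ w) + x.2.2 * (gf p T d x.1.2 * Y1 + chw T x.1.2 * Y0)) = _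
        rw [Nat.shiftLeft_eq, Nat.shiftRight_eq_div_pow]
      rw [e, rp_cons, List.length_cons, pow_succ']
      ring
    · intro y hy
      rcases List.mem_cons.1 hy with rfl | hy
      · exact ⟨h2, Nat.eq_of_beq_eq_true h4⟩
      · exact h7 y hy

lemma vecA_eq (n T V w : ℕ) (L : List (ℕ × ℕ)) (F : List (ℕ × ℕ × ℕ)) (acc : ℕ) :
    vecA n T V w L F acc = acc * (2 ^ w) ^ F.length + rp (2 ^ w) (pv n T V L) F := by
  induction F generalizing acc with
  | nil => simp [vecA, rp]
  | cons f F ih =>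
    have e : vecA n T V w L (f :: F) acc = strict (Nat.add (Nat.shiftLeft acc w) (pv n T V L f))
      (vecA n T V w L F) := rfl
    have e2 : Nat.add (Nat.shiftLeft acc w) (pv n T V L f) = acc * 2 ^ w + pv n T V L f := by
      change acc <<< w + _ = _
      rw [Nat.shiftLeft_eq]
    rw [e, strict_eq, ih, e2, rp_cons, List.length_cons, pow_succ']
    ring

lemma vecB_eq (n T V w : ℕ) (L : List (ℕ × ℕ)) (F : List (ℕ × ℕ × ℕ)) :
    vecB n T V w L F = packL (2 ^ w) (pv n T V L) F := rfl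

/-- vectors of a list of forms by completing the square, first form least significant -/
def vecC (p T w wb : ℕ) (Gs : List (ℕ × ℕ × ℕ)) (d : ℕ) (F : List (ℕ × ℕ × ℕ)) :
    (ℕ → Bool) → Bool :=
  @List.rec _ (fun _ => (ℕ → Bool) → Bool) (fun k => k (nat_lit 0))
    (fun x _ ih k => fvec p T w Gs d x.2.1 x.2.2 fun v _ _ =>
      ih fun r => k (Nat.add (Nat.shiftLeft r wb) v)) F

lemma vecC_spec {p T w wb : ℕ} (hw : 16 ≤ w) (hp : 0 < p) {ds : List ℕ} {d : ℕ}
    {F : List (ℕ × ℕ × ℕ)} {k : ℕ → Bool}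
    (h : vecC p T w wb (ds.map fun δ => (δ, gg p T w δ, gs p T δ)) d F k = true) :
    k (packL (2 ^ wb) (fun x => packL (2 ^ w) (vf p T d x.2.1 x.2.2) (PL p)) F) = true ∧
      ∀ x ∈ F, 2 * x.2.2 * ii p x.2.2 % p = 1 := by
  induction F generalizing k with
  | nil => exact ⟨h, by simp⟩
  | cons x F ih =>
    have h1 : fvec p T w (ds.map fun δ => (δ, gg p T w δ, gs p T δ)) d x.2.1 x.2.2 (fun v _ _ =>
      vecC p T w wb (ds.map fun δ => (δ, gg p T w δ, gs p T δ)) d F fun r =>
        k (Nat.add (Nat.shiftLeft r wb) v)) = true := h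
    obtain ⟨h2, h3⟩ := fvec_spec hw hp h1
    obtain ⟨h4, h5⟩ := ih h3
    refine ⟨?_, ?_⟩
    · rw [← h4]
      congr 1
      rw [packL_cons]
      change _ = _ <<< wb + _
      rw [Nat.shiftLeft_eq]
      ring
    · intro y hy
      rcases List.mem_cons.1 hy with rfl | hy
      · exact h2
      · exact h5 y hy

lemma red_eq {α : Type} {w w3 sh : ℕ} {a b : α → ℕ} {J : List α} (ha : ∀ j ∈ J, a j < 2 ^ w)
    (hb : ∀ j ∈ J, b j < 2 ^ w) :
    red w w3 sh J.length (rp (2 ^ w) a J) (rp (2 ^ w) b J) =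
      rp (2 ^ w3) (fun j => a j * b j / 2 ^ sh % 2 ^ w3) J := by
  induction J using List.reverseRecOn with
  | nil => rfl
  | append_singleton J x ih =>
    have hax := ha x (by simp)
    have hbx := hb x (by simp)
    have e1 : ∀ (V : ℕ) (f : α → ℕ), rp V f (J ++ [x]) = rp V f J * V + f x := by
      intro V f
      rw [rp_append, rp_cons]
      simp [rp]
    have e0 : ∀ (K A v : ℕ), red w w3 sh (K + 1) A v =
        (red w w3 sh K (A >>> w) (v >>> w)) <<< w3 +
          (((A % 2 ^ w) * (v % 2 ^ w)) >>> sh) % 2 ^ w3 := fun K A v => rfl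
    have hlen : (J ++ [x]).length = J.length + 1 := by simp
    rw [hlen, e0, e1, e1, e1]
    have hp : 0 < 2 ^ w := by positivity
    have s1 : (rp (2 ^ w) a J * 2 ^ w + a x) >>> w = rp (2 ^ w) a J := by
      rw [Nat.shiftRight_eq_div_pow, mul_comm, Nat.mul_add_div hp, Nat.div_eq_of_lt hax, add_zero]
    have s2 : (rp (2 ^ w) b J * 2 ^ w + b x) >>> w = rp (2 ^ w) b J := by
      rw [Nat.shiftRight_eq_div_pow, mul_comm, Nat.mul_add_div hp, Nat.div_eq_of_lt hbx, add_zero]
    have s3 : (rp (2 ^ w) a J * 2 ^ w + a x) % 2 ^ w = a x := by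
      rw [mul_comm, Nat.mul_add_mod, Nat.mod_eq_of_lt hax]
    have s4 : (rp (2 ^ w) b J * 2 ^ w + b x) % 2 ^ w = b x := by
      rw [mul_comm, Nat.mul_add_mod, Nat.mod_eq_of_lt hbx]
    rw [s1, s2, s3, s4, ih (fun j hj => ha j (by simp [hj])) (fun j hj => hb j (by simp [hj])),
      Nat.shiftLeft_eq, Nat.shiftRight_eq_div_pow]

end Pool.Agent.Lib_helper5.LK
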