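import Pool.Agent.Lib_helper5.LKMath

/-!
Tables of characters, representatives of the projective line and the vectors of values of a form.
-/

namespace Pool.Agent.Lib_helper5.LK

open Finset Pool.Agent.LibH4 Pool.Agent.LibH4.Ker Pool.Agent.LibH4.T6 Pool.Agent.LibH4.KF

/-- conjunction, kernel friendly -/
def andB (a b : Bool) : Bool := @Bool.rec (fun _ => Bool) false b a

lemma andB_spec {a b : Bool} (h : andB a b = true) : a = true ∧ b = true := by
  cases a
  · exact absurd h (by simp [andB])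
  · exact ⟨rfl, h⟩

lemma boolrec_spec {a b : Bool} (h : @Bool.rec (fun _ => Bool) false b a = true) :
    a = true ∧ b = true := andB_spec h

lemma chw_eq (T x : ℕ) : chw T x = T / 2 ^ (16 * x) % 2 ^ 16 := by
  unfold chw
  change (T >>> (16 * x)) % 65536 = _
  rw [Nat.shiftRight_eq_div_pow]
  norm_num

lemma chw_packR {f : ℕ → ℕ} (h : ∀ m, f m < 2 ^ 16) {n m : ℕ} (hm : m < n) :
    chw (packR (nat_lit 16) f n) m = f m := by
  rw [chw_eq]
  exact packR_digit (w := 16) h m hm

/-! ### tables -/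

/-- check of a table: bound, multiplicativity and support -/
def tabCk (n N T : ℕ) : Bool :=
  andB (allR (fun u => Nat.ble (Nat.succ (chw T u)) N) n)
  (andB (allR (fun u => allR (fun v => Nat.beq (Nat.mod (chw T (Nat.mod (Nat.mul u v) n)) N)
      (Nat.mod (Nat.mul (chw T u) (chw T v)) N)) n) n)
    (allR (fun u => @Bool.rec (fun _ => Bool) (Nat.beq (chw T u) (nat_lit 0)) true
      (Nat.beq (Nat.gcd u n) (nat_lit 1))) n))

/-- the character of a table -/
def tabc (n N T : ℕ) : ZMod n → ZMod N := fun x => ((chw T x.val : ℕ) : ZMod N)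

lemma tabCk_lt {n N T : ℕ} (h : tabCk n N T = true) : ∀ u < n, chw T u < N := by
  intro u hu
  have h1 := allR_spec (andB_spec h).1 u hu
  exact Nat.le_of_ble_eq_true h1

lemma tabCk_char {n N T : ℕ} [NeZero n] (h : tabCk n N T = true) : IsChar (tabc n N T) where
  mul x y := by
    have h1 := allR_spec (allR_spec (andB_spec (andB_spec h).2).1 x.val (ZMod.val_lt x))
      y.val (ZMod.val_lt y)
    have h2 : chw T (x.val * y.val % n) % N = chw T x.val * chw T y.val % N :=
      Nat.eq_of_beq_eq_true h1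
    have h3 := congrArg (fun x : ℕ => (x : ZMod N)) h2
    simp only [ZMod.natCast_mod] at h3
    unfold tabc
    rw [ZMod.val_mul, h3]
    push_cast
    rfl
  nu x hx := by
    have h1 := allR_spec (andB_spec (andB_spec h).2).2 x.val (ZMod.val_lt x)
    rw [← ZMod.natCast_zmod_val x, ZMod.isUnit_iff_coprime] at hx
    unfold tabc
    cases h3 : Nat.beq (Nat.gcd x.val n) (nat_lit 1) with
    | false =>
      rw [h3] at h1
      have : chw T x.val = 0 := Nat.eq_of_beq_eq_true h1
      rw [this]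
      simp
    | true => exact absurd (Nat.eq_of_beq_eq_true h3) hx

lemma tabc_natCast (n N T x : ℕ) : tabc n N T (x : ZMod n) = ((chw T (x % n) : ℕ) : ZMod N) := by
  unfold tabc
  rw [ZMod.val_natCast]

/-! ### representatives -/

/-- representatives of the projective line over `ZMod p` -/
def PL (p : ℕ) : List (ℕ × ℕ) := (List.range p).map (fun y => (1, y)) ++ [(0, 1)]

lemma PL_length (p : ℕ) : (PL p).length = p + 1 := by simp [PL]

lemma isP1_PL {p : ℕ} [NeZero p] (hp : p.Prime) : IsP1 p (PL p) := by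
  have key : ∀ n : ℕ, ∀ _ : NeZero n, n = p ^ 1 → IsP1 n (p1List p n) := by
    intro n _ h
    subst h
    exact isP1_prime_pow hp one_pos
  have h := key p inferInstance (pow_one p).symm
  have e : p1List p p = PL p := by
    unfold p1List PL
    rw [Nat.div_self hp.pos]
    simp
  rwa [e] at h

/-- the only representative for the modulus one -/
def PO : List (ℕ × ℕ) := [(0, 0)]

lemma isP1_PO : IsP1 1 PO := by
  intro K _ F hF
  have e : ∀ x : ZMod 1, x = 0 := fun x => Subsingleton.elim _ _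
  have h1 : ∀ f : ZMod 1 → K, ∑ x, f x = f 0 := by
    intro f
    rw [Fintype.sum_eq_single 0]
    intro x hx
    exact absurd (e x) hx
  have h2 : ∀ f : (ZMod 1)ˣ → K, ∑ x, f x = f 1 := by
    intro f
    rw [Fintype.sum_eq_single 1]
    intro x hx
    exact absurd (Subsingleton.elim _ _) hx
  rw [h1, h1]
  unfold PO
  rw [List.map_singleton, List.sum_singleton, h2]
  congr 1

lemma mem_PL {p : ℕ} {Q : ℕ × ℕ} (h : Q ∈ PL p) : (Q.1 = 1 ∧ Q.2 < p) ∨ Q = (0, 1) := by
  unfold PL at h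
  rcases List.mem_append.1 h with h | h
  · obtain ⟨y, hy, rfl⟩ := List.mem_map.1 h
    exact Or.inl ⟨rfl, List.mem_range.1 hy⟩
  · exact Or.inr (List.mem_singleton.1 h)


/-! explicit lists -/

/-- representatives of the projective line -/
def L5 : List (ℕ × ℕ) := [(nat_lit 1, nat_lit 0), (nat_lit 1, nat_lit 1), (nat_lit 1, nat_lit 2), (nat_lit 1, nat_lit 3), (nat_lit 1, nat_lit 4), (nat_lit 0, nat_lit 1)]

lemma L5_eq : L5 = PL 5 := by decide

/-- representatives of the projective line -/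
def L7 : List (ℕ × ℕ) := [(nat_lit 1, nat_lit 0), (nat_lit 1, nat_lit 1), (nat_lit 1, nat_lit 2), (nat_lit 1, nat_lit 3), (nat_lit 1, nat_lit 4), (nat_lit 1, nat_lit 5), (nat_lit 1, nat_lit 6), (nat_lit 0, nat_lit 1)]

lemma L7_eq : L7 = PL 7 := by decide

/-- representatives of the projective line -/
def L11 : List (ℕ × ℕ) := [(nat_lit 1, nat_lit 0), (nat_lit 1, nat_lit 1), (nat_lit 1, nat_lit 2), (nat_lit 1, nat_lit 3), (nat_lit 1, nat_lit 4), (nat_lit 1, nat_lit 5), (nat_lit 1, nat_lit 6), (nat_lit 1, nat_lit 7), (nat_lit 1, nat_lit 8), (nat_lit 1, nat_lit 9), (nat_lit 1, nat_lit 10), (nat_lit 0, nat_lit 1)]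

lemma L11_eq : L11 = PL 11 := by decide

/-- representatives of the projective line -/
def L13 : List (ℕ × ℕ) := [(nat_lit 1, nat_lit 0), (nat_lit 1, nat_lit 1), (nat_lit 1, nat_lit 2), (nat_lit 1, nat_lit 3), (nat_lit 1, nat_lit 4), (nat_lit 1, nat_lit 5), (nat_lit 1, nat_lit 6), (nat_lit 1, nat_lit 7), (nat_lit 1, nat_lit 8), (nat_lit 1, nat_lit 9), (nat_lit 1, nat_lit 10), (nat_lit 1, nat_lit 11), (nat_lit 1, nat_lit 12), (nat_lit 0, nat_lit 1)]

lemma L13_eq : L13 = PL 13 := by decide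

/-- representatives of the projective line -/
def L17 : List (ℕ × ℕ) := [(nat_lit 1, nat_lit 0), (nat_lit 1, nat_lit 1), (nat_lit 1, nat_lit 2), (nat_lit 1, nat_lit 3), (nat_lit 1, nat_lit 4), (nat_lit 1, nat_lit 5), (nat_lit 1, nat_lit 6), (nat_lit 1, nat_lit 7), (nat_lit 1, nat_lit 8), (nat_lit 1, nat_lit 9), (nat_lit 1, nat_lit 10), (nat_lit 1, nat_lit 11), (nat_lit 1, nat_lit 12), (nat_lit 1, nat_lit 13), (nat_lit 1, nat_lit 14), (nat_lit 1, nat_lit 15), (nat_lit 1, nat_lit 16), (nat_lit 0, nat_lit 1)]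

lemma L17_eq : L17 = PL 17 := by decide

/-- representatives of the projective line -/
def L19 : List (ℕ × ℕ) := [(nat_lit 1, nat_lit 0), (nat_lit 1, nat_lit 1), (nat_lit 1, nat_lit 2), (nat_lit 1, nat_lit 3), (nat_lit 1, nat_lit 4), (nat_lit 1, nat_lit 5), (nat_lit 1, nat_lit 6), (nat_lit 1, nat_lit 7), (nat_lit 1, nat_lit 8), (nat_lit 1, nat_lit 9), (nat_lit 1, nat_lit 10), (nat_lit 1, nat_lit 11), (nat_lit 1, nat_lit 12), (nat_lit 1, nat_lit 13), (nat_lit 1, nat_lit 14), (nat_lit 1, nat_lit 15), (nat_lit 1, nat_lit 16), (nat_lit 1, nat_lit 17), (nat_lit 1, nat_lit 18), (nat_lit 0, nat_lit 1)]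

lemma L19_eq : L19 = PL 19 := by decide

/-! ### the outer component -/

lemma packR_eq (w : ℕ) (f : ℕ → ℕ) (n : ℕ) : packR w f n = packL (2 ^ w) f (List.range n) := by
  induction n with
  | zero => rfl
  | succ n ih =>
    rw [packR_succ, List.range_succ, packL_append, ih, List.length_range, packL_cons, packL_nil,
      mul_zero, add_zero, ← pow_mul]
    ring

/-- the base function -/
def gz0 (p T δ z : ℕ) : ℕ := chw T ((z * z + (p - δ)) % p)

lemma gg_eq (p T w δ : ℕ) : gg p T w δ = packL (2 ^ w) (gz0 p T δ) (List.range (2 * p)) := by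
  have : gg p T w δ = packR w (gz0 p T δ) (2 * p) := rfl
  rw [this, packR_eq]

lemma gs_eq (p T δ : ℕ) : gs p T δ = ∑ z ∈ range p, gz0 p T δ z := by
  have : gs p T δ = sumR (gz0 p T δ) p := rfl
  rw [this, sumR_eq]

lemma ggl_eq {β : Type} (p T w : ℕ) (L : List ℕ) (k : List (ℕ × ℕ × ℕ) → β) :
    ggl p T w L k = k (L.map fun δ => (δ, gg p T w δ, gs p T δ)) := by
  induction L generalizing k with
  | nil => rfl
  | cons δ L ih =>
    have : ggl p T w (δ :: L) k = strict (gg p T w δ) fun G => strict (gs p T δ) fun g =>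
      ggl p T w L fun rest => k ((δ, G, g) :: rest) := rfl
    rw [this, strict_eq, strict_eq, ih]
    rfl

lemma look_spec {δ : ℕ} {L : List (ℕ × ℕ × ℕ)} {k : ℕ → ℕ → Bool} (h : look δ L k = true) :
    ∃ x ∈ L, x.1 = δ ∧ k x.2.1 x.2.2 = true := by
  induction L with
  | nil => exact absurd h (by simp [look])
  | cons x L ih =>
    have h' : @Bool.rec (fun _ => Bool) (look δ L k) (k x.2.1 x.2.2) (Nat.beq x.1 δ) = true := h
    cases hb : Nat.beq x.1 δ with
    | false =>
      rw [hb] at h'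
      obtain ⟨y, hy, h1⟩ := ih h'
      exact ⟨y, by simp [hy], h1⟩
    | true =>
      rw [hb] at h'
      exact ⟨x, by simp, Nat.eq_of_beq_eq_true hb, h'⟩

/-- inverse of `2 S` -/
def ii (p S : ℕ) : ℕ := (2 * S) ^ (p - 2) % p
/-- the shift -/
def hh (p R S : ℕ) : ℕ := R * ii p S % p
/-- the normalised discriminant -/
def dd (p d S : ℕ) : ℕ := d * (ii p S * ii p S) % p

/-- the values of a form on the representatives -/
def vf (p T d R S : ℕ) (Q : ℕ × ℕ) : ℕ :=
  chw T S * (if Q.1 = 0 then 1 else gz0 p T (dd p d S) (hh p R S + Q.2))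
/-- the sum of the values on the finite part -/
def gf (p T d S : ℕ) : ℕ := chw T S * gs p T (dd p d S)

lemma fvec_spec {p T w : ℕ} {ds : List ℕ} {d R S : ℕ} {k : ℕ → ℕ → ℕ → Bool}
    (hw : 16 ≤ w) (hp : 0 < p)
    (h : fvec p T w (ds.map fun δ => (δ, gg p T w δ, gs p T δ)) d R S k = true) :
    2 * S * ii p S % p = 1 ∧
      k (packL (2 ^ w) (vf p T d R S) (PL p)) (gf p T d S) (chw T S) = true := by
  unfold fvec at h
  rw [strict_eq] at h
  obtain ⟨h1, h2⟩ := boolrec_spec h
  have h1' : 2 * S * ii p S % p = 1 := Nat.eq_of_beq_eq_true h1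
  refine ⟨h1', ?_⟩
  rw [strict_eq] at h2
  obtain ⟨x, hx, hx1, h3⟩ := look_spec h2
  obtain ⟨δ, _, rfl⟩ := List.mem_map.1 hx
  rw [strict_eq, strict_eq] at h3
  have hδ : δ = dd p d S := hx1
  have h4 : k (chw T S * (Nat.shiftRight (gg p T w δ) (w * hh p R S) % 2 ^ (w * p) +
      2 ^ (w * p))) (chw T S * gs p T δ) (chw T S) = true := h3
  have hh' : hh p R S < p := Nat.mod_lt _ hp
  have e : Nat.shiftRight (gg p T w δ) (w * hh p R S) % 2 ^ (w * p) =
      packL (2 ^ w) (fun i => gz0 p T δ (hh p R S + i)) (List.range p) := by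
    change (gg p T w δ) >>> (w * hh p R S) % 2 ^ (w * p) = _
    rw [Nat.shiftRight_eq_div_pow, gg_eq, pow_mul, pow_mul]
    apply packL_window
    · intro i
      unfold gz0
      rw [chw_eq]
      exact (Nat.mod_lt _ (by norm_num)).trans_le (Nat.pow_le_pow_right (by norm_num) hw)
    · omega
  rw [e] at h4
  have e2 : chw T S * (packL (2 ^ w) (fun i => gz0 p T δ (hh p R S + i)) (List.range p) +
      2 ^ (w * p)) = packL (2 ^ w) (vf p T d R S) (PL p) := by
    have e3 : packL (2 ^ w) (vf p T d R S) (PL p) = chw T S * packL (2 ^ w) (fun Q : ℕ × ℕ =>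
        if Q.1 = 0 then 1 else gz0 p T δ (hh p R S + Q.2)) (PL p) := by
      rw [← packL_mul]
      subst hδ
      rfl
    rw [e3]
    congr 1
    unfold PL
    rw [packL_append, packL_map, packL_cons, packL_nil]
    simp [pow_mul]
  rw [e2] at h4
  unfold gf
  rw [← hδ]
  exact h4

section Cast

variable {p N T : ℕ} [NeZero p] {d R S : ℕ} {P' R' S' : ℤ}

omit [NeZero p] in
lemma gz0_cast (δ z : ℕ) (hδ : δ ≤ p) : ((gz0 p T δ z : ℕ) : ZMod N) =
    tabc p N T ((z : ZMod p) ^ 2 - (δ : ZMod p)) := by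
  have e : ((z : ZMod p) ^ 2 - (δ : ZMod p)) = ((z * z + (p - δ) : ℕ) : ZMod p) := by
    rw [Nat.cast_add, Nat.cast_sub hδ]
    push_cast
    simp
    ring
  rw [e, tabc_natCast]
  rfl

omit [NeZero p] in
/-- the algebraic identity -/
lemma complete_sq (hR : (R : ZMod p) = R') (hS : (S : ZMod p) = S')
    (hd : (d : ZMod p) = R' ^ 2 - 4 * P' * S') (hi : 2 * S * ii p S % p = 1) (y : ZMod p) :
    fz p P' R' S' 1 y = (S : ZMod p) * (((hh p R S : ℕ) + y) ^ 2 - (dd p d S : ℕ)) := by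
  have hi' : 2 * (S : ZMod p) * (ii p S : ℕ) = 1 := by
    have := congrArg (fun x : ℕ => (x : ZMod p)) hi
    simp only [ZMod.natCast_mod] at this
    push_cast at this
    exact this
  unfold fz hh dd
  rw [ZMod.natCast_mod, ZMod.natCast_mod]
  push_cast
  rw [← hR, ← hS] at hd ⊢
  rw [hd]
  set i : ZMod p := (ii p S : ZMod p) with hi0
  have e : (P' : ZMod p) = (P' : ZMod p) * (2 * S * i) * (2 * S * i) := by
    rw [hi']; ring
  have e2 : (R : ZMod p) * y = R * (2 * S * i) * y := by rw [hi']; ring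
  linear_combination e + e2

lemma vf_cast (hT : IsChar (tabc p N T)) (hR : (R : ZMod p) = R') (hS : (S : ZMod p) = S')
    (hSp : S < p) (hd : (d : ZMod p) = R' ^ 2 - 4 * P' * S') (hi : 2 * S * ii p S % p = 1)
    {Q : ℕ × ℕ} (hQ : Q ∈ PL p) :
    ((vf p T d R S Q : ℕ) : ZMod N) = tabc p N T (fz p P' R' S' (Q.1 : ZMod p) (Q.2 : ZMod p)) := by
  have hpos : 0 < p := Nat.pos_of_ne_zero (NeZero.ne p)
  have hSc : ((chw T S : ℕ) : ZMod N) = tabc p N T (S : ZMod p) := by
    rw [tabc_natCast, Nat.mod_eq_of_lt hSp]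
  rcases mem_PL hQ with ⟨h1, _⟩ | rfl
  · unfold vf
    rw [h1, if_neg one_ne_zero, Nat.cast_mul, hSc,
      gz0_cast (dd p d S) _ (Nat.mod_lt _ hpos).le, ← hT.mul, Nat.cast_one,
      complete_sq hR hS hd hi]
    push_cast
    rfl
  · unfold vf
    rw [if_pos rfl, mul_one, hSc]
    congr 1
    unfold fz
    rw [hS]
    push_cast
    ring

lemma gf_cast (hT : IsChar (tabc p N T)) (hR : (R : ZMod p) = R') (hS : (S : ZMod p) = S')
    (hSp : S < p) (hd : (d : ZMod p) = R' ^ 2 - 4 * P' * S') (hi : 2 * S * ii p S % p = 1) :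
    ((gf p T d S : ℕ) : ZMod N) = ∑ y : ZMod p, tabc p N T (fz p P' R' S' 1 y) := by
  have hpos : 0 < p := Nat.pos_of_ne_zero (NeZero.ne p)
  have hSc : ((chw T S : ℕ) : ZMod N) = tabc p N T (S : ZMod p) := by
    rw [tabc_natCast, Nat.mod_eq_of_lt hSp]
  unfold gf
  rw [gs_eq, Nat.cast_mul, hSc, Nat.cast_sum]
  have e1 : ∑ z ∈ range p, ((gz0 p T (dd p d S) z : ℕ) : ZMod N) =
      ∑ z : ZMod p, tabc p N T (z ^ 2 - (dd p d S : ℕ)) := by
    refine Finset.sum_nbij' (fun r => (r : ZMod p)) (fun z => z.val) ?_ ?_ ?_ ?_ ?_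
    · intro r _; exact mem_univ _
    · intro z _; exact mem_range.mpr (ZMod.val_lt z)
    · intro r hr; exact ZMod.val_cast_of_lt (mem_range.mp hr)
    · intro z _; exact ZMod.natCast_zmod_val z
    · intro r _
      exact gz0_cast (dd p d S) _ (Nat.mod_lt _ hpos).le
  rw [e1, ← Equiv.sum_comp (Equiv.addLeft ((hh p R S : ℕ) : ZMod p)), Finset.mul_sum]
  apply Finset.sum_congr rfl
  intro y _
  rw [complete_sq hR hS hd hi, ← hT.mul]
  rfl

end Cast

end Pool.Agent.Lib_helper5.LK
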