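import Pool.Agent.Lib_helper5.LKSpec

/-!
The values computed by the kernel functions.
-/

namespace Pool.Agent.Lib_helper5.LK

open Finset Pool.Agent.LibH4 Pool.Agent.LibH4.Ker Pool.Agent.LibH4.T6 Pool.Agent.LibH4.KF

/-- weights of the second sum -/
def ew (n1 n2 n3 e1 e2 e3 N T1 T2 T3 c : ℕ) (Q R : ℕ × ℕ) : ℕ :=
  ev (n1 * n2 * n3) N (csqT n1 n2 n3 N T1 T2 T3) (pat e1 e2 e3 (n1 * n2 * n3) c Q.1 R.1)

/-- entries of the rows -/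
def arow (n1 n2 n3 e1 e2 e3 N T1 T2 T3 d : ℕ) (x y : (ℕ × ℕ) × (ℕ × ℕ)) : ℕ :=
  x.2.1 * ((PL n1).map fun P => wv (n1 * n2 * n3) N (csqT n1 n2 n3 N T1 T2 T3) e1 e2 e3 P y.1 y.2 *
    vf n1 T1 d x.1.1 x.1.2 P).sum +
  x.2.2 * (gf n1 T1 d x.1.2 * ew n1 n2 n3 e1 e2 e3 N T1 T2 T3 1 y.1 y.2 +
    chw T1 x.1.2 * ew n1 n2 n3 e1 e2 e3 N T1 T2 T3 0 y.1 y.2)

/-- a bound for the entries of the rows -/
def BA (n1 N l : ℕ) : ℕ := (6 + l) * ((n1 + 1) * (N * (N * N)))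

/-! ### bounds -/

lemma sum_le_of {α : Type} {f : α → ℕ} {c : ℕ} {L : List α} (h : ∀ x ∈ L, f x ≤ c) :
    (L.map f).sum ≤ L.length * c := by
  induction L with
  | nil => simp
  | cons x L ih =>
    rw [List.map_cons, List.sum_cons, List.length_cons, add_mul, one_mul, add_comm]
    exact Nat.add_le_add (ih fun y hy => h y (by simp [hy])) (h x (by simp))

lemma gz0_lt {p N T δ : ℕ} (hp : 0 < p) (ht : ∀ u < p, chw T u < N) (z : ℕ) :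
    gz0 p T δ z < N := ht _ (Nat.mod_lt _ hp)

lemma vf_le {p N T d R S : ℕ} (hp : 0 < p) (hN : 0 < N) (ht : ∀ u < p, chw T u < N) (hS : S < p)
    (Q : ℕ × ℕ) : vf p T d R S Q ≤ N * N := by
  unfold vf
  apply Nat.mul_le_mul (ht S hS).le
  split_ifs
  · exact hN
  · exact (gz0_lt hp ht _).le

lemma gf_le {p N T d S : ℕ} (hp : 0 < p) (ht : ∀ u < p, chw T u < N) (hS : S < p) :
    gf p T d S ≤ N * (p * N) := by
  unfold gf
  apply Nat.mul_le_mul (ht S hS).le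
  rw [gs_eq]
  calc ∑ z ∈ range p, gz0 p T (dd p d S) z ≤ ∑ _z ∈ range p, N :=
        Finset.sum_le_sum fun z _ => (gz0_lt hp ht _).le
    _ = p * N := by simp

lemma wv_le {q N CT e1 e2 e3 : ℕ} (hN : 0 < N) (P Q R : ℕ × ℕ) :
    wv q N CT e1 e2 e3 P Q R ≤ N := by
  unfold wv
  split_ifs
  · exact Nat.zero_le _
  · exact (Nat.mod_lt _ hN).le

section Val

variable {n1 n2 n3 e1 e2 e3 N l fr T1 T2 T3 : ℕ} {L2 L3 : List (ℕ × ℕ)} {w3 w W Y1 Y0 : ℕ}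

lemma ew_le (hN : 0 < N) (c : ℕ) (Q R : ℕ × ℕ) :
    ew n1 n2 n3 e1 e2 e3 N T1 T2 T3 c Q R ≤ N := by
  unfold ew
  rw [ev_eq]
  exact (Nat.mod_lt _ hN).le

lemma arow_le (hN : 0 < N) (h1 : 0 < n1) (ht : ∀ u < n1, chw T1 u < N) {d : ℕ}
    {x : (ℕ × ℕ) × (ℕ × ℕ)} (hκ : x.2.1 ≤ 6) (hα : x.2.2 ≤ l) (hS : x.1.2 < n1)
    (y : (ℕ × ℕ) × (ℕ × ℕ)) :
    arow n1 n2 n3 e1 e2 e3 N T1 T2 T3 d x y ≤ BA n1 N l := by
  unfold arow BA
  have b1 : ((PL n1).map fun P => wv (n1 * n2 * n3) N (csqT n1 n2 n3 N T1 T2 T3) e1 e2 e3 P y.1 y.2 *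
      vf n1 T1 d x.1.1 x.1.2 P).sum ≤ (n1 + 1) * (N * (N * N)) := by
    have := sum_le_of (f := fun P => wv (n1 * n2 * n3) N (csqT n1 n2 n3 N T1 T2 T3) e1 e2 e3 P
      y.1 y.2 * vf n1 T1 d x.1.1 x.1.2 P) (c := N * (N * N)) (L := PL n1)
      (fun P _ => Nat.mul_le_mul (wv_le hN _ _ _) (vf_le h1 hN ht hS P))
    rwa [PL_length] at this
  have b2 : gf n1 T1 d x.1.2 * ew n1 n2 n3 e1 e2 e3 N T1 T2 T3 1 y.1 y.2 +
      chw T1 x.1.2 * ew n1 n2 n3 e1 e2 e3 N T1 T2 T3 0 y.1 y.2 ≤ (n1 + 1) * (N * (N * N)) := by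
    have c1 := Nat.mul_le_mul (gf_le h1 ht hS (d := d))
      (ew_le (n1 := n1) (n2 := n2) (n3 := n3) (e1 := e1) (e2 := e2) (e3 := e3) (T1 := T1) (T2 := T2)
        (T3 := T3) hN 1 y.1 y.2)
    have c2 := Nat.mul_le_mul (ht _ hS).le
      (ew_le (n1 := n1) (n2 := n2) (n3 := n3) (e1 := e1) (e2 := e2) (e3 := e3) (T1 := T1) (T2 := T2)
        (T3 := T3) hN 0 y.1 y.2)
    have c3 : N * N ≤ N * (N * N) := Nat.mul_le_mul_left _ (Nat.le_mul_of_pos_left N hN)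
    calc _ ≤ N * (n1 * N) * N + N * N := Nat.add_le_add c1 c2
      _ ≤ N * (n1 * N) * N + N * (N * N) := Nat.add_le_add_left c3 _
      _ = _ := by ring
  calc _ ≤ 6 * ((n1 + 1) * (N * (N * N))) + l * ((n1 + 1) * (N * (N * N))) :=
        Nat.add_le_add (Nat.mul_le_mul hκ b1) (Nat.mul_le_mul hα b2)
    _ = _ := by ring

lemma rowX_eq (WS : WSpec n1 n2 n3 e1 e2 e3 N l fr T1 T2 T3 (PL n1) L2 L3 w3 w W Y1 Y0)
    (hw3 : w3 = 80 * L3.length) (hw : w = w3 * L2.length) (hN : 0 < N) (h1 : 0 < n1)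
    (ht : ∀ u < n1, chw T1 u < N) (hb : (n1 + 1) * (N * (N * N)) < 2 ^ 80) {d : ℕ}
    {x : (ℕ × ℕ) × (ℕ × ℕ)} (hS : x.1.2 < n1) :
    rowX n1 T1 w W Y1 Y0 d x =
      rp (2 ^ 80) (arow n1 n2 n3 e1 e2 e3 N T1 T2 T3 d x) (L2 ×ˢ L3) := by
  have hw' : (2 : ℕ) ^ w = (2 ^ 80) ^ (L2 ×ˢ L3).length := by
    rw [hw, hw3, List.length_product, ← pow_mul]
    congr 1
    ring
  have hw3' : (2 : ℕ) ^ w3 = (2 ^ 80) ^ L3.length := by rw [hw3, ← pow_mul]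
  have fl : ∀ f : ℕ × ℕ → ℕ × ℕ → ℕ, rp (2 ^ w3) (fun Q => rp (2 ^ 80) (f Q) L3) L2 =
      rp (2 ^ 80) (fun y : (ℕ × ℕ) × (ℕ × ℕ) => f y.1 y.2) (L2 ×ˢ L3) := by
    intro f
    rw [hw3', rp_flat]
  unfold rowX arow
  have eW := WS.hW
  simp only [fl] at eW
  have e1' := WS.h1
  rw [fl] at e1'
  have e0' := WS.h0
  rw [fl] at e0'
  have key := blk (V := 2 ^ 80) (C := N) (D := N * N)
    (a := fun P (y : (ℕ × ℕ) × (ℕ × ℕ)) => wv (n1 * n2 * n3) N (csqT n1 n2 n3 N T1 T2 T3) e1 e2 e3 P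
      y.1 y.2) (b := vf n1 T1 d x.1.1 x.1.2) (L := PL n1) (M := L2 ×ˢ L3) (by simp [PL])
    (fun _ _ _ _ => wv_le hN _ _ _) (fun P _ => vf_le h1 hN ht hS P)
    (by rw [PL_length]; exact hb)
  rw [PL_length, Nat.add_sub_cancel] at key
  rw [pow_mul, hw', eW, hw', key, e1', e0']
  rw [rp_add, rp_mul, rp_mul, rp_add, rp_mul, rp_mul]
  rfl

/-- contraction with the middle component -/
def brow (n1 n2 n3 e1 e2 e3 N T1 T2 T3 d : ℕ) (L2 : List (ℕ × ℕ)) (x : (ℕ × ℕ) × (ℕ × ℕ))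
    (u2 : ℕ × ℕ → ℕ) (R : ℕ × ℕ) : ℕ :=
  (L2.map fun Q => arow n1 n2 n3 e1 e2 e3 N T1 T2 T3 d x (Q, R) * u2 Q).sum

lemma brow_le (hN : 0 < N) (h1 : 0 < n1) (ht : ∀ u < n1, chw T1 u < N) {d : ℕ}
    {x : (ℕ × ℕ) × (ℕ × ℕ)} (hκ : x.2.1 ≤ 6) (hα : x.2.2 ≤ l) (hS : x.1.2 < n1)
    {u2 : ℕ × ℕ → ℕ} {D2 : ℕ} (hu : ∀ Q ∈ L2, u2 Q ≤ D2) (R : ℕ × ℕ) :
    brow n1 n2 n3 e1 e2 e3 N T1 T2 T3 d L2 x u2 R ≤ L2.length * (BA n1 N l * D2) := by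
  unfold brow
  apply sum_le_of
  intro Q hQ
  exact Nat.mul_le_mul (arow_le hN h1 ht hκ hα hS _) (hu Q hQ)

lemma red_row (hw3 : w3 = 80 * L3.length) (hw : w = w3 * L2.length) (hN : 0 < N) (h1 : 0 < n1)
    (ht : ∀ u < n1, chw T1 u < N) {d : ℕ} (hL2 : L2 ≠ []) (hL3 : L3 ≠ []) {J : List Fm}
    {x : Fm → (ℕ × ℕ) × (ℕ × ℕ)}
    (hκ : ∀ j ∈ J, (x j).2.1 ≤ 6) (hα : ∀ j ∈ J, (x j).2.2 ≤ l) (hS : ∀ j ∈ J, (x j).1.2 < n1)
    {u2 : Fm → ℕ × ℕ → ℕ} {D2 : ℕ} (hu : ∀ j ∈ J, ∀ Q ∈ L2, u2 j Q ≤ D2) (hD : 0 < D2)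
    (hb : L2.length * (BA n1 N l * D2) < 2 ^ 80) {sh : ℕ} (hsh : sh = w3 * (L2.length - 1)) :
    red w w3 sh J.length
      (rp (2 ^ w) (fun j => rp (2 ^ 80) (arow n1 n2 n3 e1 e2 e3 N T1 T2 T3 d (x j)) (L2 ×ˢ L3)) J)
      (rp (2 ^ w) (fun j => packL (2 ^ w3) (u2 j) L2) J) =
    rp (2 ^ w3) (fun j => rp (2 ^ 80) (brow n1 n2 n3 e1 e2 e3 N T1 T2 T3 d L2 (x j) (u2 j)) L3) J := by
  have hw' : (2 : ℕ) ^ w = (2 ^ 80) ^ (L2 ×ˢ L3).length := by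
    rw [hw, hw3, List.length_product, ← pow_mul]
    congr 1
    ring
  have hw3' : (2 : ℕ) ^ w3 = (2 ^ 80) ^ L3.length := by rw [hw3, ← pow_mul]
  have hw2 : (2 : ℕ) ^ w = (2 ^ w3) ^ L2.length := by rw [hw, ← pow_mul]
  have hl2 : 1 ≤ L2.length := List.length_pos_of_ne_nil hL2
  have hBA : 0 < BA n1 N l := by unfold BA; positivity
  have b1 : BA n1 N l < 2 ^ 80 := by
    refine lt_of_le_of_lt ?_ hb
    calc BA n1 N l = 1 * (BA n1 N l * 1) := by ring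
      _ ≤ _ := Nat.mul_le_mul hl2 (Nat.mul_le_mul_left _ hD)
  have b2 : D2 < 2 ^ w3 := by
    have : D2 < 2 ^ 80 := by
      refine lt_of_le_of_lt ?_ hb
      calc D2 = 1 * (1 * D2) := by ring
        _ ≤ _ := Nat.mul_le_mul hl2 (Nat.mul_le_mul_right _ hBA)
    refine lt_of_lt_of_le this ?_
    apply Nat.pow_le_pow_right (by norm_num)
    rw [hw3]
    have := List.length_pos_of_ne_nil hL3
    omega
  rw [red_eq]
  · apply rp_congr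
    intro j hj
    have e1 : rp (2 ^ 80) (arow n1 n2 n3 e1 e2 e3 N T1 T2 T3 d (x j)) (L2 ×ˢ L3) =
        rp ((2 ^ 80) ^ L3.length) (fun Q => rp (2 ^ 80) (fun R =>
          arow n1 n2 n3 e1 e2 e3 N T1 T2 T3 d (x j) (Q, R)) L3) L2 := by
      rw [rp_flat]
    rw [e1, hsh, pow_mul, hw3']
    exact blk (V := 2 ^ 80) (C := BA n1 N l) (D := D2) (L := L2) (M := L3) hL2
      (fun Q _ R _ => arow_le hN h1 ht (hκ j hj) (hα j hj) (hS j hj) _) (hu j hj) hb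
  · intro j hj
    rw [hw']
    apply rp_lt
    intro y _
    exact lt_of_le_of_lt (arow_le hN h1 ht (hκ j hj) (hα j hj) (hS j hj) _) b1
  · intro j hj
    rw [hw2]
    apply packL_lt
    intro Q hQ
    exact lt_of_le_of_lt (hu j hj Q hQ) b2

lemma ip_fin {J : List Fm} {b u : Fm → ℕ × ℕ → ℕ} {C D : ℕ} (hJ : J ≠ []) (hL3 : L3 ≠ [])
    (hb : ∀ j ∈ J, ∀ R ∈ L3, b j R ≤ C) (hu : ∀ j ∈ J, ∀ R ∈ L3, u j R ≤ D)
    (hB : J.length * L3.length * (C * D) < 2 ^ 80) (hw3 : w3 = 80 * L3.length) {sh : ℕ}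
    (hsh : sh = 80 * (J.length * L3.length - 1)) :
    ip N sh (rp (2 ^ w3) (fun j => rp (2 ^ 80) (b j) L3) J)
      (packL (2 ^ w3) (fun j => packL (2 ^ 80) (u j) L3) J) =
    (J.map fun j => (L3.map fun R => b j R * u j R).sum).sum % N := by
  have hw3' : (2 : ℕ) ^ w3 = (2 ^ 80) ^ L3.length := by rw [hw3, ← pow_mul]
  have h80 : (1208925819614629174706176 : ℕ) = 2 ^ 80 := by norm_num
  have e : ∀ A v : ℕ, ip N sh A v = (A * v) >>> sh % 1208925819614629174706176 % N := fun _ _ => rfl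
  have hne : J ×ˢ L3 ≠ [] := by
    intro h
    have := congrArg List.length h
    rw [List.length_product] at this
    have h1 := List.length_pos_of_ne_nil hJ
    have h2 := List.length_pos_of_ne_nil hL3
    have h3 : 0 < J.length * L3.length := Nat.mul_pos h1 h2
    simp at this
    rcases this with h | h
    · exact hJ h
    · exact hL3 h
  have key := ip_eq (V := 2 ^ 80) (A := C) (B := D) (a := fun y : Fm × (ℕ × ℕ) => b y.1 y.2)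
    (b := fun y => u y.1 y.2) (L := J ×ˢ L3) hne
    (fun y hy => hb _ (List.mem_product.1 hy).1 _ (List.mem_product.1 hy).2)
    (fun y hy => hu _ (List.mem_product.1 hy).1 _ (List.mem_product.1 hy).2)
    (by rw [List.length_product]; exact hB)
  rw [List.length_product] at key
  rw [e, hw3', rp_flat, packL_flat, hsh, Nat.shiftRight_eq_div_pow, pow_mul, h80, key,
    sum_flat (fun j R => b j R * u j R)]

end Val

/-! ### casts -/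

section Cast

variable {n1 n2 n3 e1 e2 e3 N l fr T1 T2 T3 : ℕ} {L2 L3 : List (ℕ × ℕ)} {w3 w W Y1 Y0 : ℕ}
  [NeZero n1] [NeZero n2] [NeZero n3] [NeZero (n1 * n2)] [NeZero (n1 * n2 * n3)]

omit [NeZero n1] [NeZero n2] [NeZero n3] [NeZero (n1 * n2)] in
lemma wv_cast (hN : 2 ≤ N) (hN16 : N ≤ 2 ^ 16)
    (hc : IsChar (tri (tabc n1 N T1) (tabc n2 N T2) (tabc n3 N T3))) (P Q R : ℕ × ℕ) :
    ((wv (n1 * n2 * n3) N (csqT n1 n2 n3 N T1 T2 T3) e1 e2 e3 P Q R : ℕ) : ZMod N) =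
      DZ (tri (tabc n1 N T1) (tabc n2 N T2) (tabc n3 N T3))
        ((P.1 * e1 + (Q.1 * e2 + R.1 * e3) : ℕ) : ZMod (n1 * n2 * n3))
        ((P.2 * e1 + (Q.2 * e2 + R.2 * e3) : ℕ) : ZMod (n1 * n2 * n3)) := by
  have hq : 0 < n1 * n2 * n3 := Nat.pos_of_ne_zero (NeZero.ne _)
  unfold wv
  split_ifs with h
  · have h0 : ((P.2 * e1 + (Q.2 * e2 + R.2 * e3) : ℕ) : ZMod (n1 * n2 * n3)) = 0 := by
      rw [ZMod.natCast_eq_zero_iff]
      exact Nat.dvd_of_mod_eq_zero h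
    rw [h0]
    unfold DZ
    symm
    rw [Nat.cast_zero]
    apply Finset.sum_eq_zero
    intro z _
    have : bz (n1 * n2 * n3) N (z * 0) = 0 := by
      unfold bz bI
      simp
    rw [this]
    ring
  · rw [ZMod.natCast_mod, lane_cast hN hN16 hc _ (Nat.pos_of_ne_zero h) (Nat.mod_lt _ hq)]
    unfold pat
    rw [ZMod.natCast_mod, ZMod.natCast_mod]

omit [NeZero n1] [NeZero n2] [NeZero n3] [NeZero (n1 * n2)] in
lemma ew_cast (hN : 0 < N) (hN16 : N ≤ 2 ^ 16) (c : ℕ) (Q R : ℕ × ℕ) :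
    ((ew n1 n2 n3 e1 e2 e3 N T1 T2 T3 c Q R : ℕ) : ZMod N) =
      EZ (tri (tabc n1 N T1) (tabc n2 N T2) (tabc n3 N T3))
        ((c * e1 + (Q.1 * e2 + R.1 * e3) : ℕ) : ZMod (n1 * n2 * n3)) := by
  unfold ew
  rw [ev_cast hN hN16]
  unfold pat
  rw [ZMod.natCast_mod]

end Cast

end Pool.Agent.Lib_helper5.LK
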