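import Pool.Agent.Lib_helper5.LKTab

/-!
Meaning of the packed weights.
-/

namespace Pool.Agent.Lib_helper5.LK

open Finset Pool.Agent.LibH4 Pool.Agent.LibH4.Ker Pool.Agent.LibH4.T6 Pool.Agent.LibH4.KF

/-! ### the vectors -/

/-- coefficient -/
def co (q N CT X u : ℕ) : ℕ := chw CT u * bzn q N (u * X % q) % N

/-- the weight before reduction -/
def lane (q N CT X Y : ℕ) : ℕ :=
  q * (∑ u ∈ range q, co q N CT X u) +
    (N - 2) * ∑ u ∈ range q, co q N CT X u * (u * Y % q)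

lemma dvt_eq (q N cc CT Yv Mk X u : ℕ) (k : ℕ → ℕ → ℕ → ℕ) (fl s0 s1 : ℕ) :
    dvt q N cc CT Yv Mk X u k fl s0 s1 =
      k (fl + co q N CT X u * Nat.land (Nat.shiftRight (u * cc * Yv) 40) Mk)
        (s0 + co q N CT X u) (s1 + co q N CT X u * u) := by
  unfold dvt co
  cases chw CT u with
  | zero => simp
  | succ c =>
    change strict _ _ = _
    rw [strict_eq, strict_eq, strict_eq, strict_eq]
    rfl

lemma dvl_eq (q N cc CT Yv Mk X : ℕ) (k : ℕ → ℕ → ℕ → ℕ) (n fl s0 s1 : ℕ) :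
    dvl q N cc CT Yv Mk X k n fl s0 s1 =
      k (fl + ∑ u ∈ range n, co q N CT X u * Nat.land (Nat.shiftRight (u * cc * Yv) 40) Mk)
        (s0 + ∑ u ∈ range n, co q N CT X u) (s1 + ∑ u ∈ range n, co q N CT X u * u) := by
  induction n generalizing fl s0 s1 with
  | zero => simp [dvl]
  | succ n ih =>
    have e : dvl q N cc CT Yv Mk X k (n + 1) fl s0 s1 =
      dvt q N cc CT Yv Mk X n (dvl q N cc CT Yv Mk X k n) fl s0 s1 := rfl
    rw [e, dvt_eq, ih, sum_range_succ, sum_range_succ, sum_range_succ]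
    congr 1 <;> ring

lemma floor_exact {q n c : ℕ} (hq : 0 < q) (h1 : 2 ^ 40 ≤ c * q) (h2 : c * q ≤ 2 ^ 40 + q)
    (hc : q * q < c) (hn : n < q * q) : n * c / 2 ^ 40 = n / q := by
  set a := n / q with ha
  set b := n % q with hb
  have hab : n = q * a + b := (Nat.div_add_mod n q).symm
  have hbq : b < q := Nat.mod_lt _ hq
  have haq : a < q := by
    rw [ha, Nat.div_lt_iff_lt_mul hq]; exact hn
  obtain ⟨e, he⟩ := Nat.exists_eq_add_of_le h1
  have he2 : e ≤ q := by omega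
  have hmul : n * c = a * 2 ^ 40 + (a * e + b * c) := by
    rw [hab]
    calc (q * a + b) * c = a * (c * q) + b * c := by ring
      _ = _ := by rw [he]; ring
  have hlt : a * e + b * c < 2 ^ 40 := by
    have h3 : b * c + c ≤ c * q := by
      calc b * c + c = (b + 1) * c := by ring
        _ ≤ q * c := Nat.mul_le_mul_right _ hbq
        _ = c * q := by ring
    have h4 : a * e + e ≤ q * q := by
      calc a * e + e = (a + 1) * e := by ring
        _ ≤ q * q := Nat.mul_le_mul haq he2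
    omega
  rw [hmul]
  have : a * 2 ^ 40 + (a * e + b * c) = a * e + b * c + a * 2 ^ 40 := by ring
  rw [this, Nat.add_mul_div_right _ _ (by positivity), Nat.div_eq_of_lt hlt, zero_add]

/-- numerical conditions on `q` and `N` -/
structure QN (q N : ℕ) : Prop where
  q2 : 2 ≤ q
  q1000 : q ≤ 1000
  N3 : 3 ≤ N
  N8 : N ≤ 8192
  qN : 2 * (q * q) * (N * N) < 2 ^ 64

section DV

variable {q N : ℕ} (H : QN q N) (CT : ℕ)

lemma co_lt (hN : 0 < N) (X u : ℕ) : co q N CT X u < N := Nat.mod_lt _ hN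

include H

lemma lane_lt (X Y : ℕ) : lane q N CT X Y < 2 ^ 64 := by
  have hN : 0 < N := by have := H.N3; omega
  have hq : 0 < q := by have := H.q2; omega
  have h1 : ∑ u ∈ range q, co q N CT X u ≤ q * N := by
    have : ∑ u ∈ range q, co q N CT X u ≤ ∑ _u ∈ range q, N :=
      Finset.sum_le_sum fun u _ => (co_lt CT hN X u).le
    simpa using this
  have h2 : ∑ u ∈ range q, co q N CT X u * (u * Y % q) ≤ q * (N * q) := by
    have : ∑ u ∈ range q, co q N CT X u * (u * Y % q) ≤ ∑ _u ∈ range q, N * q :=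
      Finset.sum_le_sum fun u _ => Nat.mul_le_mul (co_lt CT hN X u).le (Nat.mod_lt _ hq).le
    simpa using this
  refine lt_of_le_of_lt ?_ H.qN
  unfold lane
  calc _ ≤ q * (q * N) + N * (q * (N * q)) :=
        Nat.add_le_add (Nat.mul_le_mul_left _ h1) (Nat.mul_le_mul (by omega) h2)
    _ ≤ q * (q * (N * N)) + N * (q * (N * q)) := by
        apply Nat.add_le_add_right
        apply Nat.mul_le_mul_left
        apply Nat.mul_le_mul_left
        exact Nat.le_mul_of_pos_left N hN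
    _ = _ := by ring

lemma dv_eq (X : ℕ) : dv q N (Nat.succ (2 ^ 40 / q)) CT
      (packL (2 ^ 64) (fun i => q - 1 - i) (List.range q))
      (packL (2 ^ 64) (fun _ => 1) (List.range q))
      (16777215 * packL (2 ^ 64) (fun _ => 1) (List.range q)) X =
    packL (2 ^ 64) (fun i => lane q N CT X (q - 1 - i)) (List.range q) := by
  have hq : 0 < q := by have := H.q2; omega
  have hq1 := H.q1000
  set Yv := packL (2 ^ 64) (fun i => q - 1 - i) (List.range q) with hY
  set On := packL (2 ^ 64) (fun _ : ℕ => 1) (List.range q) with hO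
  set cc := Nat.succ (2 ^ 40 / q) with hcc
  have hc1 : 2 ^ 40 ≤ cc * q := by
    have := Nat.lt_div_mul_add (a := 2 ^ 40) hq
    rw [hcc, Nat.succ_eq_add_one, add_mul, one_mul]
    omega
  have hc2 : cc * q ≤ 2 ^ 40 + q := by
    have := Nat.div_mul_le_self (2 ^ 40) q
    rw [hcc, Nat.succ_eq_add_one, add_mul, one_mul]
    omega
  have hqq : q * q ≤ 1000 * 1000 := Nat.mul_le_mul hq1 hq1
  have hc3 : q * q < cc := by
    by_contra hcon
    have h1 : cc ≤ q * q := Nat.not_lt.1 hcon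
    have h2 : cc * q ≤ (1000 * 1000) * 1000 := Nat.mul_le_mul (h1.trans hqq) hq1
    have : (2 : ℕ) ^ 40 ≤ (1000 * 1000) * 1000 := hc1.trans h2
    norm_num at this
  have hfl : ∀ u, u < q → Nat.land (Nat.shiftRight (u * cc * Yv) 40) (16777215 * On) =
      packL (2 ^ 64) (fun i => u * (q - 1 - i) / q) (List.range q) := by
    intro u hu
    have e1 : u * cc * Yv = packL (2 ^ 64) (fun i => u * cc * (q - 1 - i)) (List.range q) := by
      rw [hY, packL_mul]
    have e2 : 16777215 * On = packL (2 ^ 64) (fun _ => 2 ^ (64 - 40) - 1) (List.range q) := by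
      rw [hO, ← packL_mul]
      norm_num
    have e3 : Nat.shiftRight (u * cc * Yv) 40 = (u * cc * Yv) / 2 ^ 40 := by
      change (u * cc * Yv) >>> 40 = _
      rw [Nat.shiftRight_eq_div_pow]
    rw [e3, e1, e2, land_floor (by norm_num)]
    · apply packL_congr
      intro i hi
      have hi' := List.mem_range.1 hi
      have h4 : u * (q - 1 - i) < q * q := by
        calc u * (q - 1 - i) ≤ u * q := Nat.mul_le_mul_left _ (by omega)
          _ < q * q := Nat.mul_lt_mul_of_pos_right hu hq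
      rw [← floor_exact hq hc1 hc2 hc3 h4]
      congr 1
      ring
    · intro i _
      have h5 : cc ≤ 2 ^ 40 := by
        have h2 := H.q2
        have : 2 ^ 40 / q ≤ 2 ^ 40 / 2 := Nat.div_le_div_left h2 (by norm_num)
        have h6 : (2 : ℕ) ^ 40 / 2 + 1 ≤ 2 ^ 40 := by norm_num
        omega
      calc u * cc * (q - 1 - i) ≤ 1000 * 2 ^ 40 * 1000 := by
            apply Nat.mul_le_mul
            · exact Nat.mul_le_mul (by omega) h5
            · omega
        _ < 2 ^ 64 := by norm_num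
  -- unfold
  have e : dv q N cc CT Yv On (16777215 * On) X =
      dvl q N cc CT Yv (16777215 * On) X (fun fl s0 s1 => (q * s0) * On +
        (N - 2) * (s1 * Yv - q * fl)) q 0 0 0 := rfl
  rw [e, dvl_eq]
  simp only [zero_add]
  have s1 : ∑ u ∈ range q, co q N CT X u * Nat.land (Nat.shiftRight (u * cc * Yv) 40)
      (16777215 * On) = packL (2 ^ 64) (fun i => ∑ u ∈ range q, co q N CT X u *
        (u * (q - 1 - i) / q)) (List.range q) := by
    have h : ∀ n, n ≤ q → ∑ u ∈ range n, co q N CT X u *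
        Nat.land (Nat.shiftRight (u * cc * Yv) 40) (16777215 * On) =
        packL (2 ^ 64) (fun i => ∑ u ∈ range n, co q N CT X u *
        (u * (q - 1 - i) / q)) (List.range q) := by
      intro n
      induction n with
      | zero => intro _; simp [packL_zero]
      | succ n ih =>
        intro hn
        rw [sum_range_succ, ih (by omega), hfl n (by omega), ← packL_mul, ← packL_add]
        apply packL_congr
        intro i _
        rw [sum_range_succ]
    exact h q le_rfl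
  rw [s1]
  have e3 : (∑ u ∈ range q, co q N CT X u * u) * Yv = packL (2 ^ 64)
      (fun i => (∑ u ∈ range q, co q N CT X u * u) * (q - 1 - i)) (List.range q) := by
    rw [hY, packL_mul]
  have e4 : (∑ u ∈ range q, co q N CT X u * u) * Yv - q * packL (2 ^ 64)
      (fun i => ∑ u ∈ range q, co q N CT X u * (u * (q - 1 - i) / q)) (List.range q) =
      packL (2 ^ 64) (fun i => ∑ u ∈ range q, co q N CT X u * (u * (q - 1 - i) % q))
        (List.range q) := by
    rw [e3, ← packL_mul]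
    have : packL (2 ^ 64) (fun i => (∑ u ∈ range q, co q N CT X u * u) * (q - 1 - i))
        (List.range q) = packL (2 ^ 64) (fun i => ∑ u ∈ range q, co q N CT X u *
          (u * (q - 1 - i) % q)) (List.range q) + packL (2 ^ 64) (fun i => q *
          ∑ u ∈ range q, co q N CT X u * (u * (q - 1 - i) / q)) (List.range q) := by
      rw [← packL_add]
      apply packL_congr
      intro i _
      rw [Finset.sum_mul, Finset.mul_sum, ← Finset.sum_add_distrib]
      apply Finset.sum_congr rfl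
      intro u _
      have := Nat.mod_add_div (u * (q - 1 - i)) q
      calc co q N CT X u * u * (q - 1 - i) = co q N CT X u * (u * (q - 1 - i)) := by ring
        _ = co q N CT X u * (u * (q - 1 - i) % q + q * (u * (q - 1 - i) / q)) := by rw [this]
        _ = _ := by ring
    rw [this, Nat.add_sub_cancel]
  rw [e4, hO, ← packL_mul, ← packL_mul, ← packL_add]
  apply packL_congr
  intro i _
  unfold lane
  ring

end DV

lemma ev_eq (q N CT X : ℕ) : ev q N CT X =
    (∑ u ∈ range q, chw CT u * gzn q N (u * X % q)) % N := by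
  unfold ev
  have : sumR (fun u => @Nat.rec (fun _ => ℕ) (nat_lit 0) (fun c _ =>
    Nat.mul (Nat.succ c) (gzn q N (Nat.mod (Nat.mul u X) q))) (chw CT u)) q =
    ∑ u ∈ range q, chw CT u * gzn q N (u * X % q) := by
    rw [sumR_eq]
    apply Finset.sum_congr rfl
    intro u _
    cases chw CT u with
    | zero => simp
    | succ c => rfl
  rw [this]
  rfl

/-! ### casts -/

section Cast

variable {n1 n2 n3 N T1 T2 T3 : ℕ} [NeZero n1] [NeZero n2] [NeZero n3] [NeZero (n1 * n2)]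
  [NeZero (n1 * n2 * n3)]

omit [NeZero n1] [NeZero n2] [NeZero n3] [NeZero (n1 * n2)] [NeZero (n1 * n2 * n3)] in
lemma chi3_cast (u : ℕ) : ((chi3 n1 n2 n3 N T1 T2 T3 u : ℕ) : ZMod N) =
    tri (tabc n1 N T1) (tabc n2 N T2) (tabc n3 N T3) (u : ZMod (n1 * n2 * n3)) := by
  rw [tri_natCast, tabc_natCast, tabc_natCast, tabc_natCast]
  have : chi3 n1 n2 n3 N T1 T2 T3 u =
    ((chw T1 (u % n1) * chw T2 (u % n2)) % N * chw T3 (u % n3)) % N := rfl
  rw [this, ZMod.natCast_mod]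
  push_cast
  rw [ZMod.natCast_mod]
  push_cast
  rfl

lemma bzn_cast {q N r : ℕ} (hN : 2 ≤ N) : ((bzn q N r : ℕ) : ZMod N) = bI q N r := by
  unfold bI
  cases r with
  | zero => simp [bzn]
  | succ r =>
    have : bzn q N (r + 1) = q + (N - 2) * (r + 1) := rfl
    rw [this, if_neg (by omega)]
    push_cast [Nat.cast_sub hN]
    simp
    ring

lemma gzn_cast {q N r : ℕ} (hN : 1 ≤ N) : ((gzn q N r : ℕ) : ZMod N) = b2I q N r := by
  unfold b2I
  have : gzn q N r = 6 * (r * r) + 6 * (N - 1) * (q * r) + q * q := rfl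
  rw [this]
  push_cast [Nat.cast_sub hN]
  simp
  ring

/-- the table of squares -/
def csqT (n1 n2 n3 N T1 T2 T3 : ℕ) : ℕ := csq n1 n2 n3 (n1 * n2 * n3) N T1 T2 T3

omit [NeZero n1] [NeZero n2] [NeZero n3] [NeZero (n1 * n2)] [NeZero (n1 * n2 * n3)] in
lemma csq_cast (hN : 0 < N) (hN16 : N ≤ 2 ^ 16) {u : ℕ} (hu : u < n1 * n2 * n3) :
    ((chw (csqT n1 n2 n3 N T1 T2 T3) u : ℕ) : ZMod N) =
      tri (tabc n1 N T1) (tabc n2 N T2) (tabc n3 N T3) (u : ZMod (n1 * n2 * n3)) ^ 2 := by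
  have e : csqT n1 n2 n3 N T1 T2 T3 = packR (nat_lit 16) (fun u =>
      chi3 n1 n2 n3 N T1 T2 T3 u * chi3 n1 n2 n3 N T1 T2 T3 u % N) (n1 * n2 * n3) := by
    unfold csqT csq
    congr 1
    funext u
    rw [strict_eq]
    rfl
  rw [e, chw_packR (fun m => (Nat.mod_lt _ hN).trans_le hN16) hu, ZMod.natCast_mod]
  push_cast
  rw [chi3_cast]
  ring

/-- sums over residues -/
lemma sum_zmod_range {q : ℕ} [NeZero q] {K : Type} [AddCommMonoid K] (g : ZMod q → K) :
    ∑ z, g z = ∑ u ∈ range q, g (u : ZMod q) := by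
  symm
  refine Finset.sum_nbij' (fun r => (r : ZMod q)) (fun z => z.val) ?_ ?_ ?_ ?_ ?_
  · intro r _; exact mem_univ _
  · intro z _; exact mem_range.mpr (ZMod.val_lt z)
  · intro r hr; exact ZMod.val_cast_of_lt (mem_range.mp hr)
  · intro z _; exact ZMod.natCast_zmod_val z
  · intro r _; rfl

omit [NeZero n1] [NeZero n2] [NeZero n3] [NeZero (n1 * n2)] in
lemma ev_cast (hN : 0 < N) (hN16 : N ≤ 2 ^ 16) (X : ℕ) :
    ((ev (n1 * n2 * n3) N (csqT n1 n2 n3 N T1 T2 T3) X : ℕ) : ZMod N) =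
      EZ (tri (tabc n1 N T1) (tabc n2 N T2) (tabc n3 N T3)) (X : ZMod (n1 * n2 * n3)) := by
  rw [ev_eq, ZMod.natCast_mod, Nat.cast_sum]
  unfold EZ
  rw [sum_zmod_range]
  apply Finset.sum_congr rfl
  intro u hu
  have hu' := mem_range.1 hu
  rw [Nat.cast_mul, csq_cast hN hN16 hu', gzn_cast hN]
  congr 1
  unfold gz
  rw [← Nat.cast_mul, ZMod.val_natCast]

omit [NeZero n1] [NeZero n2] [NeZero n3] [NeZero (n1 * n2)] [NeZero (n1 * n2 * n3)] in
lemma co_cast (hN : 2 ≤ N) (hN16 : N ≤ 2 ^ 16) (X : ℕ) {u : ℕ} (hu : u < n1 * n2 * n3) :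
    ((co (n1 * n2 * n3) N (csqT n1 n2 n3 N T1 T2 T3) X u : ℕ) : ZMod N) =
      tri (tabc n1 N T1) (tabc n2 N T2) (tabc n3 N T3) (u : ZMod (n1 * n2 * n3)) ^ 2 *
        bz (n1 * n2 * n3) N ((u : ZMod (n1 * n2 * n3)) * (X : ZMod (n1 * n2 * n3))) := by
  unfold co
  rw [ZMod.natCast_mod, Nat.cast_mul, csq_cast (by omega) hN16 hu, bzn_cast hN]
  congr 1
  unfold bz
  rw [← Nat.cast_mul, ZMod.val_natCast]

omit [NeZero n1] [NeZero n2] [NeZero n3] [NeZero (n1 * n2)] in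
lemma lane_cast (hN : 2 ≤ N) (hN16 : N ≤ 2 ^ 16)
    (hc : IsChar (tri (tabc n1 N T1) (tabc n2 N T2) (tabc n3 N T3))) (X : ℕ) {Y : ℕ}
    (hY0 : 0 < Y) (hY : Y < n1 * n2 * n3) :
    ((lane (n1 * n2 * n3) N (csqT n1 n2 n3 N T1 T2 T3) X Y : ℕ) : ZMod N) =
      DZ (tri (tabc n1 N T1) (tabc n2 N T2) (tabc n3 N T3)) (X : ZMod (n1 * n2 * n3))
        (Y : ZMod (n1 * n2 * n3)) := by
  unfold lane DZ
  rw [sum_zmod_range, Nat.cast_add, Nat.cast_mul (n1 * n2 * n3) (∑ u ∈ _, _),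
    Nat.cast_mul (N - 2), Nat.cast_sum, Nat.cast_sum,
    Nat.cast_sub hN, ZMod.natCast_self, Finset.mul_sum, Finset.mul_sum, ← Finset.sum_add_distrib]
  apply Finset.sum_congr rfl
  intro u hu
  have hu' := mem_range.1 hu
  rw [Nat.cast_mul (co _ _ _ _ _) _, co_cast hN hN16 X hu']
  by_cases hun : IsUnit (u : ZMod (n1 * n2 * n3))
  · have h0 : u * Y % (n1 * n2 * n3) ≠ 0 := by
      intro h
      have h1 : ((u * Y : ℕ) : ZMod (n1 * n2 * n3)) = 0 := by
        rw [ZMod.natCast_eq_zero_iff]; exact Nat.dvd_of_mod_eq_zero h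
      rw [Nat.cast_mul, hun.mul_right_eq_zero, ZMod.natCast_eq_zero_iff] at h1
      exact absurd (Nat.le_of_dvd hY0 h1) (by omega)
    have e : bz (n1 * n2 * n3) N ((u : ZMod (n1 * n2 * n3)) * (Y : ZMod (n1 * n2 * n3))) =
        ((n1 * n2 * n3 : ℕ) : ZMod N) - 2 * ((u * Y % (n1 * n2 * n3) : ℕ) : ZMod N) := by
      unfold bz bI
      rw [← Nat.cast_mul, ZMod.val_natCast, if_neg h0]
    rw [e]
    generalize ((n1 * n2 * n3 : ℕ) : ZMod N) = Qz
    push_cast
    ring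
  · rw [hc.nu _ hun]
    ring

end Cast

/-! ### the packed weights -/

lemma sel_zero (a b : ℕ) : sel 0 a b = a := rfl
lemma sel_one (a b : ℕ) : sel 1 a b = b := rfl

lemma rpk_eq {α : Type} (V : ℕ) (f : α → ℕ) (L : List α) (acc : ℕ) :
    rpk V f L acc = acc * V ^ L.length + rp V f L := by
  induction L generalizing acc with
  | nil => simp [rpk, rp]
  | cons x L ih =>
    have : rpk V f (x :: L) acc = strict (acc * V + f x) (rpk V f L) := rfl
    rw [this, strict_eq, ih, rp_cons, List.length_cons, pow_succ']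
    ring

lemma rpk_eq0 {α : Type} (V : ℕ) (f : α → ℕ) (L : List α) :
    rpk V f L (nat_lit 0) = rp V f L := by
  have := rpk_eq V f L 0
  simpa using this

/-- index of a first coordinate pattern -/
def pat (e1 e2 e3 q a b c : ℕ) : ℕ := (a * e1 + (b * e2 + c * e3)) % q

lemma with8_spec {β : Type} (f : ℕ → ℕ) (e1 e2 e3 q : ℕ) (k : (ℕ → ℕ → ℕ → ℕ) → β) :
    ∃ d : ℕ → ℕ → ℕ → ℕ, with8 f e1 e2 e3 q k = k d ∧
      ∀ a b c, a ≤ 1 → b ≤ 1 → c ≤ 1 → d a b c = f (pat e1 e2 e3 q a b c) := by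
  refine ⟨fun a b c => sel a (sel b (sel c (f 0) (f (e3 % q))) (sel c (f (e2 % q))
      (f ((e2 + e3) % q)))) (sel b (sel c (f (e1 % q)) (f ((e1 + e3) % q)))
      (sel c (f ((e1 + e2) % q)) (f ((e1 + (e2 + e3)) % q)))), ?_, ?_⟩
  · unfold with8
    simp only [strict_eq]
    rfl
  · intro a b c ha hb hc
    unfold pat
    interval_cases a <;> interval_cases b <;> interval_cases c <;>
      simp [sel_zero, sel_one]

/-- the weight at a representative -/
def wv (q N CT e1 e2 e3 : ℕ) (P Q R : ℕ × ℕ) : ℕ :=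
  if (P.2 * e1 + (Q.2 * e2 + R.2 * e3)) % q = 0 then 0
  else lane q N CT (pat e1 e2 e3 q P.1 Q.1 R.1) ((P.2 * e1 + (Q.2 * e2 + R.2 * e3)) % q) % N

lemma wd_eq {q N CT e1 e2 e3 : ℕ} (H : QN q N) {d : ℕ → ℕ → ℕ → ℕ}
    (hd : ∀ a b c, a ≤ 1 → b ≤ 1 → c ≤ 1 → d a b c =
      packL (2 ^ 64) (fun i => lane q N CT (pat e1 e2 e3 q a b c) (q - 1 - i)) (List.range q))
    {P Q R : ℕ × ℕ} (hP : P.1 ≤ 1) (hQ : Q.1 ≤ 1) (hR : R.1 ≤ 1) :
    wd q N e1 e2 e3 d P Q R = wv q N CT e1 e2 e3 P Q R := by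
  have hq : 0 < q := by have := H.q2; omega
  unfold wd wv
  rw [strict_eq]
  change @Nat.rec (fun _ => ℕ) 0 (fun _ _ => _) ((P.2 * e1 + (Q.2 * e2 + R.2 * e3)) % q) = _
  have hlt : (P.2 * e1 + (Q.2 * e2 + R.2 * e3)) % q < q := Nat.mod_lt _ hq
  generalize hY : (P.2 * e1 + (Q.2 * e2 + R.2 * e3)) % q = Y at hlt ⊢
  have hY' : Nat.mod (Nat.add (Nat.mul P.2 e1) (Nat.add (Nat.mul Q.2 e2) (Nat.mul R.2 e3))) q = Y := hY
  cases Y with
  | zero => simp
  | succ y =>
    rw [if_neg (Nat.succ_ne_zero y)]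
    change (Nat.shiftRight (d P.1 Q.1 R.1) (64 * (q - 1 -
      Nat.mod (Nat.add (Nat.mul P.2 e1) (Nat.add (Nat.mul Q.2 e2) (Nat.mul R.2 e3))) q))) %
      18446744073709551616 % N = _
    rw [hY', hd _ _ _ hP hQ hR]
    congr 1
    change (packL _ _ _) >>> (64 * (q - 1 - (y + 1))) % _ = _
    rw [Nat.shiftRight_eq_div_pow, pow_mul]
    have h64 : (18446744073709551616 : ℕ) = 2 ^ 64 := by norm_num
    rw [h64]
    have hdig := packL_digit (V := 2 ^ 64) (f := fun i => lane q N CT (pat e1 e2 e3 q P.1 Q.1 R.1)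
      (q - 1 - i)) (L := List.range q) (fun i _ => lane_lt H CT _ _) (q - 1 - (y + 1))
      (by rw [List.length_range]; omega)
    rw [hdig, List.getElem_range]
    congr 1
    omega

/-- meaning of the packed weights -/
structure WSpec (n1 n2 n3 e1 e2 e3 N l fr T1 T2 T3 : ℕ) (L1 L2 L3 : List (ℕ × ℕ))
    (w3 w W Y1 Y0 : ℕ) : Prop where
  hW : W = rp (2 ^ w) (fun P => rp (2 ^ w3) (fun Q => rp (2 ^ 80) (fun R =>
    wv (n1 * n2 * n3) N (csqT n1 n2 n3 N T1 T2 T3) e1 e2 e3 P Q R) L3) L2) L1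
  h1 : Y1 = rp (2 ^ w3) (fun Q => rp (2 ^ 80) (fun R => ev (n1 * n2 * n3) N
    (csqT n1 n2 n3 N T1 T2 T3) (pat e1 e2 e3 (n1 * n2 * n3) 1 Q.1 R.1)) L3) L2
  h0 : Y0 = rp (2 ^ w3) (fun Q => rp (2 ^ 80) (fun R => ev (n1 * n2 * n3) N
    (csqT n1 n2 n3 N T1 T2 T3) (pat e1 e2 e3 (n1 * n2 * n3) 0 Q.1 R.1)) L3) L2
  d1 : ∀ Q ∈ L2, ∀ R ∈ L3, fr * ev (n1 * n2 * n3) N
    (csqT n1 n2 n3 N T1 T2 T3) (pat e1 e2 e3 (n1 * n2 * n3) 1 Q.1 R.1) % l = 0
  d0 : ∀ Q ∈ L2, ∀ R ∈ L3, fr * ev (n1 * n2 * n3) N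
    (csqT n1 n2 n3 N T1 T2 T3) (pat e1 e2 e3 (n1 * n2 * n3) 0 Q.1 R.1) % (l * l) = 0

theorem wchk_spec {n1 n2 n3 e1 e2 e3 N l fr T1 T2 T3 : ℕ} {L1 L2 L3 : List (ℕ × ℕ)}
    {w3 w W Y1 Y0 : ℕ} (H : QN (n1 * n2 * n3) N)
    (b1 : ∀ P ∈ L1, P.1 ≤ 1) (b2 : ∀ P ∈ L2, P.1 ≤ 1) (b3 : ∀ P ∈ L3, P.1 ≤ 1)
    (h : wchk n1 n2 n3 e1 e2 e3 N l fr T1 T2 T3 L1 L2 L3 w3 w W Y1 Y0 = true) :
    WSpec n1 n2 n3 e1 e2 e3 N l fr T1 T2 T3 L1 L2 L3 w3 w W Y1 Y0 := by
  unfold wchk setup at h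
  simp only [strict_eq] at h
  set q := n1 * n2 * n3 with hq
  have hq' : Nat.mul (Nat.mul n1 n2) n3 = q := rfl
  rw [hq'] at h
  have hct : csq n1 n2 n3 q N T1 T2 T3 = csqT n1 n2 n3 N T1 T2 T3 := rfl
  rw [hct] at h
  obtain ⟨d, hd, hd'⟩ := with8_spec (β := Bool) (dv q N (Nat.succ (Nat.div (nat_lit 1099511627776) q))
    (csqT n1 n2 n3 N T1 T2 T3)
    (packR (nat_lit 64) (fun y => Nat.sub (Nat.sub q (nat_lit 1)) y) q)
    (packR (nat_lit 64) (fun _ => nat_lit 1) q)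
    (Nat.mul (nat_lit 16777215) (packR (nat_lit 64) (fun _ => nat_lit 1) q))) e1 e2 e3 q
    (fun d => with8 (ev q N (csqT n1 n2 n3 N T1 T2 T3)) e1 e2 e3 q fun e =>
      @Bool.rec (fun _ => Bool) false (@Bool.rec (fun _ => Bool) false
      (@Bool.rec (fun _ => Bool) false
        (allL (fun Q => allL (fun R =>
          @Bool.rec (fun _ => Bool) false
            (Nat.beq (Nat.mod (Nat.mul fr (e (nat_lit 0) Q.1 R.1)) (Nat.mul l l)) (nat_lit 0))
            (Nat.beq (Nat.mod (Nat.mul fr (e (nat_lit 1) Q.1 R.1)) l) (nat_lit 0))) L3) L2)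
        (Nat.beq (wyrev e (nat_lit 0) L2 L3 (nat_lit 1208925819614629174706176)
          (Nat.pow (nat_lit 2) w3)) Y0))
        (Nat.beq (wyrev e (nat_lit 1) L2 L3 (nat_lit 1208925819614629174706176)
          (Nat.pow (nat_lit 2) w3)) Y1))
        (Nat.beq (wrev q N e1 e2 e3 d L1 L2 L3 (nat_lit 1208925819614629174706176)
          (Nat.pow (nat_lit 2) w3) (Nat.pow (nat_lit 2) w)) W))
  rw [hd] at h
  obtain ⟨e, he, he'⟩ := with8_spec (β := Bool) (ev q N (csqT n1 n2 n3 N T1 T2 T3)) e1 e2 e3 q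
    (fun e => @Bool.rec (fun _ => Bool) false (@Bool.rec (fun _ => Bool) false
      (@Bool.rec (fun _ => Bool) false
        (allL (fun Q => allL (fun R =>
          @Bool.rec (fun _ => Bool) false
            (Nat.beq (Nat.mod (Nat.mul fr (e (nat_lit 0) Q.1 R.1)) (Nat.mul l l)) (nat_lit 0))
            (Nat.beq (Nat.mod (Nat.mul fr (e (nat_lit 1) Q.1 R.1)) l) (nat_lit 0))) L3) L2)
        (Nat.beq (wyrev e (nat_lit 0) L2 L3 (nat_lit 1208925819614629174706176)
          (Nat.pow (nat_lit 2) w3)) Y0))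
        (Nat.beq (wyrev e (nat_lit 1) L2 L3 (nat_lit 1208925819614629174706176)
          (Nat.pow (nat_lit 2) w3)) Y1))
        (Nat.beq (wrev q N e1 e2 e3 d L1 L2 L3 (nat_lit 1208925819614629174706176)
          (Nat.pow (nat_lit 2) w3) (Nat.pow (nat_lit 2) w)) W))
  rw [he] at h
  obtain ⟨h1, h⟩ := boolrec_spec h
  obtain ⟨h2, h⟩ := boolrec_spec h
  obtain ⟨h3, h⟩ := boolrec_spec h
  have g1 := Nat.eq_of_beq_eq_true h1
  have g2 := Nat.eq_of_beq_eq_true h2
  have g3 := Nat.eq_of_beq_eq_true h3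
  have h80 : ∀ (f : ℕ × ℕ → ℕ) (L : List (ℕ × ℕ)),
      rp (nat_lit 1208925819614629174706176) f L = rp (2 ^ 80) f L := by
    intro f L
    have h80' : (1208925819614629174706176 : ℕ) = 2 ^ 80 := by norm_num
    have : rp (1208925819614629174706176 : ℕ) f L = rp (2 ^ 80) f L := by rw [h80']
    exact this
  have hdv : ∀ a b c, a ≤ 1 → b ≤ 1 → c ≤ 1 → d a b c =
      packL (2 ^ 64) (fun i => lane q N (csqT n1 n2 n3 N T1 T2 T3) (pat e1 e2 e3 q a b c)
        (q - 1 - i)) (List.range q) := by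
    intro a b c ha hb hc
    rw [hd' a b c ha hb hc, ← dv_eq H]
    have e1' : packR (nat_lit 64) (fun y => Nat.sub (Nat.sub q (nat_lit 1)) y) q =
        packL (2 ^ 64) (fun i => q - 1 - i) (List.range q) := packR_eq _ _ _
    have e2' : packR (nat_lit 64) (fun _ => nat_lit 1) q =
        packL (2 ^ 64) (fun _ => 1) (List.range q) := packR_eq _ _ _
    rw [e1', e2']
    have e3' : Nat.succ (Nat.div (nat_lit 1099511627776) q) = Nat.succ (2 ^ 40 / q) := by
      norm_num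
      rfl
    rw [e3']
    rfl
  refine ⟨?_, ?_, ?_, ?_, ?_⟩
  · rw [← g1]
    unfold wrev
    rw [rpk_eq0]
    apply rp_congr
    intro P hP
    rw [rpk_eq0]
    apply rp_congr
    intro Q hQ
    rw [rpk_eq0, h80]
    apply rp_congr
    intro R hR
    exact wd_eq H hdv (b1 P hP) (b2 Q hQ) (b3 R hR)
  · rw [← g2]
    unfold wyrev
    rw [rpk_eq0]
    apply rp_congr
    intro Q hQ
    rw [rpk_eq0, h80]
    apply rp_congr
    intro R hR
    exact he' _ _ _ le_rfl (b2 Q hQ) (b3 R hR)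
  · rw [← g3]
    unfold wyrev
    rw [rpk_eq0]
    apply rp_congr
    intro Q hQ
    rw [rpk_eq0, h80]
    apply rp_congr
    intro R hR
    exact he' _ _ _ (Nat.zero_le _) (b2 Q hQ) (b3 R hR)
  · intro Q hQ R hR
    have h4 := boolrec_spec (allL_spec (allL_spec h Q hQ) R hR)
    have h5 : fr * e 1 Q.1 R.1 % l = 0 := Nat.eq_of_beq_eq_true h4.1
    rw [he' 1 _ _ le_rfl (b2 Q hQ) (b3 R hR)] at h5
    exact h5
  · intro Q hQ R hR
    have h4 := boolrec_spec (allL_spec (allL_spec h Q hQ) R hR)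
    have h5 : fr * e 0 Q.1 R.1 % (l * l) = 0 := Nat.eq_of_beq_eq_true h4.2
    rw [he' 0 _ _ (Nat.zero_le _) (b2 Q hQ) (b3 R hR)] at h5
    exact h5

end Pool.Agent.Lib_helper5.LK
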