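import Pool.Agent.Lib_helper5.P5K

/-!
The family of period four: polynomials, classes and forms.
-/

namespace Pool.Agent.Lib_helper5.K4

open Finset LK Pool.Agent.LibH4 Pool.Agent.LibH4.Ker Pool.Agent.LibH4.T6 Pool.Agent.LibH4.KF

/-! ### polynomials -/

/-- `m` -/
def zm (a b t : ℤ) : ℤ := t * (1 + a * b) - b * b
/-- `r` -/
def zr (a b t : ℤ) : ℤ := 1 - a * b + (a * a) * t
/-- `B` -/
def zB (a b t : ℤ) : ℤ := (a * t) * (2 + a * b) - b * (1 + a * b)
/-- the second middle coefficient -/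
def zR (a b t : ℤ) : ℤ := 2 * (a * zm a b t) - zB a b t
/-- the discriminant -/
def zd (a b t : ℤ) : ℤ := zB a b t * zB a b t + 4 * zm a b t

lemma zR_eq (a b t : ℤ) : zR a b t = b * zr a b t := by
  unfold zR zB zm zr
  ring

/-- the forms -/
def J4 (a b t : ℤ) : List Fm :=
  [⟨zm a b t, zB a b t, -1, 0, -zB a b t⟩,
   ⟨1, zB a b t, -zm a b t, 6, -(2 * a)⟩,
   ⟨zm a b t, zR a b t, -zr a b t, 6, -b⟩]

lemma J4_ok (a b t : ℤ) : JOk (zd a b t) (J4 a b t) where
  ne := by simp [J4]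
  hκ := by
    intro j hj
    simp only [J4, List.mem_cons, List.not_mem_nil, or_false] at hj
    rcases hj with rfl | rfl | rfl <;> simp
  hD := by
    intro j hj
    simp only [J4, List.mem_cons, List.not_mem_nil, or_false] at hj
    rcases hj with rfl | rfl | rfl
    · simp only [zd]; ring
    · simp only [zd]; ring
    · simp only [zd]; unfold zR zr zB zm; ring

/-! ### kernel functions -/

/-- the data of a class -/
def withP4 {β : Type} (p a b t : ℕ) (k : ℕ → ℕ → ℕ → ℕ → ℕ → ℕ → β) : β :=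
  strict (Nat.mod (Nat.mul a b) p) fun ab =>
  strict (Nat.mod (Nat.add (Nat.mul t (Nat.add (nat_lit 1) ab))
    (Nat.mul (Nat.sub p (nat_lit 1)) (Nat.mul b b))) p) fun m =>
  strict (Nat.mod (Nat.add (Nat.add (nat_lit 1) (Nat.mul (Nat.sub p (nat_lit 1)) ab))
    (Nat.mul (Nat.mul a a) t)) p) fun r =>
  strict (Nat.mod (Nat.add (Nat.mul (Nat.mul a t) (Nat.add (nat_lit 2) ab))
    (Nat.mul (Nat.sub p (nat_lit 1)) (Nat.mul b (Nat.add (nat_lit 1) ab)))) p) fun B =>
  strict (Nat.mod (Nat.add (Nat.mul (nat_lit 2) (Nat.mul a m))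
    (Nat.mul (Nat.sub p (nat_lit 1)) B)) p) fun R =>
  strict (Nat.mod (Nat.mul (Nat.sub p (nat_lit 1)) m) p) fun nm =>
  strict (Nat.mod (Nat.mul (Nat.sub p (nat_lit 1)) r) p) fun nr =>
  strict (Nat.mod (Nat.add (Nat.mul B B) (Nat.mul (nat_lit 4) m)) p) fun d =>
  k B m nm nr R d

/-- forms of the inner components -/
def forms4 (p : ℕ) (B m nm nr R : ℕ) : List (ℕ × ℕ × ℕ) :=
  [(m, B, Nat.sub p (nat_lit 1)), (nat_lit 1, B, nm), (m, R, nr)]

/-- forms of the outer component, with coefficients modulo `l`: `a, b, B` modulo `l` are given -/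
def FK4 (p l a b Bl B nm nr R : ℕ) : List ((ℕ × ℕ) × (ℕ × ℕ)) :=
  [((B, Nat.sub p (nat_lit 1)), (nat_lit 0, Nat.mod (Nat.mul (Nat.sub l (nat_lit 1)) Bl) l)),
   ((B, nm), (nat_lit 6, Nat.mod (Nat.mul (Nat.sub l (nat_lit 1)) (Nat.mul (nat_lit 2) a)) l)),
   ((R, nr), (nat_lit 6, Nat.mod (Nat.mul (Nat.sub l (nat_lit 1)) b) l))]

lemma withP4_eq {β : Type} {p : ℕ} [NeZero p] (a b t : ℤ)
    (k : ℕ → ℕ → ℕ → ℕ → ℕ → ℕ → β) :
    withP4 p (rs p a) (rs p b) (rs p t) k = k (rs p (zB a b t)) (rs p (zm a b t))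
      (rs p (-zm a b t)) (rs p (-zr a b t)) (rs p (zR a b t)) (rs p (zd a b t)) := by
  have e1 : Nat.mod (Nat.mul (rs p a) (rs p b)) p = rs p (a * b) := by
    change (rs p a * rs p b) % p = _
    apply rs_of; push_cast; simp only [rs_cast]
  have em : Nat.mod (Nat.add (Nat.mul (rs p t) (Nat.add (nat_lit 1) (rs p (a * b))))
      (Nat.mul (Nat.sub p (nat_lit 1)) (Nat.mul (rs p b) (rs p b)))) p = rs p (zm a b t) := by
    change (rs p t * (1 + rs p (a * b)) + (p - 1) * (rs p b * rs p b)) % p = _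
    apply rs_of; push_cast; simp only [rs_cast, K5.cast_pred]; unfold zm; push_cast; ring
  have er : Nat.mod (Nat.add (Nat.add (nat_lit 1) (Nat.mul (Nat.sub p (nat_lit 1)) (rs p (a * b))))
      (Nat.mul (Nat.mul (rs p a) (rs p a)) (rs p t))) p = rs p (zr a b t) := by
    change (1 + (p - 1) * rs p (a * b) + rs p a * rs p a * rs p t) % p = _
    apply rs_of; push_cast; simp only [rs_cast, K5.cast_pred]; unfold zr; push_cast; ring
  have eB : Nat.mod (Nat.add (Nat.mul (Nat.mul (rs p a) (rs p t)) (Nat.add (nat_lit 2) (rs p (a * b))))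
      (Nat.mul (Nat.sub p (nat_lit 1)) (Nat.mul (rs p b) (Nat.add (nat_lit 1) (rs p (a * b)))))) p =
      rs p (zB a b t) := by
    change (rs p a * rs p t * (2 + rs p (a * b)) + (p - 1) * (rs p b * (1 + rs p (a * b)))) % p = _
    apply rs_of; push_cast; simp only [rs_cast, K5.cast_pred]; unfold zB; push_cast; ring
  have eR : Nat.mod (Nat.add (Nat.mul (nat_lit 2) (Nat.mul (rs p a) (rs p (zm a b t))))
      (Nat.mul (Nat.sub p (nat_lit 1)) (rs p (zB a b t)))) p = rs p (zR a b t) := by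
    change (2 * (rs p a * rs p (zm a b t)) + (p - 1) * rs p (zB a b t)) % p = _
    apply rs_of; push_cast; simp only [rs_cast, K5.cast_pred]; unfold zR; push_cast; ring
  have enm : Nat.mod (Nat.mul (Nat.sub p (nat_lit 1)) (rs p (zm a b t))) p =
      rs p (-zm a b t) := by
    change ((p - 1) * rs p (zm a b t)) % p = _
    apply rs_of; push_cast; simp only [rs_cast, K5.cast_pred]; ring
  have enr : Nat.mod (Nat.mul (Nat.sub p (nat_lit 1)) (rs p (zr a b t))) p =
      rs p (-zr a b t) := by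
    change ((p - 1) * rs p (zr a b t)) % p = _
    apply rs_of; push_cast; simp only [rs_cast, K5.cast_pred]; ring
  have ed : Nat.mod (Nat.add (Nat.mul (rs p (zB a b t)) (rs p (zB a b t)))
      (Nat.mul (nat_lit 4) (rs p (zm a b t)))) p = rs p (zd a b t) := by
    change (rs p (zB a b t) * rs p (zB a b t) + 4 * rs p (zm a b t)) % p = _
    apply rs_of; push_cast; simp only [rs_cast]; unfold zd; push_cast; ring
  unfold withP4
  simp only [strict_eq]
  rw [e1, em, er, eB, eR, enm, enr, ed]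

lemma withP4_ex {p a b t : ℕ} {k : ℕ → ℕ → ℕ → ℕ → ℕ → ℕ → Bool}
    (h : withP4 p a b t k = true) : ∃ B m nm nr R d, k B m nm nr R d = true := by
  unfold withP4 at h
  simp only [strict_eq] at h
  exact ⟨_, _, _, _, _, _, h⟩

lemma forms4_eq {p : ℕ} [NeZero p] (hp : 1 < p) (a b t : ℤ) :
    forms4 p (rs p (zB a b t)) (rs p (zm a b t)) (rs p (-zm a b t))
      (rs p (-zr a b t)) (rs p (zR a b t)) = (J4 a b t).map (fkI p) := by
  have h1 : Nat.sub p (nat_lit 1) = rs p (-1) := K5.rs_neg_one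
  have h2 : (nat_lit 1) = rs p 1 := K5.rs_one hp
  unfold forms4 J4 fkI
  rw [h1]
  simp only [List.map_cons, List.map_nil]
  rw [← h2]

lemma FK4_eq {p l : ℕ} [NeZero p] [NeZero l] (a b t : ℤ) :
    FK4 p l (rs l a) (rs l b) (rs l (zB a b t)) (rs p (zB a b t)) (rs p (-zm a b t))
      (rs p (-zr a b t)) (rs p (zR a b t)) = (J4 a b t).map (fkO p l) := by
  have h1 : Nat.sub p (nat_lit 1) = rs p (-1) := K5.rs_neg_one
  have h2 : Nat.mod (Nat.mul (Nat.sub l (nat_lit 1)) (rs l (zB a b t))) l = rs l (-zB a b t) := by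
    change ((l - 1) * rs l (zB a b t)) % l = _
    apply rs_of; push_cast; simp only [rs_cast, K5.cast_pred]; ring
  have h3 : Nat.mod (Nat.mul (Nat.sub l (nat_lit 1)) (Nat.mul (nat_lit 2) (rs l a))) l =
      rs l (-(2 * a)) := by
    change ((l - 1) * (2 * rs l a)) % l = _
    apply rs_of; push_cast; simp only [rs_cast, K5.cast_pred]; ring
  have h4 : Nat.mod (Nat.mul (Nat.sub l (nat_lit 1)) (rs l b)) l = rs l (-b) := by
    change ((l - 1) * rs l b) % l = _
    apply rs_of; push_cast; simp only [rs_cast, K5.cast_pred]; ring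
  unfold FK4 J4 fkO
  rw [h1, h2, h3, h4]
  simp only [List.map_cons, List.map_nil]

end Pool.Agent.Lib_helper5.K4
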