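import Pool.Agent.Lib_helper5.P5Rel
import Pool.Agent.Lib_helper5.E4
import Pool.Agent.Lib_helper5.P4K

/-!
The relations for the family of period four.
-/

namespace Pool.Agent.Lib_helper5.K4

open Finset LK Pool.Agent.LibH4 Pool.Agent.LibH4.Ker Pool.Agent.LibH4.T6 Pool.Agent.LibH4.KF

/-! ### signs of the parameters -/

lemma zm_neg (a b t : ℤ) : zm (-a) (-b) t = zm a b t := by unfold zm; ring
lemma zr_neg (a b t : ℤ) : zr (-a) (-b) t = zr a b t := by unfold zr; ring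
lemma zB_neg (a b t : ℤ) : zB (-a) (-b) t = -zB a b t := by unfold zB; ring
lemma zR_neg (a b t : ℤ) : zR (-a) (-b) t = -zR a b t := by
  unfold zR; rw [zm_neg, zB_neg]; ring
lemma zd_neg (a b t : ℤ) : zd (-a) (-b) t = zd a b t := by
  unfold zd; rw [zB_neg, zm_neg]; ring

lemma Rel_neg {N q : ℕ} [NeZero q] (χ : ZMod q → ZMod N) {a b t : ℤ} (h : LK.Rel N χ (J4 a b t)) :
    LK.Rel N χ (J4 (-a) (-b) t) := by
  unfold LK.Rel J4 at h ⊢
  simp only [List.map_cons, List.map_nil, List.sum_cons, List.sum_nil, add_zero] at h ⊢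
  rw [zB_neg, zm_neg, zr_neg, zR_neg, K5.XX_neg, K5.XX_neg, K5.XX_neg, K5.YX_neg, K5.YX_neg,
    K5.YX_neg]
  push_cast at h ⊢
  linear_combination (-1 : ZMod N) * h

/-! ### the parameters -/

/-- parametrisation -/
lemma exists_t {a b B : ℕ} {m r : ℤ} (h : E4.Par a b B m r) :
    ∃ t : ℤ, zB a b t = B ∧ zm a b t = m ∧ zr a b t = r := by
  have e1 := h.e1
  have e2 := h.e2
  have ha : (a : ℤ) ≠ 0 := by have := h.ha; omega
  -- `a m = s (1 + a b) + b` with `s = B - a m`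
  have key : (a : ℤ) * m = ((B : ℤ) - a * m) * (1 + a * b) + b := by
    rw [e1] at e2
    linear_combination (-1) * e2
  obtain ⟨t, ht⟩ : (a : ℤ) ∣ ((B : ℤ) - a * m) + b := by
    refine ⟨m - ((B : ℤ) - a * m) * b, ?_⟩
    linear_combination (-1) * key
  have hm : zm a b t = m := by
    apply mul_left_cancel₀ ha
    unfold zm
    linear_combination (-(1 + (a : ℤ) * b)) * ht - key
  have hB : zB a b t = B := by
    have e : zB a b t = (a : ℤ) * t - b + a * zm a b t := by unfold zB zm; ring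
    rw [e, hm]
    linear_combination (-1) * ht
  refine ⟨t, hB, hm, ?_⟩
  have e : zr a b t = 1 + (a : ℤ) * (zB a b t - a * zm a b t) := by unfold zr zB zm; ring
  rw [e, hB, hm, e1]
  ring

/-! ### the relations -/

lemma zd_eq {a b B : ℕ} {m : ℤ} {t : ℤ} (hB : zB a b t = B) (hm : zm a b t = m) :
    zd a b t = (B : ℤ) ^ 2 + 4 * m := by
  unfold zd
  rw [hB, hm]
  ring

section Main

variable {a b B : ℕ} {m r : ℤ}
  [IsDomain (QuadraticAlgebra ℤ m (B : ℤ))] [UniqueFactorizationMonoid (QuadraticAlgebra ℤ m (B : ℤ))]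

/-- inert primes -/
lemma in_of (h : E4.Par a b B m r) {d : ℕ} (hd : (d : ℤ) = (B : ℤ) ^ 2 + 4 * m) (h8 : d % 8 = 5)
    {t : ℤ} (hB : zB a b t = B) (hm : zm a b t = m) {p : ℕ} (hp : p.Prime) (hp2 : p ≠ 2)
    (hpr : (p : ℤ) ≠ r) (hpm : (p : ℤ) < m) : K5.In p (zd a b t) := by
  have h1 := E4.inert h hd h8 p hp hp2 hpr hpm
  have : Fact p.Prime := ⟨hp⟩
  have h2 : ((jacobiSym d p : ℤ) : ZMod p) = (d : ZMod p) ^ (p / 2) := by
    rw [← jacobiSym.legendreSym.to_jacobiSym, legendreSym.eq_pow]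
    push_cast
    rfl
  have h3 : ((rs p (zd a b t) : ℕ) : ZMod p) = (d : ZMod p) := by
    rw [rs_cast, zd_eq hB hm, ← hd]
    push_cast
    rfl
  have h4 : (((rs p (zd a b t)) ^ (p / 2) : ℕ) : ZMod p) = ((p - 1 : ℕ) : ZMod p) := by
    rw [Nat.cast_pow, h3, ← h2, h1, K5.cast_pred]
    push_cast
    rfl
  have h5 := (ZMod.natCast_eq_natCast_iff' _ _ p).1 h4
  have hp1 := hp.two_le
  rw [Nat.mod_eq_of_lt (show p - 1 < p by omega)] at h5
  have h6 : Nat.mod (Nat.pow (rs p (zd a b t)) (p / 2)) p = p - 1 := h5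
  unfold K5.In
  rw [h6]
  exact Nat.beq_refl _

/-- the relations hold -/
theorem rel_of (h : E4.Par a b B m r) (hm2 : m % 2 = 1) (hB2 : B % 2 = 1) {d : ℕ}
    (hd : (d : ℤ) = (B : ℤ) ^ 2 + 4 * m) (h8 : d % 8 = 5)
    {t : ℤ} (hB : zB a b t = B) (hm : zm a b t = m) (hr : zr a b t = r)
    {q N : ℕ} [NeZero q] (hcop : Nat.Coprime q d) (hN2 : N % 2 = 1) (hNd : Nat.Coprime d N)
    (χ : ZMod q → ZMod N) (hodd : ∀ x, χ (-x) = - χ x) (hmul : ∀ x y, χ (x * y) = χ x * χ y)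
    (hsum : (∑ u ∈ range q, (u : ZMod N) * χ (u : ZMod q)) * (q : ZMod N) = 0) :
    LK.Rel N χ (J4 a b t) := by
  have hm0 : 0 < m := by have := h.hm; omega
  have key := even_T5N m B hm0 hm2 (by exact_mod_cast hB2) (E4.cyc h) 2 rfl (by norm_num)
    (E4.closing h) (E4.P_ne h) hd h8 q N
    (Nat.pos_of_ne_zero (NeZero.ne q)) hcop hN2 hNd χ hodd hmul (by
      intro z
      linear_combination (3 * z) * hsum)
  simp only [KF.range_term] at key
  simp only [Finset.sum_range_succ,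
    Finset.sum_range_zero (M := ZMod N), zero_add, E4.P, E4.R, E4.S, E4.c] at key
  have s1 : KF.XX χ m B (-1) = KF.XX χ 1 B (-m) := by
    have := KF.XX_swap χ hodd 1 B (-m)
    rw [neg_neg] at this
    exact this
  have s2 : KF.XX χ r (2 * a * m - B) (-m) = KF.XX χ m (2 * a * m - B) (-r) := by
    have := KF.XX_swap χ hodd m (2 * a * m - B) (-r)
    rw [neg_neg] at this
    exact this
  have t1 : KF.YX χ r (2 * a * m - B) (-m) = KF.YX χ 1 B (-m) := by
    have h1 := KF.YX_swap χ hodd m (2 * a * m - B) (-r)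
    rw [neg_neg] at h1
    have h2 := K5.YY_step χ hodd 1 B m a
    have e : -(1 + (B : ℤ) * a - m * (a : ℤ) ^ 2) = -r := by rw [h.e1]
    rw [e] at h2
    rw [h1, h2, neg_neg]
  have r2 : zR a b t = 2 * a * m - B := by unfold zR; rw [hm, hB]; ring
  unfold LK.Rel J4
  simp only [List.map_cons, List.map_nil, List.sum_cons, List.sum_nil, add_zero]
  rw [r2, hB, hm, hr]
  rw [s1, s2, t1] at key
  push_cast
  linear_combination key

end Main

end Pool.Agent.Lib_helper5.K4
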