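import Pool.Agent.Lib_helper5.LKUse

/-!
The family of period five: polynomials, classes and forms.
-/

namespace Pool.Agent.Lib_helper5.K5

open Finset LK Pool.Agent.LibH4 Pool.Agent.LibH4.Ker Pool.Agent.LibH4.T6 Pool.Agent.LibH4.KF

/-! ### polynomials -/

/-- continuant -/
def k2 (b : ℤ) : ℤ := b * b + 1
/-- continuant -/
def k3 (a b : ℤ) : ℤ := a * k2 b + b
/-- continuant -/
def k4 (a b : ℤ) : ℤ := a * k3 a b + (a * b + 1)
/-- `B` -/
def zB (a b t : ℤ) : ℤ := k4 a b * t + k2 b * k3 a b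
/-- `m` -/
def zm (a b t : ℤ) : ℤ := k3 a b * t + k2 b * k2 b
/-- `m'` -/
def zm1 (a b t : ℤ) : ℤ := 1 + zB a b t * a - zm a b t * (a * a)
/-- the second middle coefficient -/
def zR2 (a b t : ℤ) : ℤ := 2 * (a * zm a b t) - zB a b t
/-- the third middle coefficient -/
def zR3 (a b t : ℤ) : ℤ := 2 * (b * zm1 a b t) - zR2 a b t
/-- the discriminant -/
def zd (a b t : ℤ) : ℤ := zB a b t * zB a b t + 4 * zm a b t

lemma ident2 (a b t : ℤ) : zm1 a b t * (1 + b ^ 2) = zm a b t + zR2 a b t * b := by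
  unfold zR2 zm1 zB zm k4 k3 k2
  ring

/-- the forms -/
def J5 (a b t : ℤ) : List Fm :=
  [⟨zm a b t, zB a b t, -1, 0, -zB a b t⟩,
   ⟨1, zB a b t, -zm a b t, 6, -(2 * a)⟩,
   ⟨zm a b t, zR2 a b t, -zm1 a b t, 6, -(2 * b)⟩,
   ⟨zm1 a b t, zR3 a b t, -zm1 a b t, 3, 0⟩]

lemma J5_ok (a b t : ℤ) : JOk (zd a b t) (J5 a b t) where
  ne := by simp [J5]
  hκ := by
    intro j hj
    simp only [J5, List.mem_cons, List.not_mem_nil, or_false] at hj
    rcases hj with rfl | rfl | rfl | rfl <;> simp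
  hD := by
    have h2 := ident2 a b t
    intro j hj
    simp only [J5, List.mem_cons, List.not_mem_nil, or_false] at hj
    rcases hj with rfl | rfl | rfl | rfl
    · simp only [zd]; ring
    · simp only [zd]; ring
    · simp only [zd]; unfold zR2 zm1; ring
    · simp only [zd, zR3]
      have e : zR2 a b t ^ 2 + 4 * zm a b t * zm1 a b t = zB a b t * zB a b t + 4 * zm a b t := by
        unfold zR2 zm1; ring
      linear_combination e + 4 * zm1 a b t * h2

/-! ### kernel functions -/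

/-- the data of a class -/
def withP5 {β : Type} (p a b t : ℕ) (k : ℕ → ℕ → ℕ → ℕ → ℕ → ℕ → ℕ → ℕ → β) : β :=
  strict (Nat.mod (Nat.add (Nat.mul b b) (nat_lit 1)) p) fun K2 =>
  strict (Nat.mod (Nat.add (Nat.mul a K2) b) p) fun K3 =>
  strict (Nat.mod (Nat.add (Nat.mul a K3) (Nat.add (Nat.mul a b) (nat_lit 1))) p) fun K4 =>
  strict (Nat.mod (Nat.add (Nat.mul K4 t) (Nat.mul K2 K3)) p) fun B =>
  strict (Nat.mod (Nat.add (Nat.mul K3 t) (Nat.mul K2 K2)) p) fun m =>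
  strict (Nat.mod (Nat.add (Nat.add (nat_lit 1) (Nat.mul B a))
    (Nat.mul (Nat.sub p (nat_lit 1)) (Nat.mul m (Nat.mul a a)))) p) fun m1 =>
  strict (Nat.mod (Nat.add (Nat.mul (nat_lit 2) (Nat.mul a m))
    (Nat.mul (Nat.sub p (nat_lit 1)) B)) p) fun R2 =>
  strict (Nat.mod (Nat.add (Nat.mul (nat_lit 2) (Nat.mul b m1))
    (Nat.mul (Nat.sub p (nat_lit 1)) R2)) p) fun R3 =>
  strict (Nat.mod (Nat.mul (Nat.sub p (nat_lit 1)) m) p) fun nm =>
  strict (Nat.mod (Nat.mul (Nat.sub p (nat_lit 1)) m1) p) fun nm1 =>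
  strict (Nat.mod (Nat.add (Nat.mul B B) (Nat.mul (nat_lit 4) m)) p) fun d =>
  k B m m1 nm nm1 R2 R3 d

/-- forms of the inner components -/
def forms5 (p : ℕ) (B m m1 nm nm1 R2 R3 : ℕ) : List (ℕ × ℕ × ℕ) :=
  [(m, B, Nat.sub p (nat_lit 1)), (nat_lit 1, B, nm), (m, R2, nm1), (m1, R3, nm1)]

/-- forms of the outer component, with coefficients modulo `l`: `a, b, B` modulo `l` are given -/
def FK5 (p l a b Bl B nm nm1 R2 R3 : ℕ) : List ((ℕ × ℕ) × (ℕ × ℕ)) :=
  [((B, Nat.sub p (nat_lit 1)), (nat_lit 0, Nat.mod (Nat.mul (Nat.sub l (nat_lit 1)) Bl) l)),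
   ((B, nm), (nat_lit 6, Nat.mod (Nat.mul (Nat.sub l (nat_lit 1)) (Nat.mul (nat_lit 2) a)) l)),
   ((R2, nm1), (nat_lit 6, Nat.mod (Nat.mul (Nat.sub l (nat_lit 1)) (Nat.mul (nat_lit 2) b)) l)),
   ((R3, nm1), (nat_lit 3, nat_lit 0))]

lemma rs_eq {p : ℕ} [NeZero p] {n : ℕ} {x : ℤ} (hn : n < p) (h : (n : ZMod p) = (x : ZMod p)) :
    n = rs p x := by
  rw [← rs_of h, Nat.mod_eq_of_lt hn]

lemma cast_pred {p : ℕ} [NeZero p] : ((p - 1 : ℕ) : ZMod p) = -1 := by
  rw [Nat.cast_sub (Nat.pos_of_ne_zero (NeZero.ne p))]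
  simp

lemma rs_neg_one {p : ℕ} [NeZero p] : p - 1 = rs p (-1) := by
  apply rs_eq
  · have := Nat.pos_of_ne_zero (NeZero.ne p); omega
  · rw [cast_pred]; push_cast; ring

lemma rs_one {p : ℕ} [NeZero p] (hp : 1 < p) : 1 = rs p 1 := by
  apply rs_eq hp
  push_cast; ring

lemma rs_zero {p : ℕ} [NeZero p] : 0 = rs p 0 := by
  apply rs_eq (Nat.pos_of_ne_zero (NeZero.ne p))
  push_cast; ring

lemma withP5_eq {β : Type} {p : ℕ} [NeZero p] (a b t : ℤ)
    (k : ℕ → ℕ → ℕ → ℕ → ℕ → ℕ → ℕ → ℕ → β) :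
    withP5 p (rs p a) (rs p b) (rs p t) k = k (rs p (zB a b t)) (rs p (zm a b t))
      (rs p (zm1 a b t)) (rs p (-zm a b t)) (rs p (-zm1 a b t)) (rs p (zR2 a b t))
      (rs p (zR3 a b t)) (rs p (zd a b t)) := by
  have e2 : Nat.mod (Nat.add (Nat.mul (rs p b) (rs p b)) (nat_lit 1)) p = rs p (k2 b) := by
    change (rs p b * rs p b + 1) % p = _
    apply rs_of; push_cast; simp only [rs_cast]; unfold k2; push_cast; ring
  have e3 : Nat.mod (Nat.add (Nat.mul (rs p a) (rs p (k2 b))) (rs p b)) p = rs p (k3 a b) := by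
    change (rs p a * rs p (k2 b) + rs p b) % p = _
    apply rs_of; push_cast; simp only [rs_cast]; unfold k3; push_cast; ring
  have e4 : Nat.mod (Nat.add (Nat.mul (rs p a) (rs p (k3 a b)))
      (Nat.add (Nat.mul (rs p a) (rs p b)) (nat_lit 1))) p = rs p (k4 a b) := by
    change (rs p a * rs p (k3 a b) + (rs p a * rs p b + 1)) % p = _
    apply rs_of; push_cast; simp only [rs_cast]; unfold k4; push_cast; ring
  have eB : Nat.mod (Nat.add (Nat.mul (rs p (k4 a b)) (rs p t))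
      (Nat.mul (rs p (k2 b)) (rs p (k3 a b)))) p = rs p (zB a b t) := by
    change (rs p (k4 a b) * rs p t + rs p (k2 b) * rs p (k3 a b)) % p = _
    apply rs_of; push_cast; simp only [rs_cast]; unfold zB; push_cast; ring
  have em : Nat.mod (Nat.add (Nat.mul (rs p (k3 a b)) (rs p t))
      (Nat.mul (rs p (k2 b)) (rs p (k2 b)))) p = rs p (zm a b t) := by
    change (rs p (k3 a b) * rs p t + rs p (k2 b) * rs p (k2 b)) % p = _
    apply rs_of; push_cast; simp only [rs_cast]; unfold zm; push_cast; ring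
  have em1 : Nat.mod (Nat.add (Nat.add (nat_lit 1) (Nat.mul (rs p (zB a b t)) (rs p a)))
      (Nat.mul (Nat.sub p (nat_lit 1)) (Nat.mul (rs p (zm a b t)) (Nat.mul (rs p a) (rs p a))))) p =
      rs p (zm1 a b t) := by
    change (1 + rs p (zB a b t) * rs p a + (p - 1) * (rs p (zm a b t) * (rs p a * rs p a))) % p = _
    apply rs_of; push_cast; simp only [rs_cast, cast_pred]; unfold zm1; push_cast; ring
  have eR2 : Nat.mod (Nat.add (Nat.mul (nat_lit 2) (Nat.mul (rs p a) (rs p (zm a b t))))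
      (Nat.mul (Nat.sub p (nat_lit 1)) (rs p (zB a b t)))) p = rs p (zR2 a b t) := by
    change (2 * (rs p a * rs p (zm a b t)) + (p - 1) * rs p (zB a b t)) % p = _
    apply rs_of; push_cast; simp only [rs_cast, cast_pred]; unfold zR2; push_cast; ring
  have eR3 : Nat.mod (Nat.add (Nat.mul (nat_lit 2) (Nat.mul (rs p b) (rs p (zm1 a b t))))
      (Nat.mul (Nat.sub p (nat_lit 1)) (rs p (zR2 a b t)))) p = rs p (zR3 a b t) := by
    change (2 * (rs p b * rs p (zm1 a b t)) + (p - 1) * rs p (zR2 a b t)) % p = _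
    apply rs_of; push_cast; simp only [rs_cast, cast_pred]; unfold zR3; push_cast; ring
  have enm : Nat.mod (Nat.mul (Nat.sub p (nat_lit 1)) (rs p (zm a b t))) p =
      rs p (-zm a b t) := by
    change ((p - 1) * rs p (zm a b t)) % p = _
    apply rs_of; push_cast; simp only [rs_cast, cast_pred]; push_cast; ring
  have enm1 : Nat.mod (Nat.mul (Nat.sub p (nat_lit 1)) (rs p (zm1 a b t))) p =
      rs p (-zm1 a b t) := by
    change ((p - 1) * rs p (zm1 a b t)) % p = _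
    apply rs_of; push_cast; simp only [rs_cast, cast_pred]; push_cast; ring
  have ed : Nat.mod (Nat.add (Nat.mul (rs p (zB a b t)) (rs p (zB a b t)))
      (Nat.mul (nat_lit 4) (rs p (zm a b t)))) p = rs p (zd a b t) := by
    change (rs p (zB a b t) * rs p (zB a b t) + 4 * rs p (zm a b t)) % p = _
    apply rs_of; push_cast; simp only [rs_cast]; unfold zd; push_cast; ring
  unfold withP5
  simp only [strict_eq]
  rw [e2, e3, e4, eB, em, em1, eR2, eR3, enm, enm1, ed]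

lemma withP5_ex {p a b t : ℕ} {k : ℕ → ℕ → ℕ → ℕ → ℕ → ℕ → ℕ → ℕ → Bool}
    (h : withP5 p a b t k = true) : ∃ B m m1 nm nm1 R2 R3 d, k B m m1 nm nm1 R2 R3 d = true := by
  unfold withP5 at h
  simp only [strict_eq] at h
  exact ⟨_, _, _, _, _, _, _, _, h⟩

lemma forms5_eq {p : ℕ} [NeZero p] (hp : 1 < p) (a b t : ℤ) :
    forms5 p (rs p (zB a b t)) (rs p (zm a b t)) (rs p (zm1 a b t)) (rs p (-zm a b t))
      (rs p (-zm1 a b t)) (rs p (zR2 a b t)) (rs p (zR3 a b t)) = (J5 a b t).map (fkI p) := by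
  have h1 : Nat.sub p (nat_lit 1) = rs p (-1) := rs_neg_one
  have h2 : (nat_lit 1) = rs p 1 := rs_one hp
  unfold forms5 J5 fkI
  rw [h1]
  simp only [List.map_cons, List.map_nil]
  rw [← h2]

lemma FK5_eq {p l : ℕ} [NeZero p] [NeZero l] (a b t : ℤ) :
    FK5 p l (rs l a) (rs l b) (rs l (zB a b t)) (rs p (zB a b t)) (rs p (-zm a b t))
      (rs p (-zm1 a b t)) (rs p (zR2 a b t)) (rs p (zR3 a b t)) = (J5 a b t).map (fkO p l) := by
  have h1 : Nat.sub p (nat_lit 1) = rs p (-1) := rs_neg_one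
  have h2 : Nat.mod (Nat.mul (Nat.sub l (nat_lit 1)) (rs l (zB a b t))) l = rs l (-zB a b t) := by
    change ((l - 1) * rs l (zB a b t)) % l = _
    apply rs_of; push_cast; simp only [rs_cast, cast_pred]; push_cast; ring
  have h3 : Nat.mod (Nat.mul (Nat.sub l (nat_lit 1)) (Nat.mul (nat_lit 2) (rs l a))) l =
      rs l (-(2 * a)) := by
    change ((l - 1) * (2 * rs l a)) % l = _
    apply rs_of; push_cast; simp only [rs_cast, cast_pred]; push_cast; ring
  have h4 : Nat.mod (Nat.mul (Nat.sub l (nat_lit 1)) (Nat.mul (nat_lit 2) (rs l b))) l =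
      rs l (-(2 * b)) := by
    change ((l - 1) * (2 * rs l b)) % l = _
    apply rs_of; push_cast; simp only [rs_cast, cast_pred]; push_cast; ring
  have h5 : (nat_lit 0) = rs l 0 := rs_zero
  unfold FK5 J5 fkO
  rw [h1, h2, h3, h4]
  simp only [List.map_cons, List.map_nil]
  rw [← h5]

end Pool.Agent.Lib_helper5.K5
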