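import Pool.Agent.Lib_helper4.KE1
import Pool.Agent.Lib_helper5.T5N
import Pool.Agent.Lib_helper5.E5
import Pool.Agent.Lib_helper5.P5K

/-!
The relations for the family of period five.
-/

namespace Pool.Agent.Lib_helper5.K5

open Finset LK Pool.Agent.LibH4 Pool.Agent.LibH4.Ker Pool.Agent.LibH4.T6 Pool.Agent.LibH4.KF

section Step

variable {q l : ℕ} [NeZero q] (χ : ZMod q → ZMod l)

/-- passage to the next form of a cycle -/
lemma YY_step (hodd : ∀ x, χ (-x) = - χ x) (P R S c : ℤ) :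
    KF.YY χ S (2 * c * S - R) (-(P + R * c - S * c ^ 2)) = - KF.YX χ P R (-S) := by
  unfold KF.YY KF.YX
  rw [Finset.sum_comm, ← Finset.sum_neg_distrib]
  apply Finset.sum_congr rfl
  intro y _
  rw [← Equiv.sum_comp (Equiv.addLeft (-((c : ZMod q) * y))), ← Finset.sum_neg_distrib]
  apply Finset.sum_congr rfl
  intro x _
  have e : fz q S (2 * c * S - R) (-(P + R * c - S * c ^ 2))
      ((Equiv.addLeft (-((c : ZMod q) * y))) x) y = - fz q P R (-S) y x := by
    unfold fz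
    simp only [Equiv.coe_addLeft]
    push_cast
    ring
  rw [e, hodd]
  ring

/-- sign of the middle coefficient -/
lemma XX_neg (P R S : ℤ) : KF.XX χ P (-R) S = - KF.XX χ P R S := by
  unfold KF.XX
  rw [← Finset.sum_neg_distrib]
  apply Finset.sum_congr rfl
  intro x _
  rw [← Equiv.sum_comp (Equiv.neg (ZMod q)), ← Finset.sum_neg_distrib]
  apply Finset.sum_congr rfl
  intro y _
  have e : fz q P (-R) S x ((Equiv.neg (ZMod q)) y) = fz q P R S x y := by
    unfold fz
    simp only [Equiv.neg_apply]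
    push_cast
    ring
  have hb : bz q l ((Equiv.neg (ZMod q)) y) = - bz q l y := by
    rw [Equiv.neg_apply]
    unfold bz bI
    by_cases hy : y = 0
    · subst hy; simp
    · have : NeZero y := ⟨hy⟩
      have hv : (-y).val = q - y.val := ZMod.val_neg_of_ne_zero y
      have hlt := ZMod.val_lt y
      have hpos : 0 < y.val := by
        rw [Nat.pos_iff_ne_zero, Ne, ZMod.val_eq_zero]
        exact hy
      rw [hv, if_neg (by omega), if_neg (by omega), Nat.cast_sub hlt.le]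
      ring
  rw [e, hb]
  ring

/-- sign of the middle coefficient -/
lemma YX_neg (P R S : ℤ) : KF.YX χ P (-R) S = KF.YX χ P R S := by
  unfold KF.YX
  apply Finset.sum_congr rfl
  intro x _
  rw [← Equiv.sum_comp (Equiv.neg (ZMod q))]
  apply Finset.sum_congr rfl
  intro y _
  have e : fz q P (-R) S x ((Equiv.neg (ZMod q)) y) = fz q P R S x y := by
    unfold fz
    simp only [Equiv.neg_apply]
    push_cast
    ring
  rw [e]

end Step

/-! ### signs of the parameters -/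

lemma k2_neg (b : ℤ) : k2 (-b) = k2 b := by unfold k2; ring
lemma k3_neg (a b : ℤ) : k3 (-a) (-b) = -k3 a b := by unfold k3; rw [k2_neg]; ring
lemma k4_neg (a b : ℤ) : k4 (-a) (-b) = k4 a b := by unfold k4; rw [k3_neg]; ring
lemma zB_neg (a b t : ℤ) : zB (-a) (-b) (-t) = -zB a b t := by
  unfold zB; rw [k4_neg, k3_neg, k2_neg]; ring
lemma zm_neg (a b t : ℤ) : zm (-a) (-b) (-t) = zm a b t := by
  unfold zm; rw [k3_neg, k2_neg]; ring
lemma zm1_neg (a b t : ℤ) : zm1 (-a) (-b) (-t) = zm1 a b t := by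
  unfold zm1; rw [zB_neg, zm_neg]; ring
lemma zR2_neg (a b t : ℤ) : zR2 (-a) (-b) (-t) = -zR2 a b t := by
  unfold zR2; rw [zB_neg, zm_neg]; ring
lemma zR3_neg (a b t : ℤ) : zR3 (-a) (-b) (-t) = -zR3 a b t := by
  unfold zR3; rw [zm1_neg, zR2_neg]; ring
lemma zd_neg (a b t : ℤ) : zd (-a) (-b) (-t) = zd a b t := by
  unfold zd; rw [zB_neg, zm_neg]; ring

lemma Rel_neg {N q : ℕ} [NeZero q] (χ : ZMod q → ZMod N) {a b t : ℤ} (h : LK.Rel N χ (J5 a b t)) :
    LK.Rel N χ (J5 (-a) (-b) (-t)) := by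
  unfold LK.Rel J5 at h ⊢
  simp only [List.map_cons, List.map_nil, List.sum_cons, List.sum_nil, add_zero] at h ⊢
  rw [zB_neg, zm_neg, zm1_neg, zR2_neg, zR3_neg, XX_neg, XX_neg, XX_neg, XX_neg, YX_neg, YX_neg,
    YX_neg, YX_neg]
  push_cast at h ⊢
  linear_combination (-1 : ZMod N) * h

/-! ### the parameters -/

/-- parametrisation -/
lemma exists_t {a b B : ℕ} {m m' : ℤ} (h : E5.Par a b B m m') :
    ∃ t : ℤ, zB a b t = B ∧ zm a b t = m ∧ zm1 a b t = m' := by
  have e1 := h.e1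
  have e2 := h.e2
  have key : m * k4 a b = k2 b + B * k3 a b := by
    unfold k4 k3 k2
    rw [e1] at e2
    linear_combination (-1) * e2
  have id : k2 b * k4 a b - k3 a b * k3 a b = 1 := by
    unfold k4 k3 k2
    ring
  have hB : zB a b (k2 b * ((B : ℤ) - k2 b * k3 a b) - k3 a b * (m - k2 b * k2 b)) = B := by
    unfold zB
    linear_combination (-(k3 a b)) * key + (B : ℤ) * id
  have hm : zm a b (k2 b * ((B : ℤ) - k2 b * k3 a b) - k3 a b * (m - k2 b * k2 b)) = m := by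
    unfold zm
    linear_combination (-(k2 b)) * key + m * id
  refine ⟨_, hB, hm, ?_⟩
  unfold zm1
  rw [hB, hm, e1]
  ring


/-! ### the relations -/

/-- inertness -/
def In (p : ℕ) (x : ℤ) : Prop := Nat.beq (Nat.mod (Nat.pow (rs p x) (p / 2)) p) (p - 1) = true

lemma zd_eq {a b B : ℕ} {m : ℤ} {t : ℤ} (hB : zB a b t = B) (hm : zm a b t = m) :
    zd a b t = (B : ℤ) ^ 2 + 4 * m := by
  unfold zd
  rw [hB, hm]
  ring

section Main

variable {a b B : ℕ} {m m' : ℤ}
  [IsDomain (QuadraticAlgebra ℤ m (B : ℤ))] [UniqueFactorizationMonoid (QuadraticAlgebra ℤ m (B : ℤ))]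

/-- inert primes -/
lemma in_of (h : E5.Par a b B m m') {d : ℕ} (hd : (d : ℤ) = (B : ℤ) ^ 2 + 4 * m) (h8 : d % 8 = 5)
    {t : ℤ} (hB : zB a b t = B) (hm : zm a b t = m) {p : ℕ} (hp : p.Prime) (hp2 : p ≠ 2)
    (hpm : (p : ℤ) < m) (hpm' : (p : ℤ) < m') : In p (zd a b t) := by
  have h1 := E5.inert h hd h8 p hp hp2 hpm hpm'
  have : Fact p.Prime := ⟨hp⟩
  have h2 : ((jacobiSym d p : ℤ) : ZMod p) = (d : ZMod p) ^ (p / 2) := by
    rw [← jacobiSym.legendreSym.to_jacobiSym, legendreSym.eq_pow]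
    push_cast
    rfl
  have h3 : ((rs p (zd a b t) : ℕ) : ZMod p) = (d : ZMod p) := by
    rw [rs_cast, zd_eq hB hm, ← hd]
    push_cast
    rfl
  have h4 : (((rs p (zd a b t)) ^ (p / 2) : ℕ) : ZMod p) = ((p - 1 : ℕ) : ZMod p) := by
    rw [Nat.cast_pow, h3, ← h2, h1, cast_pred]
    push_cast
    rfl
  have h5 := (ZMod.natCast_eq_natCast_iff' _ _ p).1 h4
  have hp1 := hp.two_le
  rw [Nat.mod_eq_of_lt (show p - 1 < p by omega)] at h5
  have h6 : Nat.mod (Nat.pow (rs p (zd a b t)) (p / 2)) p = p - 1 := h5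
  unfold In
  rw [h6]
  exact Nat.beq_refl _

/-- the relations hold -/
theorem rel_of (h : E5.Par a b B m m') (hm2 : m % 2 = 1) (hB2 : B % 2 = 1) {d : ℕ}
    (hd : (d : ℤ) = (B : ℤ) ^ 2 + 4 * m) (h8 : d % 8 = 5)
    {t : ℤ} (hB : zB a b t = B) (hm : zm a b t = m) (hm1 : zm1 a b t = m')
    {q N : ℕ} [NeZero q] (hcop : Nat.Coprime q d) (hN2 : N % 2 = 1) (hNd : Nat.Coprime d N)
    (χ : ZMod q → ZMod N) (hodd : ∀ x, χ (-x) = - χ x) (hmul : ∀ x y, χ (x * y) = χ x * χ y)
    (hsum : (∑ u ∈ range q, (u : ZMod N) * χ (u : ZMod q)) * (q : ZMod N) = 0) :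
    LK.Rel N χ (J5 a b t) := by
  have hm0 : 0 < m := by have := h.hm; omega
  have key := odd_T5N m B hm0 hm2 (by exact_mod_cast hB2) (E5.cyc h) hd h8 q N
    (Nat.pos_of_ne_zero (NeZero.ne q)) hcop hN2 hNd χ hodd hmul (by
      intro z
      linear_combination (3 * z) * hsum)
  simp only [KF.range_term] at key
  simp only [Nat.reduceMul, Nat.reduceAdd, Finset.sum_range_succ,
    Finset.sum_range_zero (M := ZMod N), zero_add, E5.P, E5.R, E5.S, E5.c, Nat.zero_mod,
    Nat.reduceMod] at key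
  have s1 : KF.XX χ m B (-1) = KF.XX χ 1 B (-m) := by
    have := KF.XX_swap χ hodd 1 B (-m)
    rw [neg_neg] at this
    exact this
  have s2 : KF.XX χ m' (2 * a * m - B) (-m) = KF.XX χ m (2 * a * m - B) (-m') := by
    have := KF.XX_swap χ hodd m (2 * a * m - B) (-m')
    rw [neg_neg] at this
    exact this
  have t1 : KF.YX χ m' (2 * a * m - B) (-m) = KF.YX χ 1 B (-m) := by
    have h1 := KF.YX_swap χ hodd m (2 * a * m - B) (-m')
    rw [neg_neg] at h1
    have h2 := YY_step χ hodd 1 B m a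
    have e : -(1 + (B : ℤ) * a - m * (a : ℤ) ^ 2) = -m' := by rw [h.e1]
    rw [e] at h2
    rw [h1, h2, neg_neg]
  have t2 : KF.YX χ m' (2 * b * m' - (2 * a * m - B)) (-m') = KF.YX χ m (2 * a * m - B) (-m') := by
    have h1 := KF.YX_swap χ hodd m' (2 * b * m' - (2 * a * m - B)) (-m')
    rw [neg_neg] at h1
    have h2 := YY_step χ hodd m (2 * a * m - B) m' b
    have e : -(m + (2 * a * m - B) * b - m' * (b : ℤ) ^ 2) = -m' := by
      have := h.e2
      linear_combination this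
    rw [e] at h2
    rw [h1, h2, neg_neg]
  have r2 : zR2 a b t = 2 * a * m - B := by unfold zR2; rw [hm, hB]; ring
  have r3 : zR3 a b t = 2 * b * m' - (2 * a * m - B) := by unfold zR3; rw [hm1, r2]; ring
  unfold LK.Rel J5
  simp only [List.map_cons, List.map_nil, List.sum_cons, List.sum_nil, add_zero]
  rw [r3, r2, hB, hm, hm1]
  rw [s1, s2, t1, t2] at key
  push_cast
  linear_combination key

end Main

end Pool.Agent.Lib_helper5.K5
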