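import Pool.Agent.Lib_helper5.Gam

/-!
Weighted periodic geometric series.
-/

namespace Pool.Agent.Lib_helper5

open Real Finset

/-- the weight `1/2` at `0` and `1` elsewhere -/
noncomputable def hw (n : ℕ) : ℝ := if n = 0 then 1 / 2 else 1

lemma hw_nonneg (n : ℕ) : 0 ≤ hw n := by
  unfold hw; split_ifs <;> norm_num

lemma hw_le_one (n : ℕ) : hw n ≤ 1 := by
  unfold hw; split_ifs <;> norm_num

/-- minus the sawtooth function at `r / q` for `0 ≤ r < q` -/
noncomputable def bet (q r : ℕ) : ℝ := if r = 0 then 0 else 1 / 2 - (r : ℝ) / q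

/-- the closed form of the weighted geometric series over `n ≡ r mod q` -/
noncomputable def psi (q r : ℕ) (t : ℝ) : ℝ :=
  1 / (q * t) + bet q r + Gam ((r : ℝ) / q) (q * t)

lemma psi_eq (q r : ℕ) (hq : 0 < q) (t : ℝ) (ht : 0 < t) :
    psi q r t = exp (-(r * t)) / (1 - exp (-(q * t))) - (if r = 0 then 1 / 2 else 0) := by
  unfold psi bet Gam
  have hq' : (0:ℝ) < q := by exact_mod_cast hq
  have e : (r : ℝ) / q * (q * t) = r * t := by field_simp
  rw [e]
  split_ifs with h
  · subst h; simp; ring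
  · ring

/-- basic geometric series over a residue class -/
lemma hasSum_residue (q r : ℕ) (hq : 0 < q) (hr : r < q) (t : ℝ) (ht : 0 < t) :
    HasSum (fun n : ℕ => if n % q = r then exp (-(t * n)) else 0)
      (exp (-(r * t)) / (1 - exp (-(q * t)))) := by
  have hq' : (0:ℝ) < q := by exact_mod_cast hq
  have hinj : Function.Injective (fun k : ℕ => r + q * k) := by
    intro a b h
    have : q * a = q * b := by simpa using h
    exact Nat.eq_of_mul_eq_mul_left hq this
  rw [← hinj.hasSum_iff]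
  · have h1 : exp (-(q * t)) < 1 := by
      rw [exp_lt_one_iff]
      have : 0 < q * t := by positivity
      linarith
    have h0 : 0 ≤ exp (-(q * t)) := (exp_pos _).le
    have hg := (hasSum_geometric_of_lt_one h0 h1).mul_left (exp (-(r * t)))
    rw [← div_eq_mul_inv] at hg
    refine hg.congr_fun ?_
    intro k
    have hmod : (r + q * k) % q = r := by
      rw [Nat.add_mul_mod_self_left, Nat.mod_eq_of_lt hr]
    simp only [Function.comp, hmod, if_true]
    rw [← exp_nat_mul, ← exp_add]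
    congr 1
    push_cast
    ring
  · intro n hn
    have : n % q ≠ r := by
      intro h
      apply hn
      refine ⟨n / q, ?_⟩
      simp only
      rw [← h]
      exact Nat.mod_add_div n q
    simp [this]

lemma hasSum_hw_residue (q r : ℕ) (hq : 0 < q) (hr : r < q) (t : ℝ) (ht : 0 < t) :
    HasSum (fun n : ℕ => if n % q = r then hw n * exp (-(t * n)) else 0) (psi q r t) := by
  rw [psi_eq q r hq t ht]
  have h1 := hasSum_residue q r hq hr t ht
  have h2 : HasSum (fun n : ℕ => if n = 0 then (if r = 0 then (1:ℝ) / 2 else 0) else 0)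
      (if r = 0 then (1:ℝ) / 2 else 0) := hasSum_ite_eq 0 _
  refine (h1.sub h2).congr_fun ?_
  intro n
  by_cases hn : n = 0
  · subst hn
    by_cases hr0 : r = 0
    · subst hr0; simp [hw]; norm_num
    · have : ¬ (0 = r) := fun h => hr0 h.symm
      simp [this, hr0]
  · simp [hn, hw]

/-- Periodic coefficients, one variable. -/
lemma hasSum_hw_periodic (q : ℕ) (hq : 0 < q) (c : ℕ → ℝ) (hc : ∀ n, c (n % q) = c n) (t : ℝ)
    (ht : 0 < t) :
    HasSum (fun n : ℕ => hw n * c n * exp (-(t * n))) (∑ r ∈ range q, c r * psi q r t) := by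
  have h := hasSum_sum (s := range q)
    (f := fun r (n : ℕ) => c r * (if n % q = r then hw n * exp (-(t * n)) else 0))
    (a := fun r => c r * psi q r t)
    (fun r hr => (hasSum_hw_residue q r hq (mem_range.1 hr) t ht).mul_left (c r))
  refine h.congr_fun ?_
  intro n
  have hmem : n % q ∈ range q := mem_range.2 (Nat.mod_lt _ hq)
  rw [Finset.sum_eq_single_of_mem (n % q) hmem]
  · simp only [if_true]
    rw [hc n]; ring
  · intro r _ hne
    simp [hne.symm]

/-- the two variable generating function -/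
noncomputable def FF (q1 q2 : ℕ) (g : ℕ → ℕ → ℝ) (l m : ℝ) : ℝ :=
  ∑ r ∈ range q1, ∑ s ∈ range q2, g r s * (psi q1 r l * psi q2 s m)

lemma hasSum_FF (q1 q2 : ℕ) (h1 : 0 < q1) (h2 : 0 < q2) (g : ℕ → ℕ → ℝ)
    (hg : ∀ x z, g (x % q1) (z % q2) = g x z) (l m : ℝ) (hl : 0 < l) (hm : 0 < m) :
    HasSum (fun p : ℕ × ℕ => hw p.1 * hw p.2 * g p.1 p.2 * exp (-(l * p.1 + m * p.2)))
      (FF q1 q2 g l m) := by
  unfold FF
  have hbase : ∀ r < q1, ∀ s < q2, HasSum (fun p : ℕ × ℕ =>
      (if p.1 % q1 = r then hw p.1 * exp (-(l * p.1)) else 0) *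
      (if p.2 % q2 = s then hw p.2 * exp (-(m * p.2)) else 0)) (psi q1 r l * psi q2 s m) := by
    intro r hr s hs
    have hA := hasSum_hw_residue q1 r h1 hr l hl
    have hB := hasSum_hw_residue q2 s h2 hs m hm
    apply HasSum.mul hA hB
    apply Summable.mul_of_nonneg hA.summable hB.summable
    · intro n
      simp only [Pi.zero_apply]
      split_ifs
      · exact mul_nonneg (hw_nonneg _) (exp_pos _).le
      · exact le_rfl
    · intro n
      simp only [Pi.zero_apply]
      split_ifs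
      · exact mul_nonneg (hw_nonneg _) (exp_pos _).le
      · exact le_rfl
  have h := hasSum_sum (s := range q1) (f := fun r (p : ℕ × ℕ) => ∑ s ∈ range q2, g r s *
      ((if p.1 % q1 = r then hw p.1 * exp (-(l * p.1)) else 0) *
      (if p.2 % q2 = s then hw p.2 * exp (-(m * p.2)) else 0)))
    (a := fun r => ∑ s ∈ range q2, g r s * (psi q1 r l * psi q2 s m))
    (fun r hr => hasSum_sum (fun s hs =>
      (hbase r (mem_range.1 hr) s (mem_range.1 hs)).mul_left (g r s)))
  refine h.congr_fun ?_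
  intro p
  have hm1 : p.1 % q1 ∈ range q1 := mem_range.2 (Nat.mod_lt _ h1)
  have hm2 : p.2 % q2 ∈ range q2 := mem_range.2 (Nat.mod_lt _ h2)
  rw [Finset.sum_eq_single_of_mem (p.1 % q1) hm1]
  · rw [Finset.sum_eq_single_of_mem (p.2 % q2) hm2]
    · simp only [if_true]
      rw [hg p.1 p.2, neg_add, exp_add]; ring
    · intro s _ hne
      simp [hne.symm]
  · intro r _ hne
    apply Finset.sum_eq_zero
    intro s _
    simp [hne.symm]

/-- the kernel -/
noncomputable def kf (s : ℝ) : ℝ := exp (-s) - exp (-(2 * s))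

lemma kf_nonneg {s : ℝ} (hs : 0 ≤ s) : 0 ≤ kf s := by
  unfold kf
  have : exp (-(2 * s)) ≤ exp (-s) := exp_le_exp.2 (by linarith)
  linarith

lemma kf_le (s : ℝ) : kf s ≤ exp (-s) := by
  unfold kf
  have := exp_pos (-(2 * s))
  linarith

lemma kf_continuous : Continuous kf := by
  unfold kf
  fun_prop

/-- the difference of the generating function at `(l,m)` and `(2l,2m)` -/
noncomputable def GG (q1 q2 : ℕ) (g : ℕ → ℕ → ℝ) (l m : ℝ) : ℝ :=
  FF q1 q2 g l m - FF q1 q2 g (2 * l) (2 * m)

lemma hasSum_GG (q1 q2 : ℕ) (h1 : 0 < q1) (h2 : 0 < q2) (g : ℕ → ℕ → ℝ)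
    (hg : ∀ x z, g (x % q1) (z % q2) = g x z) (l m : ℝ) (hl : 0 < l) (hm : 0 < m) :
    HasSum (fun p : ℕ × ℕ => hw p.1 * hw p.2 * g p.1 p.2 * kf (l * p.1 + m * p.2))
      (GG q1 q2 g l m) := by
  unfold GG
  have a := hasSum_FF q1 q2 h1 h2 g hg l m hl hm
  have b := hasSum_FF q1 q2 h1 h2 g hg (2 * l) (2 * m) (by linarith) (by linarith)
  refine (a.sub b).congr_fun ?_
  intro p
  unfold kf
  have : -(2 * l * (p.1 : ℝ) + 2 * m * p.2) = -(2 * (l * p.1 + m * p.2)) := by ring
  rw [this]
  ring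

end Pool.Agent.Lib_helper5
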