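import Pool.Agent.Lib_helper5.Cone3

/-!
The Frullani type limit for the split form `x y`.
-/

namespace Pool.Agent.Lib_helper5

open Real MeasureTheory Set Filter Topology
open Finset (range)

/-- `psi` without its pole -/
noncomputable def UU (q r : ℕ) (t : ℝ) : ℝ := bet q r + Gam ((r : ℝ) / q) (q * t)

lemma UU_eq (q r : ℕ) (t : ℝ) : UU q r t = psi q r t - 1 / (q * t) := by
  unfold UU psi; ring

lemma FF_eq_UU (q1 q2 : ℕ) (g : ℕ → ℕ → ℝ)
    (hrow : ∀ r < q1, ∑ s ∈ range q2, g r s = 0)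
    (hcol : ∀ s < q2, ∑ r ∈ range q1, g r s = 0) (l m : ℝ) :
    FF q1 q2 g l m = ∑ r ∈ range q1, ∑ s ∈ range q2, g r s * (UU q1 r l * UU q2 s m) := by
  have h1 : FF q1 q2 g l m = (∑ r ∈ range q1, ∑ s ∈ range q2, g r s * (UU q1 r l * UU q2 s m))
      + (∑ r ∈ range q1, ∑ s ∈ range q2, g r s * (psi q1 r l * (1 / (q2 * m))))
      + (∑ s ∈ range q2, ∑ r ∈ range q1, g r s * (UU q2 s m * (1 / (q1 * l)))) := by
    rw [Finset.sum_comm (s := range q2)]
    unfold FF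
    simp only [← Finset.sum_add_distrib]
    apply Finset.sum_congr rfl
    intro r _
    apply Finset.sum_congr rfl
    intro s _
    rw [UU_eq, UU_eq]
    ring
  rw [h1]
  have h2 : (∑ r ∈ range q1, ∑ s ∈ range q2, g r s * (psi q1 r l * (1 / (q2 * m)))) = 0 := by
    apply Finset.sum_eq_zero
    intro r hr
    rw [← Finset.sum_mul, hrow r (Finset.mem_range.1 hr), zero_mul]
  have h3 : (∑ s ∈ range q2, ∑ r ∈ range q1, g r s * (UU q2 s m * (1 / (q1 * l)))) = 0 := by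
    apply Finset.sum_eq_zero
    intro s hs
    rw [← Finset.sum_mul, hcol s (Finset.mem_range.1 hs), zero_mul]
  rw [h2, h3]
  ring

lemma FF_swap (q1 q2 : ℕ) (g : ℕ → ℕ → ℝ) (l m : ℝ) :
    FF q1 q2 g l m = FF q2 q1 (fun s r => g r s) m l := by
  unfold FF
  rw [Finset.sum_comm]
  apply Finset.sum_congr rfl
  intro s _
  apply Finset.sum_congr rfl
  intro r _
  ring

lemma UU_continuousOn (q r : ℕ) (hq : 0 < q) : ContinuousOn (UU q r) (Ioi 0) := by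
  have hq' : (0:ℝ) < q := by exact_mod_cast hq
  unfold UU
  apply continuousOn_const.add
  apply (Gam_continuousOn ((r : ℝ) / q)).comp (by fun_prop)
  intro x hx
  have hx' : 0 < x := hx
  exact mul_pos hq' hx'

lemma UU_tendsto_zero {q r : ℕ} (hr : r < q) : Tendsto (UU q r) (𝓝[>] 0) (𝓝 (bet q r)) := by
  have hq : (0:ℝ) < q := by exact_mod_cast (Nat.zero_le r).trans_lt hr
  obtain ⟨h1, h2⟩ := div_mem01 hr
  have := ((Gam_tendsto_zero h1 h2).comp (tendsto_mul_pos_nhdsGT hq)).const_add (bet q r)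
  rw [add_zero] at this
  exact this

lemma UU_tendsto_atTop (q r : ℕ) (hq : 0 < q) :
    Tendsto (UU q r) atTop (𝓝 (if r = 0 then 1 / 2 else 0)) := by
  have hq' : (0:ℝ) < q := by exact_mod_cast hq
  have h1 : Tendsto (fun t : ℝ => 1 / ((q:ℝ) * t)) atTop (𝓝 0) := by
    apply tendsto_const_nhds.div_atTop
    exact tendsto_id.const_mul_atTop hq'
  have h2 := (psi_tendsto_atTop q r hq).sub h1
  rw [sub_zero] at h2
  refine h2.congr ?_
  intro t
  rw [UU_eq]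

lemma UU_bound {q1 r q2 s : ℕ} (hr : r < q1) (hs : s < q2) :
    ∃ C : ℝ, 0 ≤ C ∧ ∀ X Y : ℝ, 0 < X → 0 < Y → Y ≤ X → Y ≤ 1 / X →
      |UU q1 r X * UU q2 s Y - UU q1 r (2 * X) * UU q2 s (2 * Y)| ≤ C * (X / (1 + X ^ 2)) := by
  obtain ⟨h1, h2⟩ := div_mem01 hr
  obtain ⟨h3, h4⟩ := div_mem01 hs
  obtain ⟨C1, hC1, B1⟩ := Gam_bounds h1 h2
  obtain ⟨C2, hC2, B2'⟩ := Gam_bounds h3 h4
  have hq1 : (0:ℝ) < q1 := by exact_mod_cast (Nat.zero_le r).trans_lt hr
  have hq2 : (0:ℝ) < q2 := by exact_mod_cast (Nat.zero_le s).trans_lt hs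
  refine ⟨(2 * (C1 * q1 + C1 / q1)) * (|bet q2 s| + C2) +
    (|bet q1 r| + C1) * (2 * (C2 * q2)), by positivity, ?_⟩
  intro X Y hX hY hYX hY1
  obtain ⟨a1, a2, a3, a4, a5, a6⟩ := B1 (q1 * X) (by positivity)
  obtain ⟨e1, e2, e3, e4, e5, e6⟩ := B2' (q2 * Y) (by positivity)
  obtain ⟨a1', a2', -, -, -, -⟩ := B1 (q1 * (2 * X)) (by positivity)
  have f1 : |UU q1 r X - UU q1 r (2 * X)| ≤ (2 * (C1 * q1 + C1 / q1)) * (X / (1 + X ^ 2)) := by
    have e : UU q1 r X - UU q1 r (2 * X)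
        = Gam ((r : ℝ) / q1) (q1 * X) - Gam ((r : ℝ) / q1) (2 * (q1 * X)) := by
      unfold UU
      rw [show (q1:ℝ) * (2 * X) = 2 * (q1 * X) by ring]
      ring
    rw [e]
    apply le_K_of hX
    · refine a3.trans ?_
      have : 0 ≤ C1 / q1 * X := by positivity
      nlinarith
    · refine a4.trans ?_
      have e5 : C1 * (1 / (q1 * X)) = C1 / q1 * (1 / X) := by field_simp
      rw [e5]
      have : 0 ≤ C1 * q1 * (1 / X) := by positivity
      nlinarith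
  have f2 : |UU q2 s Y| ≤ |bet q2 s| + C2 := by
    unfold UU
    exact (abs_add_le _ _).trans (by linarith)
  have f3 : |UU q1 r (2 * X)| ≤ |bet q1 r| + C1 := by
    unfold UU
    exact (abs_add_le _ _).trans (by linarith)
  have f4 : |UU q2 s Y - UU q2 s (2 * Y)| ≤ (2 * (C2 * q2)) * (X / (1 + X ^ 2)) := by
    have e : UU q2 s Y - UU q2 s (2 * Y)
        = Gam ((s : ℝ) / q2) (q2 * Y) - Gam ((s : ℝ) / q2) (2 * (q2 * Y)) := by
      unfold UU
      rw [show (q2:ℝ) * (2 * Y) = 2 * (q2 * Y) by ring]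
      ring
    rw [e]
    apply le_K_of hX
    · refine e3.trans ?_
      have : C2 * q2 * Y ≤ C2 * q2 * X := by gcongr
      linarith
    · refine e3.trans ?_
      have : C2 * q2 * Y ≤ C2 * q2 * (1 / X) := by gcongr
      linarith
  have hK : 0 ≤ X / (1 + X ^ 2) := by positivity
  have key : UU q1 r X * UU q2 s Y - UU q1 r (2 * X) * UU q2 s (2 * Y)
      = (UU q1 r X - UU q1 r (2 * X)) * UU q2 s Y
        + UU q1 r (2 * X) * (UU q2 s Y - UU q2 s (2 * Y)) := by ring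
  rw [key]
  refine (abs_add_le _ _).trans ?_
  rw [abs_mul, abs_mul, add_mul]
  apply add_le_add
  · calc |UU q1 r X - UU q1 r (2 * X)| * |UU q2 s Y|
        ≤ ((2 * (C1 * q1 + C1 / q1)) * (X / (1 + X ^ 2))) * (|bet q2 s| + C2) := by gcongr
      _ = _ := by ring
  · calc |UU q1 r (2 * X)| * |UU q2 s Y - UU q2 s (2 * Y)|
        ≤ (|bet q1 r| + C1) * ((2 * (C2 * q2)) * (X / (1 + X ^ 2))) := by gcongr
      _ = _ := by ring

lemma FF_split_bound (q1 q2 : ℕ) (g : ℕ → ℕ → ℝ)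
    (hrow : ∀ r < q1, ∑ s ∈ range q2, g r s = 0)
    (hcol : ∀ s < q2, ∑ r ∈ range q1, g r s = 0) :
    ∃ C : ℝ, 0 ≤ C ∧ ∀ X Y : ℝ, 0 < X → 0 < Y → Y ≤ X → Y ≤ 1 / X →
      |FF q1 q2 g X Y - FF q1 q2 g (2 * X) (2 * Y)| ≤ C * (X / (1 + X ^ 2)) := by
  have hch : ∀ r s : ℕ, ∃ C : ℝ, 0 ≤ C ∧ (r < q1 → s < q2 → ∀ X Y : ℝ, 0 < X → 0 < Y → Y ≤ X →
      Y ≤ 1 / X →
      |UU q1 r X * UU q2 s Y - UU q1 r (2 * X) * UU q2 s (2 * Y)| ≤ C * (X / (1 + X ^ 2))) := by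
    intro r s
    by_cases hrs : r < q1 ∧ s < q2
    · obtain ⟨C, hC, h⟩ := UU_bound hrs.1 hrs.2
      exact ⟨C, hC, fun _ _ => h⟩
    · exact ⟨0, le_rfl, fun a b => absurd ⟨a, b⟩ hrs⟩
  choose Cf hCf hCb using hch
  refine ⟨∑ r ∈ range q1, ∑ s ∈ range q2, |g r s| * Cf r s, ?_, ?_⟩
  · apply Finset.sum_nonneg
    intro r _
    apply Finset.sum_nonneg
    intro s _
    exact mul_nonneg (abs_nonneg _) (hCf r s)
  intro X Y hX hY hYX hY1
  rw [FF_eq_UU q1 q2 g hrow hcol, FF_eq_UU q1 q2 g hrow hcol, ← Finset.sum_sub_distrib]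
  rw [Finset.sum_mul]
  refine (Finset.abs_sum_le_sum_abs _ _).trans (Finset.sum_le_sum ?_)
  intro r hr
  rw [← Finset.sum_sub_distrib, Finset.sum_mul]
  refine (Finset.abs_sum_le_sum_abs _ _).trans (Finset.sum_le_sum ?_)
  intro s hs'
  rw [← mul_sub, abs_mul, mul_assoc]
  apply mul_le_mul_of_nonneg_left _ (abs_nonneg _)
  exact hCb r s (Finset.mem_range.1 hr) (Finset.mem_range.1 hs') X Y hX hY hYX hY1

/-- the function obtained by letting the second variable tend to `0` -/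
noncomputable def HH (q1 q2 : ℕ) (g : ℕ → ℕ → ℝ) (X : ℝ) : ℝ :=
  ∑ r ∈ range q1, ∑ s ∈ range q2, g r s * (UU q1 r X * bet q2 s)

/-- the limit value in the split case -/
noncomputable def bb (q1 q2 : ℕ) (g : ℕ → ℕ → ℝ) : ℝ :=
  ∑ r ∈ range q1, ∑ s ∈ range q2, g r s * (bet q1 r * bet q2 s)

lemma bb_swap (q1 q2 : ℕ) (g : ℕ → ℕ → ℝ) : bb q2 q1 (fun s r => g r s) = bb q1 q2 g := by
  unfold bb
  rw [Finset.sum_comm]
  apply Finset.sum_congr rfl
  intro s _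
  apply Finset.sum_congr rfl
  intro r _
  ring

lemma HH_continuousOn (q1 q2 : ℕ) (hq1 : 0 < q1) (g : ℕ → ℕ → ℝ) :
    ContinuousOn (HH q1 q2 g) (Ioi 0) := by
  unfold HH
  apply continuousOn_finsetSum
  intro r _
  apply continuousOn_finsetSum
  intro s _
  apply ContinuousOn.mul continuousOn_const
  exact (UU_continuousOn q1 r hq1).mul continuousOn_const

lemma FF_tendsto_HH (q1 q2 : ℕ) (g : ℕ → ℕ → ℝ)
    (hrow : ∀ r < q1, ∑ s ∈ range q2, g r s = 0)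
    (hcol : ∀ s < q2, ∑ r ∈ range q1, g r s = 0) (X : ℝ) :
    Tendsto (fun Y => FF q1 q2 g X Y) (𝓝[>] 0) (𝓝 (HH q1 q2 g X)) := by
  simp_rw [FF_eq_UU q1 q2 g hrow hcol]
  unfold HH
  apply tendsto_finsetSum
  intro r hr
  apply tendsto_finsetSum
  intro s hs'
  apply Tendsto.const_mul
  apply Tendsto.const_mul
  exact UU_tendsto_zero (Finset.mem_range.1 hs')

lemma HH_tendsto_zero (q1 q2 : ℕ) (g : ℕ → ℕ → ℝ) :
    Tendsto (HH q1 q2 g) (𝓝[>] 0) (𝓝 (bb q1 q2 g)) := by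
  unfold HH bb
  apply tendsto_finsetSum
  intro r hr
  apply tendsto_finsetSum
  intro s hs'
  apply Tendsto.const_mul
  apply Tendsto.mul_const
  exact UU_tendsto_zero (Finset.mem_range.1 hr)

lemma HH_tendsto_atTop (q1 q2 : ℕ) (hq1 : 0 < q1) (g : ℕ → ℕ → ℝ) (h0 : ∀ s, g 0 s = 0) :
    Tendsto (HH q1 q2 g) atTop (𝓝 0) := by
  have e : (0:ℝ) = ∑ r ∈ range q1, ∑ s ∈ range q2, g r s *
      ((if r = 0 then 1 / 2 else 0) * bet q2 s) := by
    symm
    apply Finset.sum_eq_zero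
    intro r _
    apply Finset.sum_eq_zero
    intro s _
    by_cases hr : r = 0
    · subst hr; rw [h0, zero_mul]
    · simp [hr]
  rw [e]
  unfold HH
  apply tendsto_finsetSum
  intro r _
  apply tendsto_finsetSum
  intro s _
  apply Tendsto.const_mul
  apply Tendsto.mul_const
  exact UU_tendsto_atTop q1 r hq1

attribute [local irreducible] FF HH

theorem split_limit (q1 q2 : ℕ) (hq1 : 0 < q1) (hq2 : 0 < q2) (g : ℕ → ℕ → ℝ)
    (hrow : ∀ r < q1, ∑ s ∈ range q2, g r s = 0)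
    (hcol : ∀ s < q2, ∑ r ∈ range q1, g r s = 0)
    (h0 : ∀ s, g 0 s = 0) (h0' : ∀ r, g r 0 = 0) :
    Tendsto (fun τ => ∫ X in Ioi (0:ℝ), X⁻¹ * GG q1 q2 g X (τ / X))
      (𝓝[>] 0) (𝓝 (log 2 * (bb q1 q2 g + bb q1 q2 g))) := by
  obtain ⟨C1, hC1, hb1⟩ := FF_split_bound q1 q2 g hrow hcol
  obtain ⟨C2, hC2, hb2⟩ := FF_split_bound q2 q1 (fun s r => g r s) hcol hrow
  have key := full_limit (FF q1 q2 g) (HH q1 q2 g) (HH q2 q1 (fun s r => g r s)) (C1 + C2)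
    (bb q1 q2 g) (bb q1 q2 g)
    (FF_continuousOn q1 q2 hq1 hq2 g)
    (fun X _ => FF_tendsto_HH q1 q2 g hrow hcol X)
    (fun Y _ => by
      have := FF_tendsto_HH q2 q1 (fun s r => g r s) hcol hrow Y
      refine this.congr ?_
      intro X
      rw [FF_swap q1 q2 g X Y])
    (fun X Y hX hY hYX hY1 => by
      refine (hb1 X Y hX hY hYX hY1).trans ?_
      have : 0 ≤ X / (1 + X ^ 2) := by positivity
      nlinarith)
    (fun X Y hX hY hXY hX1 => by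
      have h := hb2 Y X hY hX hXY hX1
      rw [← FF_swap q1 q2 g X Y, ← FF_swap q1 q2 g (2 * X) (2 * Y)] at h
      refine h.trans ?_
      have : 0 ≤ Y / (1 + Y ^ 2) := by positivity
      nlinarith)
    (HH_continuousOn q1 q2 hq1 g)
    (HH_continuousOn q2 q1 hq2 _)
    (HH_tendsto_zero q1 q2 g) (HH_tendsto_atTop q1 q2 hq1 g h0)
    (by
      have := HH_tendsto_zero q2 q1 (fun s r => g r s)
      rw [bb_swap] at this
      exact this)
    (HH_tendsto_atTop q2 q1 hq2 _ h0')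
  exact key

end Pool.Agent.Lib_helper5
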